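import Pool.Agent.APG.Defs

/-!
# Counting alternating maps with prescribed values
-/

set_option autoImplicit false

open Module

namespace Pool.Agent.APG

variable {p : ℕ} [Fact p.Prime] {V W : Type} [AddCommGroup V] [AddCommGroup W]
  [Module (ZMod p) V] [Module (ZMod p) W]

/-- linear functionals dual to a linearly independent family -/
lemma exists_coord {ι : Type} [Fintype ι] [DecidableEq ι] {w : ι → V}
    (hw : LinearIndependent (ZMod p) w) :
    ∃ φ : V →ₗ[ZMod p] (ι → ZMod p), ∀ i, φ (w i) = Pi.single i 1 := by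
  obtain ⟨g, hg⟩ := (Fintype.linearCombination (ZMod p) w).exists_leftInverse_of_injective
    (LinearMap.ker_eq_bot.2 hw.fintypeLinearCombination_injective)
  refine ⟨g, fun i => ?_⟩
  have h1 := LinearMap.congr_fun hg (Pi.single i 1)
  rw [LinearMap.comp_apply, Fintype.linearCombination_apply_single, one_smul] at h1
  exact h1

/-- ROW R4a -/
theorem exists_alt {ι : Type} [Fintype ι] {w : ι → V} (hw : LinearIndependent (ZMod p) w)
    (τ : ι → ι → W) (h0 : ∀ i, τ i i = 0) (h1 : ∀ i j, τ i j = -τ j i) :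
    ∃ b ∈ Alt p V W, ∀ i j, b (w i) (w j) = τ i j := by
  classical
  obtain ⟨φ, hφ⟩ := exists_coord hw
  let b : V →ₗ[ZMod p] V →ₗ[ZMod p] W :=
    LinearMap.mk₂ (ZMod p) (fun v v' => ∑ i, ∑ j, (φ v i * φ v' j) • τ i j)
      (fun x y z => by
        simp only [map_add, Pi.add_apply, add_mul, add_smul, Finset.sum_add_distrib])
      (fun c x y => by
        simp only [map_smul, Pi.smul_apply, smul_eq_mul, mul_assoc, mul_smul, Finset.smul_sum])
      (fun x y z => by
        simp only [map_add, Pi.add_apply, mul_add, add_smul, Finset.sum_add_distrib])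
      (fun c x y => by
        simp only [map_smul, Pi.smul_apply, smul_eq_mul, mul_left_comm _ c, mul_smul,
          Finset.smul_sum])
  have hb : ∀ v v', b v v' = ∑ i, ∑ j, (φ v i * φ v' j) • τ i j := fun v v' => rfl
  refine ⟨b, fun v => ?_, fun i j => ?_⟩
  · rw [hb, ← Finset.sum_product']
    refine Finset.sum_involution (fun x _ => x.swap) ?_ ?_ ?_ ?_
    · rintro ⟨i, j⟩ _
      show (φ v i * φ v j) • τ i j + (φ v j * φ v i) • τ j i = 0
      rw [h1 i j, mul_comm (φ v j), smul_neg, neg_add_cancel]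
    · rintro ⟨i, j⟩ _ hx he
      apply hx
      have h2 : j = i := congrArg Prod.fst he
      show (φ v i * φ v j) • τ i j = 0
      rw [h2, h0, smul_zero]
    · intro x _
      exact Finset.mem_univ _
    · intro x _
      exact Prod.swap_swap x
  · rw [hb, hφ, hφ]
    simp only [Pi.single_apply, mul_ite, mul_one, mul_zero, ite_smul, one_smul, zero_smul,
      Finset.sum_ite_eq', Finset.mem_univ, if_true]

variable {d m : ℕ}

/-- ROW R4d: the fraction of the alternating maps with prescribed conditions -/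
theorem card_cond [Finite V] [Finite W] {ι : Type} [Fintype ι] [LinearOrder ι] {w : ι → V}
    (hw : LinearIndependent (ZMod p) w) (Z : Finset (ι × ι)) (hZ : ∀ z ∈ Z, z.1 < z.2)
    (W₀ : Submodule (ZMod p) W) (hm : finrank (ZMod p) W = m) :
    Nat.card {b : Alt p V W // ∀ z ∈ Z, b.1 (w z.1) (w z.2) ∈ W₀} *
      p ^ ((m - finrank (ZMod p) W₀) * Z.card) = Nat.card (Alt p V W) := by
  classical
  let ρ : Alt p V W →ₗ[ZMod p] (Z → W ⧸ W₀) := LinearMap.pi fun z =>
    W₀.mkQ ∘ₗ (LinearMap.applyₗ (w z.1.2)) ∘ₗ (LinearMap.applyₗ (w z.1.1)) ∘ₗ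
      (Alt p V W).subtype
  have hρ : ∀ (b : Alt p V W) (z : Z), ρ b z = W₀.mkQ (b.1 (w z.1.1) (w z.1.2)) :=
    fun b z => rfl
  have hsurj : Function.Surjective ρ := by
    intro f
    have hW : ∀ z : Z, ∃ x : W, W₀.mkQ x = f z := fun z => W₀.mkQ_surjective (f z)
    choose g hg using hW
    let τ : ι → ι → W := fun i j => if h : (i, j) ∈ Z then g ⟨(i, j), h⟩ else
      if h : (j, i) ∈ Z then -g ⟨(j, i), h⟩ else 0
    have h0 : ∀ i, τ i i = 0 := by
      intro i
      have h1 : (i, i) ∉ Z := fun h => lt_irrefl _ (hZ _ h)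
      simp only [τ, dif_neg h1]
    have h1 : ∀ i j, τ i j = -τ j i := by
      intro i j
      by_cases h : (i, j) ∈ Z
      · have h2 : (j, i) ∉ Z := fun h' => lt_asymm (hZ _ h) (hZ _ h')
        simp only [τ, dif_pos h, dif_neg h2, neg_neg]
      · by_cases h2 : (j, i) ∈ Z
        · simp only [τ, dif_pos h2, dif_neg h]
        · simp only [τ, dif_neg h2, dif_neg h, neg_zero]
    obtain ⟨b, hb, h2⟩ := exists_alt hw τ h0 h1
    refine ⟨⟨b, hb⟩, ?_⟩
    funext z
    rw [hρ, h2]
    have h3 : τ z.1.1 z.1.2 = g z := by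
      have h4 : (z.1.1, z.1.2) ∈ Z := z.2
      simp only [τ, dif_pos h4]
    rw [h3, hg]
  have hq : Nat.card (W ⧸ W₀) = p ^ (m - finrank (ZMod p) W₀) := by
    rw [Module.natCard_eq_pow_finrank (K := ZMod p) (V := W ⧸ W₀), Nat.card_zmod,
      Submodule.finrank_quotient, hm]
  have hker : Nat.card {b : Alt p V W // ∀ z ∈ Z, b.1 (w z.1) (w z.2) ∈ W₀} =
      Nat.card (LinearMap.ker ρ) := by
    apply Nat.card_congr
    refine Equiv.subtypeEquivRight fun b => ?_
    rw [LinearMap.mem_ker]
    constructor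
    · intro h
      funext z
      rw [hρ]
      exact (Submodule.Quotient.mk_eq_zero W₀).2 (h z.1 z.2)
    · intro h z hz
      have h1 := congrFun h ⟨z, hz⟩
      rw [hρ] at h1
      exact (Submodule.Quotient.mk_eq_zero W₀).1 h1
  have hcard : Nat.card (Z → W ⧸ W₀) = p ^ ((m - finrank (ZMod p) W₀) * Z.card) := by
    rw [Nat.card_fun, hq, ← pow_mul, Nat.card_eq_fintype_card, Fintype.card_coe]
  rw [hker, ← hcard, mul_comm,
    AddSubgroup.card_eq_card_quotient_mul_card_addSubgroup (LinearMap.ker ρ).toAddSubgroup]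
  congr 1
  exact (Nat.card_congr (ρ.quotKerEquivOfSurjective hsurj).toEquiv).symm

lemma card_pairs (d : ℕ) :
    (Finset.univ.filter fun z : Fin d × Fin d => z.1 < z.2).card = d.choose 2 := by
  rw [Finset.card_filter, Fintype.sum_prod_type_right]
  have h1 : ∀ j : Fin d, (∑ i : Fin d, if i < j then 1 else 0) = (j : ℕ) := by
    intro j
    rw [← Finset.card_filter]
    have h2 : (Finset.univ.filter fun i : Fin d => i < j) = Finset.Iio j := by
      ext i
      simp only [Finset.mem_filter, Finset.mem_univ, true_and, Finset.mem_Iio]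
    rw [h2, Fin.card_Iio]
  rw [Finset.sum_congr rfl fun j _ => h1 j, Fin.sum_univ_eq_sum_range (fun j => j) d,
    Finset.sum_range_id, Nat.choose_two_right]

lemma alt_swap {b : V →ₗ[ZMod p] V →ₗ[ZMod p] W} (hb : ∀ v, b v v = 0) (v v' : V) :
    b v v' = -b v' v := by
  have h := hb (v + v')
  simp only [map_add, LinearMap.add_apply, hb, zero_add, add_zero] at h
  exact eq_neg_of_add_eq_zero_right h

/-- ROW R4b -/
theorem card_alt [Finite V] [Finite W] (hd : finrank (ZMod p) V = d)
    (hm : finrank (ZMod p) W = m) : Nat.card (Alt p V W) = p ^ (m * d.choose 2) := by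
  classical
  let e : Basis (Fin d) (ZMod p) V := finBasisOfFinrankEq (ZMod p) V hd
  have h := card_cond (m := m) e.linearIndependent
    (Finset.univ.filter fun z : Fin d × Fin d => z.1 < z.2)
    (fun z hz => (Finset.mem_filter.1 hz).2) (⊥ : Submodule (ZMod p) W) hm
  rw [finrank_bot, Nat.sub_zero, card_pairs] at h
  have h1 : Nat.card {b : Alt p V W // ∀ z ∈ Finset.univ.filter
      (fun z : Fin d × Fin d => z.1 < z.2), b.1 (e z.1) (e z.2) ∈
        (⊥ : Submodule (ZMod p) W)} = 1 := by
    rw [Nat.card_eq_one_iff_unique]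
    refine ⟨⟨?_⟩, ⟨⟨0, fun z _ => rfl⟩⟩⟩
    have h2 : ∀ b : {b : Alt p V W // ∀ z ∈ Finset.univ.filter
        (fun z : Fin d × Fin d => z.1 < z.2), b.1 (e z.1) (e z.2) ∈
          (⊥ : Submodule (ZMod p) W)}, b.1.1 = 0 := by
      rintro ⟨⟨b, hb⟩, h⟩
      refine e.ext fun i => e.ext fun j => ?_
      show b (e i) (e j) = 0
      rcases lt_trichotomy i j with hij | hij | hij
      · exact h (i, j) (Finset.mem_filter.2 ⟨Finset.mem_univ _, hij⟩)
      · rw [hij]
        exact hb _
      · rw [alt_swap hb, neg_eq_zero]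
        exact h (j, i) (Finset.mem_filter.2 ⟨Finset.mem_univ _, hij⟩)
    intro a b
    apply Subtype.ext
    apply Subtype.ext
    rw [h2 a, h2 b]
  rw [h1, one_mul] at h
  exact h.symm

/-- an alternating map is the antisymmetrisation of a bilinear map -/
lemma exists_half [Finite V] {b : V →ₗ[ZMod p] V →ₗ[ZMod p] W} (hb : ∀ v, b v v = 0) :
    ∃ S : V →ₗ[ZMod p] V →ₗ[ZMod p] W, ∀ v v', b v v' = S v v' - S v' v := by
  classical
  let e := finBasis (ZMod p) V
  let S : V →ₗ[ZMod p] V →ₗ[ZMod p] W := e.constr (ZMod p) fun i => e.constr (ZMod p) fun j =>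
    if i < j then b (e i) (e j) else 0
  have hS : ∀ i j, S (e i) (e j) = if i < j then b (e i) (e j) else 0 := by
    intro i j
    simp only [S, Basis.constr_basis]
  refine ⟨S, fun v v' => ?_⟩
  have h1 : b = S - S.flip := by
    refine e.ext fun i => e.ext fun j => ?_
    rw [LinearMap.sub_apply, LinearMap.sub_apply, LinearMap.flip_apply, hS, hS]
    rcases lt_trichotomy i j with hij | hij | hij
    · rw [if_pos hij, if_neg (lt_asymm hij), sub_zero]
    · rw [hij, if_neg (lt_irrefl _), hb, sub_zero]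
    · rw [if_neg (lt_asymm hij), if_pos hij, zero_sub]
      exact alt_swap hb _ _
  conv_lhs => rw [h1]
  rw [LinearMap.sub_apply, LinearMap.sub_apply, LinearMap.flip_apply]

/-- there is a `p`-th power map for every alternating map -/
lemma exists_pw [Finite V] {b : V →ₗ[ZMod p] V →ₗ[ZMod p] W} (hb : ∀ v, b v v = 0) :
    ∃ F : V → W, ∀ v v', F (v + v') = F v + F v' + (p.choose 2) • b v v' := by
  obtain ⟨S, hS⟩ := exists_half hb
  refine ⟨fun v => (p.choose 2) • S v v, fun v v' => ?_⟩
  have h2 : (p.choose 2) • S v' v + (p.choose 2) • S v' v = 0 := by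
    rw [← add_smul, ← two_mul]
    have h3 : 2 * p.choose 2 = (p - 1) * p := by
      rw [Nat.choose_two_right, mul_comm 2, Nat.div_mul_cancel]
      · exact mul_comm _ _
      · exact (Nat.even_mul_pred_self p).two_dvd
    rw [h3, mul_smul, ← Nat.cast_smul_eq_nsmul (ZMod p) p (S v' v), CharP.cast_eq_zero, zero_smul,
      smul_zero]
  show (p.choose 2) • S (v + v') (v + v') = (p.choose 2) • S v v + (p.choose 2) • S v' v' +
    (p.choose 2) • b v v'
  rw [hS]
  simp only [map_add, LinearMap.add_apply, smul_sub, smul_add]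
  have h4 : (p.choose 2) • S v' v = -((p.choose 2) • S v' v) := eq_neg_of_add_eq_zero_left h2
  rw [sub_eq_add_neg, ← h4]
  abel

/-- ROW R4c -/
theorem card_dat [Finite V] [Finite W] (hd : finrank (ZMod p) V = d)
    (hm : finrank (ZMod p) W = m) (Q : (V →ₗ[ZMod p] V →ₗ[ZMod p] W) → Prop) :
    Nat.card {q : Dat p V W // Q q.be} = Nat.card {b : Alt p V W // Q b} * p ^ (m * d) := by
  have h1 : ∀ b : Alt p V W, ∃ F : V → W, ∀ v v', F (v + v') = F v + F v' +
      (p.choose 2) • b.1 v v' := fun b => exists_pw b.2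
  choose F hF using h1
  let φ : {q : Dat p V W // Q q.be} ≃ {b : Alt p V W // Q b} × (V →ₗ[ZMod p] W) :=
    { toFun := fun q => (⟨⟨q.1.be, q.1.alt⟩, q.2⟩, AddMonoidHom.toZModLinearMap p
        (AddMonoidHom.mk' (fun v => q.1.pw v - F ⟨q.1.be, q.1.alt⟩ v) fun v v' => by
          rw [q.1.pw_add, hF]
          abel))
      invFun := fun x => ⟨⟨x.1.1.1, x.1.1.2, fun v => F x.1.1 v + x.2 v, fun v v' => by
        rw [hF, map_add]
        abel⟩, x.1.2⟩
      left_inv := by
        rintro ⟨q, hq⟩
        apply Subtype.ext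
        apply Dat.ext
        · rfl
        · funext v
          exact add_sub_cancel _ _
      right_inv := by
        rintro ⟨⟨b, hb⟩, g⟩
        refine Prod.ext rfl ?_
        apply LinearMap.ext
        intro v
        exact add_sub_cancel_left _ _ }
  rw [Nat.card_congr φ, Nat.card_prod]
  congr 1
  rw [Module.natCard_eq_pow_finrank (K := ZMod p) (V := V →ₗ[ZMod p] W), Nat.card_zmod,
    Module.finrank_linearMap, hd, hm, mul_comm]

end Pool.Agent.APG
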