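import Pool.Agent.APG.Defs
import Pool.Agent.Helper19.PCP

/-!
# Theorem B: the model group of exponent `p` and the lower bound `(p + 3) / 2 ≤ T (P × P)`
-/

set_option autoImplicit false

open Module

namespace Pool.Agent.APG

variable {p : ℕ} [Fact p.Prime] {V W : Type} [AddCommGroup V] [AddCommGroup W]
  [Module (ZMod p) V] [Module (ZMod p) W]

/-- the model group: pairs with `(v, w) (v', w') = (v + v', w + w' + be(v, v') / 2)` -/
@[ext] structure BGrp (q : Dat p V W) where
  /-- the first component -/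
  v : V
  /-- the second component -/
  w : W

namespace BGrp

variable {q : Dat p V W}

instance : Mul (BGrp q) := ⟨fun x y => ⟨x.v + y.v, x.w + y.w + (2⁻¹ : ZMod p) • q.be x.v y.v⟩⟩
instance : One (BGrp q) := ⟨⟨0, 0⟩⟩
instance : Inv (BGrp q) := ⟨fun x => ⟨-x.v, -x.w⟩⟩

lemma mul_v (x y : BGrp q) : (x * y).v = x.v + y.v := rfl
lemma mul_w (x y : BGrp q) : (x * y).w = x.w + y.w + (2⁻¹ : ZMod p) • q.be x.v y.v := rfl
lemma one_v : (1 : BGrp q).v = 0 := rfl
lemma one_w : (1 : BGrp q).w = 0 := rfl
lemma inv_v (x : BGrp q) : (x⁻¹).v = -x.v := rfl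
lemma inv_w (x : BGrp q) : (x⁻¹).w = -x.w := rfl

instance : Group (BGrp q) := Group.ofLeftAxioms
  (by
    intro x y z
    apply BGrp.ext
    · rw [mul_v, mul_v, mul_v, mul_v, add_assoc]
    · rw [mul_w, mul_w, mul_w, mul_w, mul_v, mul_v, map_add, map_add, LinearMap.add_apply,
        smul_add, smul_add]
      abel)
  (by
    intro x
    apply BGrp.ext
    · rw [mul_v, one_v, zero_add]
    · rw [mul_w, one_v, one_w, map_zero, LinearMap.zero_apply, smul_zero, zero_add, add_zero])
  (by
    intro x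
    apply BGrp.ext
    · rw [mul_v, inv_v, one_v, neg_add_cancel]
    · rw [mul_w, inv_v, inv_w, one_w, map_neg, LinearMap.neg_apply, q.alt, neg_zero, smul_zero,
        add_zero, neg_add_cancel])

lemma pow_eq (x : BGrp q) (k : ℕ) : x ^ k = ⟨k • x.v, k • x.w⟩ := by
  induction k with
  | zero =>
    rw [pow_zero, zero_smul, zero_smul]
    rfl
  | succ k ih =>
    rw [pow_succ, ih]
    apply BGrp.ext
    · change k • x.v + x.v = (k + 1) • x.v
      rw [succ_nsmul]
    · change k • x.w + x.w + (2⁻¹ : ZMod p) • q.be (k • x.v) x.v = (k + 1) • x.w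
      rw [succ_nsmul, map_nsmul, LinearMap.smul_apply, q.alt, smul_zero, smul_zero, add_zero]

lemma nsmul_p {E : Type} [AddCommGroup E] [Module (ZMod p) E] (e : E) : p • e = 0 := by
  rw [← Nat.cast_smul_eq_nsmul (ZMod p), CharP.cast_eq_zero, zero_smul]

/-- the multiplication by `lam` on `V` and by `lam ^ 2` on `W` -/
def sc (q : Dat p V W) (lam : ZMod p) : BGrp q →* BGrp q where
  toFun x := ⟨lam • x.v, (lam ^ 2) • x.w⟩
  map_one' := by
    apply BGrp.ext
    · change lam • (0 : V) = 0
      rw [smul_zero]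
    · change (lam ^ 2) • (0 : W) = 0
      rw [smul_zero]
  map_mul' x y := by
    apply BGrp.ext
    · change lam • (x.v + y.v) = lam • x.v + lam • y.v
      rw [smul_add]
    · change (lam ^ 2) • (x.w + y.w + (2⁻¹ : ZMod p) • q.be x.v y.v) =
        (lam ^ 2) • x.w + (lam ^ 2) • y.w + (2⁻¹ : ZMod p) • q.be (lam • x.v) (lam • y.v)
      rw [map_smul, map_smul, LinearMap.smul_apply, smul_add, smul_add, smul_smul, smul_smul,
        smul_smul]
      congr 2
      ring

lemma sc_v (lam : ZMod p) (x : BGrp q) : (sc q lam x).v = lam • x.v := rfl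
lemma sc_w (lam : ZMod p) (x : BGrp q) : (sc q lam x).w = (lam ^ 2) • x.w := rfl

/-- two such maps agree only at `1` -/
lemma sc_agree {lam mu : ZMod p} (h1 : lam ≠ mu) (h2 : lam ^ 2 ≠ mu ^ 2) {x : BGrp q}
    (h : sc q lam x = sc q mu x) : x = 1 := by
  have hv : lam • x.v = mu • x.v := congrArg BGrp.v h
  have hw : (lam ^ 2) • x.w = (mu ^ 2) • x.w := congrArg BGrp.w h
  apply BGrp.ext
  · rw [one_v]
    by_contra h0
    rw [← sub_eq_zero, ← sub_smul, smul_eq_zero] at hv
    rcases hv with hv | hv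
    · exact h1 (sub_eq_zero.1 hv)
    · exact h0 hv
  · rw [one_w]
    by_contra h0
    rw [← sub_eq_zero, ← sub_smul, smul_eq_zero] at hw
    rcases hw with hw | hw
    · exact h2 (sub_eq_zero.1 hw)
    · exact h0 hw

/-- the model group is an extension with the data `q` -/
def toExt (hp : p ≠ 2) (hq : ∀ v, q.pw v = 0) : Ext q (BGrp q) where
  pr :=
    { toFun := fun x => Multiplicative.ofAdd x.v
      map_one' := rfl
      map_mul' := fun x y => rfl }
  inc :=
    { toFun := fun w => ⟨0, w.toAdd⟩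
      map_one' := rfl
      map_mul' := fun x y => by
        apply BGrp.ext
        · rw [mul_v, add_zero]
        · rw [mul_w, map_zero, smul_zero, add_zero]
          rfl }
  surj := fun v => ⟨⟨v.toAdd, 0⟩, rfl⟩
  inj := fun x y h => congrArg BGrp.w h
  exact := by
    ext x
    rw [MonoidHom.mem_ker, MonoidHom.mem_range]
    constructor
    · intro h
      refine ⟨Multiplicative.ofAdd x.w, ?_⟩
      apply BGrp.ext
      · exact (show (0 : V) = x.v from (Multiplicative.ofAdd.injective h).symm)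
      · rfl
    · rintro ⟨w, rfl⟩
      rfl
  comm := fun x y => by
    have h2 : (2 : ZMod p) ≠ 0 := by
      intro h
      have h3 : ((2 : ℕ) : ZMod p) = 0 := by exact_mod_cast h
      rw [ZMod.natCast_eq_zero_iff] at h3
      exact hp ((Nat.prime_dvd_prime_iff_eq Fact.out Nat.prime_two).1 h3)
    have h4 : (2⁻¹ : ZMod p) + 2⁻¹ = 1 := by
      rw [← two_mul, mul_inv_cancel₀ h2]
    have h5 : q.be y.v x.v = - q.be x.v y.v := by
      have h6 := q.alt (x.v + y.v)
      rw [map_add, map_add, LinearMap.add_apply, LinearMap.add_apply, q.alt, q.alt, zero_add,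
        add_zero] at h6
      exact eq_neg_of_add_eq_zero_left h6
    apply BGrp.ext
    · change x.v + y.v + -x.v + -y.v = 0
      abel
    · change x.w + y.w + (2⁻¹ : ZMod p) • q.be x.v y.v + -x.w +
        (2⁻¹ : ZMod p) • q.be (x.v + y.v) (-x.v) + -y.w +
        (2⁻¹ : ZMod p) • q.be (x.v + y.v + -x.v) (-y.v) = q.be x.v y.v
      have e1 : q.be (x.v + y.v) (-x.v) = q.be x.v y.v := by
        rw [map_neg, map_add, LinearMap.add_apply, q.alt, zero_add, h5, neg_neg]
      have e2 : q.be (x.v + y.v + -x.v) (-y.v) = 0 := by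
        rw [map_neg, show x.v + y.v + -x.v = y.v by abel, q.alt, neg_zero]
      rw [e1, e2, smul_zero]
      have e3 : q.be x.v y.v = (2⁻¹ : ZMod p) • q.be x.v y.v + (2⁻¹ : ZMod p) • q.be x.v y.v := by
        rw [← add_smul, h4, one_smul]
      conv_rhs => rw [e3]
      abel
  pow := fun x => by
    rw [pow_eq]
    apply BGrp.ext
    · exact nsmul_p x.v
    · change p • x.w = q.pw x.v
      rw [nsmul_p, hq]

end BGrp

open Pool.Agent.Helper19.PCP

/-- the lower bound for a group isomorphic to the model -/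
theorem lowerB [Finite V] [Finite W] (q : Dat p V W) (hp : p ≠ 2) (P : Type) [Group P]
    [Finite P] [Nontrivial P] (e : P ≃* BGrp q) : (p + 3) / 2 ≤ T (P × P) := by
  classical
  let f : Option (Fin ((p - 1) / 2)) → (P →* P) := fun o => match o with
    | none => 1
    | some i => e.symm.toMonoidHom.comp
        ((BGrp.sc q (((i.1 + 1 : ℕ)) : ZMod p)).comp e.toMonoidHom)
  have hf : ∀ i j, i ≠ j → ∀ x, f i x = f j x → x = 1 := by
    have hp1 : 1 < p := (Fact.out : p.Prime).one_lt
    have hne : ∀ i : Fin ((p - 1) / 2), ((i.1 + 1 : ℕ) : ZMod p) ≠ 0 := by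
      intro i h
      rw [ZMod.natCast_eq_zero_iff] at h
      have := Nat.le_of_dvd (by omega) h
      have := i.2
      omega
    have key : ∀ i j : Fin ((p - 1) / 2), i ≠ j →
        ((i.1 + 1 : ℕ) : ZMod p) ≠ ((j.1 + 1 : ℕ) : ZMod p) ∧
        ((i.1 + 1 : ℕ) : ZMod p) ^ 2 ≠ ((j.1 + 1 : ℕ) : ZMod p) ^ 2 := by
      intro i j hij
      have h1 : ((i.1 + 1 : ℕ) : ZMod p) ≠ ((j.1 + 1 : ℕ) : ZMod p) := by
        intro h
        rw [ZMod.natCast_eq_natCast_iff'] at h
        have hi := i.2
        have hj := j.2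
        rw [Nat.mod_eq_of_lt (by omega), Nat.mod_eq_of_lt (by omega)] at h
        exact hij (Fin.ext (by omega))
      refine ⟨h1, fun h => ?_⟩
      rw [sq_eq_sq_iff_eq_or_eq_neg] at h
      rcases h with h | h
      · exact h1 h
      · have h3 : ((i.1 + 1 + (j.1 + 1) : ℕ) : ZMod p) = 0 := by
          rw [Nat.cast_add, h, neg_add_cancel]
        rw [ZMod.natCast_eq_zero_iff] at h3
        have h4 := Nat.le_of_dvd (by omega) h3
        have hi := i.2
        have hj := j.2
        omega
    have hz : ∀ (i : Fin ((p - 1) / 2)) (x : P), 1 = f (some i) x → x = 1 := by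
      intro i x h
      have h1 : BGrp.sc q ((i.1 + 1 : ℕ) : ZMod p) (e x) = 1 := by
        have h2 : e.symm (BGrp.sc q ((i.1 + 1 : ℕ) : ZMod p) (e x)) = 1 := h.symm
        rwa [MulEquiv.map_eq_one_iff] at h2
      have h3 : e x = 1 := by
        apply BGrp.ext
        · have h4 : ((i.1 + 1 : ℕ) : ZMod p) • (e x).v = 0 := congrArg BGrp.v h1
          rw [smul_eq_zero] at h4
          exact h4.resolve_left (hne i)
        · have h4 : (((i.1 + 1 : ℕ) : ZMod p) ^ 2) • (e x).w = 0 := congrArg BGrp.w h1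
          rw [smul_eq_zero] at h4
          exact h4.resolve_left (pow_ne_zero _ (hne i))
      rwa [MulEquiv.map_eq_one_iff] at h3
    intro i j hij x hx
    rcases i with _ | i <;> rcases j with _ | j
    · exact absurd rfl hij
    · exact hz j x hx
    · exact hz i x hx.symm
    · have hij' : i ≠ j := fun h => hij (by rw [h])
      obtain ⟨h1, h2⟩ := key i j hij'
      have h3 : BGrp.sc q ((i.1 + 1 : ℕ) : ZMod p) (e x) =
          BGrp.sc q ((j.1 + 1 : ℕ) : ZMod p) (e x) := e.symm.injective hx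
      have h4 := BGrp.sc_agree h1 h2 h3
      rwa [MulEquiv.map_eq_one_iff] at h4
  have h := card_add_one_le_T f hf
  rw [Fintype.card_option, Fintype.card_fin] at h
  have hp1 : p % 2 = 1 := ((Fact.out : p.Prime).eq_two_or_odd).resolve_left hp
  omega

end Pool.Agent.APG
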