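import Pool.Agent.APG.Defs

/-!
# Finiteness, and the invariance of the conditions
-/

set_option autoImplicit false

open Module

namespace Pool.Agent.APG

variable {p : ℕ} {V W : Type} [AddCommGroup V] [AddCommGroup W] [Module (ZMod p) V]
  [Module (ZMod p) W]

instance finite_linearMap {k E F : Type} [Semiring k] [AddCommMonoid E] [AddCommMonoid F]
    [Module k E] [Module k F] [Finite E] [Finite F] : Finite (E →ₗ[k] F) :=
  Finite.of_injective (fun f : E →ₗ[k] F => (f : E → F)) DFunLike.coe_injective

instance finite_linearEquiv {k E F : Type} [Semiring k] [AddCommMonoid E] [AddCommMonoid F]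
    [Module k E] [Module k F] [Finite E] [Finite F] : Finite (E ≃ₗ[k] F) :=
  Finite.of_injective (fun f : E ≃ₗ[k] F => (f : E → F)) DFunLike.coe_injective

instance finite_dat [Finite V] [Finite W] : Finite (Dat p V W) := by
  refine Finite.of_injective
    (fun q : Dat p V W => ((q.be, q.pw) : (V →ₗ[ZMod p] V →ₗ[ZMod p] W) × (V → W))) ?_
  intro q q' h
  exact Dat.ext (congrArg Prod.fst h) (congrArg Prod.snd h)

lemma map₂_smul (γ : Gam p V W) (q : Dat p V W) (A C : Submodule (ZMod p) V) :
    Submodule.map₂ (γ • q).be A C = (Submodule.map₂ q.be (A.map γ.1.symm.toLinearMap)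
      (C.map γ.1.symm.toLinearMap)).map γ.2.toLinearMap := by
  apply le_antisymm
  · rw [Submodule.map₂_le]
    intro a ha c hc
    rw [smul_be]
    exact Submodule.mem_map_of_mem (Submodule.apply_mem_map₂ _ (Submodule.mem_map_of_mem ha)
      (Submodule.mem_map_of_mem hc))
  · rw [Submodule.map_le_iff_le_comap, Submodule.map₂_le]
    rintro _ ⟨a, ha, rfl⟩ _ ⟨c, hc, rfl⟩
    exact Submodule.apply_mem_map₂ (γ • q).be ha hc

lemma finrank_map_equiv {k E F : Type} [Field k] [AddCommGroup E] [AddCommGroup F] [Module k E]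
    [Module k F] (f : E ≃ₗ[k] F) (A : Submodule k E) :
    finrank k (A.map f.toLinearMap) = finrank k A :=
  LinearEquiv.finrank_map_eq f A

lemma map_bot_of {k E F : Type} [Semiring k] [AddCommMonoid E] [AddCommMonoid F] [Module k E]
    [Module k F] (f : E ≃ₗ[k] F) {A : Submodule k E} (h : A.map f.toLinearMap = ⊥) : A = ⊥ := by
  rw [eq_bot_iff]
  intro a ha
  have h1 : f a ∈ A.map f.toLinearMap := Submodule.mem_map_of_mem ha
  rw [h, Submodule.mem_bot] at h1
  rw [Submodule.mem_bot]
  exact f.map_eq_zero_iff.mp h1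

/-- the conditions imply that the values generate `W` -/
theorem full_of_genCond {q : Dat p V W} {h : ℕ} (hq : GenCond q.be h) : q.Full := by
  have h1 := hq.2.1 ⊤ (by rw [finrank_top]; omega)
  rw [Dat.Full, eq_top_iff, ← h1, Submodule.map₂_le]
  intro a _ c _
  exact Submodule.subset_span (Or.inl ⟨a, c, rfl⟩)

variable [Fact p.Prime]

/-- the conditions are invariant -/
theorem genCond_smul (γ : Gam p V W) (q : Dat p V W) (h : ℕ) (hq : GenCond q.be h) :
    GenCond (γ • q).be h := by
  obtain ⟨hH, hN, hI⟩ := hq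
  refine ⟨?_, ?_, ?_⟩
  · intro A C hA hC
    rw [map₂_smul, finrank_map_equiv]
    apply hH
    · rwa [finrank_map_equiv]
    · rwa [finrank_map_equiv]
  · intro C hC
    rw [map₂_smul, hN]
    · rw [Submodule.map_top]
      exact LinearMap.range_eq_top.mpr γ.2.surjective
    · rwa [finrank_map_equiv]
  · intro A C hA hA1 hC
    rw [map₂_smul]
    intro h0
    refine hI (A.map γ.1.symm.toLinearMap) (C.map γ.1.symm.toLinearMap) ?_ ?_ ?_
      (map_bot_of γ.2 h0)
    · intro h1
      exact hA (map_bot_of γ.1.symm h1)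
    · rwa [finrank_map_equiv]
    · rwa [finrank_map_equiv, finrank_map_equiv]

/-- the complement of the conditions is invariant -/
theorem not_genCond_smul (γ : Gam p V W) (q : Dat p V W) (h : ℕ) (hq : ¬ GenCond q.be h) :
    ¬ GenCond (γ • q).be h := by
  intro h1
  apply hq
  have h2 := genCond_smul γ⁻¹ (γ • q) h h1
  rwa [inv_smul_smul] at h2

end Pool.Agent.APG
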