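import Pool.Agent.APG.Defs

/-!
# Tools for the counting rows: union bound, independent families, kernels and ranges
-/

set_option autoImplicit false

open Module

namespace Pool.Agent.APG

/-- the union bound -/
theorem union_bound {B I : Type} [Finite B] [Finite I] (Q : B → Prop) (R : I → B → Prop)
    (h : ∀ b, Q b → ∃ i, R i b) (e N : ℕ) (hR : ∀ i, Nat.card {b // R i b} * e ≤ N) :
    Nat.card {b // Q b} * e ≤ Nat.card I * N := by
  classical
  have : Fintype I := Fintype.ofFinite I
  choose f hf using h
  have h1 : Nat.card {b // Q b} ≤ Nat.card (Σ i : I, {b // R i b}) := by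
    apply Nat.card_le_card_of_injective
      (fun b : {b // Q b} => (⟨f b.1 b.2, ⟨b.1, hf b.1 b.2⟩⟩ : Σ i : I, {b // R i b}))
    rintro ⟨b, hb⟩ ⟨b', hb'⟩ hbb
    simp only [Sigma.mk.injEq] at hbb
    obtain ⟨h2, h3⟩ := hbb
    apply Subtype.ext
    have h4 : ∀ (i j : I) (x : {b // R i b}) (y : {b // R j b}), i = j → HEq x y → x.1 = y.1 := by
      intro i j x y hij hxy
      subst hij
      rw [eq_of_heq hxy]
    exact h4 _ _ _ _ h2 h3
  rw [Nat.card_sigma] at h1
  calc Nat.card {b // Q b} * e ≤ (∑ i : I, Nat.card {b // R i b}) * e := Nat.mul_le_mul_right _ h1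
    _ = ∑ i : I, Nat.card {b // R i b} * e := Finset.sum_mul _ _ _
    _ ≤ ∑ _i : I, N := Finset.sum_le_sum fun i _ => hR i
    _ = Nat.card I * N := by simp

section

variable {K V W : Type} [Field K] [AddCommGroup V] [Module K V] [FiniteDimensional K V]
  [AddCommGroup W] [Module K W] [FiniteDimensional K W]

/-- an independent family of size `n` in a subspace of dimension at least `n` -/
theorem exists_indep_in (C : Submodule K V) {n : ℕ} (hC : n ≤ finrank K C) :
    ∃ v : Fin n → V, (∀ j, v j ∈ C) ∧ LinearIndependent K v := by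
  let b := finBasis K C
  refine ⟨fun j => (b (Fin.castLE hC j) : V), fun j => (b _).2, ?_⟩
  have h1 : LinearIndependent K (fun j : Fin (finrank K C) => (b j : V)) :=
    b.linearIndependent.map' C.subtype (Submodule.ker_subtype C)
  exact h1.comp _ (Fin.castLE_injective hC)

/-- extension of an independent family inside a large subspace -/
theorem exists_indep_append {a c : ℕ} {u : Fin a → V} (hu : LinearIndependent K u)
    (C : Submodule K V) (hC : a + c ≤ finrank K C) :
    ∃ v : Fin c → V, (∀ j, v j ∈ C) ∧ LinearIndependent K (Fin.append u v) := by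
  set A : Submodule K V := Submodule.span K (Set.range u) with hA
  have hAdim : finrank K A = a := by
    rw [hA, finrank_span_eq_card hu, Fintype.card_fin]
  obtain ⟨D, hD⟩ := Submodule.exists_isCompl (Submodule.comap C.subtype A)
  -- `D` is a complement of `A ∩ C` in `C`
  have h1 := Submodule.finrank_add_eq_of_isCompl hD
  have h2 : finrank K (Submodule.comap C.subtype A) ≤ a := by
    rw [← hAdim, ← Submodule.finrank_map_subtype_eq C (Submodule.comap C.subtype A)]
    exact Submodule.finrank_mono (Submodule.map_comap_le _ _)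
  obtain ⟨v, hv, hvi⟩ := exists_indep_in D (n := c) (by omega)
  refine ⟨fun j => (v j : V), fun j => (v j).2, ?_⟩
  have hvi' : LinearIndependent K (fun j => (v j : V)) :=
    hvi.map' C.subtype (Submodule.ker_subtype C)
  have hdisj : Disjoint (Submodule.span K (Set.range u))
      (Submodule.span K (Set.range fun j => (v j : V))) := by
    rw [Submodule.disjoint_def]
    intro x hx hx'
    have h3 : Submodule.span K (Set.range fun j => (v j : V)) ≤ Submodule.map C.subtype D := by
      rw [Submodule.span_le]
      rintro _ ⟨j, rfl⟩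
      exact Submodule.mem_map_of_mem (hv j)
    obtain ⟨y, hy, rfl⟩ := h3 hx'
    have hyc : y ∈ Submodule.comap C.subtype A := hx
    have := (Submodule.disjoint_def.mp hD.disjoint) y hyc hy
    rw [this, map_zero]
  have h4 : LinearIndependent K (Sum.elim u (fun j => (v j : V))) := hu.sum_type hvi' hdisj
  rw [← linearIndependent_equiv finSumFinEquiv]
  have h5 : Fin.append u (fun j => (v j : V)) ∘ finSumFinEquiv =
      Sum.elim u (fun j => (v j : V)) := by
    funext x
    rcases x with x | x <;> simp
  rw [h5]
  exact h4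

/-- a subspace of small codimension is a kernel -/
theorem exists_ker_eq (C : Submodule K V) {h : ℕ} (hC : finrank K V ≤ finrank K C + h) :
    ∃ L : V →ₗ[K] (Fin h → K), LinearMap.ker L = C := by
  have h1 : finrank K (V ⧸ C) ≤ h := by
    have := Submodule.finrank_quotient_add_finrank C
    omega
  obtain ⟨i, hi⟩ : ∃ i : (V ⧸ C) →ₗ[K] (Fin h → K), Function.Injective i :=
    finrank_le_iff_exists_linearMap.mp (by simpa using h1)
  refine ⟨i ∘ₗ C.mkQ, ?_⟩
  rw [LinearMap.ker_comp_of_ker_eq_bot _ (LinearMap.ker_eq_bot.mpr hi), Submodule.ker_mkQ]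

/-- every subspace is the range of an endomorphism -/
theorem exists_range_eq (W₀ : Submodule K W) : ∃ t : W →ₗ[K] W, LinearMap.range t = W₀ := by
  obtain ⟨g, hg⟩ := LinearMap.exists_leftInverse_of_injective W₀.subtype (Submodule.ker_subtype W₀)
  refine ⟨W₀.subtype ∘ₗ g, ?_⟩
  have hs : Function.Surjective g := fun x => ⟨W₀.subtype x, LinearMap.congr_fun hg x⟩
  rw [LinearMap.range_comp_of_range_eq_top _ (LinearMap.range_eq_top.mpr hs), Submodule.range_subtype]

/-- a proper subspace is killed by a nonzero functional -/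
theorem exists_functional {W₀ : Submodule K W} (h : W₀ ≠ ⊤) :
    ∃ f : W →ₗ[K] K, f ≠ 0 ∧ W₀ ≤ LinearMap.ker f :=
  Submodule.exists_le_ker_of_lt_top W₀ (lt_top_iff_ne_top.mpr h)

end

section

variable {p : ℕ} [Fact p.Prime] {V W : Type} [AddCommGroup V] [AddCommGroup W]
  [Module (ZMod p) V] [Module (ZMod p) W] [Finite V] [Finite W]

theorem card_fun_p {d : ℕ} (hd : finrank (ZMod p) V = d) (a : ℕ) :
    Nat.card (Fin a → V) = p ^ (a * d) := by
  rw [Nat.card_fun, Module.natCard_eq_pow_finrank (K := ZMod p) (V := V), hd, Nat.card_zmod,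
    Nat.card_fin, ← pow_mul, mul_comm]

theorem card_lin_p {d m : ℕ} (hd : finrank (ZMod p) V = d) (hm : finrank (ZMod p) W = m) :
    Nat.card (V →ₗ[ZMod p] W) = p ^ (d * m) := by
  rw [Module.natCard_eq_pow_finrank (K := ZMod p) (V := V →ₗ[ZMod p] W), Module.finrank_linearMap,
    hd, hm, Nat.card_zmod]

instance finite_lin_p : Finite (V →ₗ[ZMod p] W) := Module.finite_of_finite (ZMod p)

end

end Pool.Agent.APG
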