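import Pool.Agent.APG.CntBase44
import Pool.Agent.APG.Alt

/-!
# Counting the alternating maps that violate (H), (N), (I)
-/

set_option autoImplicit false

open Module

namespace Pool.Agent.APG

section Count
variable {p : ℕ} [Fact p.Prime] {V W : Type} [AddCommGroup V] [AddCommGroup W]
  [Module (ZMod p) V] [Module (ZMod p) W] [Finite V] [Finite W] {d m : ℕ}

/-- the pairs `(i, a + j)` -/
def rectZ (a c : ℕ) : Finset (Fin (a + c) × Fin (a + c)) :=
  Finset.univ.image fun q : Fin a × Fin c => (Fin.castAdd c q.1, Fin.natAdd a q.2)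

theorem rectZ_card (a c : ℕ) : (rectZ a c).card = a * c := by
  rw [rectZ, Finset.card_image_of_injective, Finset.card_univ, Fintype.card_prod, Fintype.card_fin,
    Fintype.card_fin]
  rintro ⟨i, j⟩ ⟨i', j'⟩ h
  simp only [Prod.mk.injEq] at h
  rw [Fin.castAdd_injective _ _ h.1, Fin.natAdd_injective _ _ h.2]

theorem rectZ_lt (a c : ℕ) : ∀ z ∈ rectZ a c, z.1 < z.2 := by
  intro z hz
  rw [rectZ, Finset.mem_image] at hz
  obtain ⟨⟨i, j⟩, -, rfl⟩ := hz
  rw [Fin.lt_def]
  simp only [Fin.val_castAdd, Fin.val_natAdd]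
  omega

/-- the pairs `i < j` -/
def triZ (n : ℕ) : Finset (Fin n × Fin n) := Finset.univ.filter fun z => z.1 < z.2

theorem triZ_card (n : ℕ) : (triZ n).card = n.choose 2 := by
  rw [triZ, Finset.card_filter, Fintype.sum_prod_type_right]
  have h1 : ∀ j : Fin n, (∑ i : Fin n, if i < j then 1 else 0) = (j : ℕ) := by
    intro j
    rw [← Finset.card_filter]
    have : (Finset.univ.filter fun x : Fin n => x < j) = Finset.Iio j := by ext x; simp
    rw [this, Fin.card_Iio]
  rw [Finset.sum_congr rfl fun j _ => h1 j, Fin.sum_univ_eq_sum_range (fun i => i) n,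
    Finset.sum_range_id, Nat.choose_two_right]

theorem triZ_lt (n : ℕ) : ∀ z ∈ triZ n, z.1 < z.2 := by
  intro z hz
  rw [triZ, Finset.mem_filter] at hz
  exact hz.2

/-- ROW R5c -/
theorem card_not_I (hd : finrank (ZMod p) V = d) (hm : finrank (ZMod p) W = m) (a : ℕ)
    (ha : 1 ≤ a) : Nat.card {b : Alt p V W // ∃ A C : Submodule (ZMod p) V,
      finrank (ZMod p) A = a ∧ d ≤ finrank (ZMod p) C + a ∧ Submodule.map₂ b.1 A C = ⊥} *
        p ^ (m * (a * (d - 2 * a))) ≤ p ^ (2 * a * d) * Nat.card (Alt p V W) := by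
  have hfin : Finite (Alt p V W) := inferInstance
  have hI : Nat.card ((Fin a → V) × (V →ₗ[ZMod p] (Fin a → ZMod p))) = p ^ (2 * a * d) := by
    rw [Nat.card_prod, card_fun_p hd, card_lin_p hd (m := a) (by simp), ← pow_add]
    congr 1
    ring
  rw [← hI]
  apply union_bound _ (fun (i : (Fin a → V) × (V →ₗ[ZMod p] (Fin a → ZMod p)))
    (b : Alt p V W) => LinearIndependent (ZMod p) i.1 ∧
      ∀ j, ∀ y ∈ LinearMap.ker i.2, b.1 (i.1 j) y = 0)
  · rintro b ⟨A, C, hA, hC, hAC⟩
    obtain ⟨u, huA, hu⟩ := exists_indep_in A (n := a) hA.ge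
    obtain ⟨L, hL⟩ := exists_ker_eq C (h := a) (by rw [hd]; exact hC)
    refine ⟨(u, L), hu, ?_⟩
    intro j y hy
    rw [hL] at hy
    have h1 : b.1 (u j) y ∈ Submodule.map₂ b.1 A C := Submodule.apply_mem_map₂ _ (huA j) hy
    rw [hAC] at h1
    simpa using h1
  · rintro ⟨u, L⟩
    by_cases hu : LinearIndependent (ZMod p) u
    swap
    · have : IsEmpty {b : Alt p V W // LinearIndependent (ZMod p) u ∧
          ∀ j, ∀ y ∈ LinearMap.ker L, b.1 (u j) y = 0} := ⟨fun b => hu b.2.1⟩
      rw [Nat.card_of_isEmpty, zero_mul]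
      exact Nat.zero_le _
    by_cases h2 : 2 * a ≤ d
    swap
    · have h0 : d - 2 * a = 0 := by omega
      rw [h0, mul_zero, mul_zero, pow_zero, mul_one]
      exact Nat.card_le_card_of_injective _ Subtype.val_injective
    have hker : a + (d - 2 * a) ≤ finrank (ZMod p) (LinearMap.ker L) := by
      have h3 := LinearMap.finrank_range_add_finrank_ker L
      have h4 : finrank (ZMod p) (LinearMap.range L) ≤ a := by
        refine (Submodule.finrank_le _).trans ?_
        simp
      rw [hd] at h3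
      omega
    obtain ⟨v, hv, hw⟩ := exists_indep_append hu (LinearMap.ker L) hker
    have h5 := card_cond (W := W) hw (rectZ a (d - 2 * a)) (rectZ_lt _ _) ⊥ hm
    rw [finrank_bot, Nat.sub_zero, rectZ_card] at h5
    rw [← h5]
    apply Nat.mul_le_mul_right
    apply Nat.card_le_card_of_injective (fun b : {b : Alt p V W // LinearIndependent (ZMod p) u ∧
      ∀ j, ∀ y ∈ LinearMap.ker L, b.1 (u j) y = 0} =>
      (⟨b.1, ?_⟩ : {b : Alt p V W // ∀ z ∈ rectZ a (d - 2 * a),
        b.1 (Fin.append u v z.1) (Fin.append u v z.2) ∈ (⊥ : Submodule (ZMod p) W)}))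
    · intro b b' hbb
      exact Subtype.ext (by simpa using hbb)
    · intro z hz
      rw [rectZ, Finset.mem_image] at hz
      obtain ⟨⟨i, j⟩, -, rfl⟩ := hz
      simp only [Fin.append_left, Fin.append_right, Submodule.mem_bot]
      exact b.2.2 i (v j) (hv j)

/-- ROW R5b -/
theorem card_not_N (hd : finrank (ZMod p) V = d) (hm : finrank (ZMod p) W = m) (h : ℕ) :
    Nat.card {b : Alt p V W // ¬ NCond b.1 h} * p ^ ((d - h).choose 2) ≤
      p ^ (m + h * d) * Nat.card (Alt p V W) := by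
  have hI : Nat.card ((W →ₗ[ZMod p] ZMod p) × (V →ₗ[ZMod p] (Fin h → ZMod p))) =
      p ^ (m + h * d) := by
    rw [Nat.card_prod, card_lin_p hm (m := 1) (by simp), card_lin_p hd (m := h) (by simp),
      ← pow_add]
    congr 1
    ring
  rw [← hI]
  apply union_bound _ (fun (i : (W →ₗ[ZMod p] ZMod p) × (V →ₗ[ZMod p] (Fin h → ZMod p)))
    (b : Alt p V W) => i.1 ≠ 0 ∧
      ∀ x ∈ LinearMap.ker i.2, ∀ y ∈ LinearMap.ker i.2, b.1 x y ∈ LinearMap.ker i.1)
  · intro b hb
    rw [NCond] at hb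
    push Not at hb
    obtain ⟨C, hC, hCC⟩ := hb
    obtain ⟨f, hf, hf'⟩ := exists_functional hCC
    obtain ⟨L, hL⟩ := exists_ker_eq C hC
    refine ⟨(f, L), hf, ?_⟩
    intro x hx y hy
    rw [hL] at hx hy
    exact hf' (Submodule.apply_mem_map₂ _ hx hy)
  · rintro ⟨f, L⟩
    by_cases hf : f = 0
    · have : IsEmpty {b : Alt p V W // f ≠ 0 ∧
          ∀ x ∈ LinearMap.ker L, ∀ y ∈ LinearMap.ker L, b.1 x y ∈ LinearMap.ker f} :=
        ⟨fun b => b.2.1 hf⟩
      rw [Nat.card_of_isEmpty, zero_mul]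
      exact Nat.zero_le _
    have hker : d - h ≤ finrank (ZMod p) (LinearMap.ker L) := by
      have h3 := LinearMap.finrank_range_add_finrank_ker L
      have h4 : finrank (ZMod p) (LinearMap.range L) ≤ h := by
        refine (Submodule.finrank_le _).trans ?_
        simp
      rw [hd] at h3
      omega
    obtain ⟨w, hwL, hw⟩ := exists_indep_in (LinearMap.ker L) hker
    have h5 := card_cond (W := W) hw (triZ (d - h)) (triZ_lt _) (LinearMap.ker f) hm
    have h6 : m - finrank (ZMod p) (LinearMap.ker f) = 1 := by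
      have h7 := LinearMap.finrank_range_add_finrank_ker f
      have h8 : finrank (ZMod p) (LinearMap.range f) = 1 := by
        rw [LinearMap.range_eq_top.mpr (LinearMap.surjective hf)]
        simp
      rw [hm] at h7
      omega
    rw [h6, one_mul, triZ_card] at h5
    rw [← h5]
    apply Nat.mul_le_mul_right
    apply Nat.card_le_card_of_injective (fun b : {b : Alt p V W // f ≠ 0 ∧
      ∀ x ∈ LinearMap.ker L, ∀ y ∈ LinearMap.ker L, b.1 x y ∈ LinearMap.ker f} =>
      (⟨b.1, ?_⟩ : {b : Alt p V W // ∀ z ∈ triZ (d - h),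
        b.1 (w z.1) (w z.2) ∈ LinearMap.ker f}))
    · intro b b' hbb
      exact Subtype.ext (by simpa using hbb)
    · intro z _
      exact b.2.2 _ (hwL _) _ (hwL _)

/-- ROW R5a -/
theorem card_not_H (hd : finrank (ZMod p) V = d) (hm : finrank (ZMod p) W = m) (g : ℕ) :
    Nat.card {b : Alt p V W // ¬ HCond b.1 (2 * g)} * p ^ ((m - m / 2) * g ^ 2) ≤
      p ^ (2 * g * d + m ^ 2) * Nat.card (Alt p V W) := by
  have hp : 1 ≤ p := (Fact.out : p.Prime).one_lt.le
  have hI : Nat.card ((Fin (g + g) → V) × (W →ₗ[ZMod p] W)) = p ^ (2 * g * d + m ^ 2) := by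
    rw [Nat.card_prod, card_fun_p hd, card_lin_p hm hm, ← pow_add]
    congr 1
    ring
  rw [← hI]
  apply union_bound _ (fun (i : (Fin (g + g) → V) × (W →ₗ[ZMod p] W)) (b : Alt p V W) =>
    LinearIndependent (ZMod p) i.1 ∧ 2 * finrank (ZMod p) (LinearMap.range i.2) ≤ m ∧
      ∀ z ∈ rectZ g g, b.1 (i.1 z.1) (i.1 z.2) ∈ LinearMap.range i.2)
  · intro b hb
    rw [HCond] at hb
    push Not at hb
    obtain ⟨A, C, hA, hC, hAC⟩ := hb
    obtain ⟨u, huA, hu⟩ := exists_indep_in A (n := g) (by omega)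
    obtain ⟨v, hv, hw⟩ := exists_indep_append hu C (c := g) (by omega)
    obtain ⟨t, ht⟩ := exists_range_eq (Submodule.map₂ b.1 A C)
    refine ⟨(Fin.append u v, t), hw, ?_, ?_⟩
    · rw [ht, ← hm]; exact hAC
    · intro z hz
      rw [rectZ, Finset.mem_image] at hz
      obtain ⟨⟨i, j⟩, -, rfl⟩ := hz
      simp only [Fin.append_left, Fin.append_right]
      rw [ht]
      exact Submodule.apply_mem_map₂ _ (huA i) (hv j)
  · rintro ⟨w, t⟩
    by_cases hw : LinearIndependent (ZMod p) w
    swap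
    · have : IsEmpty {b : Alt p V W // LinearIndependent (ZMod p) w ∧
          2 * finrank (ZMod p) (LinearMap.range t) ≤ m ∧
          ∀ z ∈ rectZ g g, b.1 (w z.1) (w z.2) ∈ LinearMap.range t} := ⟨fun b => hw b.2.1⟩
      rw [Nat.card_of_isEmpty, zero_mul]
      exact Nat.zero_le _
    by_cases ht : 2 * finrank (ZMod p) (LinearMap.range t) ≤ m
    swap
    · have : IsEmpty {b : Alt p V W // LinearIndependent (ZMod p) w ∧
          2 * finrank (ZMod p) (LinearMap.range t) ≤ m ∧
          ∀ z ∈ rectZ g g, b.1 (w z.1) (w z.2) ∈ LinearMap.range t} := ⟨fun b => ht b.2.2.1⟩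
      rw [Nat.card_of_isEmpty, zero_mul]
      exact Nat.zero_le _
    have h5 := card_cond (W := W) hw (rectZ g g) (rectZ_lt _ _) (LinearMap.range t) hm
    rw [rectZ_card] at h5
    rw [← h5]
    apply Nat.mul_le_mul
    · apply Nat.card_le_card_of_injective (fun b : {b : Alt p V W //
        LinearIndependent (ZMod p) w ∧ 2 * finrank (ZMod p) (LinearMap.range t) ≤ m ∧
          ∀ z ∈ rectZ g g, b.1 (w z.1) (w z.2) ∈ LinearMap.range t} =>
        (⟨b.1, b.2.2.2⟩ : {b : Alt p V W // ∀ z ∈ rectZ g g,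
          b.1 (w z.1) (w z.2) ∈ LinearMap.range t}))
      intro b b' hbb
      exact Subtype.ext (by simpa using hbb)
    · apply Nat.pow_le_pow_right hp
      rw [sq]
      apply Nat.mul_le_mul_right
      omega

end Count

end Pool.Agent.APG
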