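import Pool.Agent.APG.Alt
import Pool.Agent.APG.CntHNI

/-!
# Row R5d: almost all data satisfy the three conditions
-/

set_option autoImplicit false

open Module

namespace Pool.Agent.APG

section CntSum

/-- cancelling powers -/
theorem pow_cancel {p X A E1 E2 K : ℕ} (hp : 0 < p) (h : X * p ^ E1 ≤ p ^ E2 * A)
    (hE : E2 + K ≤ E1) : X * p ^ K ≤ A := by
  have h1 : p ^ E2 * (X * p ^ K) ≤ p ^ E2 * A := by
    calc p ^ E2 * (X * p ^ K) = X * p ^ (E2 + K) := by rw [pow_add]; ring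
      _ ≤ X * p ^ E1 := Nat.mul_le_mul_left _ (Nat.pow_le_pow_right hp hE)
      _ ≤ p ^ E2 * A := h
  exact Nat.le_of_mul_le_mul_left h1 (pow_pos hp _)

/-- number of elements with one of three properties, the third one being a union -/
theorem card_union_le {X : Type} [Finite X] (P H N I : X → Prop) (J : ℕ → X → Prop) (h : ℕ)
    (hP : ∀ x, P x → H x ∨ N x ∨ I x) (hI : ∀ x, I x → ∃ a, 1 ≤ a ∧ a < h ∧ J a x) :
    Nat.card {x // P x} ≤ Nat.card {x // H x} + Nat.card {x // N x} +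
      ∑ a ∈ Finset.Ico 1 h, Nat.card {x // J a x} := by
  classical
  have e : ∀ Q : X → Prop, Nat.card {x // Q x} = {x | Q x}.ncard := fun Q => rfl
  have h1 : {x | P x} ⊆ ({x | H x} ∪ {x | N x}) ∪ ⋃ a ∈ Finset.Ico 1 h, {x | J a x} := by
    intro x hx
    rcases hP x hx with h2 | h2 | h2
    · exact Or.inl (Or.inl h2)
    · exact Or.inl (Or.inr h2)
    · obtain ⟨a, ha1, ha2, ha3⟩ := hI x h2
      refine Or.inr ?_
      rw [Set.mem_iUnion₂]
      exact ⟨a, Finset.mem_Ico.2 ⟨ha1, ha2⟩, ha3⟩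
  have h2 := Set.ncard_le_ncard h1 (Set.toFinite _)
  rw [e, e, e]
  simp only [e]
  refine h2.trans ((Set.ncard_union_le _ _).trans (add_le_add (Set.ncard_union_le _ _) ?_))
  exact Finset.set_ncard_biUnion_le _ _

theorem arith_H {d m : ℕ} (hd0 : 10000 ≤ d) (h4 : d ≤ 4 * m) (h5 : m ≤ d) :
    (2 * (d / 16) * d + m ^ 2) + 4 * d ≤ (m - m / 2) * (d / 16) ^ 2 := by
  set g := d / 16 with hg
  have g1 : 16 * g ≤ d := Nat.mul_div_le d 16
  have g2 : d < 16 * g + 16 := by omega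
  have g3 : 625 ≤ g := by omega
  have m1 : m ≤ 2 * (m - m / 2) := by omega
  set k := m - m / 2 with hk
  have h6 : d ≤ 17 * g := by omega
  have h7 : d ≤ 8 * k := by omega
  have e1 : 2 * g * d ≤ 16 * (g * k) := by nlinarith
  have e2 : m ^ 2 ≤ 34 * (g * k) := by nlinarith
  have e3 : 4 * d ≤ 32 * k := by omega
  have e4 : 32 * k ≤ g * k := by nlinarith
  have e5 : 51 * (g * k) ≤ k * g ^ 2 := by nlinarith [Nat.zero_le (g * k)]
  linarith

theorem arith_N {d m : ℕ} (hd0 : 10000 ≤ d) (h5 : m ≤ d) :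
    (m + 2 * (d / 16) * d) + 4 * d ≤ (d - 2 * (d / 16)).choose 2 := by
  set g := d / 16 with hg
  have g1 : 16 * g ≤ d := Nat.mul_div_le d 16
  have g2 : d < 16 * g + 16 := by omega
  have g3 : 625 ≤ g := by omega
  rw [Nat.choose_two_right, Nat.le_div_iff_mul_le (by norm_num)]
  obtain ⟨r, hr⟩ : ∃ r, d = 16 * g + r := ⟨d - 16 * g, by omega⟩
  have hr2 : r < 16 := by omega
  have h1 : d - 2 * g = 14 * g + r := by omega
  have h2 : d - 2 * g - 1 = 14 * g + r - 1 := by omega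
  rw [h1]
  have h3 : 14 * g + r - 1 + 1 = 14 * g + r := by omega
  set w := 14 * g + r - 1 with hw
  have h4 : 14 * g ≤ w + 1 := by omega
  have h6 : 13 * g ≤ w := by omega
  have h7 : 14 * g * (13 * g) ≤ (14 * g + r) * w := Nat.mul_le_mul (by omega) h6
  have h8 : d ≤ 17 * g := by omega
  have h9 : 2 * g * d ≤ 2 * g * (17 * g) := Nat.mul_le_mul_left _ h8
  nlinarith

theorem arith_I {d m a : ℕ} (hd0 : 10000 ≤ d) (h4 : d ≤ 4 * m) (ha : 1 ≤ a)
    (ha2 : a < 2 * (d / 16)) : 2 * a * d + 4 * d ≤ m * (a * (d - 2 * a)) := by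
  have h1 : 8 * a ≤ d := by omega
  obtain ⟨w, hw⟩ : ∃ w, d = 2 * a + w := ⟨d - 2 * a, by omega⟩
  have h2 : d - 2 * a = w := by omega
  rw [h2]
  have h3 : 3 * d ≤ 4 * w := by omega
  have h5 : 24 * d ≤ m * w := by
    have : 2500 ≤ m := by omega
    nlinarith
  calc 2 * a * d + 4 * d ≤ 2 * a * d + 4 * a * d := by nlinarith
    _ = a * (6 * d) := by ring
    _ ≤ a * (m * w) := Nat.mul_le_mul_left _ (by omega)
    _ = m * (a * w) := by ring

theorem not_I {p : ℕ} [Fact p.Prime] {V W : Type} [AddCommGroup V] [AddCommGroup W]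
    [Module (ZMod p) V] [Module (ZMod p) W] [Finite V] {d h : ℕ}
    (hd : finrank (ZMod p) V = d) (b : V →ₗ[ZMod p] V →ₗ[ZMod p] W) (hb : ¬ ICond b h) :
    ∃ a, 1 ≤ a ∧ a < h ∧ ∃ A C : Submodule (ZMod p) V,
      finrank (ZMod p) A = a ∧ d ≤ finrank (ZMod p) C + a ∧ Submodule.map₂ b A C = ⊥ := by
  unfold ICond at hb
  push Not at hb
  obtain ⟨A, C, hA, hAh, hC, hm⟩ := hb
  refine ⟨finrank (ZMod p) A, ?_, hAh, A, C, rfl, by rw [← hd]; exact hC, hm⟩
  rw [Nat.one_le_iff_ne_zero]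
  intro h0
  exact hA (Submodule.finrank_eq_zero.1 h0)

variable {p : ℕ} [Fact p.Prime] {V W : Type} [AddCommGroup V] [AddCommGroup W]
  [Module (ZMod p) V] [Module (ZMod p) W] [Finite V] [Finite W] {d m : ℕ}

/-- ROW R5d (file CntSum.lean, uses R4c, R5a-c) -/
theorem card_not_gen (hd : finrank (ZMod p) V = d) (hm : finrank (ZMod p) W = m)
    (hd0 : 10000 ≤ d) (h4 : d ≤ 4 * m) (h5 : m ≤ d) :
    Nat.card {q : Dat p V W // ¬ GenCond q.be (2 * (d / 16))} * p ^ (3 * d) ≤
      Nat.card (Dat p V W) := by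
  have hp : 2 ≤ p := (Fact.out : p.Prime).two_le
  have hp0 : 0 < p := by omega
  haveI : Finite (V →ₗ[ZMod p] V →ₗ[ZMod p] W) := by
    haveI : Finite (V →ₗ[ZMod p] W) := DFunLike.finite _
    exact DFunLike.finite _
  haveI : Finite (Alt p V W) := Subtype.finite
  have hD : Nat.card (Dat p V W) = Nat.card (Alt p V W) * p ^ (m * d) := by
    have h := card_dat (p := p) (V := V) (W := W) hd hm (fun _ => True)
    rw [Nat.card_congr (Equiv.subtypeUnivEquiv (fun _ => trivial)),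
      Nat.card_congr (Equiv.subtypeUnivEquiv (fun _ => trivial))] at h
    exact h
  rw [card_dat hd hm (fun b => ¬ GenCond b (2 * (d / 16))), hD]
  suffices hs : Nat.card {b : Alt p V W // ¬ GenCond b.1 (2 * (d / 16))} * p ^ (3 * d)
      ≤ Nat.card (Alt p V W) by
    calc _ = Nat.card {b : Alt p V W // ¬ GenCond b.1 (2 * (d / 16))} * p ^ (3 * d)
          * p ^ (m * d) := by ring
      _ ≤ _ := Nat.mul_le_mul_right _ hs
  set A := Nat.card (Alt p V W) with hA
  set h := 2 * (d / 16) with hh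
  have hU := card_union_le (X := Alt p V W) (fun b => ¬ GenCond b.1 h)
    (fun b => ¬ HCond b.1 h) (fun b => ¬ NCond b.1 h) (fun b => ¬ ICond b.1 h)
    (fun a b => ∃ A C : Submodule (ZMod p) V,
      finrank (ZMod p) A = a ∧ d ≤ finrank (ZMod p) C + a ∧ Submodule.map₂ b.1 A C = ⊥) h
    (by
      intro b hb
      unfold GenCond at hb
      tauto)
    (fun b hb => not_I hd b.1 hb)
  have hH := pow_cancel hp0 (card_not_H (p := p) (V := V) (W := W) hd hm (d / 16))
    (arith_H hd0 h4 h5)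
  have hN := pow_cancel hp0 (card_not_N (p := p) (V := V) (W := W) hd hm h)
    (by
      have := arith_N (m := m) hd0 h5
      rw [← hh] at this
      exact this)
  have hI : ∀ a ∈ Finset.Ico 1 h, Nat.card {b : Alt p V W // ∃ A C : Submodule (ZMod p) V,
      finrank (ZMod p) A = a ∧ d ≤ finrank (ZMod p) C + a ∧ Submodule.map₂ b.1 A C = ⊥}
        * p ^ (4 * d) ≤ A := by
    intro a ha
    rw [Finset.mem_Ico] at ha
    exact pow_cancel hp0 (card_not_I (p := p) (V := V) (W := W) hd hm a ha.1)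
      (arith_I hd0 h4 ha.1 ha.2)
  have hsum : Nat.card {b : Alt p V W // ¬ GenCond b.1 h} * p ^ (4 * d) ≤ (h + 2) * A := by
    calc _ ≤ (Nat.card {b : Alt p V W // ¬ HCond b.1 h} + Nat.card {b : Alt p V W // ¬ NCond b.1 h}
          + ∑ a ∈ Finset.Ico 1 h, Nat.card {b : Alt p V W // ∃ A C : Submodule (ZMod p) V,
            finrank (ZMod p) A = a ∧ d ≤ finrank (ZMod p) C + a ∧ Submodule.map₂ b.1 A C = ⊥})
          * p ^ (4 * d) := Nat.mul_le_mul_right _ hU
      _ = Nat.card {b : Alt p V W // ¬ HCond b.1 h} * p ^ (4 * d)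
          + Nat.card {b : Alt p V W // ¬ NCond b.1 h} * p ^ (4 * d)
          + ∑ a ∈ Finset.Ico 1 h, Nat.card {b : Alt p V W // ∃ A C : Submodule (ZMod p) V,
            finrank (ZMod p) A = a ∧ d ≤ finrank (ZMod p) C + a ∧ Submodule.map₂ b.1 A C = ⊥}
          * p ^ (4 * d) := by rw [add_mul, add_mul, Finset.sum_mul]
      _ ≤ A + A + ∑ a ∈ Finset.Ico 1 h, A := add_le_add (add_le_add hH hN) (Finset.sum_le_sum hI)
      _ ≤ (h + 2) * A := by
        rw [Finset.sum_const, Nat.card_Ico, smul_eq_mul]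
        have : (h - 1) * A ≤ h * A := Nat.mul_le_mul_right _ (by omega)
        linarith
  have hpd : h + 2 ≤ p ^ d := by
    have h1 : d < 2 ^ d := Nat.lt_two_pow_self
    have h2 : 2 ^ d ≤ p ^ d := Nat.pow_le_pow_left hp d
    omega
  have hfin : (Nat.card {b : Alt p V W // ¬ GenCond b.1 h} * p ^ (3 * d)) * p ^ d
      ≤ A * p ^ d := by
    calc _ = Nat.card {b : Alt p V W // ¬ GenCond b.1 h} * p ^ (4 * d) := by
          rw [mul_assoc, ← pow_add]
          congr 2
          ring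
      _ ≤ (h + 2) * A := hsum
      _ ≤ p ^ d * A := Nat.mul_le_mul_right _ hpd
      _ = A * p ^ d := by ring
  exact Nat.le_of_mul_le_mul_right hfin (pow_pos hp0 _)

end CntSum

end Pool.Agent.APG
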