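import Mathlib

/-!
# Groups with central elementary abelian Frattini subgroup: the data
-/

set_option autoImplicit false

open Module

namespace Pool.Agent.APG

section

variable (p : ℕ) (V W : Type) [AddCommGroup V] [AddCommGroup W] [Module (ZMod p) V]
  [Module (ZMod p) W]

/-- The commutator map `be` and the `p`-th power map `pw` of a group `P` with a central elementary
abelian subgroup `W` such that `V = P / W` is elementary abelian. -/
@[ext] structure Dat where
  /-- the commutator map -/
  be : V →ₗ[ZMod p] V →ₗ[ZMod p] W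
  alt : ∀ v, be v v = 0
  /-- the `p`-th power map -/
  pw : V → W
  pw_add : ∀ v v', pw (v + v') = pw v + pw v' + (p.choose 2) • be v v'

/-- the alternating bilinear maps -/
def Alt : Submodule (ZMod p) (V →ₗ[ZMod p] V →ₗ[ZMod p] W) where
  carrier := {b | ∀ v, b v v = 0}
  add_mem' := by
    intro a b ha hb v
    rw [LinearMap.add_apply, LinearMap.add_apply, ha v, hb v, add_zero]
  zero_mem' := fun v => rfl
  smul_mem' := by
    intro c a ha v
    rw [LinearMap.smul_apply, LinearMap.smul_apply, ha v, smul_zero]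

/-- the group `GL(V) × GL(W)` -/
abbrev Gam : Type := (V ≃ₗ[ZMod p] V) × (W ≃ₗ[ZMod p] W)

end

variable {p : ℕ} {V W : Type} [AddCommGroup V] [AddCommGroup W] [Module (ZMod p) V]
  [Module (ZMod p) W]

/-- the action of `GL(V) × GL(W)` on the data -/
instance : MulAction (Gam p V W) (Dat p V W) where
  smul γ q :=
    { be := (q.be.compl₁₂ γ.1.symm.toLinearMap γ.1.symm.toLinearMap).compr₂ γ.2.toLinearMap
      alt := fun v => by
        show γ.2 (q.be (γ.1.symm v) (γ.1.symm v)) = 0
        rw [q.alt, map_zero]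
      pw := fun v => γ.2 (q.pw (γ.1.symm v))
      pw_add := fun v v' => by
        show γ.2 (q.pw (γ.1.symm (v + v'))) = γ.2 (q.pw (γ.1.symm v)) + γ.2 (q.pw (γ.1.symm v')) +
          (p.choose 2) • γ.2 (q.be (γ.1.symm v) (γ.1.symm v'))
        rw [map_add, q.pw_add, map_add, map_add, map_nsmul] }
  one_smul q := by
    apply Dat.ext
    · rfl
    · rfl
  mul_smul γ δ q := by
    apply Dat.ext
    · rfl
    · rfl

lemma smul_be (γ : Gam p V W) (q : Dat p V W) (v v' : V) :
    (γ • q).be v v' = γ.2 (q.be (γ.1.symm v) (γ.1.symm v')) := rfl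

lemma smul_pw (γ : Gam p V W) (q : Dat p V W) (v : V) :
    (γ • q).pw v = γ.2 (q.pw (γ.1.symm v)) := rfl

/-- `γ` fixes `q` -/
lemma smul_eq_iff (γ : Gam p V W) (q : Dat p V W) : γ • q = q ↔
    (∀ v v', q.be (γ.1 v) (γ.1 v') = γ.2 (q.be v v')) ∧ ∀ v, q.pw (γ.1 v) = γ.2 (q.pw v) := by
  constructor
  · intro h
    constructor
    · intro v v'
      have h1 : (γ • q).be (γ.1 v) (γ.1 v') = q.be (γ.1 v) (γ.1 v') := by rw [h]
      rw [← h1, smul_be, LinearEquiv.symm_apply_apply, LinearEquiv.symm_apply_apply]
    · intro v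
      have h1 : (γ • q).pw (γ.1 v) = q.pw (γ.1 v) := by rw [h]
      rw [← h1, smul_pw, LinearEquiv.symm_apply_apply]
  · rintro ⟨h1, h2⟩
    apply Dat.ext
    · apply LinearMap.ext
      intro v
      apply LinearMap.ext
      intro v'
      rw [smul_be, ← h1, LinearEquiv.apply_symm_apply, LinearEquiv.apply_symm_apply]
    · funext v
      rw [smul_pw, ← h2, LinearEquiv.apply_symm_apply]

/-- the values of the commutator map and of the `p`-th power map generate `W` -/
def Dat.Full (q : Dat p V W) : Prop :=
  Submodule.span (ZMod p) ({w | ∃ v v', q.be v v' = w} ∪ Set.range q.pw) = ⊤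

/-- `P` is an extension of `V` by the central subgroup `W` with commutator map `be` and `p`-th power
map `pw`. -/
structure Ext (q : Dat p V W) (P : Type) [Group P] where
  /-- the projection -/
  pr : P →* Multiplicative V
  /-- the inclusion -/
  inc : Multiplicative W →* P
  surj : Function.Surjective pr
  inj : Function.Injective inc
  exact : pr.ker = inc.range
  comm : ∀ x y : P, x * y * x⁻¹ * y⁻¹ = inc (Multiplicative.ofAdd (q.be (pr x).toAdd (pr y).toAdd))
  pow : ∀ x : P, x ^ p = inc (Multiplicative.ofAdd (q.pw (pr x).toAdd))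

/-- condition (H): large subspaces have many commutators -/
def HCond (b : V →ₗ[ZMod p] V →ₗ[ZMod p] W) (h : ℕ) : Prop :=
  ∀ A C : Submodule (ZMod p) V, h ≤ finrank (ZMod p) A → h ≤ finrank (ZMod p) C →
    finrank (ZMod p) W < 2 * finrank (ZMod p) (Submodule.map₂ b A C)

/-- condition (N): the commutators of a subspace of small codimension generate `W` -/
def NCond (b : V →ₗ[ZMod p] V →ₗ[ZMod p] W) (h : ℕ) : Prop :=
  ∀ C : Submodule (ZMod p) V, finrank (ZMod p) V ≤ finrank (ZMod p) C + h →
    Submodule.map₂ b C C = ⊤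

/-- condition (I): no subspace commutes with a subspace of at most the same codimension -/
def ICond (b : V →ₗ[ZMod p] V →ₗ[ZMod p] W) (h : ℕ) : Prop :=
  ∀ A C : Submodule (ZMod p) V, A ≠ ⊥ → finrank (ZMod p) A < h →
    finrank (ZMod p) V ≤ finrank (ZMod p) C + finrank (ZMod p) A → Submodule.map₂ b A C ≠ ⊥

/-- the three conditions -/
def GenCond (b : V →ₗ[ZMod p] V →ₗ[ZMod p] W) (h : ℕ) : Prop := HCond b h ∧ NCond b h ∧ ICond b h

/-- there is a subspace of dimension `s` which does not meet its image -/
def Far {k E : Type} [Field k] [AddCommGroup E] [Module k E] (f : E →ₗ[k] E) (s : ℕ) : Prop :=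
  ∃ S : Submodule k E, finrank k S = s ∧ Disjoint S (S.map f)

/-- `s` is at least about half of the dimension or `f` minus a scalar has rank at most `2 s` -/
def Near {k E : Type} [Field k] [AddCommGroup E] [Module k E] (f : E →ₗ[k] E) (s : ℕ) : Prop :=
  finrank k E ≤ 2 * s + 1 ∨ ∃ μ : k, finrank k (LinearMap.range (f - μ • LinearMap.id)) ≤ 2 * s

/-- the Frattini subgroup is central and elementary abelian, and the order is `p ^ n` -/
def FratTwo (p n : ℕ) (P : Type) [Group P] : Prop :=
  Nat.card P = p ^ n ∧ frattini P ≤ Subgroup.center P ∧ ∀ x ∈ frattini P, x ^ p = 1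

/-- isomorphism of the group structures on `Fin N` with the property `Q` -/
def isoSetoid (N : ℕ) (Q : (P : Type) → [Group P] → Prop) :
    Setoid {g : Group (Fin N) // @Q (Fin N) g} where
  r g g' := Nonempty (@MulEquiv (Fin N) (Fin N) g.1.toMul g'.1.toMul)
  iseqv := by
    constructor
    · intro g
      exact ⟨@MulEquiv.refl (Fin N) g.1.toMul⟩
    · rintro g g' ⟨e⟩
      exact ⟨@MulEquiv.symm _ _ g.1.toMul g'.1.toMul e⟩
    · rintro g g' g'' ⟨e⟩ ⟨e'⟩
      exact ⟨@MulEquiv.trans _ _ _ g.1.toMul g'.1.toMul g''.1.toMul e e'⟩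

/-- the number of isomorphism classes of groups of order `N` with the property `Q` -/
noncomputable def numIso (N : ℕ) (Q : (P : Type) → [Group P] → Prop) : ℕ :=
  Nat.card (Quotient (isoSetoid N Q))

end Pool.Agent.APG
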