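import Pool.Agent.APG.Basic

/-!
# Groups of class two and exponent `p`: the data
-/

set_option autoImplicit false

open Module

namespace Pool.Agent.APG

section Act

variable {p : ℕ} {V W : Type} [AddCommGroup V] [AddCommGroup W] [Module (ZMod p) V]
  [Module (ZMod p) W]

/-- the action of `GL(V) × GL(W)` on the alternating maps -/
instance altAction : MulAction (Gam p V W) (Alt p V W) where
  smul γ b := ⟨(b.1.compl₁₂ γ.1.symm.toLinearMap γ.1.symm.toLinearMap).compr₂ γ.2.toLinearMap,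
    fun v => by
      show γ.2 (b.1 (γ.1.symm v) (γ.1.symm v)) = 0
      rw [b.2, map_zero]⟩
  one_smul b := Subtype.ext rfl
  mul_smul γ δ b := Subtype.ext rfl

lemma alt_smul_apply (γ : Gam p V W) (b : Alt p V W) (v v' : V) :
    (γ • b).1 v v' = γ.2 (b.1 (γ.1.symm v) (γ.1.symm v')) := rfl

/-- `γ` fixes `b` -/
lemma alt_smul_eq_iff (γ : Gam p V W) (b : Alt p V W) : γ • b = b ↔
    ∀ v v', b.1 (γ.1 v) (γ.1 v') = γ.2 (b.1 v v') := by
  constructor
  · intro h v v'
    have h1 : (γ • b).1 (γ.1 v) (γ.1 v') = b.1 (γ.1 v) (γ.1 v') := by rw [h]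
    rw [← h1, alt_smul_apply, LinearEquiv.symm_apply_apply, LinearEquiv.symm_apply_apply]
  · intro h1
    apply Subtype.ext
    apply LinearMap.ext
    intro v
    apply LinearMap.ext
    intro v'
    rw [alt_smul_apply, ← h1, LinearEquiv.apply_symm_apply, LinearEquiv.apply_symm_apply]

/-- the pairs `(lam, lam ^ 2)` of scalars -/
def IsSc (γ : Gam p V W) : Prop :=
  ∃ lam : ZMod p, (∀ v, γ.1 v = lam • v) ∧ ∀ w, γ.2 w = lam ^ 2 • w

/-- the subgroup of the pairs `(lam, lam ^ 2)` of scalars: they fix every alternating map -/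
def Lam (p : ℕ) [Fact p.Prime] (V W : Type) [AddCommGroup V] [AddCommGroup W] [Module (ZMod p) V]
    [Module (ZMod p) W] : Subgroup (Gam p V W) where
  carrier := {γ | IsSc γ}
  one_mem' := ⟨1, fun v => (one_smul _ v).symm, fun w => by rw [one_pow, one_smul]; rfl⟩
  mul_mem' := by
    rintro γ δ ⟨c, h1, h2⟩ ⟨e, h3, h4⟩
    refine ⟨c * e, fun v => ?_, fun w => ?_⟩
    · show γ.1 (δ.1 v) = _
      rw [h3, map_smul, h1, smul_smul, mul_comm]
    · show γ.2 (δ.2 w) = _
      rw [h4, map_smul, h2, smul_smul]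
      congr 1
      ring
  inv_mem' := by
    rintro γ ⟨c, h1, h2⟩
    refine ⟨c⁻¹, fun v => ?_, fun w => ?_⟩
    · show γ.1.symm v = _
      rw [LinearEquiv.symm_apply_eq, h1, smul_smul]
      by_cases hc : c = 0
      · have hv : γ.1 v = 0 := by rw [h1, hc, zero_smul]
        rw [γ.1.map_eq_zero_iff.mp hv, smul_zero]
      · rw [mul_inv_cancel₀ hc, one_smul]
    · show γ.2.symm w = _
      rw [LinearEquiv.symm_apply_eq, h2, smul_smul, inv_pow]
      by_cases hc : c = 0
      · have hw : γ.2 w = 0 := by rw [h2, hc, zero_pow two_ne_zero, zero_smul]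
        rw [γ.2.map_eq_zero_iff.mp hw, smul_zero]
      · rw [mul_inv_cancel₀ (pow_ne_zero 2 hc), one_smul]

variable [Fact p.Prime]

lemma mem_Lam (γ : Gam p V W) : γ ∈ Lam p V W ↔ IsSc γ := Iff.rfl

instance : (Lam p V W).Normal := by
  constructor
  rintro γ ⟨c, h1, h2⟩ δ
  refine ⟨c, fun v => ?_, fun w => ?_⟩
  · show δ.1 (γ.1 (δ.1.symm v)) = _
    rw [h1, map_smul, LinearEquiv.apply_symm_apply]
  · show δ.2 (γ.2 (δ.2.symm w)) = _
    rw [h2, map_smul, LinearEquiv.apply_symm_apply]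

lemma Lam_smul (γ : Gam p V W) (hγ : γ ∈ Lam p V W) (b : Alt p V W) : γ • b = b := by
  obtain ⟨c, h1, h2⟩ := hγ
  rw [alt_smul_eq_iff]
  intro v v'
  rw [h1, h1, h2, map_smul, map_smul, LinearMap.smul_apply, smul_smul, sq]

lemma choose_two_smul (hp : p ≠ 2) (w : W) : (p.choose 2) • w = 0 := by
  have hpp : p.Prime := Fact.out
  have h2 : p ∣ p.choose 2 := hpp.dvd_choose_self two_ne_zero
    (lt_of_le_of_ne hpp.two_le (Ne.symm hp))
  obtain ⟨k, hk⟩ := h2
  rw [hk, ← Nat.cast_smul_eq_nsmul (ZMod p), Nat.cast_mul, ZMod.natCast_self, zero_mul, zero_smul]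

/-- the data of a group of exponent `p` with commutator map `b` -/
def toDat (hp : p ≠ 2) (b : Alt p V W) : Dat p V W where
  be := b.1
  alt := b.2
  pw := fun _ => 0
  pw_add := fun v v' => by rw [choose_two_smul hp, add_zero, add_zero]

lemma toDat_smul (hp : p ≠ 2) (γ : Gam p V W) (b : Alt p V W) :
    toDat hp (γ • b) = γ • toDat hp b := by
  apply Dat.ext
  · rfl
  · funext v
    exact (map_zero γ.2).symm

lemma toDat_inj (hp : p ≠ 2) {b c : Alt p V W} (h : toDat hp b = toDat hp c) : b = c :=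
  Subtype.ext (congrArg Dat.be h)

end Act

/-- the group has order `p ^ n`, exponent dividing `p` and class at most two -/
def ExpTwo (p n : ℕ) (P : Type) [Group P] : Prop :=
  Nat.card P = p ^ n ∧ (∀ x : P, x ^ p = 1) ∧
    ∀ x y z : P, x * y * x⁻¹ * y⁻¹ * z = z * (x * y * x⁻¹ * y⁻¹)

end Pool.Agent.APG
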