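import Pool.Agent.APG.Defs

/-!
# Groups with central elementary abelian Frattini subgroup: the deterministic part
-/

set_option autoImplicit false

open Module

namespace Pool.Agent.APG

namespace Det

section Gen

variable {k E : Type} [Field k] [AddCommGroup E] [Module k E] [FiniteDimensional k E]

/-- the dimension of a subspace of a product, first form -/
lemma finrank_left (U : Submodule k (E × E)) :
    finrank k (U.comap (LinearMap.inl k E E)) + finrank k (U.map (LinearMap.snd k E E)) =
      finrank k U := by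
  have h := LinearMap.finrank_range_add_finrank_ker ((LinearMap.snd k E E).domRestrict U)
  have h1 : LinearMap.range ((LinearMap.snd k E E).domRestrict U) =
      U.map (LinearMap.snd k E E) := by
    ext y
    constructor
    · rintro ⟨x, rfl⟩
      exact ⟨x.1, x.2, rfl⟩
    · rintro ⟨x, hx, rfl⟩
      exact ⟨⟨x, hx⟩, rfl⟩
  have h2 : finrank k (LinearMap.ker ((LinearMap.snd k E E).domRestrict U)) =
      finrank k (U.comap (LinearMap.inl k E E)) := by
    refine (LinearEquiv.finrank_eq ?_).symm
    refine LinearEquiv.ofBijective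
      (LinearMap.codRestrict _ (LinearMap.codRestrict U ((LinearMap.inl k E E).domRestrict _)
        (fun x => x.2)) (fun x => ?_)) ⟨?_, ?_⟩
    · rw [LinearMap.mem_ker]
      rfl
    · intro x y hxy
      have h3 := congrArg (fun z => z.1.1.1) hxy
      exact Subtype.ext h3
    · rintro ⟨⟨⟨x, y⟩, hx⟩, hy⟩
      have hy' : y = 0 := hy
      subst hy'
      exact ⟨⟨x, hx⟩, rfl⟩
  rw [h1, h2] at h
  omega

/-- the dimension of a subspace of a product, second form -/
lemma finrank_right (U : Submodule k (E × E)) :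
    finrank k (U.comap (LinearMap.inr k E E)) + finrank k (U.map (LinearMap.fst k E E)) =
      finrank k U := by
  have h := LinearMap.finrank_range_add_finrank_ker ((LinearMap.fst k E E).domRestrict U)
  have h1 : LinearMap.range ((LinearMap.fst k E E).domRestrict U) =
      U.map (LinearMap.fst k E E) := by
    ext y
    constructor
    · rintro ⟨x, rfl⟩
      exact ⟨x.1, x.2, rfl⟩
    · rintro ⟨x, hx, rfl⟩
      exact ⟨⟨x, hx⟩, rfl⟩
  have h2 : finrank k (LinearMap.ker ((LinearMap.fst k E E).domRestrict U)) =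
      finrank k (U.comap (LinearMap.inr k E E)) := by
    refine (LinearEquiv.finrank_eq ?_).symm
    refine LinearEquiv.ofBijective
      (LinearMap.codRestrict _ (LinearMap.codRestrict U ((LinearMap.inr k E E).domRestrict _)
        (fun x => x.2)) (fun x => ?_)) ⟨?_, ?_⟩
    · rw [LinearMap.mem_ker]
      rfl
    · intro x y hxy
      have h3 := congrArg (fun z => z.1.1.2) hxy
      exact Subtype.ext h3
    · rintro ⟨⟨⟨x, y⟩, hx⟩, hy⟩
      have hy' : x = 0 := hy
      subst hy'
      exact ⟨⟨y, hx⟩, rfl⟩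
  rw [h1, h2] at h
  omega

/-- a subspace of `E × E` which meets both factors trivially and projects onto both is the graph
of an automorphism -/
lemma exists_graph (U : Submodule k (E × E)) (hA : U.comap (LinearMap.inl k E E) = ⊥)
    (hB : U.comap (LinearMap.inr k E E) = ⊥) (h1 : U.map (LinearMap.fst k E E) = ⊤)
    (h2 : U.map (LinearMap.snd k E E) = ⊤) :
    ∃ f : E ≃ₗ[k] E, ∀ x y, (x, y) ∈ U ↔ f x = y := by
  have i1 : Function.Injective ((LinearMap.fst k E E).domRestrict U) := by
    rw [← LinearMap.ker_eq_bot, LinearMap.ker_eq_bot']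
    rintro ⟨⟨x, y⟩, hx⟩ h
    have h' : x = 0 := h
    subst h'
    have hy : y ∈ U.comap (LinearMap.inr k E E) := hx
    rw [hB, Submodule.mem_bot] at hy
    subst hy
    rfl
  have i2 : Function.Injective ((LinearMap.snd k E E).domRestrict U) := by
    rw [← LinearMap.ker_eq_bot, LinearMap.ker_eq_bot']
    rintro ⟨⟨x, y⟩, hx⟩ h
    have h' : y = 0 := h
    subst h'
    have hy : x ∈ U.comap (LinearMap.inl k E E) := hx
    rw [hA, Submodule.mem_bot] at hy
    subst hy
    rfl
  have s1 : Function.Surjective ((LinearMap.fst k E E).domRestrict U) := by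
    intro x
    have hx : x ∈ U.map (LinearMap.fst k E E) := by rw [h1]; exact Submodule.mem_top
    obtain ⟨z, hz, rfl⟩ := hx
    exact ⟨⟨z, hz⟩, rfl⟩
  have s2 : Function.Surjective ((LinearMap.snd k E E).domRestrict U) := by
    intro x
    have hx : x ∈ U.map (LinearMap.snd k E E) := by rw [h2]; exact Submodule.mem_top
    obtain ⟨z, hz, rfl⟩ := hx
    exact ⟨⟨z, hz⟩, rfl⟩
  let e1 := LinearEquiv.ofBijective _ ⟨i1, s1⟩
  let e2 := LinearEquiv.ofBijective _ ⟨i2, s2⟩
  refine ⟨e1.symm.trans e2, fun x y => ?_⟩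
  constructor
  · intro h
    have h3 : e1.symm x = ⟨(x, y), h⟩ := by
      rw [LinearEquiv.symm_apply_eq]
      rfl
    rw [LinearEquiv.trans_apply, h3]
    rfl
  · intro h
    rw [LinearEquiv.trans_apply] at h
    have h4 : e1 (e1.symm x) = x := e1.apply_symm_apply x
    have h5 : (e1.symm x).1.2 = y := h
    have h6 : (e1.symm x).1.1 = x := h4
    have h7 : (x, y) = (e1.symm x).1 := by rw [Prod.ext_iff]; exact ⟨h6.symm, h5.symm⟩
    rw [h7]
    exact (e1.symm x).2

end Gen

section Main

variable {p : ℕ} [Fact p.Prime] {V W : Type} [AddCommGroup V] [AddCommGroup W]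
  [Module (ZMod p) V] [Module (ZMod p) W] [Finite V] [Finite W]

/-- the case that `U` contains a large subspace of one of the two factors -/
lemma caseA {be : V →ₗ[ZMod p] V →ₗ[ZMod p] W} {h : ℕ} (hH : HCond be h) (hN : NCond be h)
    {A V1 V2 : Submodule (ZMod p) V} {KA K2 : Submodule (ZMod p) W} (hA : A ≤ V1)
    (hd : finrank (ZMod p) A + finrank (ZMod p) V2 = finrank (ZMod p) V)
    (hK : finrank (ZMod p) KA + finrank (ZMod p) K2 ≤ finrank (ZMod p) W)
    (h1 : Submodule.map₂ be A V1 ≤ KA) (h2 : Submodule.map₂ be V2 V2 ≤ K2)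
    (ha : h ≤ finrank (ZMod p) A) : KA = ⊤ ∧ K2 = ⊥ := by
  rcases le_or_gt h (finrank (ZMod p) V2) with h3 | h3
  · exfalso
    have h4 := hH A V1 ha (ha.trans (Submodule.finrank_mono hA))
    have h5 := hH V2 V2 h3 h3
    have h6 := Submodule.finrank_mono h1
    have h7 := Submodule.finrank_mono h2
    omega
  · have h4 := hN A (by omega)
    have h5 : Submodule.map₂ be A A ≤ KA := (Submodule.map₂_le_map₂_right hA).trans h1
    rw [h4, top_le_iff] at h5
    subst h5
    refine ⟨rfl, ?_⟩
    rw [finrank_top] at hK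
    exact Submodule.finrank_eq_zero.mp (by omega)

end Main

end Det

section Classify

variable {p : ℕ} [Fact p.Prime] {V W : Type} [AddCommGroup V] [AddCommGroup W]
  [Module (ZMod p) V] [Module (ZMod p) W] [Finite V] [Finite W]

open Det in
/-- ROW R1: the subspaces `U` of `V × V` of dimension `dim V` with few commutators and powers -/
theorem classify (q : Dat p V W) {h : ℕ} (hG : GenCond q.be h) (_h2 : 2 * h ≤ finrank (ZMod p) V)
    (U : Submodule (ZMod p) (V × V)) (hU : finrank (ZMod p) U = finrank (ZMod p) V)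
    (K : Submodule (ZMod p) (W × W)) (hK : finrank (ZMod p) K ≤ finrank (ZMod p) W)
    (hb : ∀ x ∈ U, ∀ y ∈ U, (q.be x.1 y.1, q.be x.2 y.2) ∈ K)
    (hp : ∀ x ∈ U, (q.pw x.1, q.pw x.2) ∈ K) :
    K = Submodule.prod ⊤ ⊥ ∨ K = Submodule.prod ⊥ ⊤ ∨
      ∃ γ : Gam p V W, γ • q = q ∧ K = LinearMap.graph γ.2.toLinearMap := by
  obtain ⟨hH, hN, hI⟩ := hG
  set A := U.comap (LinearMap.inl (ZMod p) V V) with hAdef
  set B := U.comap (LinearMap.inr (ZMod p) V V) with hBdef
  set V1 := U.map (LinearMap.fst (ZMod p) V V) with hV1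
  set V2 := U.map (LinearMap.snd (ZMod p) V V) with hV2
  set KA := K.comap (LinearMap.inl (ZMod p) W W) with hKA
  set KB := K.comap (LinearMap.inr (ZMod p) W W) with hKB
  set K1 := K.map (LinearMap.fst (ZMod p) W W) with hK1
  set K2 := K.map (LinearMap.snd (ZMod p) W W) with hK2
  have dA : finrank (ZMod p) A + finrank (ZMod p) V2 = finrank (ZMod p) V := by
    rw [← hU]; exact finrank_left U
  have dB : finrank (ZMod p) B + finrank (ZMod p) V1 = finrank (ZMod p) V := by
    rw [← hU]; exact finrank_right U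
  have dKA : finrank (ZMod p) KA + finrank (ZMod p) K2 ≤ finrank (ZMod p) W :=
    (finrank_left K).le.trans hK
  have dKB : finrank (ZMod p) KB + finrank (ZMod p) K1 ≤ finrank (ZMod p) W :=
    (finrank_right K).le.trans hK
  have hAV : A ≤ V1 := fun v hv => ⟨(v, 0), hv, rfl⟩
  have hBV : B ≤ V2 := fun v hv => ⟨(0, v), hv, rfl⟩
  have mA : Submodule.map₂ q.be A V1 ≤ KA := by
    rw [Submodule.map₂_le]
    rintro a ha v ⟨x, hx, rfl⟩
    have := hb (a, 0) ha x hx
    rw [map_zero, LinearMap.zero_apply] at this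
    exact this
  have mB : Submodule.map₂ q.be B V2 ≤ KB := by
    rw [Submodule.map₂_le]
    rintro a ha v ⟨x, hx, rfl⟩
    have := hb (0, a) ha x hx
    rw [map_zero, LinearMap.zero_apply] at this
    exact this
  have m1 : Submodule.map₂ q.be V1 V1 ≤ K1 := by
    rw [Submodule.map₂_le]
    rintro a ⟨x, hx, rfl⟩ v ⟨y, hy, rfl⟩
    exact ⟨_, hb x hx y hy, rfl⟩
  have m2 : Submodule.map₂ q.be V2 V2 ≤ K2 := by
    rw [Submodule.map₂_le]
    rintro a ⟨x, hx, rfl⟩ v ⟨y, hy, rfl⟩
    exact ⟨_, hb x hx y hy, rfl⟩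
  rcases le_or_gt h (finrank (ZMod p) A) with ha | ha
  · obtain ⟨e1, e2⟩ := caseA hH hN hAV dA dKA mA m2 ha
    left
    ext ⟨x, y⟩
    rw [Submodule.mem_prod]
    constructor
    · intro hx
      refine ⟨Submodule.mem_top, ?_⟩
      have : y ∈ K2 := ⟨(x, y), hx, rfl⟩
      rwa [e2] at this
    · rintro ⟨-, hy⟩
      have hy' : y = 0 := hy
      subst hy'
      have : x ∈ KA := by rw [e1]; exact Submodule.mem_top
      exact this
  rcases le_or_gt h (finrank (ZMod p) B) with hb' | hb'
  · obtain ⟨e1, e2⟩ := caseA hH hN hBV dB dKB mB m1 hb'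
    right; left
    ext ⟨x, y⟩
    rw [Submodule.mem_prod]
    constructor
    · intro hx
      refine ⟨?_, Submodule.mem_top⟩
      have : x ∈ K1 := ⟨(x, y), hx, rfl⟩
      rwa [e2] at this
    · rintro ⟨hy, -⟩
      have hy' : x = 0 := hy
      subst hy'
      have : y ∈ KB := by rw [e1]; exact Submodule.mem_top
      exact this
  right; right
  have n1 := hN V1 (by omega)
  have n2 := hN V2 (by omega)
  rw [n1, top_le_iff] at m1
  rw [n2, top_le_iff] at m2
  have zA : KA = ⊥ := by
    rw [m2, finrank_top] at dKA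
    exact Submodule.finrank_eq_zero.mp (by omega)
  have zB : KB = ⊥ := by
    rw [m1, finrank_top] at dKB
    exact Submodule.finrank_eq_zero.mp (by omega)
  rw [zA, le_bot_iff] at mA
  rw [zB, le_bot_iff] at mB
  have key : finrank (ZMod p) A = 0 ∧ finrank (ZMod p) B = 0 := by
    rcases le_total (finrank (ZMod p) B) (finrank (ZMod p) A) with hle | hle
    · by_cases hA0 : A = ⊥
      · have : finrank (ZMod p) A = 0 := by rw [hA0]; exact finrank_bot _ _
        omega
      · exact absurd mA (hI A V1 hA0 ha (by omega))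
    · by_cases hB0 : B = ⊥
      · have : finrank (ZMod p) B = 0 := by rw [hB0]; exact finrank_bot _ _
        omega
      · exact absurd mB (hI B V2 hB0 hb' (by omega))
  have tA : A = ⊥ := Submodule.finrank_eq_zero.mp key.1
  have tB : B = ⊥ := Submodule.finrank_eq_zero.mp key.2
  have t1 : V1 = ⊤ := Submodule.eq_top_of_finrank_eq (by omega)
  have t2 : V2 = ⊤ := Submodule.eq_top_of_finrank_eq (by omega)
  obtain ⟨f, hf⟩ := exists_graph U tA tB t1 t2
  obtain ⟨g, hg⟩ := exists_graph K zA zB m1 m2
  refine ⟨(f, g), ?_, ?_⟩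
  · rw [smul_eq_iff]
    constructor
    · intro v v'
      exact ((hg _ _).mp (hb (v, f v) ((hf _ _).mpr rfl) (v', f v') ((hf _ _).mpr rfl))).symm
    · intro v
      exact ((hg _ _).mp (hp (v, f v) ((hf _ _).mpr rfl))).symm
  · ext ⟨x, y⟩
    rw [LinearMap.mem_graph_iff, hg]
    exact eq_comm

end Classify

end Pool.Agent.APG
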