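import Pool.Agent.APG.Greedy

/-!
# Rows R6a, R6b: the number of alternating maps fixed by a pair
-/

set_option autoImplicit false

open Module Submodule

namespace Pool.Agent.APG.Gr

section Alt

variable {K U W : Type*} [Field K] [AddCommGroup U] [Module K U] [AddCommGroup W] [Module K W]

theorem alt_neg {β : U →ₗ[K] U →ₗ[K] W} (h : ∀ v, β v v = 0) (u v : U) : β u v = - β v u := by
  have h1 := h (u + v)
  simp only [map_add, LinearMap.add_apply, h u, h v, zero_add, add_zero] at h1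
  exact eq_neg_of_add_eq_zero_right h1

theorem card_lt_pairs (k : ℕ) : Nat.card {p : Fin k × Fin k // p.1 < p.2} = k.choose 2 := by
  classical
  rw [Nat.card_eq_fintype_card, Fintype.card_subtype]
  have h1 : (Finset.univ.filter (fun p : Fin k × Fin k => p.1 < p.2)).card
      = ∑ j : Fin k, (Finset.univ.filter (fun i : Fin k => i < j)).card := by
    rw [Finset.card_filter]
    rw [Fintype.sum_prod_type_right]
    refine Finset.sum_congr rfl fun j _ => ?_
    rw [Finset.card_filter]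
  rw [h1]
  have h2 : ∀ j : Fin k, (Finset.univ.filter (fun i : Fin k => i < j)).card = (j : ℕ) := by
    intro j
    have : (Finset.univ.filter (fun i : Fin k => i < j)) = Finset.Iio j := by
      ext i; simp
    rw [this, Fin.card_Iio]
  rw [Finset.sum_congr rfl (fun j _ => h2 j), Fin.sum_univ_eq_sum_range (fun i => i) k,
    Finset.sum_range_id, Nat.choose_two_right]

theorem card_alt_le [FiniteDimensional K U] [Finite W] :
    Nat.card {β : U →ₗ[K] U →ₗ[K] W // ∀ v, β v v = 0} ≤
      (Nat.card W) ^ ((finrank K U).choose 2) := by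
  classical
  let b := finBasis K U
  let F : {β : U →ₗ[K] U →ₗ[K] W // ∀ v, β v v = 0} →
      ({p : Fin (finrank K U) × Fin (finrank K U) // p.1 < p.2} → W) :=
    fun β p => β.1 (b p.1.1) (b p.1.2)
  have h1 := Nat.card_le_card_of_injective F (by
    rintro ⟨β, hβ⟩ ⟨γ, hγ⟩ h
    apply Subtype.ext
    refine b.ext fun i => b.ext fun j => ?_
    change β (b i) (b j) = γ (b i) (b j)
    rcases lt_trichotomy i j with hij | hij | hij
    · exact congrFun h ⟨(i, j), hij⟩
    · subst hij
      rw [hβ, hγ]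
    · rw [alt_neg hβ, alt_neg hγ]
      exact congrArg Neg.neg (congrFun h ⟨(j, i), hij⟩))
  refine h1.trans (le_of_eq ?_)
  rw [Nat.card_fun, card_lt_pairs]

end Alt

variable {K V W : Type*} [Field K] [AddCommGroup V] [Module K V] [AddCommGroup W] [Module K W]

/-- the rigidity step: an alternating form fixed by `(φ, κ)` vanishes when it vanishes on
`(S + R) × (S + R)` and on `S × φ S`. -/
theorem fix_eq_zero (φ : V ≃ₗ[K] V) (κ : W →ₗ[K] W) (β : V →ₗ[K] V →ₗ[K] W)
    (halt : ∀ v, β v v = 0) (hfix : ∀ v w, β (φ v) (φ w) = κ (β v w))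
    (S R : Submodule K V) (hR : (S ⊔ S.map φ.toLinearMap) ⊔ R = ⊤)
    (h1 : ∀ u ∈ S ⊔ R, ∀ v ∈ S ⊔ R, β u v = 0)
    (h2 : ∀ u ∈ S, ∀ v ∈ S.map φ.toLinearMap, β u v = 0) : β = 0 := by
  have hdec : ∀ v : V, ∃ s ∈ S, ∃ t ∈ S, ∃ r ∈ R, v = s + φ t + r := by
    intro v
    have hv : v ∈ (S ⊔ S.map φ.toLinearMap) ⊔ R := by rw [hR]; exact Submodule.mem_top
    obtain ⟨x, hx, r, hr, rfl⟩ := Submodule.mem_sup.1 hv
    obtain ⟨s, hs, y, hy, rfl⟩ := Submodule.mem_sup.1 hx
    obtain ⟨t, ht, rfl⟩ := Submodule.mem_map.1 hy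
    exact ⟨s, hs, t, ht, r, hr, rfl⟩
  have hS : ∀ u ∈ S, ∀ v, β u v = 0 := by
    intro u hu v
    obtain ⟨s, hs, t, ht, r, hr, rfl⟩ := hdec v
    rw [map_add, map_add, h1 u (Submodule.mem_sup_left hu) s (Submodule.mem_sup_left hs),
      h1 u (Submodule.mem_sup_left hu) r (Submodule.mem_sup_right hr),
      h2 u hu (φ t) (Submodule.mem_map.2 ⟨t, ht, rfl⟩), add_zero, add_zero]
  have hφS : ∀ u ∈ S, ∀ v, β (φ u) v = 0 := by
    intro u hu v
    have h := hfix u (φ.symm v)
    rw [LinearEquiv.apply_symm_apply, hS u hu, map_zero] at h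
    exact h
  ext u v
  obtain ⟨s, hs, t, ht, r, hr, rfl⟩ := hdec u
  obtain ⟨s', hs', t', ht', r', hr', rfl⟩ := hdec v
  have e1 : β r s' = 0 := by rw [alt_neg halt, hS s' hs', neg_zero]
  have e2 : β r (φ t') = 0 := by rw [alt_neg halt, hφS t' ht', neg_zero]
  have e3 : β r r' = 0 := h1 r (Submodule.mem_sup_right hr) r' (Submodule.mem_sup_right hr')
  simp only [map_add, LinearMap.add_apply, hS s hs, hφS t ht, e1, e2, e3, add_zero,
    LinearMap.zero_apply]

/-- The number of alternating maps fixed by `(φ, κ)`. -/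
theorem card_fix_le [FiniteDimensional K V] [Finite K] [Finite W] (φ : V ≃ₗ[K] V)
    (κ : W →ₗ[K] W) (S : Submodule K V) (hS : Disjoint S (S.map φ.toLinearMap)) :
    Nat.card {β : V →ₗ[K] V →ₗ[K] W // (∀ v, β v v = 0) ∧
        ∀ v w, β (φ v) (φ w) = κ (β v w)} ≤
      (Nat.card W) ^ ((finrank K V - finrank K S).choose 2 + (finrank K S) ^ 2) := by
  classical
  have hfW : FiniteDimensional K W := Module.Finite.of_finite
  obtain ⟨R, hR⟩ := (S ⊔ S.map φ.toLinearMap).exists_isCompl
  have hRtop : (S ⊔ S.map φ.toLinearMap) ⊔ R = ⊤ := hR.sup_eq_top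
  have hdR : finrank K R + 2 * finrank K S = finrank K V := by
    have h := Submodule.finrank_add_eq_of_isCompl hR
    rw [finrank_sup_map φ hS] at h
    omega
  have hdSR : finrank K (S ⊔ R : Submodule K V) = finrank K V - finrank K S := by
    have h := Submodule.finrank_sup_add_finrank_inf_eq S R
    have hd : Disjoint S R := hR.disjoint.mono_left le_sup_left
    rw [hd.eq_bot, finrank_bot, add_zero] at h
    omega
  let A := {β : V →ₗ[K] V →ₗ[K] W // (∀ v, β v v = 0) ∧ ∀ v w, β (φ v) (φ w) = κ (β v w)}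
  let SR : Submodule K V := S ⊔ R
  let B := {β : SR →ₗ[K] SR →ₗ[K] W // ∀ v, β v v = 0}
  let C := S →ₗ[K] (S.map φ.toLinearMap) →ₗ[K] W
  have hfV : Finite V := Module.finite_of_finite K
  have hf1 : Finite (SR →ₗ[K] SR →ₗ[K] W) := Module.finite_of_finite K
  have hf2 : Finite C := Module.finite_of_finite K
  let F : A → B × C := fun β =>
    (⟨(β.1.comp SR.subtype).compl₂ SR.subtype, fun v => β.2.1 v⟩,
      (β.1.comp S.subtype).compl₂ (S.map φ.toLinearMap).subtype)
  have hF : Function.Injective F := by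
    rintro ⟨β, hβ, hβ'⟩ ⟨γ, hγ, hγ'⟩ h
    apply Subtype.ext
    change β = γ
    rw [← sub_eq_zero]
    have hB := congrArg (fun x : B × C => x.1.1) h
    have hC := congrArg (fun x : B × C => x.2) h
    refine fix_eq_zero φ κ (β - γ) ?_ ?_ S R hRtop ?_ ?_
    · intro v
      rw [LinearMap.sub_apply, LinearMap.sub_apply, hβ, hγ, sub_zero]
    · intro v w
      rw [LinearMap.sub_apply, LinearMap.sub_apply, hβ', hγ', LinearMap.sub_apply,
        LinearMap.sub_apply, map_sub]
    · intro u hu v hv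
      have := LinearMap.congr_fun (LinearMap.congr_fun hB ⟨u, hu⟩) ⟨v, hv⟩
      rw [LinearMap.sub_apply, LinearMap.sub_apply, sub_eq_zero]
      exact this
    · intro u hu v hv
      have := LinearMap.congr_fun (LinearMap.congr_fun hC ⟨u, hu⟩) ⟨v, hv⟩
      rw [LinearMap.sub_apply, LinearMap.sub_apply, sub_eq_zero]
      exact this
  have h1 : Nat.card A ≤ Nat.card (B × C) := Nat.card_le_card_of_injective F hF
  refine h1.trans ?_
  rw [Nat.card_prod, pow_add]
  refine Nat.mul_le_mul ?_ (le_of_eq ?_)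
  · have := card_alt_le (K := K) (U := SR) (W := W)
    rwa [show finrank K SR = finrank K V - finrank K S from hdSR] at this
  · change Nat.card (S →ₗ[K] (S.map φ.toLinearMap) →ₗ[K] W) = _
    rw [Module.natCard_eq_pow_finrank (K := K), Module.finrank_linearMap,
      Module.finrank_linearMap, Module.natCard_eq_pow_finrank (K := K) (V := W), ← pow_mul,
      LinearEquiv.finrank_map_eq φ S]
    congr 1
    ring

end Pool.Agent.APG.Gr

namespace Pool.Agent.APG

variable {p : ℕ} [Fact p.Prime] {V W : Type} [AddCommGroup V] [AddCommGroup W]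
  [Module (ZMod p) V] [Module (ZMod p) W] [Finite V] [Finite W] {d m : ℕ}

/-- ROW R6a -/
theorem card_fix (hd : finrank (ZMod p) V = d) (hm : finrank (ZMod p) W = m) (f : V ≃ₗ[ZMod p] V)
    (k : W →ₗ[ZMod p] W) {s : ℕ} (hs : Far f.toLinearMap s) :
    Nat.card {b : Alt p V W // ∀ v v', b.1 (f v) (f v') = k (b.1 v v')} ≤
      p ^ (m * ((d - s).choose 2 + s ^ 2)) := by
  have hfV : FiniteDimensional (ZMod p) V := Module.Finite.of_finite
  have hfW : FiniteDimensional (ZMod p) W := Module.Finite.of_finite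
  obtain ⟨S, rfl, hS⟩ := hs
  have h := Gr.card_fix_le f k S hS
  rw [hd, Module.natCard_eq_pow_finrank (K := ZMod p) (V := W), hm, Nat.card_zmod, ← pow_mul] at h
  have hf3 : Finite (V →ₗ[ZMod p] V →ₗ[ZMod p] W) := Module.finite_of_finite (ZMod p)
  refine le_trans (Nat.card_le_card_of_injective
    (fun b : {b : Alt p V W // ∀ v v', b.1 (f v) (f v') = k (b.1 v v')} =>
      (⟨b.1.1, b.1.2, b.2⟩ : {β : V →ₗ[ZMod p] V →ₗ[ZMod p] W // (∀ v, β v v = 0) ∧
        ∀ v w, β (f v) (f w) = k (β v w)})) ?_) h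
  intro b c hbc
  apply Subtype.ext
  apply Subtype.ext
  exact congrArg (fun x => x.1) hbc

/-- ROW R6b -/
theorem card_fix' (hd : finrank (ZMod p) V = d) (hm : finrank (ZMod p) W = m)
    (f : V →ₗ[ZMod p] V) (k : W ≃ₗ[ZMod p] W) {s : ℕ} (hs : Far k.dualMap.toLinearMap s) :
    Nat.card {b : Alt p V W // ∀ v v', b.1 (f v) (f v') = k (b.1 v v')} ≤
      p ^ ((m - s) * d.choose 2) := by
  have hfV : FiniteDimensional (ZMod p) V := Module.Finite.of_finite
  have hfW : FiniteDimensional (ZMod p) W := Module.Finite.of_finite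
  obtain ⟨S, hSs, hS⟩ := hs
  obtain ⟨R, hR⟩ := (S ⊔ S.map k.dualMap.toLinearMap).exists_isCompl
  have hdd : finrank (ZMod p) (Dual (ZMod p) W) = m := by rw [Subspace.dual_finrank_eq, hm]
  have hdR : finrank (ZMod p) R + 2 * s = m := by
    have h := Submodule.finrank_add_eq_of_isCompl hR
    rw [Gr.finrank_sup_map k.dualMap hS] at h
    omega
  have hdSR : finrank (ZMod p) (S ⊔ R : Submodule (ZMod p) (Dual (ZMod p) W)) = m - s := by
    have h := Submodule.finrank_sup_add_finrank_inf_eq S R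
    have hd : Disjoint S R := hR.disjoint.mono_left le_sup_left
    rw [hd.eq_bot, finrank_bot, add_zero] at h
    omega
  set T : Submodule (ZMod p) (Dual (ZMod p) W) := S ⊔ R with hT
  let Q := W ⧸ T.dualCoannihilator
  have hQ : finrank (ZMod p) Q = m - s := by
    have h1 := Subspace.finrank_add_finrank_dualCoannihilator_eq T
    have h2 := Submodule.finrank_quotient_add_finrank T.dualCoannihilator
    rw [hdSR] at h1
    change finrank (ZMod p) (W ⧸ T.dualCoannihilator) = _
    omega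
  have hfQ : Finite Q := Quotient.finite _
  have hf3 : Finite (V →ₗ[ZMod p] V →ₗ[ZMod p] Q) := Module.finite_of_finite (ZMod p)
  have h := Gr.card_alt_le (K := ZMod p) (U := V) (W := Q)
  rw [hd, Module.natCard_eq_pow_finrank (K := ZMod p) (V := Q), hQ, Nat.card_zmod, ← pow_mul] at h
  refine le_trans (Nat.card_le_card_of_injective
    (fun b : {b : Alt p V W // ∀ v v', b.1 (f v) (f v') = k (b.1 v v')} =>
      (⟨b.1.1.compr₂ T.dualCoannihilator.mkQ, fun v => by
        rw [LinearMap.compr₂_apply, b.1.2 v, map_zero]⟩ :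
        {β : V →ₗ[ZMod p] V →ₗ[ZMod p] Q // (∀ v, β v v = 0)})) ?_) h
  intro b c hbc
  apply Subtype.ext
  apply Subtype.ext
  have h1 : ∀ v v', b.1.1 v v' - c.1.1 v v' ∈ T.dualCoannihilator := by
    intro v v'
    have h2 := LinearMap.congr_fun (LinearMap.congr_fun (congrArg (fun x => x.1) hbc) v) v'
    exact (Submodule.Quotient.eq _).1 h2
  have h3 : ∀ g ∈ T, ∀ v v', g (b.1.1 v v' - c.1.1 v v') = 0 := by
    intro g hg v v'
    exact (Submodule.mem_dualCoannihilator _ ).1 (h1 v v') g hg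
  have h4 : ∀ g ∈ S.map k.dualMap.toLinearMap, ∀ v v', g (b.1.1 v v' - c.1.1 v v') = 0 := by
    intro g hg v v'
    obtain ⟨g0, hg0, rfl⟩ := Submodule.mem_map.1 hg
    change g0 (k (b.1.1 v v' - c.1.1 v v')) = 0
    rw [map_sub, ← b.2, ← c.2]
    exact h3 g0 (Submodule.mem_sup_left hg0) _ _
  have htop : T ⊔ S.map k.dualMap.toLinearMap = ⊤ := by
    rw [hT, sup_assoc, sup_comm R, ← sup_assoc]
    exact hR.sup_eq_top
  ext v v'
  rw [← sub_eq_zero, ← Module.forall_dual_apply_eq_zero_iff (ZMod p)]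
  intro g
  have hg : g ∈ T ⊔ S.map k.dualMap.toLinearMap := by rw [htop]; exact Submodule.mem_top
  obtain ⟨g1, hg1, g2, hg2, rfl⟩ := Submodule.mem_sup.1 hg
  rw [LinearMap.add_apply, h3 g1 hg1, h4 g2 hg2, add_zero]

end Pool.Agent.APG
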