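import Pool.Agent.APG.Basic
import Pool.Agent.APG.Alt

/-!
# The data fixed by scalars
-/

set_option autoImplicit false

open Module

namespace Pool.Agent.APG

section Scalar
variable {p : ℕ} [Fact p.Prime] {V W : Type} [AddCommGroup V] [AddCommGroup W]
  [Module (ZMod p) V] [Module (ZMod p) W] [Finite V] [Finite W] {d m : ℕ}

lemma fs_card_dat_all (hd : finrank (ZMod p) V = d) (hm : finrank (ZMod p) W = m) :
    Nat.card (Dat p V W) = p ^ (m * d.choose 2) * p ^ (m * d) := by
  have h := card_dat (p := p) (V := V) (W := W) hd hm (fun _ => True)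
  have h1 : Nat.card {q : Dat p V W // True} = Nat.card (Dat p V W) :=
    Nat.card_congr (Equiv.subtypeUnivEquiv fun _ => trivial)
  have h2 : Nat.card {b : Alt p V W // True} = Nat.card (Alt p V W) :=
    Nat.card_congr (Equiv.subtypeUnivEquiv fun _ => trivial)
  rw [h1, h2, card_alt hd hm] at h
  exact h

lemma fs_pw_zero (q : Dat p V W) : q.pw 0 = 0 := by
  have h := q.pw_add 0 0
  rw [add_zero, map_zero, smul_zero, add_zero] at h
  exact left_eq_add.1 h

lemma fs_pw_nsmul (q : Dat p V W) (k : ℕ) (v : V) : q.pw (k • v) = k • q.pw v := by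
  induction k with
  | zero => rw [zero_smul, zero_smul, fs_pw_zero]
  | succ k ih =>
    rw [succ_nsmul, q.pw_add, ih, map_nsmul, LinearMap.smul_apply, q.alt, smul_zero, smul_zero,
      add_zero, succ_nsmul]

lemma fs_pw_smul (q : Dat p V W) (k : ZMod p) (v : V) : q.pw (k • v) = k • q.pw v := by
  have h1 : ∀ v : V, k • v = k.val • v := fun v => by
    rw [← Nat.cast_smul_eq_nsmul (ZMod p), ZMod.natCast_zmod_val]
  have h2 : ∀ v : W, k • v = k.val • v := fun v => by
    rw [← Nat.cast_smul_eq_nsmul (ZMod p), ZMod.natCast_zmod_val]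
  rw [h1, h2, fs_pw_nsmul]

/-- ROW R6c: the scalars -/
theorem card_fix_scalar (hd : finrank (ZMod p) V = d) (hm : finrank (ZMod p) W = m)
    (h2 : 2 ≤ d) (γ : Gam p V W) (hγ : γ ≠ 1) {lam mu : ZMod p} (h1 : ∀ v, γ.1 v = lam • v)
    (h3 : ∀ w, γ.2 w = mu • w) :
    Nat.card {q : Dat p V W // γ • q = q} * p ^ (m * (d - 1)) ≤ Nat.card (Dat p V W) := by
  have hp0 : 0 < p := (Fact.out : p.Prime).pos
  have hV : ∃ v : V, v ≠ 0 := by
    by_contra h
    push Not at h
    haveI : Subsingleton V := ⟨fun a b => by rw [h a, h b]⟩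
    rw [Module.finrank_zero_of_subsingleton] at hd
    omega
  have hlam : lam ≠ 0 := by
    rintro rfl
    obtain ⟨v, hv⟩ := hV
    have h := h1 v
    rw [zero_smul] at h
    exact hv (by simpa using h)
  by_cases hmu : lam * lam = mu
  · -- the power map is zero
    have hl1 : lam ≠ 1 := by
      rintro rfl
      apply hγ
      apply Prod.ext
      · apply LinearEquiv.ext
        intro v
        rw [h1, one_smul]
        rfl
      · apply LinearEquiv.ext
        intro w
        rw [h3, ← hmu, one_mul, one_smul]
        rfl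
    have hpw : ∀ q : Dat p V W, γ • q = q → ∀ v, q.pw v = 0 := by
      intro q hq v
      have h := ((smul_eq_iff γ q).1 hq).2 v
      rw [h1, h3, fs_pw_smul, ← hmu, mul_smul] at h
      have h4 : lam • ((1 - lam) • q.pw v) = 0 := by
        rw [sub_smul, one_smul, smul_sub, ← h, sub_self]
      rcases smul_eq_zero.1 h4 with h5 | h5
      · exact absurd h5 hlam
      rcases smul_eq_zero.1 h5 with h6 | h6
      · exact absurd (sub_eq_zero.1 h6).symm hl1
      · exact h6
    have hle : Nat.card {q : Dat p V W // γ • q = q} ≤ Nat.card (Alt p V W) := by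
      refine Nat.card_le_card_of_injective
        (fun q => (⟨q.1.be, q.1.alt⟩ : Alt p V W)) ?_
      intro q q' h
      have hb : q.1.be = q'.1.be := congrArg Subtype.val h
      apply Subtype.ext
      apply Dat.ext hb
      funext v
      rw [hpw q.1 q.2, hpw q'.1 q'.2]
    calc Nat.card {q : Dat p V W // γ • q = q} * p ^ (m * (d - 1))
        ≤ p ^ (m * d.choose 2) * p ^ (m * d) := by
          rw [card_alt hd hm] at hle
          exact Nat.mul_le_mul hle (Nat.pow_le_pow_right hp0 (Nat.mul_le_mul_left m (by omega)))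
      _ = Nat.card (Dat p V W) := (fs_card_dat_all hd hm).symm
  · -- the commutator map is zero
    have hbe : ∀ q : Dat p V W, γ • q = q → q.be = 0 := by
      intro q hq
      apply LinearMap.ext
      intro v
      apply LinearMap.ext
      intro v'
      have h := ((smul_eq_iff γ q).1 hq).1 v v'
      rw [h1, h1, h3, map_smul, map_smul, LinearMap.smul_apply, ← mul_smul] at h
      have h4 : (lam * lam - mu) • q.be v v' = 0 := by
        rw [sub_smul, h, sub_self]
      rcases smul_eq_zero.1 h4 with h5 | h5
      · exact absurd (sub_eq_zero.1 h5) hmu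
      · rw [h5]
        rfl
    have hle : Nat.card {q : Dat p V W // γ • q = q} ≤ p ^ (m * d) := by
      have hc := card_dat (p := p) (V := V) (W := W) hd hm (fun b => b = 0)
      have h5 : Nat.card {b : Alt p V W // b.1 = 0} = 1 := by
        rw [Nat.card_eq_one_iff_unique]
        refine ⟨⟨?_⟩, ⟨⟨0, rfl⟩⟩⟩
        intro a b
        apply Subtype.ext
        apply Subtype.ext
        rw [a.2, b.2]
      rw [h5, one_mul] at hc
      rw [← hc]
      refine Nat.card_le_card_of_injective
        (fun q => (⟨q.1, hbe q.1 q.2⟩ : {q : Dat p V W // q.be = 0})) ?_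
      intro q q' h
      have h6 := congrArg Subtype.val h
      exact Subtype.ext h6
    have hch : d - 1 ≤ d.choose 2 := by
      rw [Nat.choose_two_right]
      obtain ⟨k, rfl⟩ : ∃ k, d = k + 2 := ⟨d - 2, by omega⟩
      rw [Nat.le_div_iff_mul_le (by norm_num)]
      have : k + 2 - 1 = k + 1 := by omega
      rw [this]
      nlinarith
    calc Nat.card {q : Dat p V W // γ • q = q} * p ^ (m * (d - 1))
        ≤ p ^ (m * d) * p ^ (m * d.choose 2) :=
          Nat.mul_le_mul hle (Nat.pow_le_pow_right hp0 (Nat.mul_le_mul_left m hch))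
      _ = Nat.card (Dat p V W) := by rw [fs_card_dat_all hd hm, mul_comm]

end Scalar

end Pool.Agent.APG
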