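import Pool.Agent.APG.Basic
import Pool.Agent.APG.CntBase44
import Pool.Agent.APG.Fix
import Pool.Agent.APG.FixSc

/-!
# Row R6d: the sum over all nontrivial elements
-/

set_option autoImplicit false

open Module

namespace Pool.Agent.APG.FS

lemma card_pairs_le {A B : Type} [Finite A] [Finite B] (R : A → Prop) (Q : A → B → Prop)
    (c M N : ℕ) (h : ∀ a, R a → Nat.card {b // Q a b} * c ≤ N) (hM : Nat.card {a // R a} ≤ M) :
    Nat.card {y : A × B // R y.1 ∧ Q y.1 y.2} * c ≤ M * N := by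
  classical
  have : Fintype {a // R a} := Fintype.ofFinite _
  let e : {y : A × B // R y.1 ∧ Q y.1 y.2} ≃ (Σ a : {a // R a}, {b // Q a.1 b}) :=
    { toFun := fun y => ⟨⟨y.1.1, y.2.1⟩, ⟨y.1.2, y.2.2⟩⟩
      invFun := fun z => ⟨(z.1.1, z.2.1), z.1.2, z.2.2⟩
      left_inv := fun y => rfl
      right_inv := fun z => rfl }
  rw [Nat.card_congr e, Nat.card_sigma, Finset.sum_mul]
  calc ∑ a : {a // R a}, Nat.card {b // Q a.1 b} * c ≤ ∑ _a : {a // R a}, N :=
        Finset.sum_le_sum fun a _ => h a.1 a.2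
    _ = Nat.card {a // R a} * N := by
        rw [Finset.sum_const, smul_eq_mul, Finset.card_univ, Nat.card_eq_fintype_card]
    _ ≤ M * N := Nat.mul_le_mul_right _ hM

lemma far_le {k E : Type} [Field k] [AddCommGroup E] [Module k E] [FiniteDimensional k E]
    {f : E ≃ₗ[k] E} {s : ℕ} (h : Far f.toLinearMap s) : 2 * s ≤ finrank k E := by
  obtain ⟨S, hS, hd⟩ := h
  have h1 := Submodule.finrank_add_finrank_le_of_disjoint hd
  have h2 : finrank k (S.map f.toLinearMap) = finrank k S := LinearEquiv.finrank_map_eq f S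
  omega

/-- the numerical part -/
lemma numeric {d m s s' : ℕ} (hd0 : 10000 ≤ d) (h4 : d ≤ 4 * m) (h5 : m ≤ d)
    (hs : 2 * s ≤ d) (hs' : 2 * s' ≤ m) (h0 : s ≠ 0 ∨ s' ≠ 0) :
    (m * ((d - s).choose 2 + s ^ 2) + m * d + (4 * s * d + 1 + (4 * s' * m + 1) + 5 * d) ≤
      m * d.choose 2 + m * d) ∨
    ((m - s') * d.choose 2 + m * d + (4 * s * d + 1 + (4 * s' * m + 1) + 5 * d) ≤
      m * d.choose 2 + m * d) := by
  have hc : ∀ n : ℕ, (n.choose 2 : ℤ) * 2 = n * (n - 1) := by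
    intro n
    rcases n with _ | n
    · simp
    · have h := Nat.triangle_succ n
      have h1 := Nat.choose_two_right (n + 1)
      have h2 : (n + 1) * (n + 1 - 1) / 2 * 2 = (n + 1) * (n + 1 - 1) :=
        Nat.div_mul_cancel (Nat.even_mul_pred_self (n + 1)).two_dvd
      rw [← h1] at h2
      have h3 : (((n + 1).choose 2 * 2 : ℕ) : ℤ) = (((n + 1) * (n + 1 - 1) : ℕ) : ℤ) := by rw [h2]
      push_cast at h3
      rw [h3]
      simp
  by_contra hcon
  rw [not_or, not_le, not_le] at hcon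
  obtain ⟨a1, a2⟩ := hcon
  obtain ⟨c, hcd⟩ : ∃ c, d.choose 2 = c := ⟨_, rfl⟩
  obtain ⟨c', hcd'⟩ : ∃ c', (d - s).choose 2 = c' := ⟨_, rfl⟩
  have e1 := hc d
  have e2 := hc (d - s)
  rw [hcd] at e1 a1 a2
  rw [hcd'] at e2 a1
  obtain ⟨u, rfl⟩ : ∃ u, d = s + u := ⟨d - s, by omega⟩
  rw [show s + u - s = u by omega] at e2
  obtain ⟨v, rfl⟩ : ∃ v, m = s' + v := ⟨m - s', by omega⟩
  rw [show s' + v - s' = v by omega] at a2
  zify at a1 a2 hd0 h4 h5 hs hs'
  push_cast at e1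
  -- gains
  set D : ℤ := (s : ℤ) + u with hD
  set M : ℤ := (s' : ℤ) + v with hM
  have g1 : (M : ℤ) * (c - c' - s ^ 2) < 4 * s * D + 1 + (4 * s' * M + 1) + 5 * D := by nlinarith
  have g2 : (s' : ℤ) * c < 4 * s * D + 1 + (4 * s' * M + 1) + 5 * D := by nlinarith
  have k1 : 600 * s * D ≤ M * (c - c' - s ^ 2) := by
    have k2 : (s : ℤ) * (D - 2) ≤ 4 * (c - c' - s ^ 2) := by nlinarith
    have k3 : (0 : ℤ) ≤ s * (D - 2) := mul_nonneg (by positivity) (by linarith)
    have k4 : D * (s * (D - 2)) ≤ 4 * M * (4 * (c - c' - s ^ 2)) :=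
      mul_le_mul h4 k2 k3 (by linarith)
    have k5 : (0 : ℤ) ≤ D * s := mul_nonneg (by linarith) (by positivity)
    nlinarith
  have k2 : 4999 * s' * D ≤ s' * c := by
    have k3 : 4999 * D ≤ c := by nlinarith
    have k4 : (0 : ℤ) ≤ s' := by positivity
    nlinarith
  have k3 : (1 : ℤ) ≤ s + s' := by
    have : 1 ≤ s + s' := by omega
    exact_mod_cast this
  nlinarith

end Pool.Agent.APG.FS

namespace Pool.Agent.APG

section Count
variable {p : ℕ} [Fact p.Prime] {V W : Type} [AddCommGroup V] [AddCommGroup W]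
  [Module (ZMod p) V] [Module (ZMod p) W] [Finite V] [Finite W] {d m : ℕ}

lemma card_gamNear (hd : finrank (ZMod p) V = d) (hm : finrank (ZMod p) W = m)
    (h2 : 2 ≤ d) (h2' : 2 ≤ m) (s s' : ℕ) :
    Nat.card {γ : Gam p V W // Near γ.1.toLinearMap s ∧ Near γ.2.dualMap.toLinearMap s'} ≤
      p ^ (4 * s * d + 1 + (4 * s' * m + 1)) := by
  have hf : Finite (Dual (ZMod p) W) := Module.finite_of_finite (ZMod p)
  have h1 := card_near (p := p) hd h2 s
  have h3 := card_near (p := p) (E := Dual (ZMod p) W) (d := m)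
    ((Subspace.dual_finrank_eq).trans hm) h2' s'
  rw [pow_add]
  refine le_trans ?_ (Nat.mul_le_mul h1 h3)
  rw [← Nat.card_prod]
  refine Nat.card_le_card_of_injective
    (fun γ : {γ : Gam p V W // Near γ.1.toLinearMap s ∧ Near γ.2.dualMap.toLinearMap s'} =>
      ((⟨γ.1.1, γ.2.1⟩, ⟨γ.1.2.dualMap, γ.2.2⟩) :
        {f : V ≃ₗ[ZMod p] V // Near f.toLinearMap s} ×
        {f : Dual (ZMod p) W ≃ₗ[ZMod p] Dual (ZMod p) W // Near f.toLinearMap s'})) ?_
  rintro ⟨⟨a, b⟩, h⟩ ⟨⟨a', b'⟩, h'⟩ hh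
  rw [Prod.mk.injEq, Subtype.mk.injEq, Subtype.mk.injEq] at hh
  obtain ⟨r1, r2⟩ := hh
  have r3 : b = b' := by
    apply LinearEquiv.ext
    intro w
    rw [← sub_eq_zero, ← Module.forall_dual_apply_eq_zero_iff (ZMod p)]
    intro φ
    have r4 := LinearMap.congr_fun (LinearEquiv.congr_fun r2 φ) w
    rw [LinearEquiv.dualMap_apply, LinearEquiv.dualMap_apply] at r4
    rw [map_sub, r4, sub_self]
  have r5 : a = a' := r1
  subst r3 r5
  rfl

/-- the elements which are not scalars, and the scalars -/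
lemma fix_le (hd : finrank (ZMod p) V = d) (hm : finrank (ZMod p) W = m)
    (hd0 : 10000 ≤ d) (h4 : d ≤ 4 * m) (h5 : m ≤ d) (γ : Gam p V W) (hγ : γ ≠ 1) {s s' : ℕ}
    (h1 : Far γ.1.toLinearMap s) (h2 : Far γ.2.dualMap.toLinearMap s')
    (h3 : Near γ.1.toLinearMap s) (h6 : Near γ.2.dualMap.toLinearMap s') :
    Nat.card {q : Dat p V W // γ • q = q} * p ^ (4 * s * d + 1 + (4 * s' * m + 1) + 5 * d) ≤
      Nat.card (Dat p V W) := by
  have hp : 1 < p := (Fact.out : p.Prime).one_lt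
  have hf : Finite (Dual (ZMod p) W) := Module.finite_of_finite (ZMod p)
  have hcD : Nat.card (Dat p V W) = p ^ (m * d.choose 2 + m * d) := by
    have h := card_dat (p := p) hd hm (fun _ => True)
    have e1 : Nat.card {q : Dat p V W // True} = Nat.card (Dat p V W) :=
      Nat.card_congr (Equiv.subtypeUnivEquiv fun _ => trivial)
    have e2 : Nat.card {b : Alt p V W // True} = Nat.card (Alt p V W) :=
      Nat.card_congr (Equiv.subtypeUnivEquiv fun _ => trivial)
    rw [e1] at h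
    rw [h, e2, card_alt hd hm, pow_add]
  by_cases h0 : s ≠ 0 ∨ s' ≠ 0
  · have hA : Nat.card {q : Dat p V W // γ • q = q} ≤ Nat.card {b : Alt p V W //
        ∀ v v', b.1 (γ.1 v) (γ.1 v') = γ.2 (b.1 v v')} * p ^ (m * d) := by
      have h := card_dat (p := p) hd hm (fun b => ∀ v v', b (γ.1 v) (γ.1 v') = γ.2 (b v v'))
      refine le_trans ?_ h.le
      refine Nat.card_le_card_of_injective (fun q : {q : Dat p V W // γ • q = q} =>
        (⟨q.1, ((smul_eq_iff γ q.1).mp q.2).1⟩ : {q : Dat p V W //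
          ∀ v v', q.be (γ.1 v) (γ.1 v') = γ.2 (q.be v v')})) ?_
      rintro ⟨a, ha⟩ ⟨b, hb⟩ hab
      rw [Subtype.mk.injEq] at hab
      subst hab
      rfl
    have hs := FS.far_le h1
    have hs' := FS.far_le h2
    rw [hd] at hs
    rw [Subspace.dual_finrank_eq, hm] at hs'
    rcases FS.numeric hd0 h4 h5 hs hs' h0 with hn | hn
    · have hB := card_fix (p := p) hd hm γ.1 γ.2.toLinearMap h1
      calc _ ≤ p ^ (m * ((d - s).choose 2 + s ^ 2)) * p ^ (m * d) *
            p ^ (4 * s * d + 1 + (4 * s' * m + 1) + 5 * d) :=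
            Nat.mul_le_mul_right _ (hA.trans (Nat.mul_le_mul_right _ hB))
        _ ≤ _ := by
            rw [hcD, ← pow_add, ← pow_add]
            exact Nat.pow_le_pow_right hp.le hn
    · have hB := card_fix' (p := p) hd hm γ.1.toLinearMap γ.2 h2
      calc _ ≤ p ^ ((m - s') * d.choose 2) * p ^ (m * d) *
            p ^ (4 * s * d + 1 + (4 * s' * m + 1) + 5 * d) :=
            Nat.mul_le_mul_right _ (hA.trans (Nat.mul_le_mul_right _ hB))
        _ ≤ _ := by
            rw [hcD, ← pow_add, ← pow_add]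
            exact Nat.pow_le_pow_right hp.le hn
  · rw [not_or, not_ne_iff, not_ne_iff] at h0
    obtain ⟨rfl, rfl⟩ := h0
    obtain ⟨lam, hl⟩ := near_zero (by omega) h3
    obtain ⟨mu, hmu⟩ := near_zero (by rw [Subspace.dual_finrank_eq]; omega) h6
    have hS := card_fix_scalar (p := p) hd hm (by omega) γ hγ (lam := lam) (mu := mu)
      (fun v => LinearMap.congr_fun hl v) (by
        intro w
        rw [← sub_eq_zero, ← Module.forall_dual_apply_eq_zero_iff (ZMod p)]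
        intro φ
        have r4 := LinearMap.congr_fun (LinearMap.congr_fun hmu φ) w
        have r5 : φ (γ.2 w) = mu • φ w := r4
        rw [map_sub, map_smul, r5, sub_self])
    refine le_trans (Nat.mul_le_mul_left _ (Nat.pow_le_pow_right hp.le ?_)) hS
    obtain ⟨e, rfl⟩ : ∃ e, d = e + 1 := ⟨d - 1, by omega⟩
    rw [Nat.add_sub_cancel]
    have h9 : 2500 ≤ m := by omega
    have h10 : 2500 * e ≤ m * e := Nat.mul_le_mul_right e h9
    rw [mul_zero, zero_mul, zero_mul]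
    omega

/-- ROW R6d (file FixSum.lean, uses R3, R4, R6a-c): the sum over all `γ ≠ 1` -/
theorem card_fix_sum (hd : finrank (ZMod p) V = d) (hm : finrank (ZMod p) W = m)
    (hd0 : 10000 ≤ d) (h4 : d ≤ 4 * m) (h5 : m ≤ d) :
    Nat.card {y : Gam p V W × Dat p V W // y.1 ≠ 1 ∧ y.1 • y.2 = y.2} * p ^ (3 * d) ≤
      Nat.card (Dat p V W) := by
  have hp : 1 < p := (Fact.out : p.Prime).one_lt
  have hf : Finite (Dual (ZMod p) W) := Module.finite_of_finite (ZMod p)
  have hub := union_bound (B := Gam p V W × Dat p V W) (I := Fin (d + 1) × Fin (m + 1))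
    (fun y => y.1 ≠ 1 ∧ y.1 • y.2 = y.2)
    (fun i y => (y.1 ≠ 1 ∧ (Far y.1.1.toLinearMap i.1 ∧ Far y.1.2.dualMap.toLinearMap i.2) ∧
      Near y.1.1.toLinearMap i.1 ∧ Near y.1.2.dualMap.toLinearMap i.2) ∧ y.1 • y.2 = y.2) (by
      rintro ⟨γ, q⟩ ⟨hγ, hq⟩
      obtain ⟨s, hs, hs'⟩ := greedy γ.1
      obtain ⟨t, ht, ht'⟩ := greedy γ.2.dualMap
      have e1 := FS.far_le hs
      have e2 := FS.far_le ht
      rw [hd] at e1
      rw [Subspace.dual_finrank_eq, hm] at e2
      exact ⟨(⟨s, by omega⟩, ⟨t, by omega⟩), ⟨hγ, ⟨hs, ht⟩, hs', ht'⟩, hq⟩)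
    (p ^ (5 * d)) (Nat.card (Dat p V W)) (by
      rintro ⟨s, t⟩
      have h1 := FS.card_pairs_le (A := Gam p V W) (B := Dat p V W)
        (fun γ => γ ≠ 1 ∧ (Far γ.1.toLinearMap s ∧ Far γ.2.dualMap.toLinearMap t) ∧
          Near γ.1.toLinearMap s ∧ Near γ.2.dualMap.toLinearMap t)
        (fun γ q => γ • q = q) (p ^ (4 * s.1 * d + 1 + (4 * t.1 * m + 1) + 5 * d))
        (p ^ (4 * s.1 * d + 1 + (4 * t.1 * m + 1))) (Nat.card (Dat p V W))
        (fun γ hγ => fix_le hd hm hd0 h4 h5 γ hγ.1 hγ.2.1.1 hγ.2.1.2 hγ.2.2.1 hγ.2.2.2)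
        (le_trans (Nat.card_le_card_of_injective (fun γ : {γ : Gam p V W // γ ≠ 1 ∧
          (Far γ.1.toLinearMap s ∧ Far γ.2.dualMap.toLinearMap t) ∧
          Near γ.1.toLinearMap s ∧ Near γ.2.dualMap.toLinearMap t} =>
          (⟨γ.1, γ.2.2.2⟩ : {γ : Gam p V W // Near γ.1.toLinearMap s ∧
            Near γ.2.dualMap.toLinearMap t})) (by
              rintro ⟨a, ha⟩ ⟨b, hb⟩ hab
              rw [Subtype.mk.injEq] at hab
              subst hab
              rfl)) (card_gamNear hd hm (by omega) (by omega) s t))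
      rw [pow_add _ _ (5 * d), mul_comm (p ^ (4 * s.1 * d + 1 + (4 * t.1 * m + 1))) (p ^ (5 * d)),
        ← mul_assoc, mul_comm _ (p ^ (4 * s.1 * d + 1 + (4 * t.1 * m + 1)))] at h1
      exact Nat.le_of_mul_le_mul_left h1 (by positivity))
  rw [Nat.card_prod, Nat.card_fin, Nat.card_fin] at hub
  have hN : (d + 1) * (m + 1) ≤ p ^ (2 * d) := by
    have e2 : d + 1 ≤ p ^ d := (Nat.lt_two_pow_self (n := d)).trans_le (Nat.pow_le_pow_left hp _)
    rw [two_mul, pow_add]
    exact Nat.mul_le_mul e2 (le_trans (by omega) e2)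
  have h8 : p ^ (2 * d) * (Nat.card {y : Gam p V W × Dat p V W // y.1 ≠ 1 ∧ y.1 • y.2 = y.2} *
      p ^ (3 * d)) ≤ p ^ (2 * d) * Nat.card (Dat p V W) := by
    calc _ = Nat.card {y : Gam p V W × Dat p V W // y.1 ≠ 1 ∧ y.1 • y.2 = y.2} *
          p ^ (5 * d) := by
          rw [show 5 * d = 2 * d + 3 * d by ring, pow_add]
          ring
      _ ≤ _ := hub
      _ ≤ _ := Nat.mul_le_mul_right _ hN
  exact Nat.le_of_mul_le_mul_left h8 (by positivity)

end Count

end Pool.Agent.APG
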