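import Pool.Agent.APG.Defs
import Pool.Agent.Helper60.PCP.Frat

/-!
# The Frattini subgroup of a group with given data, and the data of a group of Frattini class 2
-/

set_option autoImplicit false

open Module

namespace Pool.Agent.APG

open scoped commutatorElement

section Basics

variable {p : ℕ} {V W : Type} [AddCommGroup V] [AddCommGroup W] [Module (ZMod p) V]
  [Module (ZMod p) W] {q : Dat p V W} {P : Type} [Group P]

lemma p_smul {A : Type} [AddCommGroup A] [Module (ZMod p) A] (a : A) : (p : ℕ) • a = 0 := by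
  rw [← Nat.cast_smul_eq_nsmul (ZMod p) p a, ZMod.natCast_self, zero_smul]

lemma Ext.pr_inc (E : Ext q P) (w : Multiplicative W) : E.pr (E.inc w) = 1 := by
  have h : E.inc w ∈ E.pr.ker := by
    rw [E.exact]
    exact ⟨w, rfl⟩
  exact h

lemma Ext.inc_central (E : Ext q P) (w : Multiplicative W) (x : P) :
    x * E.inc w = E.inc w * x := by
  have h := E.comm x (E.inc w)
  rw [E.pr_inc] at h
  have h1 : q.be (E.pr x).toAdd (1 : Multiplicative V).toAdd = 0 := by
    rw [toAdd_one, map_zero]
  rw [h1, ofAdd_zero, map_one] at h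
  have h2 : x * E.inc w * x⁻¹ = E.inc w := mul_inv_eq_one.mp h
  have h3 : x * E.inc w = E.inc w * x := mul_inv_eq_iff_eq_mul.mp h2
  exact h3

lemma Ext.inc_pow (E : Ext q P) (w : Multiplicative W) : (E.inc w) ^ p = 1 := by
  rw [← map_pow]
  have : w ^ p = 1 := by
    apply Multiplicative.toAdd.injective
    rw [toAdd_pow, toAdd_one]
    exact p_smul _
  rw [this, map_one]

lemma Ext.card_eq (E : Ext q P) : Nat.card P = Nat.card V * Nat.card W := by
  have h1 := E.pr.ker.card_mul_index
  rw [Subgroup.index_ker, MonoidHom.range_eq_top.mpr E.surj, E.exact] at h1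
  rw [← h1, Subgroup.card_top, mul_comm]
  congr 1
  exact (Nat.card_congr (Equiv.ofInjective _ E.inj)).symm

end Basics

section Frat

variable {p : ℕ} [Fact p.Prime] {V W : Type} [AddCommGroup V] [AddCommGroup W]
  [Module (ZMod p) V] [Module (ZMod p) W]

lemma card_mod (A : Type) [AddCommGroup A] [Module (ZMod p) A] [Finite A] :
    Nat.card A = p ^ finrank (ZMod p) A := by
  have : Module.Finite (ZMod p) A := Module.Finite.of_finite
  rw [Module.natCard_eq_pow_finrank (K := ZMod p), Nat.card_zmod]

/-- ROW R8f -/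
theorem Ext.fratTwo [Finite V] [Finite W] {q : Dat p V W} {P : Type} [Group P] (E : Ext q P) :
    FratTwo p (finrank (ZMod p) V + finrank (ZMod p) W) P := by
  have hp := (Fact.out : p.Prime)
  have hcard : Nat.card P = p ^ (finrank (ZMod p) V + finrank (ZMod p) W) := by
    rw [E.card_eq, card_mod (p := p) V, card_mod (p := p) W, pow_add]
  have hfin : Finite P := Nat.finite_of_card_ne_zero (by rw [hcard]; exact pow_ne_zero _ hp.ne_zero)
  have hP : IsPGroup p P := IsPGroup.of_card hcard
  have hle : frattini P ≤ E.inc.range := by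
    rw [Helper60.PCP.frattini_eq_Vp hP]
    unfold Helper60.PCP.Vp
    rw [Subgroup.closure_le]
    rintro x (⟨y, rfl⟩ | ⟨y, z, rfl⟩)
    · exact ⟨_, (E.pow y).symm⟩
    · exact ⟨_, (E.comm y z).symm⟩
  refine ⟨hcard, ?_, ?_⟩
  · intro x hx
    obtain ⟨w, rfl⟩ := hle hx
    rw [Subgroup.mem_center_iff]
    intro y
    exact E.inc_central w y
  · intro x hx
    obtain ⟨w, rfl⟩ := hle hx
    exact E.inc_pow w

end Frat

section Build

/-- the power of a product in a group of class 2 -/
lemma mul_pow_class_two {P : Type} [Group P] (x y z : P) (hz : y * x = z * (x * y))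
    (hzx : z * x = x * z) (hzy : z * y = y * z) (n : ℕ) :
    (x * y) ^ n = x ^ n * y ^ n * z ^ (n.choose 2) := by
  have hx : Commute z x := hzx
  have hy : Commute z y := hzy
  have h1 : ∀ n : ℕ, y ^ n * x = z ^ n * (x * y ^ n) := by
    intro n
    induction n with
    | zero => simp
    | succ n ih =>
      have e1 : y ^ (n + 1) * x = y * (y ^ n * x) := by rw [pow_succ', mul_assoc]
      rw [e1, ih]
      have e2 : y * (z ^ n * (x * y ^ n)) = z ^ n * (y * x) * y ^ n := by
        rw [← mul_assoc, ← (hy.pow_left n).eq]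
        simp only [mul_assoc]
      rw [e2, hz]
      simp only [pow_succ, mul_assoc]
      rw [← (Commute.refl y).pow_left n |>.eq]
  induction n with
  | zero => simp
  | succ n ih =>
    have hzn : Commute (z ^ (n.choose 2)) (x * y) := (hx.mul_right hy).pow_left _
    rw [pow_succ (x * y) n, ih]
    have e1 : x ^ n * y ^ n * z ^ (n.choose 2) * (x * y)
        = x ^ n * (y ^ n * x) * y * z ^ (n.choose 2) := by
      rw [mul_assoc (x ^ n * y ^ n), hzn.eq]
      simp only [mul_assoc]
    rw [e1, h1]
    have hc : (n + 1).choose 2 = n + n.choose 2 := by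
      rw [Nat.choose_succ_succ' n 1, Nat.choose_one_right]
    rw [hc, pow_add z n]
    have e2 : Commute (z ^ n) (x ^ n) := (hx.pow_left n).pow_right n
    have e3 : x ^ n * (z ^ n * (x * y ^ n)) * y * z ^ (n.choose 2)
        = z ^ n * (x ^ n * x * (y ^ n * y)) * z ^ (n.choose 2) := by
      rw [← mul_assoc (x ^ n) (z ^ n), ← e2.eq]
      simp only [mul_assoc]
    have e4 : Commute (z ^ n) (x ^ n * x * (y ^ n * y)) := by
      have a : Commute (z ^ n) x := hx.pow_left n
      have b : Commute (z ^ n) y := hy.pow_left n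
      exact ((a.pow_right n).mul_right a).mul_right ((b.pow_right n).mul_right b)
    rw [e3, e4.eq, ← pow_succ, ← pow_succ]
    simp only [mul_assoc]

variable {p : ℕ} [Fact p.Prime]

lemma choose_smul_neg {W : Type} [AddCommGroup W] [Module (ZMod p) W] (w : W) :
    (p.choose 2) • (-w) = (p.choose 2) • w := by
  have h : (p.choose 2) • w + (p.choose 2) • w = 0 := by
    rw [← add_smul]
    have h2 : p.choose 2 + p.choose 2 = (p - 1) * p := by
      have h3 := Nat.choose_two_right p
      have h4 : 2 * (p * (p - 1) / 2) = p * (p - 1) :=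
        Nat.mul_div_cancel' (Nat.even_mul_pred_self p).two_dvd
      rw [← h3] at h4
      rw [← two_mul, h4, mul_comm]
    rw [h2, mul_smul, p_smul (p := p), smul_zero]
  rw [smul_neg]
  exact neg_eq_of_add_eq_zero_left h

/-- the data from the two homomorphisms -/
theorem exists_dat_of_hom {V W P : Type} [AddCommGroup V] [AddCommGroup W] [Module (ZMod p) V]
    [Module (ZMod p) W] [Group P] (pr : P →* Multiplicative V) (inc : Multiplicative W →* P)
    (hs : Function.Surjective pr) (hi : Function.Injective inc) (he : pr.ker = inc.range)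
    (hc : ∀ w x, x * inc w = inc w * x)
    (hgen : inc.range ≤ Helper60.PCP.Vp P p) :
    ∃ q : Dat p V W, q.Full ∧ Nonempty (Ext q P) := by
  classical
  -- commutators
  have h1 : ∀ x y : P, ∃ w : W, x * y * x⁻¹ * y⁻¹ = inc (Multiplicative.ofAdd w) := by
    intro x y
    have : x * y * x⁻¹ * y⁻¹ ∈ inc.range := by
      rw [← he, MonoidHom.mem_ker]
      simp only [map_mul, map_inv]
      rw [mul_inv_eq_one, mul_inv_eq_iff_eq_mul, mul_comm]
    obtain ⟨w, hw⟩ := this
    exact ⟨w.toAdd, hw.symm⟩
  choose c hcc using h1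
  have h2 : ∀ x : P, ∃ w : W, x ^ p = inc (Multiplicative.ofAdd w) := by
    intro x
    have : x ^ p ∈ inc.range := by
      rw [← he, MonoidHom.mem_ker, map_pow]
      apply Multiplicative.toAdd.injective
      rw [toAdd_pow, toAdd_one]
      exact p_smul _
    obtain ⟨w, hw⟩ := this
    exact ⟨w.toAdd, hw.symm⟩
  choose f hf using h2
  have hinj : ∀ a b : W, inc (Multiplicative.ofAdd a) = inc (Multiplicative.ofAdd b) → a = b := by
    intro a b h
    exact Multiplicative.ofAdd.injective (hi h)
  have hadd : ∀ a b : W, inc (Multiplicative.ofAdd (a + b)) =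
      inc (Multiplicative.ofAdd a) * inc (Multiplicative.ofAdd b) := by
    intro a b
    rw [ofAdd_add, map_mul]
  have hcomm : ∀ x y, x * y = inc (Multiplicative.ofAdd (c x y)) * (y * x) := by
    intro x y
    rw [← hcc x y]
    group
  have hcr : ∀ w : W, ∀ x : P, Commute (inc (Multiplicative.ofAdd w)) x :=
    fun w x => (hc (Multiplicative.ofAdd w) x).symm
  -- additivity
  have hc1 : ∀ x x' y, c (x * x') y = c x y + c x' y := by
    intro x x' y
    apply hinj
    rw [hadd]
    have e1 : x * x' * y = inc (Multiplicative.ofAdd (c (x * x') y)) * (y * (x * x')) :=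
      hcomm (x * x') y
    have e2 : x * x' * y = inc (Multiplicative.ofAdd (c x y)) *
        inc (Multiplicative.ofAdd (c x' y)) * (y * (x * x')) := by
      rw [mul_assoc, hcomm x' y, ← mul_assoc x, ← (hcr (c x' y) x).eq, mul_assoc, ← mul_assoc x,
        hcomm x y]
      rw [mul_assoc (inc (Multiplicative.ofAdd (c x y))), ← mul_assoc (inc _) (inc _),
        (hcr (c x' y) (inc (Multiplicative.ofAdd (c x y)))).eq, mul_assoc y]
    exact mul_right_cancel (e1.symm.trans e2)
  have hc2 : ∀ x y, c y x = - c x y := by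
    intro x y
    apply hinj
    rw [ofAdd_neg, map_inv, ← hcc, ← hcc]
    group
  have hc3 : ∀ x y y', c x (y * y') = c x y + c x y' := by
    intro x y y'
    rw [hc2 (y * y') x, hc1, neg_add, ← hc2, ← hc2]
  have hc4 : ∀ (w : W) (y : P), c (inc (Multiplicative.ofAdd w)) y = 0 := by
    intro w y
    apply hinj
    rw [ofAdd_zero, map_one, ← hcc, (hcr w y).eq]
    group
  have hc5 : ∀ x x' y y', pr x = pr x' → pr y = pr y' → c x y = c x' y' := by
    have key : ∀ x x' y, pr x = pr x' → c x y = c x' y := by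
      intro x x' y h
      have h3 : x * x'⁻¹ ∈ inc.range := by
        rw [← he, MonoidHom.mem_ker, map_mul, map_inv, h, mul_inv_cancel]
      obtain ⟨w, hw⟩ := h3
      have h4 : x = inc w * x' := by rw [hw]; group
      rw [h4, hc1]
      have h5 := hc4 w.toAdd y
      rw [ofAdd_toAdd] at h5
      rw [h5, zero_add]
    intro x x' y y' h h'
    rw [key x x' y h, hc2 y x', key y y' x' h', ← hc2]
  -- powers
  have hf1 : ∀ (w : W) (x : P), f (inc (Multiplicative.ofAdd w) * x) = f x := by
    intro w x
    apply hinj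
    rw [← hf, ← hf, (hcr w x).mul_pow]
    have : (inc (Multiplicative.ofAdd w)) ^ p = 1 := by
      rw [← map_pow, ← ofAdd_nsmul, p_smul, ofAdd_zero, map_one]
    rw [this, one_mul]
  have hf2 : ∀ x x', pr x = pr x' → f x = f x' := by
    intro x x' h
    have h3 : x * x'⁻¹ ∈ inc.range := by
      rw [← he, MonoidHom.mem_ker, map_mul, map_inv, h, mul_inv_cancel]
    obtain ⟨w, hw⟩ := h3
    have h4 : x = inc w * x' := by rw [hw]; group
    rw [h4]
    have h5 := hf1 w.toAdd x'
    rw [ofAdd_toAdd] at h5
    exact h5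
  have hf3 : ∀ x y, f (x * y) = f x + f y + (p.choose 2) • c x y := by
    intro x y
    apply hinj
    rw [hadd, hadd, ← hf, ← hf, ← hf, ← choose_smul_neg (p := p), ← hc2, ofAdd_nsmul, map_pow]
    apply mul_pow_class_two
    · exact hcomm y x
    · exact (hcr _ x).eq
    · exact (hcr _ y).eq
  -- the section
  choose s hs' using hs
  let sv : V → P := fun v => s (Multiplicative.ofAdd v)
  have hsv : ∀ v, pr (sv v) = Multiplicative.ofAdd v := fun v => hs' _
  have hsadd : ∀ v v', pr (sv (v + v')) = pr (sv v * sv v') := by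
    intro v v'
    rw [map_mul, hsv, hsv, hsv, ofAdd_add]
  let be0 : V →+ V →+ W := AddMonoidHom.mk' (fun v => AddMonoidHom.mk' (fun v' => c (sv v) (sv v'))
      (by
        intro a b
        show c (sv v) (sv (a + b)) = c (sv v) (sv a) + c (sv v) (sv b)
        rw [hc5 _ _ _ _ rfl (hsadd a b), hc3]))
      (by
        intro a b
        ext v'
        show c (sv (a + b)) (sv v') = c (sv a) (sv v') + c (sv b) (sv v')
        rw [hc5 _ _ _ _ (hsadd a b) rfl, hc1])
  have hbe0 : ∀ v v', be0 v v' = c (sv v) (sv v') := fun v v' => rfl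
  let be : V →ₗ[ZMod p] V →ₗ[ZMod p] W := LinearMap.mk₂ (ZMod p) (fun v v' => be0 v v')
    (by intro a b v'; simp only [map_add, AddMonoidHom.add_apply])
    (by
      intro r a v'
      exact ZMod.map_smul (be0.flip v') r a)
    (by intro a b v'; simp only [map_add])
    (by
      intro r a v'
      exact ZMod.map_smul (be0 a) r v')
  have hbe : ∀ v v', be v v' = c (sv v) (sv v') := fun v v' => rfl
  have hcpr : ∀ x y, c x y = be (pr x).toAdd (pr y).toAdd := by
    intro x y
    rw [hbe]
    apply hc5
    · rw [hsv, ofAdd_toAdd]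
    · rw [hsv, ofAdd_toAdd]
  have hfpr : ∀ x, f x = f (sv (pr x).toAdd) := by
    intro x
    apply hf2
    rw [hsv, ofAdd_toAdd]
  let q : Dat p V W :=
    { be := be
      alt := by
        intro v
        rw [hbe]
        apply hinj
        rw [ofAdd_zero, map_one, ← hcc]
        group
      pw := fun v => f (sv v)
      pw_add := by
        intro v v'
        show f (sv (v + v')) = f (sv v) + f (sv v') + (p.choose 2) • be v v'
        rw [hf2 _ _ (hsadd v v'), hf3, hbe] }
  refine ⟨q, ?_, ⟨⟨pr, inc, fun m => ⟨s m, hs' m⟩, hi, he, ?_, ?_⟩⟩⟩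
  · -- generation
    unfold Dat.Full
    rw [eq_top_iff]
    intro w _
    have hw : inc (Multiplicative.ofAdd w) ∈ Helper60.PCP.Vp P p := hgen ⟨_, rfl⟩
    have key : ∀ x ∈ Helper60.PCP.Vp P p, ∃ w ∈ Submodule.span (ZMod p)
        ({w | ∃ v v', q.be v v' = w} ∪ Set.range q.pw), x = inc (Multiplicative.ofAdd w) := by
      intro x hx
      unfold Helper60.PCP.Vp at hx
      induction hx using Subgroup.closure_induction with
      | mem x hx =>
        rcases hx with ⟨y, rfl⟩ | ⟨y, z, rfl⟩
        · refine ⟨f y, Submodule.subset_span (Or.inr ⟨(pr y).toAdd, ?_⟩), hf y⟩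
          exact (hfpr y).symm
        · refine ⟨c y z, Submodule.subset_span (Or.inl ⟨(pr y).toAdd, (pr z).toAdd, ?_⟩), ?_⟩
          · exact (hcpr y z).symm
          · exact hcc y z
      | one => exact ⟨0, Submodule.zero_mem _, by rw [ofAdd_zero, map_one]⟩
      | mul x y _ _ ihx ihy =>
        obtain ⟨a, ha, rfl⟩ := ihx
        obtain ⟨b, hb, rfl⟩ := ihy
        exact ⟨a + b, Submodule.add_mem _ ha hb, (hadd a b).symm⟩
      | inv x _ ihx =>
        obtain ⟨a, ha, rfl⟩ := ihx
        exact ⟨-a, Submodule.neg_mem _ ha, by rw [ofAdd_neg, map_inv]⟩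
    obtain ⟨w', hw', h⟩ := key _ hw
    rw [hinj _ _ h]
    exact hw'
  · intro x y
    rw [hcc x y, hcpr x y]
  · intro x
    rw [hf x, hfpr x]

/-- an elementary abelian group is a power of `ZMod p` -/
lemma exists_equiv_add (A : Type) [AddCommGroup A] [Finite A] (hpow : ∀ a : A, p • a = 0) :
    ∃ d : ℕ, Nonempty (A ≃+ (Fin d → ZMod p)) := by
  letI : Module (ZMod p) A := AddCommGroup.zmodModule (n := p) hpow
  haveI hfin : Module.Finite (ZMod p) A := Module.Finite.of_finite
  exact ⟨_, ⟨(Module.finBasis (ZMod p) A).equivFun.toAddEquiv⟩⟩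

lemma exists_equiv_fin (Q : Type) [Group Q] [Finite Q] (hcomm : ∀ a b : Q, a * b = b * a)
    (hpow : ∀ a : Q, a ^ p = 1) : ∃ d : ℕ, Nonempty (Q ≃* Multiplicative (Fin d → ZMod p)) := by
  letI : CommGroup Q := { (inferInstance : Group Q) with mul_comm := hcomm }
  obtain ⟨d, ⟨e⟩⟩ := exists_equiv_add (p := p) (Additive Q) (by
    intro x
    apply Additive.toMul.injective
    rw [toMul_nsmul, toMul_zero]
    exact hpow _)
  refine ⟨d, ⟨?_⟩⟩
  exact
    { toFun := fun x => Multiplicative.ofAdd (e (Additive.ofMul x))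
      invFun := fun y => (e.symm y.toAdd).toMul
      left_inv := fun x => by simp
      right_inv := fun y => by simp
      map_mul' := fun x y => by
        show Multiplicative.ofAdd (e (Additive.ofMul (x * y))) = _
        rw [ofMul_mul, map_add, ofAdd_add] }

/-- ROW R8g -/
theorem exists_dat {n : ℕ} (P : Type) [Group P] (hP : FratTwo p n P) :
    ∃ d m : ℕ, d + m = n ∧ ∃ q : Dat p (Fin d → ZMod p) (Fin m → ZMod p), q.Full ∧
      Nonempty (Ext q P) := by
  obtain ⟨hcard, hcen, hexp⟩ := hP
  have hp := (Fact.out : p.Prime)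
  have hfin : Finite P := Nat.finite_of_card_ne_zero (by rw [hcard]; exact pow_ne_zero _ hp.ne_zero)
  have hPp : IsPGroup p P := IsPGroup.of_card hcard
  have hquot : ∀ x : P, x ∈ frattini P ↔ (x : P ⧸ frattini P) = 1 := fun x =>
    (QuotientGroup.eq_one_iff x).symm
  obtain ⟨d, ⟨e⟩⟩ := exists_equiv_fin (p := p) (P ⧸ frattini P) (by
      intro a b
      obtain ⟨x, rfl⟩ := QuotientGroup.mk_surjective a
      obtain ⟨y, rfl⟩ := QuotientGroup.mk_surjective b
      exact (Helper60.PCP.comm_mem_iff (frattini P) x y).mp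
        (Helper60.PCP.comm_mem_frattini hPp x y)) (by
      intro a
      obtain ⟨x, rfl⟩ := QuotientGroup.mk_surjective a
      rw [← QuotientGroup.mk_pow, QuotientGroup.eq_one_iff]
      exact Helper60.PCP.pow_mem_frattini hPp x)
  obtain ⟨m, ⟨e'⟩⟩ := exists_equiv_fin (p := p) (frattini P) (by
      rintro ⟨a, ha⟩ ⟨b, hb⟩
      apply Subtype.ext
      exact (Subgroup.mem_center_iff.mp (hcen hb) a)) (by
      rintro ⟨a, ha⟩
      apply Subtype.ext
      exact hexp a ha)
  let pr : P →* Multiplicative (Fin d → ZMod p) := e.toMonoidHom.comp (QuotientGroup.mk' _)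
  let inc : Multiplicative (Fin m → ZMod p) →* P :=
    (frattini P).subtype.comp e'.symm.toMonoidHom
  have hrange : inc.range = frattini P := by
    ext x
    constructor
    · rintro ⟨w, rfl⟩
      exact (e'.symm w).2
    · intro hx
      exact ⟨e' ⟨x, hx⟩, by
        show ((e'.symm (e' ⟨x, hx⟩) : frattini P) : P) = x
        rw [MulEquiv.symm_apply_apply]⟩
  have hker : pr.ker = frattini P := by
    ext x
    rw [MonoidHom.mem_ker]
    show e (x : P ⧸ frattini P) = 1 ↔ _
    rw [hquot x]
    exact map_eq_one_iff e e.injective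
  refine ⟨d, m, ?_, ?_⟩
  · have h1 : Nat.card (P ⧸ frattini P) = p ^ d := by
      rw [Nat.card_congr e.toEquiv, Nat.card_congr Multiplicative.toAdd, Nat.card_fun,
        Nat.card_zmod, Nat.card_fin]
    have h2 : Nat.card (frattini P) = p ^ m := by
      rw [Nat.card_congr e'.toEquiv, Nat.card_congr Multiplicative.toAdd, Nat.card_fun,
        Nat.card_zmod, Nat.card_fin]
    have h3 := Subgroup.card_eq_card_quotient_mul_card_subgroup (frattini P)
    rw [h1, h2, hcard, ← pow_add] at h3
    exact (Nat.pow_right_injective hp.two_le h3).symm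
  · apply exists_dat_of_hom pr inc
    · exact e.surjective.comp (QuotientGroup.mk'_surjective _)
    · intro a b hab
      exact e'.symm.injective (Subtype.ext hab)
    · rw [hker, hrange]
    · intro w x
      have : inc w ∈ frattini P := by
        rw [← hrange]
        exact ⟨w, rfl⟩
      exact Subgroup.mem_center_iff.mp (hcen this) x
    · rw [hrange, Helper60.PCP.frattini_eq_Vp hPp]

end Build

end Pool.Agent.APG
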