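import Pool.Agent.APG.Defs

/-!
# Groups with the same data are isomorphic, and isomorphic groups have equivalent data

For two extensions `P`, `P'` of `V` by `W` with the same commutator map and the same `p`-th power map
let `D` be the fibre product of `P` and `P'` over `V` and let `Gr` be the image of `W` under
`w ↦ (w, w)`. Then `D / Gr` is elementary abelian, so that the embedding `w ↦ (1, w)` of `W` has a left
inverse `g`. The kernel of `g` is the graph of an isomorphism.
-/

set_option autoImplicit false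

open Module

namespace Pool.Agent.APG

section
variable {p : ℕ} {V W : Type} [AddCommGroup V] [AddCommGroup W]
  [Module (ZMod p) V] [Module (ZMod p) W]

lemma Ext.pr_inc {q : Dat p V W} {P : Type} [Group P] (E : Ext q P) (w : Multiplicative W) :
    E.pr (E.inc w) = 1 := by
  have h : E.inc w ∈ E.inc.range := ⟨w, rfl⟩
  rw [← E.exact] at h
  exact h

lemma Ext.exists_inc {q : Dat p V W} {P : Type} [Group P] (E : Ext q P) {x : P}
    (hx : E.pr x = 1) : ∃ w, E.inc w = x := by
  have h : x ∈ E.pr.ker := hx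
  rw [E.exact] at h
  exact h

lemma Ext.central {q : Dat p V W} {P : Type} [Group P] (E : Ext q P) (w : Multiplicative W)
    (x : P) : E.inc w * x = x * E.inc w := by
  have h := E.comm (E.inc w) x
  rw [E.pr_inc] at h
  have h1 : q.be (Multiplicative.toAdd (1 : Multiplicative V)) (Multiplicative.toAdd (E.pr x)) =
      0 := by
    rw [toAdd_one, map_zero, LinearMap.zero_apply]
  rw [h1, ofAdd_zero, map_one, mul_inv_eq_one, mul_inv_eq_iff_eq_mul] at h
  exact h

end

section
variable {p : ℕ} [Fact p.Prime] {V W : Type} [AddCommGroup V] [AddCommGroup W]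
  [Module (ZMod p) V] [Module (ZMod p) W]

/-- the fibre product -/
def fib {q : Dat p V W} {P P' : Type} [Group P] [Group P'] (E : Ext q P) (E' : Ext q P') :
    Subgroup (P × P') where
  carrier := {x | E.pr x.1 = E'.pr x.2}
  mul_mem' := by
    intro a b ha hb
    show E.pr (a.1 * b.1) = E'.pr (a.2 * b.2)
    rw [map_mul, map_mul, ha, hb]
  one_mem' := by
    show E.pr 1 = E'.pr 1
    rw [map_one, map_one]
  inv_mem' := by
    intro a ha
    show E.pr (a.1⁻¹) = E'.pr (a.2⁻¹)
    rw [map_inv, map_inv, ha]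

/-- the diagonal copy of `W` in the fibre product -/
def gr {q : Dat p V W} {P P' : Type} [Group P] [Group P'] (E : Ext q P) (E' : Ext q P') :
    Subgroup (fib E E') where
  carrier := {x | ∃ w, E.inc w = x.1.1 ∧ E'.inc w = x.1.2}
  mul_mem' := by
    rintro a b ⟨w, h1, h2⟩ ⟨w', h3, h4⟩
    refine ⟨w * w', ?_, ?_⟩
    · rw [map_mul, h1, h3]; rfl
    · rw [map_mul, h2, h4]; rfl
  one_mem' := ⟨1, by rw [map_one]; rfl, by rw [map_one]; rfl⟩
  inv_mem' := by
    rintro a ⟨w, h1, h2⟩
    refine ⟨w⁻¹, ?_, ?_⟩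
    · rw [map_inv, h1]; rfl
    · rw [map_inv, h2]; rfl

lemma gr_normal {q : Dat p V W} {P P' : Type} [Group P] [Group P'] (E : Ext q P)
    (E' : Ext q P') : (gr E E').Normal := by
  constructor
  rintro n ⟨w, h1, h2⟩ g
  refine ⟨w, ?_, ?_⟩
  · show E.inc w = g.1.1 * n.1.1 * g.1.1⁻¹
    rw [← h1, ← E.central, mul_inv_cancel_right]
  · show E'.inc w = g.1.2 * n.1.2 * g.1.2⁻¹
    rw [← h2, ← E'.central, mul_inv_cancel_right]

/-- an embedding of an elementary abelian group into an elementary abelian group has a left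
inverse, additive form -/
lemma exists_leftInv_add {A : Type} [AddCommGroup A] (hA : ∀ a : A, p • a = 0)
    (j : W →+ A) (hj : Function.Injective j) : ∃ g : A →+ W, ∀ w, g (j w) = w := by
  let _ : Module (ZMod p) A := AddCommGroup.zmodModule hA
  have hj1 : LinearMap.ker (j.toZModLinearMap p) = ⊥ := LinearMap.ker_eq_bot.2 hj
  obtain ⟨g, hg⟩ := LinearMap.exists_leftInverse_of_injective (j.toZModLinearMap p) hj1
  refine ⟨g.toAddMonoidHom, fun w => ?_⟩
  have h3 : (g ∘ₗ j.toZModLinearMap p) w = w := by rw [hg]; rfl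
  exact h3

/-- an embedding of an elementary abelian group into an elementary abelian group has a left
inverse -/
lemma exists_leftInv {A : Type} [CommGroup A] (hA : ∀ a : A, a ^ p = 1)
    (j : Multiplicative W →* A) (hj : Function.Injective j) :
    ∃ g : A →* Multiplicative W, ∀ w, g (j w) = w := by
  obtain ⟨g, hg⟩ := exists_leftInv_add (p := p) (W := W) (A := Additive A)
    (fun a => hA a.toMul) (MonoidHom.toAdditiveRight j)
    (fun w w' h => hj (Additive.ofMul.injective h))
  exact ⟨AddMonoidHom.toMultiplicativeRight g, fun w => hg w.toAdd⟩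

/-- ROW R8b, the general form -/
theorem exists_theta {q : Dat p V W} {P P' : Type} [Group P] [Group P'] (E : Ext q P)
    (E' : Ext q P') : ∃ θ : fib E E' →* Multiplicative W,
      (∀ (x : fib E E') (w : Multiplicative W), x.1.1 = 1 → E'.inc w = x.1.2 → θ x = w) ∧
      ∀ x : fib E E', x ∈ gr E E' → θ x = 1 := by
  have := gr_normal E E'
  let _ : CommGroup (fib E E' ⧸ gr E E') :=
    { (inferInstance : Group (fib E E' ⧸ gr E E')) with
      mul_comm := by
        intro a b
        obtain ⟨x, rfl⟩ := QuotientGroup.mk_surjective a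
        obtain ⟨y, rfl⟩ := QuotientGroup.mk_surjective b
        rw [← QuotientGroup.mk_mul, ← QuotientGroup.mk_mul, QuotientGroup.eq]
        have hx := x.2
        have hy := y.2
        refine ⟨Multiplicative.ofAdd (q.be (E.pr y.1.1⁻¹).toAdd (E.pr x.1.1⁻¹).toAdd), ?_, ?_⟩
        · rw [← E.comm]
          show y.1.1⁻¹ * x.1.1⁻¹ * (y.1.1⁻¹)⁻¹ * (x.1.1⁻¹)⁻¹ = (x.1.1 * y.1.1)⁻¹ * (y.1.1 * x.1.1)
          group
        · have h1 : E.pr y.1.1⁻¹ = E'.pr y.1.2⁻¹ := by
            rw [map_inv, map_inv]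
            exact congrArg _ hy
          have h2 : E.pr x.1.1⁻¹ = E'.pr x.1.2⁻¹ := by
            rw [map_inv, map_inv]
            exact congrArg _ hx
          rw [h1, h2, ← E'.comm]
          show y.1.2⁻¹ * x.1.2⁻¹ * (y.1.2⁻¹)⁻¹ * (x.1.2⁻¹)⁻¹ = (x.1.2 * y.1.2)⁻¹ * (y.1.2 * x.1.2)
          group }
  have hA : ∀ a : fib E E' ⧸ gr E E', a ^ p = 1 := by
    intro a
    obtain ⟨x, rfl⟩ := QuotientGroup.mk_surjective a
    rw [← QuotientGroup.mk_pow, QuotientGroup.eq_one_iff]
    refine ⟨Multiplicative.ofAdd (q.pw (E.pr x.1.1).toAdd), ?_, ?_⟩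
    · rw [← E.pow]
      rfl
    · have h3 : E.pr x.1.1 = E'.pr x.1.2 := x.2
      rw [h3, ← E'.pow]
      rfl
  -- the embedding of `W`
  let j : Multiplicative W →* fib E E' ⧸ gr E E' := (QuotientGroup.mk' (gr E E')).comp
    { toFun := fun w => ⟨(1, E'.inc w), by
          show E.pr 1 = E'.pr (E'.inc w)
          rw [map_one, E'.pr_inc]⟩
      map_one' := Subtype.ext (Prod.ext rfl (map_one E'.inc))
      map_mul' := fun w w' => Subtype.ext (Prod.ext (mul_one (1 : P)).symm (map_mul E'.inc w w')) }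
  have hj : Function.Injective j := by
    rw [injective_iff_map_eq_one]
    intro w hw
    have h1 : (QuotientGroup.mk
        ⟨(1, E'.inc w), by
          show E.pr 1 = E'.pr (E'.inc w)
          rw [map_one, E'.pr_inc]⟩ : fib E E' ⧸ gr E E') = 1 := hw
    rw [QuotientGroup.eq_one_iff] at h1
    obtain ⟨w', h2, h3⟩ := h1
    have h4 : w' = 1 := E.inj (h2.trans (map_one E.inc).symm)
    rw [h4] at h3
    exact (E'.inj h3).symm
  obtain ⟨g, hg⟩ := exists_leftInv hA j hj
  refine ⟨g.comp (QuotientGroup.mk' (gr E E')), ?_, ?_⟩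
  · intro x w h1 h2
    rw [← hg w]
    show g _ = g _
    congr 1
    show (QuotientGroup.mk x : fib E E' ⧸ gr E E') = QuotientGroup.mk _
    congr 1
    exact Subtype.ext (Prod.ext h1 h2.symm)
  · intro x hx
    show g (QuotientGroup.mk x) = 1
    rw [(QuotientGroup.eq_one_iff x).2 hx, map_one]

end

section Groups
variable {p : ℕ} [Fact p.Prime] {V W : Type} [AddCommGroup V] [AddCommGroup W]
  [Module (ZMod p) V] [Module (ZMod p) W]

/-- ROW R8b (file Iso.lean) -/
theorem Ext.iso [Finite V] [Finite W] {q : Dat p V W} {P P' : Type} [Group P] [Group P']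
    (E : Ext q P) (E' : Ext q P') : Nonempty (P ≃* P') := by
  obtain ⟨θ, hθ, hgr⟩ := exists_theta E E'
  -- the value of `θ` on the elements `(w, 1)`
  have hθ' : ∀ (x : fib E E') (w : Multiplicative W), x.1.2 = 1 → E.inc w = x.1.1 →
      θ x = w⁻¹ := by
    intro x w h1 h2
    let y : fib E E' := ⟨(1, E'.inc w), by
      show E.pr 1 = E'.pr (E'.inc w)
      rw [map_one, E'.pr_inc]⟩
    have h3 : θ y = w := hθ y w rfl rfl
    have h4 : θ (x * y) = 1 := by
      apply hgr
      refine ⟨w, ?_, ?_⟩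
      · show E.inc w = x.1.1 * 1
        rw [mul_one, h2]
      · show E'.inc w = x.1.2 * E'.inc w
        rw [h1, one_mul]
    rw [map_mul, h3] at h4
    exact eq_inv_of_mul_eq_one_left h4
  let f : θ.ker →* P := ((MonoidHom.fst P P').comp (fib E E').subtype).comp θ.ker.subtype
  let f' : θ.ker →* P' := ((MonoidHom.snd P P').comp (fib E E').subtype).comp θ.ker.subtype
  have hf : Function.Bijective f := by
    constructor
    · rw [injective_iff_map_eq_one]
      intro x hx
      have h1 : x.1.1.1 = 1 := hx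
      have h2 : E'.pr x.1.1.2 = 1 := by
        have h3 : E.pr x.1.1.1 = E'.pr x.1.1.2 := x.1.2
        rw [← h3, h1, map_one]
      obtain ⟨w, hw⟩ := E'.exists_inc h2
      have h4 := hθ x.1 w h1 hw
      have h5 : θ x.1 = 1 := x.2
      rw [h5] at h4
      apply Subtype.ext
      apply Subtype.ext
      apply Prod.ext
      · exact h1
      · show x.1.1.2 = 1
        rw [← hw, ← h4, map_one]
    · intro x
      obtain ⟨x', hx'⟩ := E'.surj (E.pr x)
      let z : fib E E' := ⟨(x, x'), hx'.symm⟩
      let y : fib E E' := ⟨(1, E'.inc (θ z)⁻¹), by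
        show E.pr 1 = E'.pr (E'.inc _)
        rw [map_one, E'.pr_inc]⟩
      have h1 : θ (z * y) = 1 := by
        rw [map_mul, hθ y (θ z)⁻¹ rfl rfl, mul_inv_cancel]
      refine ⟨⟨z * y, h1⟩, ?_⟩
      show x * 1 = x
      rw [mul_one]
  have hf' : Function.Bijective f' := by
    constructor
    · rw [injective_iff_map_eq_one]
      intro x hx
      have h1 : x.1.1.2 = 1 := hx
      have h2 : E.pr x.1.1.1 = 1 := by
        have h3 : E.pr x.1.1.1 = E'.pr x.1.1.2 := x.1.2
        rw [h3, h1, map_one]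
      obtain ⟨w, hw⟩ := E.exists_inc h2
      have h4 := hθ' x.1 w h1 hw
      have h5 : θ x.1 = 1 := x.2
      rw [h5] at h4
      have h6 : w = 1 := by
        rw [← inv_eq_one, ← h4]
      apply Subtype.ext
      apply Subtype.ext
      apply Prod.ext
      · show x.1.1.1 = 1
        rw [← hw, h6, map_one]
      · exact h1
    · intro x'
      obtain ⟨x, hx⟩ := E.surj (E'.pr x')
      let z : fib E E' := ⟨(x, x'), hx⟩
      let y : fib E E' := ⟨(E.inc (θ z), 1), by
        show E.pr (E.inc _) = E'.pr 1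
        rw [map_one, E.pr_inc]⟩
      have h1 : θ (z * y) = 1 := by
        rw [map_mul, hθ' y (θ z) rfl rfl, mul_inv_cancel]
      refine ⟨⟨z * y, h1⟩, ?_⟩
      show x' * 1 = x'
      rw [mul_one]
  exact ⟨(MulEquiv.ofBijective f hf).symm.trans (MulEquiv.ofBijective f' hf')⟩

/-- ROW R8c -/
theorem Ext.of_smul {q : Dat p V W} {P : Type} [Group P] (E : Ext q P) (γ : Gam p V W) :
    Nonempty (Ext (γ • q) P) := by
  refine ⟨{ pr := (AddMonoidHom.toMultiplicative γ.1.toLinearMap.toAddMonoidHom).comp E.pr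
            inc := E.inc.comp (AddMonoidHom.toMultiplicative
              γ.2.symm.toLinearMap.toAddMonoidHom)
            surj := ?_
            inj := ?_
            exact := ?_
            comm := ?_
            pow := ?_ }⟩
  · intro v
    obtain ⟨x, hx⟩ := E.surj (Multiplicative.ofAdd (γ.1.symm v.toAdd))
    refine ⟨x, ?_⟩
    show Multiplicative.ofAdd (γ.1 (E.pr x).toAdd) = v
    rw [hx]
    show Multiplicative.ofAdd (γ.1 (γ.1.symm v.toAdd)) = v
    rw [LinearEquiv.apply_symm_apply]
    rfl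
  · intro w w' h
    have h1 : Multiplicative.ofAdd (γ.2.symm w.toAdd) = Multiplicative.ofAdd (γ.2.symm w'.toAdd) :=
      E.inj h
    have h2 : γ.2.symm w.toAdd = γ.2.symm w'.toAdd := Multiplicative.ofAdd.injective h1
    exact Multiplicative.toAdd.injective (γ.2.symm.injective h2)
  · ext x
    constructor
    · intro h
      have h1 : Multiplicative.ofAdd (γ.1 (E.pr x).toAdd) = 1 := h
      have h2 : γ.1 (E.pr x).toAdd = 0 := h1
      have h3 : (E.pr x).toAdd = 0 := (LinearEquiv.map_eq_zero_iff γ.1).1 h2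
      obtain ⟨w, hw⟩ := E.exists_inc (x := x) h3
      refine ⟨Multiplicative.ofAdd (γ.2 w.toAdd), ?_⟩
      show E.inc (Multiplicative.ofAdd (γ.2.symm (γ.2 w.toAdd))) = x
      rw [LinearEquiv.symm_apply_apply]
      exact hw
    · rintro ⟨w, rfl⟩
      show Multiplicative.ofAdd (γ.1 (E.pr (E.inc _)).toAdd) = 1
      rw [E.pr_inc, toAdd_one, map_zero, ofAdd_zero]
  · intro x y
    rw [E.comm]
    show _ = E.inc (Multiplicative.ofAdd (γ.2.symm ((γ • q).be (γ.1 (E.pr x).toAdd)
      (γ.1 (E.pr y).toAdd))))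
    rw [smul_be, LinearEquiv.symm_apply_apply, LinearEquiv.symm_apply_apply,
      LinearEquiv.symm_apply_apply]
  · intro x
    rw [E.pow]
    show _ = E.inc (Multiplicative.ofAdd (γ.2.symm ((γ • q).pw (γ.1 (E.pr x).toAdd))))
    rw [smul_pw, LinearEquiv.symm_apply_apply, LinearEquiv.symm_apply_apply]

/-- ROW R8e -/
theorem Ext.card [Finite V] [Finite W] {q : Dat p V W} {P : Type} [Group P] (E : Ext q P) :
    Nat.card P = p ^ (finrank (ZMod p) V + finrank (ZMod p) W) := by
  have h1 : Nat.card P = Nat.card (P ⧸ E.pr.ker) * Nat.card E.pr.ker :=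
    Subgroup.card_eq_card_quotient_mul_card_subgroup _
  have h2 : Nat.card (P ⧸ E.pr.ker) = Nat.card V :=
    Nat.card_congr ((QuotientGroup.quotientKerEquivOfSurjective E.pr E.surj).toEquiv.trans
      Multiplicative.toAdd)
  have h3 : Nat.card E.pr.ker = Nat.card W := by
    rw [E.exact]
    exact Nat.card_congr ((MonoidHom.ofInjective E.inj).symm.toEquiv.trans
      Multiplicative.toAdd)
  rw [h1, h2, h3, Module.natCard_eq_pow_finrank (K := ZMod p) (V := V),
    Module.natCard_eq_pow_finrank (K := ZMod p) (V := W), Nat.card_zmod, ← pow_add]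

/-- the commutators and the `p`-th powers generate the image of `W` -/
lemma Ext.range_eq {q : Dat p V W} (hq : q.Full) {P : Type} [Group P] (E : Ext q P) :
    E.inc.range = Subgroup.closure ({z | ∃ x y : P, x * y * x⁻¹ * y⁻¹ = z} ∪ {z | ∃ x : P, x ^ p = z}) := by
  apply le_antisymm
  · rintro _ ⟨w, rfl⟩
    have h1 : w.toAdd ∈ Submodule.span (ZMod p) ({w | ∃ v v', q.be v v' = w} ∪
        Set.range q.pw) := by
      rw [hq]
      trivial
    have key : ∀ u : W, u ∈ Submodule.span (ZMod p) ({w | ∃ v v', q.be v v' = w} ∪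
        Set.range q.pw) → E.inc (Multiplicative.ofAdd u) ∈ Subgroup.closure
        ({z | ∃ x y : P, x * y * x⁻¹ * y⁻¹ = z} ∪ {z | ∃ x : P, x ^ p = z}) := by
      intro u hu
      induction hu using Submodule.span_induction with
      | mem x hx =>
        rcases hx with ⟨v, v', rfl⟩ | ⟨v, rfl⟩
        · obtain ⟨a, ha⟩ := E.surj (Multiplicative.ofAdd v)
          obtain ⟨b, hb⟩ := E.surj (Multiplicative.ofAdd v')
          apply Subgroup.subset_closure
          left
          refine ⟨a, b, ?_⟩
          rw [E.comm, ha, hb]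
          rfl
        · obtain ⟨a, ha⟩ := E.surj (Multiplicative.ofAdd v)
          apply Subgroup.subset_closure
          right
          refine ⟨a, ?_⟩
          rw [E.pow, ha]
          rfl
      | zero =>
        rw [ofAdd_zero, map_one]
        exact one_mem _
      | add x y _ _ hx hy =>
        rw [ofAdd_add, map_mul]
        exact mul_mem hx hy
      | smul c x _ hx =>
        have h2 : c • x = c.val • x := by
          rw [← Nat.cast_smul_eq_nsmul (ZMod p), ZMod.natCast_zmod_val]
        rw [h2, ofAdd_nsmul, map_pow]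
        exact pow_mem hx _
    exact key w.toAdd h1
  · rw [Subgroup.closure_le]
    rintro z (⟨x, y, rfl⟩ | ⟨x, rfl⟩)
    · exact ⟨_, (E.comm x y).symm⟩
    · exact ⟨_, (E.pow x).symm⟩

/-- an isomorphism maps the images of `W` to each other -/
lemma Ext.map_range {q q' : Dat p V W} (hq : q.Full) (hq' : q'.Full) {P P' : Type} [Group P]
    [Group P'] (E : Ext q P) (E' : Ext q' P') (e : P ≃* P') :
    E.inc.range.map e.toMonoidHom = E'.inc.range := by
  rw [E.range_eq hq, E'.range_eq hq', MonoidHom.map_closure]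
  congr 1
  ext z
  constructor
  · rintro ⟨t, ht | ht, rfl⟩
    · obtain ⟨x, y, rfl⟩ := ht
      left
      refine ⟨e x, e y, ?_⟩
      show e x * e y * (e x)⁻¹ * (e y)⁻¹ = e (x * y * x⁻¹ * y⁻¹)
      rw [map_mul, map_mul, map_mul, map_inv, map_inv]
    · obtain ⟨x, rfl⟩ := ht
      right
      refine ⟨e x, ?_⟩
      show (e x) ^ p = e (x ^ p)
      rw [map_pow]
  · rintro (⟨x, y, rfl⟩ | ⟨x, rfl⟩)
    · refine ⟨e.symm x * e.symm y * (e.symm x)⁻¹ * (e.symm y)⁻¹, Or.inl ⟨_, _, rfl⟩, ?_⟩
      show e (e.symm x * e.symm y * (e.symm x)⁻¹ * (e.symm y)⁻¹) = _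
      rw [map_mul, map_mul, map_mul, map_inv, map_inv, MulEquiv.apply_symm_apply,
        MulEquiv.apply_symm_apply]
    · refine ⟨(e.symm x) ^ p, Or.inr ⟨_, rfl⟩, ?_⟩
      show e ((e.symm x) ^ p) = _
      rw [map_pow, MulEquiv.apply_symm_apply]

/-- ROW R8d -/
theorem Ext.exists_smul {q q' : Dat p V W} (hq : q.Full) (hq' : q'.Full) {P P' : Type} [Group P]
    [Group P'] (E : Ext q P) (E' : Ext q' P') (e : P ≃* P') : ∃ γ : Gam p V W, γ • q = q' := by
  have hr := E.map_range hq hq' E' e
  -- the isomorphism of `W`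
  have hW : ∀ w : Multiplicative W, ∃ w' : Multiplicative W, E'.inc w' = e (E.inc w) := by
    intro w
    have h1 : e (E.inc w) ∈ E'.inc.range := by
      rw [← hr]
      exact ⟨E.inc w, ⟨w, rfl⟩, rfl⟩
    exact h1
  have hW' : ∀ w' : Multiplicative W, ∃ w : Multiplicative W, E'.inc w' = e (E.inc w) := by
    intro w'
    have h1 : E'.inc w' ∈ E.inc.range.map e.toMonoidHom := by
      rw [hr]
      exact ⟨w', rfl⟩
    obtain ⟨_, ⟨w, rfl⟩, h2⟩ := h1
    exact ⟨w, h2.symm⟩
  choose k hk using hW
  have hkadd : ∀ w w' : Multiplicative W, k (w * w') = k w * k w' := by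
    intro w w'
    apply E'.inj
    rw [map_mul, hk, hk, hk, map_mul, map_mul]
  have hkinj : ∀ w w' : Multiplicative W, k w = k w' → w = w' := by
    intro w w' h
    apply E.inj
    apply e.injective
    rw [← hk, ← hk, h]
  have hksurj : ∀ w' : Multiplicative W, ∃ w, k w = w' := by
    intro w'
    obtain ⟨w, hw⟩ := hW' w'
    refine ⟨w, ?_⟩
    apply E'.inj
    rw [hk, hw]
  let k0 : W →+ W :=
    { toFun := fun w => (k (Multiplicative.ofAdd w)).toAdd
      map_zero' := by
        have h1 : k 1 = 1 := by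
          apply E'.inj
          rw [hk, map_one, map_one, map_one]
        rw [ofAdd_zero, h1, toAdd_one]
      map_add' := by
        intro w w'
        rw [ofAdd_add, hkadd, toAdd_mul] }
  have hk0 : Function.Bijective (k0.toZModLinearMap p) := by
    constructor
    · intro w w' h
      have h1 : (k (Multiplicative.ofAdd w)).toAdd = (k (Multiplicative.ofAdd w')).toAdd := h
      exact Multiplicative.ofAdd.injective (hkinj _ _ (Multiplicative.toAdd.injective h1))
    · intro w'
      obtain ⟨w, hw⟩ := hksurj (Multiplicative.ofAdd w')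
      refine ⟨w.toAdd, ?_⟩
      show (k (Multiplicative.ofAdd w.toAdd)).toAdd = w'
      rw [ofAdd_toAdd, hw, toAdd_ofAdd]
  let κ : W ≃ₗ[ZMod p] W := LinearEquiv.ofBijective (k0.toZModLinearMap p) hk0
  have hκ : ∀ w : W, E'.inc (Multiplicative.ofAdd (κ w)) = e (E.inc (Multiplicative.ofAdd w)) := by
    intro w
    exact hk (Multiplicative.ofAdd w)
  -- the isomorphism of `V`
  have hV : ∀ x : P, E'.pr (e x) = 1 ↔ E.pr x = 1 := by
    intro x
    have h1 : E'.pr (e x) = 1 ↔ e x ∈ E'.inc.range := by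
      rw [← E'.exact]
      rfl
    have h2 : E.pr x = 1 ↔ x ∈ E.inc.range := by
      rw [← E.exact]
      rfl
    rw [h1, h2, ← hr]
    constructor
    · rintro ⟨y, hy, h3⟩
      have h4 : y = x := e.injective h3
      rwa [← h4]
    · intro h
      exact ⟨x, h, rfl⟩
  have hV2 : ∀ x y : P, E'.pr (e x) = E'.pr (e y) ↔ E.pr x = E.pr y := by
    intro x y
    have h1 := hV (x * y⁻¹)
    rw [map_mul, map_inv, map_mul, map_inv, mul_inv_eq_one, map_mul, map_inv, mul_inv_eq_one] at h1
    exact h1
  choose s hs using E.surj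
  let f0 : V →+ V :=
    { toFun := fun v => (E'.pr (e (s (Multiplicative.ofAdd v)))).toAdd
      map_zero' := by
        have h1 : E'.pr (e (s (Multiplicative.ofAdd 0))) = 1 := by
          rw [hV, hs, ofAdd_zero]
        rw [h1, toAdd_one]
      map_add' := by
        intro v v'
        rw [← toAdd_mul, ← map_mul, ← map_mul]
        congr 1
        rw [hV2, map_mul, hs, hs, hs, ofAdd_add] }
  have hf0 : Function.Bijective (f0.toZModLinearMap p) := by
    constructor
    · intro v v' h
      have h1 : (E'.pr (e (s (Multiplicative.ofAdd v)))).toAdd =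
          (E'.pr (e (s (Multiplicative.ofAdd v')))).toAdd := h
      have h2 := Multiplicative.toAdd.injective h1
      rw [hV2, hs, hs] at h2
      exact Multiplicative.ofAdd.injective h2
    · intro v'
      obtain ⟨x', hx'⟩ := E'.surj (Multiplicative.ofAdd v')
      refine ⟨(E.pr (e.symm x')).toAdd, ?_⟩
      show (E'.pr (e (s (Multiplicative.ofAdd (E.pr (e.symm x')).toAdd)))).toAdd = v'
      have h1 : E'.pr (e (s (Multiplicative.ofAdd (E.pr (e.symm x')).toAdd))) = E'.pr (e (e.symm x')) := by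
        rw [hV2, hs, ofAdd_toAdd]
      rw [h1, MulEquiv.apply_symm_apply, hx', toAdd_ofAdd]
  let φ : V ≃ₗ[ZMod p] V := LinearEquiv.ofBijective (f0.toZModLinearMap p) hf0
  have hφ : ∀ x : P, φ (E.pr x).toAdd = (E'.pr (e x)).toAdd := by
    intro x
    show (E'.pr (e (s (Multiplicative.ofAdd (E.pr x).toAdd)))).toAdd = (E'.pr (e x)).toAdd
    congr 1
    rw [hV2, hs, ofAdd_toAdd]
  refine ⟨(φ, κ), ?_⟩
  apply Dat.ext
  · apply LinearMap.ext
    intro v
    apply LinearMap.ext
    intro v'
    rw [smul_be]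
    show κ (q.be (φ.symm v) (φ.symm v')) = q'.be v v'
    obtain ⟨x, hx⟩ := E.surj (Multiplicative.ofAdd (φ.symm v))
    obtain ⟨y, hy⟩ := E.surj (Multiplicative.ofAdd (φ.symm v'))
    have h1 : E'.inc (Multiplicative.ofAdd (q'.be (E'.pr (e x)).toAdd (E'.pr (e y)).toAdd)) =
        e (E.inc (Multiplicative.ofAdd (q.be (E.pr x).toAdd (E.pr y).toAdd))) := by
      rw [← E'.comm, ← E.comm, map_mul, map_mul, map_mul, map_inv, map_inv]
    rw [← hκ, ← hφ, ← hφ, hx, hy] at h1
    have h2 := Multiplicative.ofAdd.injective (E'.inj h1)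
    rw [toAdd_ofAdd, toAdd_ofAdd, LinearEquiv.apply_symm_apply, LinearEquiv.apply_symm_apply] at h2
    exact h2.symm
  · funext v
    rw [smul_pw]
    show κ (q.pw (φ.symm v)) = q'.pw v
    obtain ⟨x, hx⟩ := E.surj (Multiplicative.ofAdd (φ.symm v))
    have h1 : E'.inc (Multiplicative.ofAdd (q'.pw (E'.pr (e x)).toAdd)) =
        e (E.inc (Multiplicative.ofAdd (q.pw (E.pr x).toAdd))) := by
      rw [← E'.pow, ← E.pow, map_pow]
    rw [← hκ, ← hφ, hx] at h1
    have h2 := Multiplicative.ofAdd.injective (E'.inj h1)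
    rw [toAdd_ofAdd, LinearEquiv.apply_symm_apply] at h2
    exact h2.symm

end Groups

end Pool.Agent.APG
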