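import Pool.Agent.APG.Defs

/-!
# The group with given data (row R8a)
-/

set_option autoImplicit false

open Module Finset

namespace Pool.Agent.APG

section Model

/-- the carry of the sum of the representatives in `[0, p)` -/
def carry {p : ℕ} (x y : ZMod p) : ℕ := (x.val + y.val) / p

lemma val_add_carry {p : ℕ} [Fact p.Prime] (x y : ZMod p) :
    x.val + y.val = (x + y).val + p * carry x y := by
  unfold carry
  rw [ZMod.val_add]
  exact (Nat.mod_add_div _ _).symm

lemma carry_comm {p : ℕ} (x y : ZMod p) : carry x y = carry y x := by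
  unfold carry
  rw [add_comm]

lemma carry_zero_left {p : ℕ} [Fact p.Prime] (x : ZMod p) : carry 0 x = 0 := by
  unfold carry
  rw [ZMod.val_zero, zero_add]
  exact Nat.div_eq_of_lt (ZMod.val_lt x)

lemma carry_assoc {p : ℕ} [Fact p.Prime] (x y z : ZMod p) :
    carry x y + carry (x + y) z = carry y z + carry x (y + z) := by
  have hp : 0 < p := (Fact.out : p.Prime).pos
  have h1 := val_add_carry x y
  have h2 := val_add_carry (x + y) z
  have h3 := val_add_carry y z
  have h4 := val_add_carry x (y + z)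
  have h5 : (x + y + z) = (x + (y + z)) := add_assoc x y z
  rw [h5] at h2
  have h6 : p * (carry x y + carry (x + y) z) = p * (carry y z + carry x (y + z)) := by
    rw [mul_add, mul_add]
    omega
  exact Nat.eq_of_mul_eq_mul_left hp h6

lemma sum_carry {p : ℕ} [Fact p.Prime] (x : ZMod p) (k : ℕ) :
    k * x.val = (k • x).val + p * ∑ j ∈ range k, carry (j • x) x := by
  induction k with
  | zero => simp
  | succ k ih =>
    rw [Finset.sum_range_succ, mul_add, succ_nsmul]
    have h := val_add_carry (k • x) x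
    have h2 : (k + 1) * x.val = k * x.val + x.val := by ring
    omega

lemma sum_carry_p {p : ℕ} [Fact p.Prime] (x : ZMod p) :
    ∑ j ∈ range p, carry (j • x) x = x.val := by
  have hp : 0 < p := (Fact.out : p.Prime).pos
  have h := sum_carry x p
  have h1 : p • x = 0 := by
    rw [nsmul_eq_mul, ZMod.natCast_self, zero_mul]
  rw [h1, ZMod.val_zero, zero_add] at h
  exact (Nat.eq_of_mul_eq_mul_left hp h).symm

variable {p : ℕ} [Fact p.Prime] {W : Type} [AddCommGroup W] [Module (ZMod p) W] {d : ℕ}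

/-- the part of the commutator map below the diagonal -/
def tri (q : Dat p (Fin d → ZMod p) W) :
    (Fin d → ZMod p) →ₗ[ZMod p] (Fin d → ZMod p) →ₗ[ZMod p] W :=
  LinearMap.mk₂ (ZMod p)
    (fun v v' => ∑ x ∈ (univ : Finset (Fin d × Fin d)).filter (fun x => x.2 < x.1),
      (v x.1 * v' x.2) • q.be (Pi.single x.1 1) (Pi.single x.2 1))
    (by
      intro v₁ v₂ v'
      rw [← Finset.sum_add_distrib]
      refine Finset.sum_congr rfl (fun x _ => ?_)
      rw [Pi.add_apply, add_mul, add_smul])
    (by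
      intro c v v'
      rw [Finset.smul_sum]
      refine Finset.sum_congr rfl (fun x _ => ?_)
      rw [Pi.smul_apply, smul_eq_mul, mul_assoc, mul_smul])
    (by
      intro v v₁ v₂
      rw [← Finset.sum_add_distrib]
      refine Finset.sum_congr rfl (fun x _ => ?_)
      rw [Pi.add_apply, mul_add, add_smul])
    (by
      intro c v v'
      rw [Finset.smul_sum]
      refine Finset.sum_congr rfl (fun x _ => ?_)
      rw [Pi.smul_apply, smul_eq_mul, mul_left_comm, mul_smul])

lemma tri_apply (q : Dat p (Fin d → ZMod p) W) (v v' : Fin d → ZMod p) :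
    tri q v v' = ∑ x ∈ (univ : Finset (Fin d × Fin d)).filter (fun x => x.2 < x.1),
      (v x.1 * v' x.2) • q.be (Pi.single x.1 1) (Pi.single x.2 1) := rfl

lemma tri_single (q : Dat p (Fin d → ZMod p) W) (i j : Fin d) :
    tri q (Pi.single i 1) (Pi.single j 1) =
      if j < i then q.be (Pi.single i 1) (Pi.single j 1) else 0 := by
  rw [tri_apply, Finset.sum_filter]
  rw [Finset.sum_eq_single (i, j)]
  · simp
  · rintro ⟨a, b⟩ _ hab
    by_cases h1 : a = i
    · by_cases h2 : b = j
      · exact absurd (by rw [h1, h2]) hab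
      · simp [Pi.single_apply, h2]
    · simp [Pi.single_apply, h1]
  · intro h
    exact absurd (Finset.mem_univ _) h

lemma be_swap (q : Dat p (Fin d → ZMod p) W) (v v' : Fin d → ZMod p) :
    q.be v' v = -q.be v v' := by
  have h := q.alt (v + v')
  simp only [map_add, LinearMap.add_apply, q.alt, zero_add, add_zero] at h
  rw [eq_neg_iff_add_eq_zero, ← h]

lemma be_eq_tri (q : Dat p (Fin d → ZMod p) W) (v v' : Fin d → ZMod p) :
    q.be v v' = tri q v v' - tri q v' v := by
  have h : q.be = tri q - (tri q).flip := by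
    refine (Pi.basisFun (ZMod p) (Fin d)).ext (fun i => ?_)
    refine (Pi.basisFun (ZMod p) (Fin d)).ext (fun j => ?_)
    rw [Pi.basisFun_apply, Pi.basisFun_apply, LinearMap.sub_apply, LinearMap.sub_apply,
      LinearMap.flip_apply, tri_single, tri_single]
    rcases lt_trichotomy i j with hij | hij | hij
    · rw [if_neg (not_lt.mpr hij.le), if_pos hij, be_swap, zero_sub]
    · subst hij
      rw [if_neg (lt_irrefl _), sub_self, q.alt]
    · rw [if_pos hij, if_neg (not_lt.mpr hij.le), sub_zero]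
  have h2 := congrArg (fun b => b v v') h
  simpa using h2

lemma two_choose_smul (w : W) : (p.choose 2) • w + (p.choose 2) • w = 0 := by
  rw [← add_nsmul, ← two_mul]
  have h : 2 * p.choose 2 = p * (p - 1) := by
    rw [Nat.choose_two_right, Nat.mul_div_cancel' (Nat.even_mul_pred_self p).two_dvd]
  rw [h, mul_comm, mul_nsmul']
  first
    | exact ZModModule.char_nsmul_eq_zero p _
    | rw [ZModModule.char_nsmul_eq_zero p w, nsmul_zero]

/-- the power map in terms of its values on the basis -/
lemma pw_eq (q : Dat p (Fin d → ZMod p) W) (v : Fin d → ZMod p) :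
    q.pw v = ∑ i, v i • q.pw (Pi.single i 1) + (p.choose 2) • tri q v v := by
  have hadd : ∀ v v' : Fin d → ZMod p,
      q.pw (v + v') - (∑ i, (v + v') i • q.pw (Pi.single i 1) +
        (p.choose 2) • tri q (v + v') (v + v')) =
      (q.pw v - (∑ i, v i • q.pw (Pi.single i 1) + (p.choose 2) • tri q v v)) +
      (q.pw v' - (∑ i, v' i • q.pw (Pi.single i 1) + (p.choose 2) • tri q v' v')) := by
    intro v v'
    have h1 : ∑ i, (v + v') i • q.pw (Pi.single i 1) =
        ∑ i, v i • q.pw (Pi.single i 1) + ∑ i, v' i • q.pw (Pi.single i 1) := by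
      rw [← Finset.sum_add_distrib]
      refine Finset.sum_congr rfl (fun i _ => ?_)
      rw [Pi.add_apply, add_smul]
    have h2 : tri q (v + v') (v + v') =
        tri q v v + tri q v v' + (tri q v' v + tri q v' v') := by
      simp only [map_add, LinearMap.add_apply]
      abel
    have h3 := two_choose_smul (p := p) (tri q v' v)
    rw [h1, h2, q.pw_add, be_eq_tri, nsmul_sub, nsmul_add, nsmul_add, nsmul_add]
    have h4 : (p.choose 2) • tri q v' v = -((p.choose 2) • tri q v' v) :=
      eq_neg_of_add_eq_zero_left h3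
    rw [← sub_eq_zero]
    have h5 : ∀ a b c e f g t u : W, t + t = 0 →
        (a + b + (c - t) - (e + f + (g + c + (t + u)))) - ((a - (e + g)) + (b - (f + u))) = 0 := by
      intro a b c e f g t u ht
      have : (a + b + (c - t) - (e + f + (g + c + (t + u)))) - ((a - (e + g)) + (b - (f + u))) =
          -(t + t) := by abel
      rw [this, ht, neg_zero]
    exact h5 _ _ _ _ _ _ _ _ h3
  let D : (Fin d → ZMod p) →+ W := AddMonoidHom.mk'
    (fun v => q.pw v - (∑ i, v i • q.pw (Pi.single i 1) + (p.choose 2) • tri q v v)) hadd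
  have hD : D.toZModLinearMap p = 0 := by
    refine (Pi.basisFun (ZMod p) (Fin d)).ext (fun j => ?_)
    rw [Pi.basisFun_apply, LinearMap.zero_apply]
    show q.pw (Pi.single j 1) - (∑ i, (Pi.single j 1 : Fin d → ZMod p) i • q.pw (Pi.single i 1) +
      (p.choose 2) • tri q (Pi.single j 1) (Pi.single j 1)) = 0
    rw [tri_single, if_neg (lt_irrefl _), nsmul_zero, add_zero, Finset.sum_eq_single j]
    · rw [Pi.single_eq_same, one_smul, sub_self]
    · intro i _ hij
      rw [Pi.single_eq_of_ne hij, zero_smul]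
    · intro h
      exact absurd (Finset.mem_univ _) h
  have h := LinearMap.congr_fun hD v
  have h2 : q.pw v - (∑ i, v i • q.pw (Pi.single i 1) + (p.choose 2) • tri q v v) = 0 := h
  exact sub_eq_zero.mp h2

/-- the cocycle -/
def coc (q : Dat p (Fin d → ZMod p) W) (v v' : Fin d → ZMod p) : W :=
  tri q v v' + ∑ i, carry (v i) (v' i) • q.pw (Pi.single i 1)

lemma coc_assoc (q : Dat p (Fin d → ZMod p) W) (v v' v'' : Fin d → ZMod p) :
    coc q v v' + coc q (v + v') v'' = coc q v' v'' + coc q v (v' + v'') := by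
  unfold coc
  have h1 : ∑ i, carry (v i) (v' i) • q.pw (Pi.single i 1) +
      ∑ i, carry ((v + v') i) (v'' i) • q.pw (Pi.single i 1) =
      ∑ i, carry (v' i) (v'' i) • q.pw (Pi.single i 1) +
      ∑ i, carry (v i) ((v' + v'') i) • q.pw (Pi.single i 1) := by
    rw [← Finset.sum_add_distrib, ← Finset.sum_add_distrib]
    refine Finset.sum_congr rfl (fun i _ => ?_)
    rw [← add_nsmul, ← add_nsmul, Pi.add_apply, Pi.add_apply, carry_assoc]
  rw [map_add, LinearMap.add_apply, map_add]
  generalize ∑ i, carry (v i) (v' i) • q.pw (Pi.single i 1) = a at h1 ⊢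
  generalize ∑ i, carry ((v + v') i) (v'' i) • q.pw (Pi.single i 1) = b at h1 ⊢
  generalize ∑ i, carry (v' i) (v'' i) • q.pw (Pi.single i 1) = c at h1 ⊢
  generalize ∑ i, carry (v i) ((v' + v'') i) • q.pw (Pi.single i 1) = e at h1 ⊢
  have h2 : e = a + b - c := by rw [h1]; abel
  rw [h2]
  abel

lemma coc_zero_left (q : Dat p (Fin d → ZMod p) W) (v : Fin d → ZMod p) : coc q 0 v = 0 := by
  unfold coc
  rw [map_zero, LinearMap.zero_apply, zero_add]
  refine Finset.sum_eq_zero (fun i _ => ?_)
  rw [Pi.zero_apply, carry_zero_left, zero_nsmul]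

lemma coc_sub (q : Dat p (Fin d → ZMod p) W) (v v' : Fin d → ZMod p) :
    coc q v v' = q.be v v' + coc q v' v := by
  unfold coc
  have h : ∑ i, carry (v i) (v' i) • q.pw (Pi.single i 1) =
      ∑ i, carry (v' i) (v i) • q.pw (Pi.single i 1) :=
    Finset.sum_congr rfl (fun i _ => by rw [carry_comm])
  rw [h, be_eq_tri]
  abel

lemma sum_coc (q : Dat p (Fin d → ZMod p) W) (v : Fin d → ZMod p) :
    ∑ j ∈ range p, coc q (j • v) v = q.pw v := by
  unfold coc
  rw [Finset.sum_add_distrib, Finset.sum_comm, pw_eq q v, add_comm]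
  congr 1
  · refine Finset.sum_congr rfl (fun i _ => ?_)
    have h1 : ∑ j ∈ range p, carry ((j • v) i) (v i) • q.pw (Pi.single i 1) =
        (∑ j ∈ range p, carry (j • v i) (v i)) • q.pw (Pi.single i 1) := by
      rw [Finset.sum_nsmul_assoc]; rfl
    rw [h1, sum_carry_p, ← Nat.cast_smul_eq_nsmul (ZMod p), ZMod.natCast_zmod_val]
  · have h1 : ∀ j ∈ range p, tri q (j • v) v = j • tri q v v := by
      intro j _
      rw [map_nsmul, LinearMap.smul_apply]
    rw [Finset.sum_congr rfl h1, ← Finset.sum_smul, Finset.sum_range_id, Nat.choose_two_right]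

/-- the group with the data `q` -/
structure Mdl (q : Dat p (Fin d → ZMod p) W) : Type where
  /-- first coordinate -/
  v : Fin d → ZMod p
  /-- second coordinate -/
  w : W

@[ext] lemma Mdl.ext {q : Dat p (Fin d → ZMod p) W} {x y : Mdl q} (h1 : x.v = y.v)
    (h2 : x.w = y.w) : x = y := by
  cases x; cases y; cases h1; cases h2; rfl

instance (q : Dat p (Fin d → ZMod p) W) : Mul (Mdl q) :=
  ⟨fun x y => ⟨x.v + y.v, x.w + y.w + coc q x.v y.v⟩⟩

instance (q : Dat p (Fin d → ZMod p) W) : One (Mdl q) := ⟨⟨0, 0⟩⟩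

instance (q : Dat p (Fin d → ZMod p) W) : Inv (Mdl q) :=
  ⟨fun x => ⟨-x.v, -x.w - coc q (-x.v) x.v⟩⟩

lemma Mdl.mul_v {q : Dat p (Fin d → ZMod p) W} (x y : Mdl q) : (x * y).v = x.v + y.v := rfl

lemma Mdl.mul_w {q : Dat p (Fin d → ZMod p) W} (x y : Mdl q) :
    (x * y).w = x.w + y.w + coc q x.v y.v := rfl

lemma Mdl.one_v {q : Dat p (Fin d → ZMod p) W} : (1 : Mdl q).v = 0 := rfl

lemma Mdl.one_w {q : Dat p (Fin d → ZMod p) W} : (1 : Mdl q).w = 0 := rfl

noncomputable instance (q : Dat p (Fin d → ZMod p) W) : Group (Mdl q) :=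
  Group.ofLeftAxioms
    (by
      intro x y z
      apply Mdl.ext
      · rw [Mdl.mul_v, Mdl.mul_v, Mdl.mul_v, Mdl.mul_v, add_assoc]
      · rw [Mdl.mul_w, Mdl.mul_w, Mdl.mul_w, Mdl.mul_w, Mdl.mul_v, Mdl.mul_v]
        have h := coc_assoc q x.v y.v z.v
        have h2 : coc q (x.v + y.v) z.v = coc q y.v z.v + coc q x.v (y.v + z.v) - coc q x.v y.v := by
          rw [← h]; abel
        rw [h2]
        abel)
    (by
      intro x
      apply Mdl.ext
      · rw [Mdl.mul_v, Mdl.one_v, zero_add]
      · rw [Mdl.mul_w, Mdl.one_v, Mdl.one_w, coc_zero_left, zero_add, add_zero])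
    (by
      intro x
      apply Mdl.ext
      · show -x.v + x.v = 0
        rw [neg_add_cancel]
      · show -x.w - coc q (-x.v) x.v + x.w + coc q (-x.v) x.v = 0
        abel)

lemma Mdl.pow_eq {q : Dat p (Fin d → ZMod p) W} (x : Mdl q) (k : ℕ) :
    (x ^ k).v = k • x.v ∧ (x ^ k).w = k • x.w + ∑ j ∈ range k, coc q (j • x.v) x.v := by
  induction k with
  | zero =>
    rw [pow_zero, Mdl.one_v, Mdl.one_w, zero_nsmul, zero_nsmul, Finset.sum_range_zero, add_zero]
    exact ⟨rfl, rfl⟩
  | succ k ih =>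
    rw [pow_succ, Mdl.mul_v, Mdl.mul_w, ih.1, ih.2, succ_nsmul, succ_nsmul,
      Finset.sum_range_succ]
    refine ⟨rfl, ?_⟩
    abel

/-- ROW R8a: the group with given data -/
theorem exists_ext {d : ℕ} (q : Dat p (Fin d → ZMod p) W) :
    ∃ (P : Type) (_ : Group P), Nonempty (Ext q P) := by
  refine ⟨Mdl q, inferInstance, ⟨?_⟩⟩
  refine
    { pr := MonoidHom.mk' (fun x => Multiplicative.ofAdd x.v) (fun x y => rfl)
      inc := MonoidHom.mk' (fun w => ⟨0, w.toAdd⟩) (fun w w' => ?_)
      surj := ?_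
      inj := ?_
      exact := ?_
      comm := ?_
      pow := ?_ }
  · apply Mdl.ext
    · show (0 : Fin d → ZMod p) = 0 + 0
      rw [add_zero]
    · show w.toAdd + w'.toAdd = w.toAdd + w'.toAdd + coc q 0 0
      rw [coc_zero_left, add_zero]
  · intro v
    exact ⟨⟨v.toAdd, 0⟩, rfl⟩
  · intro w w' h
    have h2 : (⟨0, w.toAdd⟩ : Mdl q) = ⟨0, w'.toAdd⟩ := h
    have h3 : w.toAdd = w'.toAdd := congrArg Mdl.w h2
    exact Multiplicative.toAdd.injective h3
  · apply Subgroup.ext
    intro x
    rw [MonoidHom.mem_ker, MonoidHom.mem_range]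
    constructor
    · intro h
      have h2 : x.v = 0 := h
      refine ⟨Multiplicative.ofAdd x.w, ?_⟩
      apply Mdl.ext
      · exact h2.symm
      · rfl
    · rintro ⟨w, rfl⟩
      rfl
  · intro x y
    rw [mul_inv_eq_iff_eq_mul, mul_inv_eq_iff_eq_mul, mul_assoc]
    apply Mdl.ext
    · show x.v + y.v = 0 + (y.v + x.v)
      rw [zero_add, add_comm]
    · show x.w + y.w + coc q x.v y.v = q.be x.v y.v + (y.w + x.w + coc q y.v x.v) +
        coc q 0 (y.v + x.v)
      rw [coc_zero_left, add_zero, coc_sub q x.v y.v]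
      abel
  · intro x
    have h := Mdl.pow_eq x p
    apply Mdl.ext
    · rw [h.1]
      show p • x.v = 0
      exact ZModModule.char_nsmul_eq_zero p x.v
    · rw [h.2, sum_coc, ZModModule.char_nsmul_eq_zero p x.w, zero_add]
      rfl

end Model

end Pool.Agent.APG
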