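import Pool.Agent.APG.Defs

/-!
# Orbit counts and bounds for the number of isomorphism classes
-/

set_option autoImplicit false

open Module

namespace Pool.Agent.APG

section Orb

/-- the sum of the orders of the stabilisers over an orbit -/
lemma sum_stab_orbit {G X : Type} [Group G] [Fintype G] [Fintype X] [MulAction G X]
    [DecidableEq (MulAction.orbitRel.Quotient G X)]
    (o : MulAction.orbitRel.Quotient G X) :
    ∑ x ∈ Finset.univ.filter (fun x : X => (Quotient.mk'' x : MulAction.orbitRel.Quotient G X) = o),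
      Nat.card (MulAction.stabilizer G x) = Nat.card G := by
  classical
  induction o using Quotient.inductionOn' with
  | h x₀ =>
    have hmem : ∀ x : X, (Quotient.mk'' x : MulAction.orbitRel.Quotient G X) = Quotient.mk'' x₀ ↔
        x ∈ MulAction.orbit G x₀ := by
      intro x
      rw [Quotient.eq'', MulAction.orbitRel_apply]
    have hmul : ∀ x : X, Nat.card (MulAction.orbit G x) * Nat.card (MulAction.stabilizer G x) =
        Nat.card G := by
      intro x
      have h := MulAction.card_orbit_mul_card_stabilizer_eq_card_group G x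
      simpa [Nat.card_eq_fintype_card] using h
    have hpos : 0 < Nat.card (MulAction.orbit G x₀) := by
      have : Nonempty (MulAction.orbit G x₀) := ⟨⟨x₀, MulAction.mem_orbit_self x₀⟩⟩
      exact Nat.card_pos
    have hconst : ∀ x ∈ Finset.univ.filter (fun x : X =>
        (Quotient.mk'' x : MulAction.orbitRel.Quotient G X) = Quotient.mk'' x₀),
        Nat.card (MulAction.stabilizer G x) = Nat.card (MulAction.stabilizer G x₀) := by
      intro x hx
      rw [Finset.mem_filter, hmem] at hx
      have h1 := hmul x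
      rw [MulAction.orbit_eq_iff.2 hx.2, ← hmul x₀] at h1
      exact Nat.eq_of_mul_eq_mul_left hpos h1
    rw [Finset.sum_congr rfl hconst, Finset.sum_const, smul_eq_mul]
    have hcard : (Finset.univ.filter (fun x : X =>
        (Quotient.mk'' x : MulAction.orbitRel.Quotient G X) = Quotient.mk'' x₀)).card =
        Nat.card (MulAction.orbit G x₀) := by
      rw [Nat.card_eq_fintype_card, ← Set.toFinset_card]
      congr 1
      ext x
      rw [Finset.mem_filter, hmem, Set.mem_toFinset]
      exact ⟨fun h => h.2, fun h => ⟨Finset.mem_univ _, h⟩⟩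
    rw [hcard]
    exact hmul x₀

/-- ROW R7a (file Orb.lean): the orbits in an invariant set `B` or with nontrivial stabilisers -/
theorem orbit_count {G X : Type} [Group G] [Finite G] [Finite X] [MulAction G X] (B : Set X)
    (hB : ∀ (g : G) (x : X), x ∈ B → g • x ∈ B) :
    Nat.card {o : MulAction.orbitRel.Quotient G X // ∃ x : X, Quotient.mk'' x = o ∧
      (x ∈ B ∨ ∃ g : G, g ≠ 1 ∧ g • x = x)} * Nat.card G ≤
      Nat.card B + 2 * Nat.card {y : G × X // y.1 ≠ 1 ∧ y.1 • y.2 = y.2} := by
  classical
  cases nonempty_fintype G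
  cases nonempty_fintype X
  -- the invariant property
  set P : X → Prop := fun x => x ∈ B ∨ ∃ g : G, g ≠ 1 ∧ g • x = x with hP
  have hinv : ∀ (g : G) (x : X), P x → P (g • x) := by
    rintro g x (h | ⟨k, hk, hkx⟩)
    · exact Or.inl (hB g x h)
    · refine Or.inr ⟨g * k * g⁻¹, ?_, ?_⟩
      · intro h
        apply hk
        have h1 : g * k = g := by
          have := congrArg (· * g) h
          simpa using this
        exact mul_left_cancel (h1.trans (mul_one g).symm)
      · rw [mul_smul, inv_smul_smul, mul_smul, hkx]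
  have hPq : ∀ x : X, (∃ x' : X, (Quotient.mk'' x' : MulAction.orbitRel.Quotient G X) =
      Quotient.mk'' x ∧ P x') ↔ P x := by
    intro x
    constructor
    · rintro ⟨x', hx', h⟩
      rw [Quotient.eq'', MulAction.orbitRel_apply] at hx'
      have h2 : x ∈ MulAction.orbit G x' := MulAction.mem_orbit_symm.1 hx'
      obtain ⟨g, rfl⟩ := h2
      exact hinv g x' h
    · intro h
      exact ⟨x, rfl, h⟩
  set O : Finset (MulAction.orbitRel.Quotient G X) := Finset.univ.filter
    (fun o => ∃ x : X, Quotient.mk'' x = o ∧ P x) with hO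
  have hcO : Nat.card {o : MulAction.orbitRel.Quotient G X // ∃ x : X, Quotient.mk'' x = o ∧
      (x ∈ B ∨ ∃ g : G, g ≠ 1 ∧ g • x = x)} = O.card := by
    rw [Nat.card_eq_fintype_card, Fintype.card_subtype]
  rw [hcO]
  have h1 : O.card * Nat.card G = ∑ x ∈ Finset.univ.filter (fun x : X => P x),
      Nat.card (MulAction.stabilizer G x) := by
    have h2 : ∑ o ∈ O, ∑ x ∈ Finset.univ.filter
        (fun x : X => (Quotient.mk'' x : MulAction.orbitRel.Quotient G X) = o),
        Nat.card (MulAction.stabilizer G x) = O.card * Nat.card G := by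
      rw [Finset.sum_congr rfl (fun o _ => sum_stab_orbit o), Finset.sum_const, smul_eq_mul]
    rw [← h2]
    have h3 := Finset.sum_fiberwise_of_maps_to (s := Finset.univ.filter (fun x : X => P x))
      (t := O) (g := fun x => (Quotient.mk'' x : MulAction.orbitRel.Quotient G X))
      (f := fun x => Nat.card (MulAction.stabilizer G x))
      (fun x hx => by
        rw [hO, Finset.mem_filter]
        exact ⟨Finset.mem_univ _, x, rfl, (Finset.mem_filter.1 hx).2⟩)
    rw [← h3]
    apply Finset.sum_congr rfl
    intro o ho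
    apply Finset.sum_congr _ (fun _ _ => rfl)
    ext x
    rw [Finset.mem_filter, Finset.mem_filter, Finset.mem_filter]
    constructor
    · rintro ⟨_, hx⟩
      refine ⟨⟨Finset.mem_univ _, ?_⟩, hx⟩
      rw [hO, Finset.mem_filter] at ho
      rw [← hPq x]
      rw [hx]
      exact ho.2
    · rintro ⟨_, hx⟩
      exact ⟨Finset.mem_univ _, hx⟩
  rw [h1]
  -- the number of nontrivial elements of the stabiliser
  set s : X → ℕ := fun x => (Finset.univ.filter (fun g : G => g ≠ 1 ∧ g • x = x)).card with hs
  have hstab : ∀ x : X, Nat.card (MulAction.stabilizer G x) = 1 + s x := by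
    intro x
    rw [Nat.card_eq_fintype_card]
    have h2 : Fintype.card (MulAction.stabilizer G x) =
        (Finset.univ.filter (fun g : G => g • x = x)).card := by
      rw [← Fintype.card_subtype]
      apply Fintype.card_congr
      exact Equiv.subtypeEquivRight (fun g => MulAction.mem_stabilizer_iff)
    rw [h2]
    have h3 : Finset.univ.filter (fun g : G => g • x = x) =
        insert 1 (Finset.univ.filter (fun g : G => g ≠ 1 ∧ g • x = x)) := by
      ext g
      rw [Finset.mem_insert, Finset.mem_filter, Finset.mem_filter]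
      constructor
      · rintro ⟨_, h⟩
        by_cases hg : g = 1
        · exact Or.inl hg
        · exact Or.inr ⟨Finset.mem_univ _, hg, h⟩
      · rintro (rfl | ⟨_, _, h⟩)
        · exact ⟨Finset.mem_univ _, one_smul G x⟩
        · exact ⟨Finset.mem_univ _, h⟩
    rw [h3, Finset.card_insert_of_notMem (by simp), add_comm]
  rw [Finset.sum_congr rfl (fun x _ => hstab x), Finset.sum_add_distrib, Finset.sum_const,
    smul_eq_mul, mul_one]
  have hsum : ∑ x : X, s x = Nat.card {y : G × X // y.1 ≠ 1 ∧ y.1 • y.2 = y.2} := by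
    rw [Nat.card_eq_fintype_card, Fintype.card_subtype, hs]
    rw [← Finset.card_sigma]
    apply Finset.card_bij (fun (a : Σ _ : X, G) _ => (a.2, a.1))
    · rintro ⟨x, g⟩ ha
      rw [Finset.mem_sigma, Finset.mem_filter] at ha
      rw [Finset.mem_filter]
      exact ⟨Finset.mem_univ _, ha.2.2⟩
    · rintro ⟨x, g⟩ _ ⟨x', g'⟩ _ h
      simp only [Prod.mk.injEq] at h
      obtain ⟨rfl, rfl⟩ := h
      rfl
    · rintro ⟨g, x⟩ hy
      rw [Finset.mem_filter] at hy
      refine ⟨⟨x, g⟩, ?_, rfl⟩
      rw [Finset.mem_sigma, Finset.mem_filter]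
      exact ⟨Finset.mem_univ _, Finset.mem_univ _, hy.2⟩
  have hle1 : ∑ x ∈ Finset.univ.filter (fun x : X => P x), s x ≤ ∑ x : X, s x :=
    Finset.sum_le_sum_of_subset (Finset.filter_subset _ _)
  have hle2 : (Finset.univ.filter (fun x : X => P x)).card ≤ Nat.card B + ∑ x : X, s x := by
    have h4 : Finset.univ.filter (fun x : X => P x) ⊆
        B.toFinset ∪ Finset.univ.filter (fun x : X => 1 ≤ s x) := by
      intro x hx
      rw [Finset.mem_filter] at hx
      rw [Finset.mem_union]
      rcases hx.2 with h | ⟨g, hg, hgx⟩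
      · exact Or.inl (Set.mem_toFinset.2 h)
      · refine Or.inr ?_
        rw [Finset.mem_filter]
        refine ⟨Finset.mem_univ _, ?_⟩
        exact Finset.card_pos.2 ⟨g, Finset.mem_filter.2 ⟨Finset.mem_univ _, hg, hgx⟩⟩
    have h5 : (Finset.univ.filter (fun x : X => 1 ≤ s x)).card ≤ ∑ x : X, s x := by
      rw [Finset.card_eq_sum_ones]
      calc ∑ x ∈ Finset.univ.filter (fun x : X => 1 ≤ s x), 1
          ≤ ∑ x ∈ Finset.univ.filter (fun x : X => 1 ≤ s x), s x :=
            Finset.sum_le_sum (fun x hx => (Finset.mem_filter.1 hx).2)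
        _ ≤ ∑ x : X, s x := Finset.sum_le_sum_of_subset (Finset.filter_subset _ _)
    calc (Finset.univ.filter (fun x : X => P x)).card
        ≤ (B.toFinset ∪ Finset.univ.filter (fun x : X => 1 ≤ s x)).card := Finset.card_le_card h4
      _ ≤ B.toFinset.card + (Finset.univ.filter (fun x : X => 1 ≤ s x)).card :=
          Finset.card_union_le _ _
      _ ≤ Nat.card B + ∑ x : X, s x := by
          rw [Set.toFinset_card, ← Nat.card_eq_fintype_card]
          omega
  rw [← hsum]
  omega

/-- ROW R7b -/
theorem orbit_lower {G X : Type} [Group G] [Finite G] [Finite X] [MulAction G X] (Y : Set X) :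
    Nat.card Y ≤ Nat.card G * Nat.card {o : MulAction.orbitRel.Quotient G X //
      ∃ x : X, Quotient.mk'' x = o ∧ x ∈ Y} := by
  classical
  have h : ∀ y : Y, ∃ g : G, g • (Quotient.out (Quotient.mk'' y.1 :
      MulAction.orbitRel.Quotient G X) : X) = y.1 := by
    intro y
    have h1 : (Quotient.mk'' (Quotient.out (Quotient.mk'' y.1 :
      MulAction.orbitRel.Quotient G X)) : MulAction.orbitRel.Quotient G X) = Quotient.mk'' y.1 :=
      Quotient.out_eq' _
    rw [Quotient.eq'', MulAction.orbitRel_apply] at h1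
    exact MulAction.mem_orbit_symm.1 h1
  choose g hg using h
  rw [← Nat.card_prod]
  apply Nat.card_le_card_of_injective
    (fun y : Y => (g y, (⟨Quotient.mk'' y.1, y.1, rfl, y.2⟩ :
      {o : MulAction.orbitRel.Quotient G X // ∃ x : X, Quotient.mk'' x = o ∧ x ∈ Y})))
  intro y y' hyy
  simp only [Prod.mk.injEq, Subtype.mk.injEq] at hyy
  apply Subtype.ext
  rw [← hg y, ← hg y', hyy.1, hyy.2]

/-- ROW R7c: upper bound for the number of isomorphism classes -/
theorem numIso_le {N : ℕ} (Q : (P : Type) → [Group P] → Prop) {I : Type} [Finite I]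
    (R : I → (P : Type) → [Group P] → Prop)
    (hR : ∀ (i : I) (P P' : Type) [Group P] [Group P'], R i P → R i P' → Nonempty (P ≃* P'))
    (h : ∀ (P : Type) [Group P], Nat.card P = N → Q P → ∃ i, R i P) :
    numIso N Q ≤ Nat.card I := by
  classical
  have h1 : ∀ o : Quotient (isoSetoid N Q), ∃ i, @R i (Fin N) (Quotient.out o).1 := by
    intro o
    exact @h (Fin N) (Quotient.out o).1 (Nat.card_fin N) (Quotient.out o).2
  choose f hf using h1
  unfold numIso
  apply Nat.card_le_card_of_injective f
  intro o o' hoo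
  have h2 : @R (f o) (Fin N) (Quotient.out o').1 := by
    rw [hoo]
    exact hf o'
  have h3 := @hR (f o) (Fin N) (Fin N) (Quotient.out o).1 (Quotient.out o').1 (hf o) h2
  rw [← Quotient.out_eq o, ← Quotient.out_eq o']
  exact Quotient.sound h3

lemma finite_group (N : ℕ) : Finite (Group (Fin N)) := by
  apply Finite.of_injective (fun g : Group (Fin N) => fun a b : Fin N => @HMul.hMul _ _ _
    (@instHMul (Fin N) g.toMul) a b)
  intro g g' hgg
  apply Group.ext
  exact hgg

/-- ROW R7d: lower bound for the number of isomorphism classes -/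
theorem le_numIso {N : ℕ} (Q : (P : Type) → [Group P] → Prop)
    (hQ : ∀ (P P' : Type) [Group P] [Group P'], P ≃* P' → Q P → Q P') {I : Type}
    [Finite I] (hN : 1 ≤ N) (R : I → (P : Type) → [Group P] → Prop)
    (hR : ∀ (i j : I) (P P' : Type) [Group P] [Group P'], R i P → R j P' → (P ≃* P') → i = j)
    (h : ∀ i, ∃ (P : Type) (_ : Group P), R i P ∧ Nat.card P = N ∧ Q P) :
    Nat.card I ≤ numIso N Q := by
  classical
  have : Finite (Group (Fin N)) := finite_group N
  have : Finite (Quotient (isoSetoid N Q)) := inferInstance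
  choose P gP hP using h
  have he : ∀ i, Nonempty (P i ≃ Fin N) := by
    intro i
    have hc : Nat.card (P i) = N := (hP i).2.1
    have hfin : Finite (P i) := Nat.finite_of_card_ne_zero (by rw [hc]; omega)
    exact ⟨(Finite.equivFin (P i)).trans (finCongr hc)⟩
  have e : ∀ i, P i ≃ Fin N := fun i => (he i).some
  have hg : ∀ i, ∃ (g : Group (Fin N)), Nonempty (@MulEquiv (P i) (Fin N) (gP i).toMul g.toMul) := by
    intro i
    exact ⟨@Equiv.group (Fin N) (P i) (e i).symm (gP i),
      ⟨@MulEquiv.symm (Fin N) (P i) (@Equiv.mul (Fin N) (P i) (e i).symm (gP i).toMul)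
        (gP i).toMul (@Equiv.mulEquiv (Fin N) (P i) (e i).symm (gP i).toMul)⟩⟩
  choose g hge using hg
  have hQg : ∀ i, @Q (Fin N) (g i) := by
    intro i
    obtain ⟨ee⟩ := hge i
    exact @hQ (P i) (Fin N) (gP i) (g i) ee (hP i).2.2
  unfold numIso
  apply Nat.card_le_card_of_injective
    (fun i => (Quotient.mk (isoSetoid N Q) ⟨g i, hQg i⟩ : Quotient (isoSetoid N Q)))
  intro i j hij
  obtain ⟨c⟩ := Quotient.exact hij
  obtain ⟨ei⟩ := hge i
  obtain ⟨ej⟩ := hge j
  let _ := gP i
  let _ := gP j
  have : Nonempty (P i ≃* P j) := by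
    refine ⟨@MulEquiv.trans (P i) (Fin N) (P j) (gP i).toMul (g i).toMul (gP j).toMul ei
      (@MulEquiv.trans (Fin N) (Fin N) (P j) (g i).toMul (g j).toMul (gP j).toMul c
        (@MulEquiv.symm (P j) (Fin N) (gP j).toMul (g j).toMul ej))⟩
  obtain ⟨eij⟩ := this
  exact @hR i j (P i) (P j) (gP i) (gP j) (hP i).1 (hP j).1 eij

end Orb

end Pool.Agent.APG
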