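import Pool.Agent.APG.Det
import Pool.Agent.APG.CntBase44
import Pool.Agent.APG.Frat
import Pool.Agent.Helper19.PCP

/-!
# Partial congruence partitions of `P × P` for generic data
-/

set_option autoImplicit false

open Module

namespace Pool.Agent.APG

open Pool.Agent.Helper19.PCP

section Pcp
variable {p : ℕ} [Fact p.Prime] {V W : Type} [AddCommGroup V] [AddCommGroup W]
  [Module (ZMod p) V] [Module (ZMod p) W] {q : Dat p V W} {P : Type} [Group P]

/-- the projection of `P × P` to `V × V` -/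
def Ext.pr2 (E : Ext q P) : P × P →* Multiplicative (V × V) where
  toFun x := Multiplicative.ofAdd ((E.pr x.1).toAdd, (E.pr x.2).toAdd)
  map_one' := by
    rw [Prod.fst_one, Prod.snd_one, map_one]
    rfl
  map_mul' x y := by
    have h1 : (E.pr (x * y).1).toAdd = (E.pr x.1).toAdd + (E.pr y.1).toAdd := by
      rw [Prod.fst_mul, map_mul E.pr]
      rfl
    have h2 : (E.pr (x * y).2).toAdd = (E.pr x.2).toAdd + (E.pr y.2).toAdd := by
      rw [Prod.snd_mul, map_mul E.pr]
      rfl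
    rw [h1, h2]
    rfl

/-- the inclusion of `W × W` in `P × P` -/
def Ext.inc2 (E : Ext q P) : Multiplicative (W × W) →* P × P where
  toFun w := (E.inc (Multiplicative.ofAdd w.toAdd.1), E.inc (Multiplicative.ofAdd w.toAdd.2))
  map_one' := by
    show (E.inc 1, E.inc 1) = 1
    rw [map_one]
    rfl
  map_mul' x y := by
    show (E.inc (Multiplicative.ofAdd x.toAdd.1 * Multiplicative.ofAdd y.toAdd.1),
      E.inc (Multiplicative.ofAdd x.toAdd.2 * Multiplicative.ofAdd y.toAdd.2)) = _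
    rw [map_mul E.inc, map_mul E.inc]
    rfl

lemma Ext.inc2_injective (E : Ext q P) : Function.Injective E.inc2 := by
  intro x y h
  have h1 : E.inc (Multiplicative.ofAdd x.toAdd.1) = E.inc (Multiplicative.ofAdd y.toAdd.1) :=
    congrArg Prod.fst h
  have h2 : E.inc (Multiplicative.ofAdd x.toAdd.2) = E.inc (Multiplicative.ofAdd y.toAdd.2) :=
    congrArg Prod.snd h
  exact Multiplicative.toAdd.injective (Prod.ext (Multiplicative.ofAdd.injective (E.inj h1))
    (Multiplicative.ofAdd.injective (E.inj h2)))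

lemma Ext.ker_pr2 (E : Ext q P) (x : P × P) : E.pr2 x = 1 ↔ x ∈ E.inc2.range := by
  constructor
  · intro h
    have h0 : ((E.pr x.1).toAdd, (E.pr x.2).toAdd) = (0 : V × V) :=
      Multiplicative.ofAdd.injective h
    have h1 : x.1 ∈ E.pr.ker := Multiplicative.toAdd.injective (congrArg Prod.fst h0)
    have h2 : x.2 ∈ E.pr.ker := Multiplicative.toAdd.injective (congrArg Prod.snd h0)
    rw [E.exact] at h1 h2
    obtain ⟨w1, hw1⟩ := h1
    obtain ⟨w2, hw2⟩ := h2
    exact ⟨Multiplicative.ofAdd (w1.toAdd, w2.toAdd), Prod.ext hw1 hw2⟩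
  · rintro ⟨w, rfl⟩
    have h1 := E.pr_inc (Multiplicative.ofAdd w.toAdd.1)
    have h2 := E.pr_inc (Multiplicative.ofAdd w.toAdd.2)
    show Multiplicative.ofAdd ((E.pr (E.inc _)).toAdd, (E.pr (E.inc _)).toAdd) = 1
    rw [h1, h2]
    rfl

/-- the image of `U` in `V × V` -/
def Ext.img (E : Ext q P) (U : Subgroup (P × P)) : Submodule (ZMod p) (V × V) :=
  AddSubgroup.toZModSubmodule p (Subgroup.toAddSubgroup' (U.map E.pr2))

/-- the intersection of `U` with `W × W` -/
def Ext.bot (E : Ext q P) (U : Subgroup (P × P)) : Submodule (ZMod p) (W × W) :=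
  AddSubgroup.toZModSubmodule p (Subgroup.toAddSubgroup' (U.comap E.inc2))

lemma Ext.mem_img (E : Ext q P) (U : Subgroup (P × P)) (v : V × V) :
    v ∈ E.img U ↔ ∃ x ∈ U, E.pr2 x = Multiplicative.ofAdd v := Iff.rfl

lemma Ext.mem_bot (E : Ext q P) (U : Subgroup (P × P)) (w : W × W) :
    w ∈ E.bot U ↔ E.inc2 (Multiplicative.ofAdd w) ∈ U := Iff.rfl

lemma Ext.card_img_bot (E : Ext q P) (U : Subgroup (P × P)) :
    Nat.card U = Nat.card (E.img U) * Nat.card (E.bot U) := by
  set f : U →* Multiplicative (V × V) := E.pr2.comp U.subtype with hf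
  have h1 := f.ker.card_mul_index
  rw [Subgroup.index_ker] at h1
  have h2 : Nat.card f.range = Nat.card (E.img U) := by
    refine Nat.card_congr (Equiv.subtypeEquiv (Equiv.refl _) ?_)
    intro v
    constructor
    · rintro ⟨x, hx⟩
      exact ⟨x.1, x.2, hx⟩
    · rintro ⟨x, hx, hx'⟩
      exact ⟨⟨x, hx⟩, hx'⟩
  have h3 : Nat.card (E.bot U) = Nat.card f.ker := by
    refine Nat.card_congr (Equiv.ofBijective
      (fun w => ⟨⟨E.inc2 (Multiplicative.ofAdd w.1), w.2⟩, ?_⟩) ⟨?_, ?_⟩)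
    · exact (E.ker_pr2 _).mpr ⟨_, rfl⟩
    · intro w w' h
      have h' : E.inc2 (Multiplicative.ofAdd w.1) = E.inc2 (Multiplicative.ofAdd w'.1) :=
        congrArg (fun x => x.1.1) h
      exact Subtype.ext (Multiplicative.ofAdd.injective (E.inc2_injective h'))
    · rintro ⟨⟨x, hx⟩, hx'⟩
      obtain ⟨w, hw⟩ := (E.ker_pr2 x).mp hx'
      refine ⟨⟨w.toAdd, ?_⟩, ?_⟩
      · show E.inc2 w ∈ U
        rw [hw]
        exact hx
      · exact Subtype.ext (Subtype.ext hw)
  rw [← h1, h2, h3, mul_comm]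

/-- the values on the image are in the intersection -/
lemma Ext.be_mem (E : Ext q P) (U : Subgroup (P × P)) {x y : V × V} (hx : x ∈ E.img U)
    (hy : y ∈ E.img U) : (q.be x.1 y.1, q.be x.2 y.2) ∈ E.bot U := by
  obtain ⟨a, ha, hax⟩ := (E.mem_img U x).mp hx
  obtain ⟨b, hb, hby⟩ := (E.mem_img U y).mp hy
  rw [E.mem_bot]
  have h : a * b * a⁻¹ * b⁻¹ ∈ U := U.mul_mem (U.mul_mem (U.mul_mem ha hb) (U.inv_mem ha))
    (U.inv_mem hb)
  have ex : ((E.pr a.1).toAdd, (E.pr a.2).toAdd) = x := Multiplicative.ofAdd.injective hax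
  have ey : ((E.pr b.1).toAdd, (E.pr b.2).toAdd) = y := Multiplicative.ofAdd.injective hby
  have h1 := E.comm a.1 b.1
  have h2 := E.comm a.2 b.2
  have e : a * b * a⁻¹ * b⁻¹ = E.inc2 (Multiplicative.ofAdd (q.be x.1 y.1, q.be x.2 y.2)) := by
    rw [← ex, ← ey]
    exact Prod.ext h1 h2
  rwa [e] at h

lemma Ext.pw_mem (E : Ext q P) (U : Subgroup (P × P)) {x : V × V} (hx : x ∈ E.img U) :
    (q.pw x.1, q.pw x.2) ∈ E.bot U := by
  obtain ⟨a, ha, hax⟩ := (E.mem_img U x).mp hx
  rw [E.mem_bot]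
  have h : a ^ p ∈ U := U.pow_mem ha p
  have ex : ((E.pr a.1).toAdd, (E.pr a.2).toAdd) = x := Multiplicative.ofAdd.injective hax
  have h1 := E.pow a.1
  have h2 := E.pow a.2
  have e : a ^ p = E.inc2 (Multiplicative.ofAdd (q.pw x.1, q.pw x.2)) := by
    rw [← ex]
    exact Prod.ext h1 h2
  rwa [e] at h

/-- the members of a partial congruence partition: the intersections with `W × W` -/
theorem pcp_bots [Finite V] [Finite W] (E : Ext q P) {h : ℕ} (hG : GenCond q.be h)
    (h2 : 2 * h ≤ finrank (ZMod p) V) {𝒰 : Finset (Subgroup (P × P))}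
    (hU : IsPCP (Nat.card P) 𝒰) {U : Subgroup (P × P)} (hUm : U ∈ 𝒰)
    {U' : Subgroup (P × P)} (hUm' : U' ∈ 𝒰) (hne : U ≠ U') :
    E.bot U = Submodule.prod ⊤ ⊥ ∨ E.bot U = Submodule.prod ⊥ ⊤ ∨
      ∃ γ : Gam p V W, γ • q = q ∧ E.bot U = LinearMap.graph γ.2.toLinearMap := by
  have hp2 : 1 < p := (Fact.out : p.Prime).one_lt
  set d := finrank (ZMod p) V with hd
  set m := finrank (ZMod p) W with hm
  have hfV : Module.Finite (ZMod p) V := Module.Finite.of_finite
  have hfW : Module.Finite (ZMod p) W := Module.Finite.of_finite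
  have hdim : ∀ T ∈ 𝒰, finrank (ZMod p) (E.img T) + finrank (ZMod p) (E.bot T) = d + m := by
    intro T hT
    have h1 := E.card_img_bot T
    rw [hU.1 T hT, E.card_eq, card_mod (p := p) V, card_mod (p := p) W,
      card_mod (p := p) (E.img T), card_mod (p := p) (E.bot T), ← pow_add, ← pow_add] at h1
    exact (Nat.pow_right_injective hp2 h1).symm
  have hinf : E.bot U ⊓ E.bot U' = ⊥ := by
    rw [eq_bot_iff]
    rintro w ⟨hw1, hw2⟩
    have h1 : E.inc2 (Multiplicative.ofAdd w) ∈ U ⊓ U' := ⟨hw1, hw2⟩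
    rw [hU.2 U hUm U' hUm' hne, Subgroup.mem_bot] at h1
    have h3 : Multiplicative.ofAdd w = 1 := E.inc2_injective (h1.trans (map_one _).symm)
    exact Multiplicative.ofAdd.injective h3
  have hsum : finrank (ZMod p) (E.bot U) + finrank (ZMod p) (E.bot U') ≤ 2 * m := by
    have h1 := Submodule.finrank_sup_add_finrank_inf_eq (E.bot U) (E.bot U')
    rw [hinf, finrank_bot] at h1
    have h3 : finrank (ZMod p) (E.bot U ⊔ E.bot U' : Submodule (ZMod p) (W × W)) ≤
        finrank (ZMod p) (W × W) := Submodule.finrank_le _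
    rw [Module.finrank_prod] at h3
    omega
  -- if the image has dimension at least `d`
  have key : ∀ T ∈ 𝒰, d ≤ finrank (ZMod p) (E.img T) → finrank (ZMod p) (E.bot T) = m ∧
      (E.bot T = Submodule.prod ⊤ ⊥ ∨ E.bot T = Submodule.prod ⊥ ⊤ ∨
      ∃ γ : Gam p V W, γ • q = q ∧ E.bot T = LinearMap.graph γ.2.toLinearMap) := by
    intro T hT hle
    obtain ⟨v, hv, hvi⟩ := exists_indep_in (E.img T) hle
    obtain ⟨U₀, hU₀, hU₀d⟩ : ∃ U₀ : Submodule (ZMod p) (V × V), U₀ ≤ E.img T ∧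
        finrank (ZMod p) U₀ = d := by
      refine ⟨Submodule.span (ZMod p) (Set.range v), ?_, ?_⟩
      · rw [Submodule.span_le]
        rintro _ ⟨i, rfl⟩
        exact hv i
      · rw [finrank_span_eq_card hvi, Fintype.card_fin]
    have h1 := hdim T hT
    have h3 := classify q hG h2 U₀ hU₀d (E.bot T) (by omega)
      (fun x hx y hy => E.be_mem T (hU₀ hx) (hU₀ hy)) (fun x hx => E.pw_mem T (hU₀ hx))
    refine ⟨?_, h3⟩
    rcases h3 with h3 | h3 | ⟨γ, -, h3⟩
    · have e : Submodule.prod (⊤ : Submodule (ZMod p) W) (⊥ : Submodule (ZMod p) W) =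
          LinearMap.range (LinearMap.inl (ZMod p) W W) := by
        ext x
        constructor
        · rintro ⟨-, hx⟩
          exact ⟨x.1, Prod.ext rfl ((Submodule.mem_bot _).mp hx).symm⟩
        · rintro ⟨w, rfl⟩
          exact ⟨trivial, (Submodule.mem_bot _).mpr rfl⟩
      rw [h3, e, LinearMap.finrank_range_of_inj LinearMap.inl_injective]
    · have e : Submodule.prod (⊥ : Submodule (ZMod p) W) (⊤ : Submodule (ZMod p) W) =
          LinearMap.range (LinearMap.inr (ZMod p) W W) := by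
        ext x
        constructor
        · rintro ⟨hx, -⟩
          exact ⟨x.2, Prod.ext ((Submodule.mem_bot _).mp hx).symm rfl⟩
        · rintro ⟨w, rfl⟩
          exact ⟨(Submodule.mem_bot _).mpr rfl, trivial⟩
      rw [h3, e, LinearMap.finrank_range_of_inj LinearMap.inr_injective]
    · rw [h3, LinearMap.graph_eq_range_prod, LinearMap.finrank_range_of_inj]
      intro a b hab
      exact congrArg Prod.fst hab
  have d1 := hdim U hUm
  have d2 := hdim U' hUm'
  by_cases hle : d ≤ finrank (ZMod p) (E.img U)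
  · exact (key U hUm hle).2
  · exfalso
    have h3 := (key U' hUm' (by omega)).1
    omega

/-- the intersections with `W × W` of two different members are different -/
lemma bot_ne [Finite V] [Finite W] (E : Ext q P) (hW : 1 ≤ finrank (ZMod p) W)
    {𝒰 : Finset (Subgroup (P × P))} (hU : IsPCP (Nat.card P) 𝒰) {U : Subgroup (P × P)}
    (hUm : U ∈ 𝒰) {U' : Subgroup (P × P)} (hUm' : U' ∈ 𝒰) (hne : U ≠ U')
    (h : E.bot U = Submodule.prod ⊤ ⊥ ∨ E.bot U = Submodule.prod ⊥ ⊤ ∨
      ∃ γ : Gam p V W, γ • q = q ∧ E.bot U = LinearMap.graph γ.2.toLinearMap) :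
    E.bot U ≠ E.bot U' := by
  intro heq
  have hinf : ∀ w ∈ E.bot U, w = 0 := by
    intro w hw
    have hw' : w ∈ E.bot U' := by rwa [← heq]
    have h1 : E.inc2 (Multiplicative.ofAdd w) ∈ U ⊓ U' := ⟨hw, hw'⟩
    rw [hU.2 U hUm U' hUm' hne, Subgroup.mem_bot] at h1
    have h3 : Multiplicative.ofAdd w = 1 := E.inc2_injective (h1.trans (map_one _).symm)
    exact Multiplicative.ofAdd.injective h3
  have hnt : Nontrivial W := Module.nontrivial_of_finrank_pos (R := ZMod p) (by omega)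
  obtain ⟨w, hw⟩ := exists_ne (0 : W)
  rcases h with h | h | ⟨γ, -, h⟩
  · exact hw (congrArg Prod.fst (hinf (w, 0) (by rw [h]; exact ⟨trivial, rfl⟩)))
  · exact hw (congrArg Prod.snd (hinf (0, w) (by rw [h]; exact ⟨rfl, trivial⟩)))
  · exact hw (congrArg Prod.fst (hinf (w, γ.2 w) (by rw [h]; exact rfl)))

/-- ROW R2a -/
theorem T_le_three [Finite V] [Finite W] (q : Dat p V W) {h : ℕ} (hG : GenCond q.be h)
    (h2 : 2 * h ≤ finrank (ZMod p) V) (hW : 1 ≤ finrank (ZMod p) W)
    (hS : ∀ γ : Gam p V W, γ • q = q → γ = 1) (P : Type) [Group P] (E : Ext q P) :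
    T (P × P) ≤ 3 := by
  classical
  have hfin : Finite P := by
    apply Nat.finite_of_card_ne_zero
    rw [E.card_eq, card_mod (p := p) V, card_mod (p := p) W, ← pow_add]
    exact pow_ne_zero _ (Fact.out : p.Prime).ne_zero
  refine T_prod_le (fun 𝒰 hU => ?_)
  by_cases h1 : 𝒰.card ≤ 1
  · omega
  have hbot : ∀ U ∈ 𝒰, E.bot U = Submodule.prod ⊤ ⊥ ∨ E.bot U = Submodule.prod ⊥ ⊤ ∨
      ∃ γ : Gam p V W, γ • q = q ∧ E.bot U = LinearMap.graph γ.2.toLinearMap := by
    intro U hUm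
    obtain ⟨U', hUm', hne⟩ := Finset.exists_mem_ne (s := 𝒰) (by omega) U
    exact pcp_bots E hG h2 hU hUm hUm' hne.symm
  have hinj : Set.InjOn E.bot (𝒰 : Set (Subgroup (P × P))) := by
    intro U hUm U' hUm' heq
    by_contra hne
    exact bot_ne E hW hU hUm hUm' hne (hbot U hUm) heq
  rw [← Finset.card_image_of_injOn hinj]
  refine (Finset.card_le_card (t := {Submodule.prod ⊤ ⊥, Submodule.prod ⊥ ⊤,
    LinearMap.graph LinearMap.id}) ?_).trans (Finset.card_le_three)
  intro K hK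
  obtain ⟨U, hUm, rfl⟩ := Finset.mem_image.mp hK
  rcases hbot U hUm with h | h | ⟨γ, hγ, h⟩
  · rw [h]
    simp
  · rw [h]
    simp
  · rw [hS γ hγ] at h
    rw [h]
    simp only [Finset.mem_insert, Finset.mem_singleton]
    right
    right
    rfl

end Pcp

end Pool.Agent.APG
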