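import Pool.Agent.APG.Basic
import Pool.Agent.APG.Orb
import Pool.Agent.APG.Iso
import Pool.Agent.APG.Frat
import Pool.Agent.APG.CntSum
import Pool.Agent.APG.FixSum
import Pool.Agent.APG.Pcp
import Pool.Agent.APG.Model

/-!
# The number of isomorphism classes
-/

set_option autoImplicit false

open Module

namespace Pool.Agent.APG

open Pool.Agent.Helper19.PCP

/-- the space `F_p ^ d` -/
abbrev Vs (p d : ℕ) : Type := Fin d → ZMod p

/-- the exponent of the number of data -/
def Ex (d m : ℕ) : ℕ := m * (d.choose 2 + d)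

section
variable {p : ℕ} [Fact p.Prime]

lemma finrank_Vs (d : ℕ) : finrank (ZMod p) (Vs p d) = d := by simp

lemma card_Dat (d m : ℕ) : Nat.card (Dat p (Vs p d) (Vs p m)) = p ^ Ex d m := by
  have h := card_dat (p := p) (V := Vs p d) (W := Vs p m) (finrank_Vs d) (finrank_Vs m)
    (fun _ => True)
  have h1 : Nat.card {q : Dat p (Vs p d) (Vs p m) // True} = Nat.card (Dat p (Vs p d) (Vs p m)) :=
    Nat.card_congr (Equiv.subtypeUnivEquiv fun _ => trivial)
  have h2 : Nat.card {b : Alt p (Vs p d) (Vs p m) // True} = Nat.card (Alt p (Vs p d) (Vs p m)) :=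
    Nat.card_congr (Equiv.subtypeUnivEquiv fun _ => trivial)
  rw [h1] at h
  rw [h, h2, card_alt (finrank_Vs d) (finrank_Vs m), ← pow_add, Ex, mul_add]

lemma card_Gl_le (d : ℕ) : Nat.card (Vs p d ≃ₗ[ZMod p] Vs p d) ≤ p ^ (d ^ 2) := by
  have h1 : Nat.card (Vs p d ≃ₗ[ZMod p] Vs p d) ≤ Nat.card (Vs p d →ₗ[ZMod p] Vs p d) :=
    Nat.card_le_card_of_injective (fun f => f.toLinearMap) LinearEquiv.toLinearMap_injective
  have h2 : Nat.card (Vs p d →ₗ[ZMod p] Vs p d) = p ^ (d ^ 2) := by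
    rw [Module.natCard_eq_pow_finrank (K := ZMod p), Module.finrank_linearMap, finrank_Vs,
      Nat.card_zmod, sq]
  omega

lemma card_Gam_le (d m : ℕ) : Nat.card (Gam p (Vs p d) (Vs p m)) ≤ p ^ (d ^ 2 + m ^ 2) := by
  rw [Nat.card_prod, pow_add]
  exact Nat.mul_le_mul (card_Gl_le d) (card_Gl_le m)

/-- the orbits -/
abbrev Orb (p d m : ℕ) : Type :=
  MulAction.orbitRel.Quotient (Gam p (Vs p d) (Vs p m)) (Dat p (Vs p d) (Vs p m))

/-- the group `P` is represented by the orbit `o` -/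
def Rep {d m : ℕ} (o : Orb p d m) (P : Type) [Group P] : Prop :=
  ∃ q : Dat p (Vs p d) (Vs p m), Quotient.mk'' q = o ∧ Nonempty (Ext q P)

lemma rep_iso {d m : ℕ} (o : Orb p d m) (P P' : Type) [Group P] [Group P'] (h : Rep o P)
    (h' : Rep o P') : Nonempty (P ≃* P') := by
  obtain ⟨q, hq, ⟨E⟩⟩ := h
  obtain ⟨q', hq', ⟨E'⟩⟩ := h'
  have h1 : (Quotient.mk'' q : Orb p d m) = Quotient.mk'' q' := hq.trans hq'.symm
  obtain ⟨γ, hγ⟩ := Quotient.exact h1
  have hγ' : γ • q' = q := hγ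
  obtain ⟨E''⟩ := E'.of_smul γ
  rw [hγ'] at E''
  exact E.iso E''

/-- the groups with central elementary abelian Frattini subgroup -/
def QAll (p n : ℕ) : (P : Type) → [Group P] → Prop := fun P _ => FratTwo p n P

/-- those with `T ≠ 3` -/
def QBad (p n : ℕ) : (P : Type) → [Group P] → Prop := fun P _ => FratTwo p n P ∧ T (P × P) ≠ 3

/-- bad orbits -/
def BadOrb (p d m : ℕ) [Fact p.Prime] : Set (Orb p d m) :=
  {o | ∃ q : Dat p (Vs p d) (Vs p m), Quotient.mk'' q = o ∧ q.Full ∧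
    ∃ (P : Type) (_ : Group P), Nonempty (Ext q P) ∧ T (P × P) ≠ 3}

lemma bad_le (n : ℕ) : numIso (p ^ n) (QBad p n) ≤
    ∑ d ∈ Finset.range (n + 1), Nat.card (BadOrb p d (n - d)) := by
  have h := numIso_le (N := p ^ n) (QBad p n)
    (I := Σ d : Fin (n + 1), BadOrb p (d : ℕ) (n - d))
    (fun i P _ => Rep i.2.1 P) (fun i P P' _ _ h h' => rep_iso _ P P' h h') (by
      intro P _ _ hP
      obtain ⟨hP1, hP2⟩ := hP
      obtain ⟨d, m, hdm, q, hq, ⟨E⟩⟩ := exists_dat P hP1
      have hm : m = n - d := by omega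
      subst hm
      exact ⟨⟨⟨d, by omega⟩, ⟨Quotient.mk'' q, q, rfl, hq, P, inferInstance, ⟨E⟩, hP2⟩⟩,
        q, rfl, ⟨E⟩⟩)
  refine h.trans (le_of_eq ?_)
  rw [Nat.card_sigma, Finset.sum_range]

/-- the full orbits -/
def FullOrb (p d m : ℕ) [Fact p.Prime] : Type :=
  {o : Orb p d m // ∃ q : Dat p (Vs p d) (Vs p m), Quotient.mk'' q = o ∧ q ∈ {q | q.Full}}

instance (d m : ℕ) : Finite (FullOrb p d m) := by
  unfold FullOrb
  infer_instance

omit [Fact p.Prime] in
lemma fratTwo_congr {n : ℕ} (P P' : Type) [Group P] [Group P'] (e : P ≃* P')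
    (h : FratTwo p n P) : FratTwo p n P' := by
  obtain ⟨h1, h2, h3⟩ := h
  have hF : ∀ x ∈ frattini P', e.symm x ∈ frattini P := fun x hx =>
    frattini_le_comap_frattini_of_surjective (φ := e.symm.toMonoidHom) e.symm.surjective hx
  refine ⟨?_, ?_, ?_⟩
  · rw [← h1]
    exact (Nat.card_congr e.toEquiv).symm
  · intro x hx
    rw [Subgroup.mem_center_iff]
    intro y
    have h4 := Subgroup.mem_center_iff.mp (h2 (hF x hx)) (e.symm y)
    rw [← map_mul, ← map_mul] at h4
    exact e.symm.injective h4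
  · intro x hx
    have h4 := h3 _ (hF x hx)
    rw [← map_pow] at h4
    exact e.symm.injective (h4.trans (map_one _).symm)

lemma le_all (d m : ℕ) :
    Nat.card (FullOrb p d m) ≤ numIso (p ^ (d + m)) (QAll p (d + m)) := by
  refine le_numIso (QAll p (d + m)) (fun P P' _ _ e h => fratTwo_congr P P' e h)
    (Nat.pos_of_ne_zero (pow_ne_zero _ (Nat.Prime.ne_zero Fact.out)))
    (fun o P _ => ∃ q : Dat p (Vs p d) (Vs p m), Quotient.mk'' q = o.1 ∧ q.Full ∧
      Nonempty (Ext q P)) ?_ ?_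
  · rintro o o' P P' _ _ ⟨q, hq, hf, ⟨E⟩⟩ ⟨q', hq', hf', ⟨E'⟩⟩ e
    apply Subtype.ext
    rw [← hq, ← hq']
    obtain ⟨γ, hγ⟩ := Ext.exists_smul hf hf' E E' e
    apply Quotient.sound
    refine ⟨γ⁻¹, ?_⟩
    show γ⁻¹ • q' = q
    rw [← hγ, inv_smul_smul]
  · rintro ⟨o, q, hq, hf⟩
    obtain ⟨P, _, ⟨E⟩⟩ := exists_ext q
    refine ⟨P, inferInstance, ⟨q, hq, hf, ⟨E⟩⟩, ?_, ?_⟩
    · rw [E.card, finrank_Vs, finrank_Vs]
    · have h := E.fratTwo
      rw [finrank_Vs, finrank_Vs] at h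
      exact h

/-- good pairs -/
def Good (d m : ℕ) : Prop := 10000 ≤ d ∧ d ≤ 4 * m ∧ m ≤ d

/-- most data are full -/
lemma card_Dat_le {d m : ℕ} (h : Good d m) : Nat.card (Dat p (Vs p d) (Vs p m)) ≤
    2 * (Nat.card (Gam p (Vs p d) (Vs p m)) * Nat.card (FullOrb p d m)) := by
  obtain ⟨h1, h2, h3⟩ := h
  have hp : 2 ≤ p := (Fact.out : p.Prime).two_le
  have hN := card_not_gen (p := p) (V := Vs p d) (W := Vs p m) (finrank_Vs d) (finrank_Vs m)
    h1 h2 h3
  have hL := orbit_lower (G := Gam p (Vs p d) (Vs p m)) (X := Dat p (Vs p d) (Vs p m))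
    {q | q.Full}
  have hF : Nat.card (Dat p (Vs p d) (Vs p m)) ≤
      Nat.card {q : Dat p (Vs p d) (Vs p m) // ¬ GenCond q.be (2 * (d / 16))} +
        Nat.card ({q | q.Full} : Set (Dat p (Vs p d) (Vs p m))) := by
    have e1 : Nat.card (Dat p (Vs p d) (Vs p m)) =
        Nat.card {q : Dat p (Vs p d) (Vs p m) // ¬ GenCond q.be (2 * (d / 16))} +
          Nat.card {q : Dat p (Vs p d) (Vs p m) // ¬ ¬ GenCond q.be (2 * (d / 16))} := by
      classical
      rw [← Nat.card_sum]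
      exact Nat.card_congr (Equiv.sumCompl _).symm
    rw [e1]
    apply Nat.add_le_add_left
    refine Nat.card_le_card_of_injective
      (β := ({q | q.Full} : Set (Dat p (Vs p d) (Vs p m))))
      (fun q => ⟨q.1, full_of_genCond (h := 2 * (d / 16)) (not_not.mp q.2)⟩) ?_
    intro q q' hqq
    exact Subtype.ext (congrArg (fun x => x.1) hqq)
  have h2p : 2 ≤ p ^ (3 * d) := by
    calc 2 ≤ p := hp
      _ = p ^ 1 := (pow_one p).symm
      _ ≤ p ^ (3 * d) := Nat.pow_le_pow_right (by omega) (by omega)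
  have h4 : Nat.card {q : Dat p (Vs p d) (Vs p m) // ¬ GenCond q.be (2 * (d / 16))} * 2 ≤
      Nat.card (Dat p (Vs p d) (Vs p m)) :=
    (Nat.mul_le_mul_left _ h2p).trans hN
  have h5 : Nat.card ({q | q.Full} : Set (Dat p (Vs p d) (Vs p m))) ≤
      Nat.card (Gam p (Vs p d) (Vs p m)) * Nat.card (FullOrb p d m) := hL
  omega

/-- the bad orbits in the good range -/
lemma badOrb_le {d m : ℕ} (h : Good d m) :
    Nat.card (BadOrb p d m) * p ^ (3 * d) ≤ 6 * Nat.card (FullOrb p d m) := by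
  have hg := h
  obtain ⟨h1, h2, h3⟩ := h
  have hp : 2 ≤ p := (Fact.out : p.Prime).two_le
  set B : Set (Dat p (Vs p d) (Vs p m)) := {q | ¬ GenCond q.be (2 * (d / 16))} with hB
  have hN : Nat.card B * p ^ (3 * d) ≤ Nat.card (Dat p (Vs p d) (Vs p m)) :=
    card_not_gen (p := p) (V := Vs p d) (W := Vs p m) (finrank_Vs d) (finrank_Vs m) h1 h2 h3
  have hS := card_fix_sum (p := p) (V := Vs p d) (W := Vs p m) (finrank_Vs d) (finrank_Vs m)
    h1 h2 h3
  have hO := orbit_count (G := Gam p (Vs p d) (Vs p m)) (X := Dat p (Vs p d) (Vs p m)) B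
    (fun γ q hq => not_genCond_smul γ q _ hq)
  have hle : Nat.card (BadOrb p d m) ≤ Nat.card {o : Orb p d m //
      ∃ x : Dat p (Vs p d) (Vs p m), Quotient.mk'' x = o ∧
        (x ∈ B ∨ ∃ g : Gam p (Vs p d) (Vs p m), g ≠ 1 ∧ g • x = x)} := by
    refine Nat.card_le_card_of_injective (fun o => ⟨o.1, ?_⟩) ?_
    · obtain ⟨o, q, hq, hf, P, _, ⟨E⟩, hT⟩ := o
      refine ⟨q, hq, ?_⟩
      by_contra hcon
      rw [not_or] at hcon
      obtain ⟨hc1, hc2⟩ := hcon
      have hG : GenCond q.be (2 * (d / 16)) := by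
        by_contra h'
        exact hc1 h'
      have hS' : ∀ γ : Gam p (Vs p d) (Vs p m), γ • q = q → γ = 1 := by
        intro γ hγ
        by_contra h'
        exact hc2 ⟨γ, h', hγ⟩
      have hle3 : T (P × P) ≤ 3 := T_le_three q hG (by rw [finrank_Vs]; omega)
        (by rw [finrank_Vs]; omega) hS' P E
      have hcard : Nat.card P = p ^ (d + m) := by
        rw [E.card, finrank_Vs, finrank_Vs]
      have hfin : Finite P := Nat.finite_of_card_ne_zero (by
        rw [hcard]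
        exact pow_ne_zero _ (by omega))
      have hnt : Nontrivial P := by
        rw [← Finite.one_lt_card_iff_nontrivial, hcard]
        exact Nat.one_lt_pow (by omega) (by omega)
      have hge3 : 3 ≤ T (P × P) := three_le_T
      exact hT (le_antisymm hle3 hge3)
    · intro o o' hoo
      exact Subtype.ext (congrArg (fun x => x.1) hoo)
  have hD := card_Dat_le (p := p) hg
  have hG0 : 0 < Nat.card (Gam p (Vs p d) (Vs p m)) := Nat.card_pos
  set G := Nat.card (Gam p (Vs p d) (Vs p m))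
  set D := Nat.card (Dat p (Vs p d) (Vs p m))
  set S := Nat.card {y : Gam p (Vs p d) (Vs p m) × Dat p (Vs p d) (Vs p m) //
    y.1 ≠ 1 ∧ y.1 • y.2 = y.2}
  have h6 : Nat.card (BadOrb p d m) * G ≤ Nat.card B + 2 * S := (Nat.mul_le_mul_right _ hle).trans hO
  have h7 : Nat.card (BadOrb p d m) * p ^ (3 * d) * G ≤ 3 * D := by
    calc Nat.card (BadOrb p d m) * p ^ (3 * d) * G = Nat.card (BadOrb p d m) * G * p ^ (3 * d) := by
          ring
      _ ≤ (Nat.card B + 2 * S) * p ^ (3 * d) := Nat.mul_le_mul_right _ h6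
      _ = Nat.card B * p ^ (3 * d) + 2 * (S * p ^ (3 * d)) := by ring
      _ ≤ D + 2 * D := Nat.add_le_add hN (Nat.mul_le_mul_left _ hS)
      _ = 3 * D := by ring
  have h8 : Nat.card (BadOrb p d m) * p ^ (3 * d) * G ≤ 6 * Nat.card (FullOrb p d m) * G := by
    calc Nat.card (BadOrb p d m) * p ^ (3 * d) * G ≤ 3 * D := h7
      _ ≤ 3 * (2 * (G * Nat.card (FullOrb p d m))) := Nat.mul_le_mul_left _ hD
      _ = 6 * Nat.card (FullOrb p d m) * G := by ring
  exact Nat.le_of_mul_le_mul_right h8 hG0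

/-- the number of bad orbits is at most the number of data -/
lemma badOrb_le' (d m : ℕ) : Nat.card (BadOrb p d m) ≤ p ^ Ex d m := by
  rw [← card_Dat]
  have h1 : Nat.card (BadOrb p d m) ≤ Nat.card (Orb p d m) :=
    Nat.card_le_card_of_injective (fun o => o.1) Subtype.val_injective
  exact h1.trans (Nat.card_le_card_of_surjective _ Quotient.mk''_surjective)

end

/-- the cubic inequality -/
lemma tails_int {N M t r : ℤ} (hN0 : 40000 ≤ N) (hM0 : 0 ≤ M) (hNM : 0 ≤ N - M)
    (hN : N = 3 * t + r) (hr0 : 0 ≤ r) (hr2 : r ≤ 2) (hcase : 5 * M ≤ N ∨ 2 * (N - M) ≤ N) :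
    M * ((N - M) * (N - M + 1)) + 2 * (2 * N + 1 + N ^ 2) ≤ t * ((2 * t + r) * (2 * t + r + 1)) := by
  have ht0 : 13332 ≤ t := by linarith
  have hN3 : 0 ≤ N ^ 3 := pow_nonneg (by linarith) 3
  have hup : 125 * (M * ((N - M) * (N - M))) ≤ 16 * N ^ 3 := by
    rcases hcase with h5 | h2
    · have f0 : 0 ≤ 16 * N ^ 2 - 45 * N * M + 25 * M ^ 2 := by nlinarith
      have f1 := mul_nonneg (by linarith : 0 ≤ N - 5 * M) f0
      have f2 : (N - 5 * M) * (16 * N ^ 2 - 45 * N * M + 25 * M ^ 2) =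
          16 * N ^ 3 - 125 * (M * ((N - M) * (N - M))) := by ring
      linarith
    · have f0 : 0 ≤ N ^ 2 + 2 * N * (N - M) - 4 * (N - M) ^ 2 := by nlinarith
      have f1 := mul_nonneg (by linarith : 0 ≤ N - 2 * (N - M)) f0
      have f2 : (N - 2 * (N - M)) * (N ^ 2 + 2 * N * (N - M) - 4 * (N - M) ^ 2) =
          N ^ 3 - 8 * (M * ((N - M) * (N - M))) := by ring
      linarith
  have hup2 : 4 * (M * (N - M)) ≤ N ^ 2 := by
    have f : 0 ≤ (N - 2 * M) ^ 2 := sq_nonneg _
    have f' : (N - 2 * M) ^ 2 = N ^ 2 - 4 * (M * (N - M)) := by ring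
    linarith
  have hlow : 4 * t ^ 3 ≤ t * ((2 * t + r) * (2 * t + r + 1)) := by
    have f1 : t * ((2 * t + r) * (2 * t + r + 1)) = 4 * t ^ 3 + (2 * t ^ 2 + 4 * t ^ 2 * r +
        t * r ^ 2 + t * r) := by ring
    have f2 : 0 ≤ 2 * t ^ 2 + 4 * t ^ 2 * r + t * r ^ 2 + t * r := by positivity
    linarith
  have hNt : N ^ 3 - 6 * N ^ 2 ≤ 27 * t ^ 3 := by
    have f1 : 3 * t = N - r := by linarith
    have f2 : 27 * t ^ 3 = (N - r) ^ 3 := by rw [← f1]; ring
    have f3 : (N - r) ^ 3 = N ^ 3 - 3 * N ^ 2 * r + r ^ 2 * (3 * N - r) := by ring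
    have f4 : 0 ≤ r ^ 2 * (3 * N - r) := mul_nonneg (sq_nonneg _) (by linarith)
    have f5 : N ^ 2 * r ≤ N ^ 2 * 2 := mul_le_mul_of_nonneg_left hr2 (sq_nonneg _)
    linarith
  have hfin : 16 * N ^ 3 * 27 + 125 * 27 * N ^ 2 + 125 * 27 * 2 * (2 * N + 1 + N ^ 2) ≤
      4 * 125 * (N ^ 3 - 6 * N ^ 2) := by
    have f1 : 40000 * N ^ 2 ≤ N ^ 3 := by
      have : N ^ 3 = N * N ^ 2 := by ring
      rw [this]
      exact mul_le_mul_of_nonneg_right hN0 (sq_nonneg _)
    have f2 : 40000 * N ≤ N ^ 2 := by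
      have : N ^ 2 = N * N := by ring
      rw [this]
      exact mul_le_mul_of_nonneg_right hN0 (by linarith)
    linarith
  have e : M * ((N - M) * (N - M + 1)) = M * ((N - M) * (N - M)) + M * (N - M) := by ring
  rw [e]
  have hN2 : 0 ≤ N ^ 2 := sq_nonneg _
  linarith

/-- the tails: the exponents -/
lemma tails {n d m : ℕ} (hn : 40000 ≤ n) (hdm : d + m = n) (h : ¬ Good d m) :
    Ex d m + (2 * n + 1 + n ^ 2) ≤ Ex (n - n / 3) (n / 3) := by
  have hE : ∀ a b : ℕ, 2 * Ex a b = b * (a * (a + 1)) := by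
    intro a b
    have h1 : 2 * (a.choose 2 + a) = a * (a + 1) := by
      have h2 := Nat.choose_two_right a
      have h3 : a * (a - 1) / 2 * 2 = a * (a - 1) :=
        Nat.div_mul_cancel (Nat.even_mul_pred_self a).two_dvd
      rcases Nat.eq_zero_or_pos a with h0 | h0
      · subst h0
        rfl
      · obtain ⟨c, rfl⟩ : ∃ c, a = c + 1 := ⟨a - 1, by omega⟩
        rw [Nat.add_sub_cancel] at h2 h3
        rw [h2]
        nlinarith
    rw [Ex]
    calc 2 * (b * (a.choose 2 + a)) = b * (2 * (a.choose 2 + a)) := by ring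
      _ = b * (a * (a + 1)) := by rw [h1]
  have hcase : 5 * m ≤ n ∨ 2 * d ≤ n := by
    unfold Good at h
    omega
  obtain ⟨t, r, ht, hr⟩ : ∃ t r : ℕ, n = 3 * t + r ∧ r ≤ 2 := ⟨n / 3, n % 3, by omega, by omega⟩
  have e1 : n / 3 = t := by omega
  rw [e1, show n - t = 2 * t + r by omega]
  have hA := hE d m
  have hB := hE (2 * t + r) t
  have hd : d = n - m := by omega
  have hle : 2 * Ex d m + 2 * (2 * n + 1 + n ^ 2) ≤ 2 * Ex (2 * t + r) t := by
    rw [hA, hB]
    have hdz : (d : ℤ) = n - m := by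
      have : (d : ℤ) + m = n := by exact_mod_cast hdm
      linarith
    have key := tails_int (N := n) (M := m) (t := t) (r := r) (by exact_mod_cast hn)
      (by positivity) (by rw [← hdz]; positivity) (by exact_mod_cast ht) (by positivity)
      (by exact_mod_cast hr) (by
        rw [← hdz]
        rcases hcase with h5 | h2
        · left
          exact_mod_cast h5
        · right
          exact_mod_cast h2)
    rw [← hdz] at key
    exact_mod_cast key
  omega

/-- **Main theorem.** -/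
theorem main (p : ℕ) [Fact p.Prime] (n : ℕ) (hn : 40000 ≤ n) :
    p ^ n * numIso (p ^ n) (QBad p n) ≤ numIso (p ^ n) (QAll p n) := by
  have hp : 2 ≤ p := (Fact.out : p.Prime).two_le
  set A := numIso (p ^ n) (QAll p n) with hA
  have key : ∀ d ∈ Finset.range (n + 1), Nat.card (BadOrb p d (n - d)) * (p ^ n * (n + 1)) ≤ A := by
    intro d hd
    rw [Finset.mem_range] at hd
    obtain ⟨m, rfl⟩ : ∃ m, n = d + m := ⟨n - d, by omega⟩
    rw [Nat.add_sub_cancel_left]
    by_cases hg : Good d m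
    · have h1 := badOrb_le (p := p) hg
      have h2 : Nat.card (FullOrb p d m) ≤ A := le_all d m
      obtain ⟨g1, g2, g3⟩ := hg
      have h3 : 6 * (p ^ (d + m) * (d + m + 1)) ≤ p ^ (3 * d) := by
        have e1 : 6 * (d + m + 1) ≤ p ^ d := by
          have e2 : 6 * (d + m + 1) ≤ 2 ^ d := by
            have e3 : ∀ k : ℕ, 10 ≤ k → 12 * k + 6 ≤ 2 ^ k := by
              intro k hk
              induction k, hk using Nat.le_induction with
              | base => norm_num
              | succ k hk ih =>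
                rw [pow_succ]
                omega
            have := e3 d (by omega)
            omega
          exact e2.trans (Nat.pow_le_pow_left hp d)
        calc 6 * (p ^ (d + m) * (d + m + 1)) = p ^ (d + m) * (6 * (d + m + 1)) := by ring
          _ ≤ p ^ (d + m) * p ^ d := Nat.mul_le_mul_left _ e1
          _ = p ^ (d + m + d) := (pow_add _ _ _).symm
          _ ≤ p ^ (3 * d) := Nat.pow_le_pow_right (by omega) (by omega)
      have h4 : 6 * (Nat.card (BadOrb p d m) * (p ^ (d + m) * (d + m + 1))) ≤ 6 * A := by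
        calc 6 * (Nat.card (BadOrb p d m) * (p ^ (d + m) * (d + m + 1)))
            = Nat.card (BadOrb p d m) * (6 * (p ^ (d + m) * (d + m + 1))) := by ring
          _ ≤ Nat.card (BadOrb p d m) * p ^ (3 * d) := Nat.mul_le_mul_left _ h3
          _ ≤ 6 * Nat.card (FullOrb p d m) := h1
          _ ≤ 6 * A := Nat.mul_le_mul_left _ h2
      omega
    · have h1 := badOrb_le' (p := p) d m
      set n := d + m with hnn
      have ht := tails hn rfl hg
      have hg0 : Good (n - n / 3) (n / 3) := ⟨by omega, by omega, by omega⟩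
      have h2 := card_Dat_le (p := p) hg0
      rw [card_Dat] at h2
      have h3 : Nat.card (FullOrb p (n - n / 3) (n / 3)) ≤ A := by
        have h := le_all (p := p) (n - n / 3) (n / 3)
        rw [show n - n / 3 + n / 3 = n by omega] at h
        exact h
      have h4 : Nat.card (Gam p (Vs p (n - n / 3)) (Vs p (n / 3))) ≤ p ^ (n ^ 2) := by
        refine (card_Gam_le _ _).trans (Nat.pow_le_pow_right (by omega) ?_)
        obtain ⟨a, b, ha, hb, hab⟩ : ∃ a b, n - n / 3 = a ∧ n / 3 = b ∧ a + b = n :=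
          ⟨_, _, rfl, rfl, by omega⟩
        rw [ha, hb, ← hab]
        nlinarith [Nat.zero_le (a * b)]
      have h5 : p ^ Ex (n - n / 3) (n / 3) ≤ 2 * (p ^ (n ^ 2) * A) :=
        h2.trans (Nat.mul_le_mul_left _ (Nat.mul_le_mul h4 h3))
      have h6 : 2 * (n + 1) ≤ p ^ (n + 1) := by
        have e2 : 2 * (n + 1) ≤ 2 ^ (n + 1) := by
          rw [pow_succ]
          have := Nat.lt_two_pow_self (n := n)
          omega
        exact e2.trans (Nat.pow_le_pow_left hp _)
      have h7 : p ^ Ex d m * (p ^ n * (2 * (n + 1)) * p ^ (n ^ 2)) ≤ 2 * (p ^ (n ^ 2) * A) * 1 := by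
        calc p ^ Ex d m * (p ^ n * (2 * (n + 1)) * p ^ (n ^ 2))
            ≤ p ^ Ex d m * (p ^ n * p ^ (n + 1) * p ^ (n ^ 2)) := by gcongr
          _ = p ^ (Ex d m + (2 * n + 1 + n ^ 2)) := by
              rw [← pow_add, ← pow_add, ← pow_add]
              congr 1
              ring
          _ ≤ p ^ Ex (n - n / 3) (n / 3) := Nat.pow_le_pow_right (by omega) ht
          _ ≤ 2 * (p ^ (n ^ 2) * A) * 1 := by rw [mul_one]; exact h5
      have h8 : 2 * p ^ (n ^ 2) * (Nat.card (BadOrb p d m) * (p ^ n * (n + 1))) ≤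
          2 * p ^ (n ^ 2) * A := by
        calc 2 * p ^ (n ^ 2) * (Nat.card (BadOrb p d m) * (p ^ n * (n + 1)))
            ≤ 2 * p ^ (n ^ 2) * (p ^ Ex d m * (p ^ n * (n + 1))) := by gcongr
          _ = p ^ Ex d m * (p ^ n * (2 * (n + 1)) * p ^ (n ^ 2)) := by ring
          _ ≤ 2 * (p ^ (n ^ 2) * A) * 1 := h7
          _ = 2 * p ^ (n ^ 2) * A := by ring
      exact Nat.le_of_mul_le_mul_left h8 (by positivity)
  have hsum : (n + 1) * (p ^ n * numIso (p ^ n) (QBad p n)) ≤ (n + 1) * A := by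
    calc (n + 1) * (p ^ n * numIso (p ^ n) (QBad p n))
        ≤ (n + 1) * (p ^ n * ∑ d ∈ Finset.range (n + 1), Nat.card (BadOrb p d (n - d))) := by
          gcongr
          exact bad_le n
      _ = ∑ d ∈ Finset.range (n + 1), Nat.card (BadOrb p d (n - d)) * (p ^ n * (n + 1)) := by
          rw [← Finset.sum_mul]
          ring
      _ ≤ ∑ _d ∈ Finset.range (n + 1), A := Finset.sum_le_sum key
      _ = (n + 1) * A := by rw [Finset.sum_const, Finset.card_range, smul_eq_mul]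
  exact Nat.le_of_mul_le_mul_left hsum (by omega)

end Pool.Agent.APG
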