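import Pool.Agent.APG.DefsB
import Pool.Agent.APG.Fix
import Pool.Agent.APG.Alt

/-!
# Row B5: the sum over the pairs which are not of the form `(lam, lam ^ 2)`
-/

set_option autoImplicit false

open Module

namespace Pool.Agent.APG

namespace FSB

theorem two_choose (n : ℕ) : 2 * n.choose 2 + n = n * n := by
  induction n with
  | zero => rfl
  | succ n ih =>
    have h : (n + 1).choose 2 = n + n.choose 2 := by
      rw [Nat.choose_succ_succ' n 1, Nat.choose_one_right]
    rw [h]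
    nlinarith

theorem arith_fix {d m s s' : ℕ} (hd0 : 10000 ≤ d) (h4 : d ≤ 4 * m) (h5 : m ≤ d)
    (hs : 2 * s ≤ d) (hs' : s' ≤ m) (h : 1 ≤ s + s') :
    (4 * s * d + 1) + (4 * s' * m + 1) + 4 * d +
      min (m * ((d - s).choose 2 + s ^ 2)) ((m - s') * d.choose 2) ≤ m * d.choose 2 := by
  obtain ⟨r', hr'⟩ : ∃ r', d = s + (r' + 1) := ⟨d - s - 1, by omega⟩
  obtain ⟨t, ht⟩ : ∃ t, m = s' + t := ⟨m - s', by omega⟩
  rw [show d - s = r' + 1 by omega, show m - s' = t by omega]
  have hD := two_choose d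
  have hR := two_choose (r' + 1)
  generalize d.choose 2 = D at *
  generalize (r' + 1).choose 2 = R at *
  have hsr : s ≤ r' + 1 := by omega
  have hm1 : 2500 ≤ m := by omega
  have e0 : s * s ≤ s * (r' + 1) := Nat.mul_le_mul_left s hsr
  have e00 : d * d = s * s + 2 * (s * (r' + 1)) + (r' + 1) * (r' + 1) := by rw [hr']; ring
  have e1 : 2 * R + 2 * s ^ 2 + s * r' ≤ 2 * D := by
    have h1 : s ^ 2 = s * s := sq s
    have h2 : s * (r' + 1) = s * r' + s := by ring
    rw [h1]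
    omega
  have e2 : 600 * (s * d) ≤ m * (s * r') := by
    have h1 : d ≤ 4 * r' := by omega
    have h2 : s * d ≤ s * (4 * r') := Nat.mul_le_mul_left _ h1
    have h3 : 2500 * (s * r') ≤ m * (s * r') := Nat.mul_le_mul_right _ hm1
    have h4 : s * (4 * r') = 4 * (s * r') := by ring
    omega
  have hDD : 10000 * d ≤ d * d := Nat.mul_le_mul_right d hd0
  have e3 : 9999 * d ≤ 2 * D := by omega
  have e4 : 9999 * (s' * d) ≤ 2 * (s' * D) := by
    have h1 : s' * (9999 * d) ≤ s' * (2 * D) := Nat.mul_le_mul_left _ e3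
    have h2 : s' * (9999 * d) = 9999 * (s' * d) := by ring
    have h3 : s' * (2 * D) = 2 * (s' * D) := by ring
    omega
  have e5 : 2 * (m * (R + s ^ 2)) + m * (s * r') ≤ 2 * (m * D) := by
    have h1 : m * (2 * R + 2 * s ^ 2 + s * r') ≤ m * (2 * D) := Nat.mul_le_mul_left _ e1
    have h2 : m * (2 * R + 2 * s ^ 2 + s * r') = 2 * (m * (R + s ^ 2)) + m * (s * r') := by ring
    have h3 : m * (2 * D) = 2 * (m * D) := by ring
    omega
  have e6 : d ≤ s * d + s' * d := by
    have h1 : 1 * d ≤ (s + s') * d := Nat.mul_le_mul_right _ h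
    have h2 : (s + s') * d = s * d + s' * d := by ring
    omega
  have e7 : s' * m ≤ s' * d := Nat.mul_le_mul_left _ h5
  have e8 : 2 * min (m * (R + s ^ 2)) (t * D) ≤ m * (R + s ^ 2) + t * D := by
    rw [two_mul]
    exact add_le_add (min_le_left _ _) (min_le_right _ _)
  have e9 : m * D = s' * D + t * D := by rw [ht]; ring
  have e10 : 4 * s * d = 4 * (s * d) := by ring
  have e11 : 4 * s' * m = 4 * (s' * m) := by ring
  rw [e10, e11]
  generalize min (m * (R + s ^ 2)) (t * D) = mn at *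
  generalize m * (R + s ^ 2) = x1 at *
  generalize t * D = x2 at *
  generalize m * D = x3 at *
  generalize s' * D = x4 at *
  generalize m * (s * r') = x5 at *
  generalize s * d = x6 at *
  generalize s' * d = x7 at *
  generalize s' * m = x8 at *
  omega

theorem card_sigma_le {G X : Type} [Finite G] [Finite X] (R : G → Prop) (F : G → X → Prop)
    (M : ℕ) (h : ∀ g, R g → Nat.card {x // F g x} ≤ M) :
    Nat.card {y : G × X // R y.1 ∧ F y.1 y.2} ≤ Nat.card {g // R g} * M := by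
  classical
  haveI : Fintype {g // R g} := Fintype.ofFinite _
  let e : {y : G × X // R y.1 ∧ F y.1 y.2} ≃ (Σ g : {g // R g}, {x // F g.1 x}) :=
    { toFun := fun y => ⟨⟨y.1.1, y.2.1⟩, ⟨y.1.2, y.2.2⟩⟩
      invFun := fun z => ⟨(z.1.1, z.2.1), z.1.2, z.2.2⟩
      left_inv := fun y => rfl
      right_inv := fun z => rfl }
  rw [Nat.card_congr e, Nat.card_sigma]
  calc ∑ g : {g // R g}, Nat.card {x // F g.1 x} ≤ ∑ g : {g // R g}, M :=
        Finset.sum_le_sum (fun g _ => h g.1 g.2)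
    _ = Nat.card {g // R g} * M := by
      rw [Finset.sum_const, smul_eq_mul, Finset.card_univ, Nat.card_eq_fintype_card]

/-- union bound -/
theorem union_bound' {X I : Type} [Finite X] [Finite I] (P : X → Prop) (J : I → X → Prop)
    (K A : ℕ) (hP : ∀ x, P x → ∃ i, J i x) (hJ : ∀ i, Nat.card {x // J i x} * K ≤ A) :
    Nat.card {x // P x} * K ≤ Nat.card I * A := by
  classical
  haveI := Fintype.ofFinite I
  have e : ∀ Q : X → Prop, Nat.card {x // Q x} = {x | Q x}.ncard := fun Q => rfl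
  have h1 : {x | P x} ⊆ ⋃ i ∈ (Finset.univ : Finset I), {x | J i x} := by
    intro x hx
    obtain ⟨i, hi⟩ := hP x hx
    rw [Set.mem_iUnion₂]
    exact ⟨i, Finset.mem_univ i, hi⟩
  have h2 : {x | P x}.ncard ≤ ∑ i : I, {x | J i x}.ncard :=
    (Set.ncard_le_ncard h1 (Set.toFinite _)).trans (Finset.set_ncard_biUnion_le _ _)
  rw [e]
  calc {x | P x}.ncard * K ≤ (∑ i : I, {x | J i x}.ncard) * K := Nat.mul_le_mul_right _ h2
    _ = ∑ i : I, {x | J i x}.ncard * K := Finset.sum_mul _ _ _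
    _ ≤ ∑ i : I, A := Finset.sum_le_sum (fun i _ => hJ i)
    _ = Nat.card I * A := by
      rw [Finset.sum_const, smul_eq_mul, Finset.card_univ, Nat.card_eq_fintype_card]

theorem far_le {k E : Type} [Field k] [AddCommGroup E] [Module k E] [FiniteDimensional k E]
    (f : E ≃ₗ[k] E) {s : ℕ} (h : Far f.toLinearMap s) : 2 * s ≤ finrank k E := by
  obtain ⟨S, rfl, hS⟩ := h
  rw [← Gr.finrank_sup_map f hS]
  exact Submodule.finrank_le _

section
variable {p : ℕ} [Fact p.Prime] {V W : Type} [AddCommGroup V] [AddCommGroup W]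
  [Module (ZMod p) V] [Module (ZMod p) W] [Finite V] [Finite W] {d m : ℕ}

/-- the pairs with given parameters -/
def Cl (s s' : ℕ) (γ : Gam p V W) : Prop :=
  (Near γ.1.toLinearMap s ∧ Far γ.1.toLinearMap s) ∧
    (Near γ.2.dualMap.toLinearMap s' ∧ Far γ.2.dualMap.toLinearMap s')

theorem card_Cl (hd : finrank (ZMod p) V = d) (hm : finrank (ZMod p) W = m) (h2 : 2 ≤ d)
    (h3 : 2 ≤ m) (s s' : ℕ) :
    Nat.card {γ : Gam p V W // Cl s s' γ} ≤ p ^ (4 * s * d + 1) * p ^ (4 * s' * m + 1) := by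
  haveI : Module.Finite (ZMod p) V := Module.Finite.of_finite
  haveI : Module.Finite (ZMod p) W := Module.Finite.of_finite
  haveI : Finite (Dual (ZMod p) W) := finite_linearMap
  haveI : Finite {f : V ≃ₗ[ZMod p] V // Near f.toLinearMap s} := Subtype.finite
  haveI : Finite {f : Dual (ZMod p) W ≃ₗ[ZMod p] Dual (ZMod p) W // Near f.toLinearMap s'} :=
    Subtype.finite
  have h4 : finrank (ZMod p) (Dual (ZMod p) W) = m := by rw [Subspace.dual_finrank_eq, hm]
  refine le_trans ?_ (Nat.mul_le_mul (card_near hd h2 s) (card_near h4 h3 s'))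
  rw [← Nat.card_prod]
  apply Nat.card_le_card_of_injective
    (fun γ : {γ : Gam p V W // Cl s s' γ} =>
      ((⟨γ.1.1, γ.2.1.1⟩, ⟨γ.1.2.dualMap, γ.2.2.1⟩) :
        {f : V ≃ₗ[ZMod p] V // Near f.toLinearMap s} ×
        {f : Dual (ZMod p) W ≃ₗ[ZMod p] Dual (ZMod p) W // Near f.toLinearMap s'}))
  intro γ δ h
  simp only [Prod.mk.injEq, Subtype.mk.injEq] at h
  apply Subtype.ext
  apply Prod.ext
  · exact h.1
  · apply LinearEquiv.ext
    intro w
    rw [← sub_eq_zero, ← Module.forall_dual_apply_eq_zero_iff (ZMod p)]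
    intro f
    have h1 := congrArg (fun F : Dual (ZMod p) W ≃ₗ[ZMod p] Dual (ZMod p) W => F f w) h.2
    simp only [LinearEquiv.dualMap_apply] at h1
    rw [map_sub, h1, sub_self]

/-- the fixed maps in the scalar case -/
theorem card_zero (hd : finrank (ZMod p) V = d) (hm : finrank (ZMod p) W = m) (h2 : 2 ≤ d)
    (h3 : 2 ≤ m) (γ : Gam p V W) (hγ : Cl 0 0 γ) (hn : ¬ IsSc γ) :
    Nat.card {b : Alt p V W // ∀ v v', b.1 (γ.1 v) (γ.1 v') = γ.2 (b.1 v v')} ≤ 1 := by
  haveI : Module.Finite (ZMod p) V := Module.Finite.of_finite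
  haveI : Module.Finite (ZMod p) W := Module.Finite.of_finite
  obtain ⟨μ, hμ⟩ := near_zero (by rw [hd]; exact h2) hγ.1.1
  obtain ⟨ν, hν⟩ := near_zero (by rw [Subspace.dual_finrank_eq, hm]; exact h3) hγ.2.1
  have h4 : ∀ v, γ.1 v = μ • v := fun v => LinearMap.congr_fun hμ v
  have h5 : ∀ w, γ.2 w = ν • w := by
    intro w
    rw [← sub_eq_zero, ← Module.forall_dual_apply_eq_zero_iff (ZMod p)]
    intro f
    have h1 : γ.2.dualMap f = ν • f := LinearMap.congr_fun hν f
    have h6 := LinearMap.congr_fun h1 w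
    rw [LinearEquiv.dualMap_apply, LinearMap.smul_apply] at h6
    rw [map_sub, h6, map_smul, sub_self]
  have h6 : ν ≠ μ ^ 2 := by
    rintro rfl
    exact hn ⟨μ, h4, h5⟩
  have h7 : ∀ b : {b : Alt p V W // ∀ v v', b.1 (γ.1 v) (γ.1 v') = γ.2 (b.1 v v')},
      ∀ v v', b.1.1 v v' = 0 := by
    intro b v v'
    have h8 := b.2 v v'
    rw [h4, h4, h5, map_smul, LinearMap.map_smul₂, smul_smul, ← sub_eq_zero,
      ← sub_smul, smul_eq_zero] at h8
    rcases h8 with h8 | h8
    · exact absurd (by rw [sq]; exact (sub_eq_zero.1 h8).symm) h6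
    · exact h8
  haveI : Subsingleton {b : Alt p V W // ∀ v v', b.1 (γ.1 v) (γ.1 v') = γ.2 (b.1 v v')} := by
    constructor
    intro b c
    apply Subtype.ext
    apply Subtype.ext
    apply LinearMap.ext
    intro v
    apply LinearMap.ext
    intro v'
    rw [h7 b v v', h7 c v v']
  exact Finite.card_le_one_iff_subsingleton.2 inferInstance

/-- the contribution of one class -/
theorem card_class (hd : finrank (ZMod p) V = d) (hm : finrank (ZMod p) W = m)
    (hd0 : 10000 ≤ d) (h4 : d ≤ 4 * m) (h5 : m ≤ d) (s s' : ℕ) :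
    Nat.card {y : Gam p V W × Alt p V W // (Cl s s' y.1 ∧ ¬ IsSc y.1) ∧
      ∀ v v', y.2.1 (y.1.1 v) (y.1.1 v') = y.1.2 (y.2.1 v v')} * p ^ (4 * d) ≤
      Nat.card (Alt p V W) := by
  haveI : Module.Finite (ZMod p) V := Module.Finite.of_finite
  haveI : Module.Finite (ZMod p) W := Module.Finite.of_finite
  haveI : Finite (Alt p V W) := Subtype.finite
  have hp0 : 0 < p := (Fact.out : p.Prime).pos
  -- the general form
  have key : ∀ E : ℕ, (∀ γ : Gam p V W, Cl s s' γ → ¬ IsSc γ →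
      Nat.card {b : Alt p V W // ∀ v v', b.1 (γ.1 v) (γ.1 v') = γ.2 (b.1 v v')} ≤ p ^ E) →
      (4 * s * d + 1) + (4 * s' * m + 1) + 4 * d + E ≤ m * d.choose 2 →
      Nat.card {y : Gam p V W × Alt p V W // (Cl s s' y.1 ∧ ¬ IsSc y.1) ∧
        ∀ v v', y.2.1 (y.1.1 v) (y.1.1 v') = y.1.2 (y.2.1 v v')} * p ^ (4 * d) ≤
        Nat.card (Alt p V W) := by
    intro E hE hle
    have h1 := card_sigma_le (G := Gam p V W) (X := Alt p V W)
      (fun γ => Cl s s' γ ∧ ¬ IsSc γ)
      (fun γ b => ∀ v v', b.1 (γ.1 v) (γ.1 v') = γ.2 (b.1 v v')) (p ^ E)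
      (fun γ hγ => hE γ hγ.1 hγ.2)
    have h2 : Nat.card {γ : Gam p V W // Cl s s' γ ∧ ¬ IsSc γ}
        ≤ p ^ (4 * s * d + 1) * p ^ (4 * s' * m + 1) := by
      refine le_trans ?_ (card_Cl hd hm (by omega) (by omega) s s')
      apply Nat.card_le_card_of_injective (fun γ => ⟨γ.1, γ.2.1⟩)
      intro γ δ h
      exact Subtype.ext (congrArg (fun z => z.1) h)
    rw [card_alt hd hm]
    calc _ ≤ (p ^ (4 * s * d + 1) * p ^ (4 * s' * m + 1) * p ^ E) * p ^ (4 * d) :=
          Nat.mul_le_mul_right _ (h1.trans (Nat.mul_le_mul_right _ h2))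
      _ = p ^ ((4 * s * d + 1) + (4 * s' * m + 1) + 4 * d + E) := by
          rw [← pow_add, ← pow_add, ← pow_add]
          congr 1
          ring
      _ ≤ p ^ (m * d.choose 2) := Nat.pow_le_pow_right hp0 hle
  by_cases hss : 1 ≤ s + s'
  · by_cases hsd : 2 * s ≤ d ∧ s' ≤ m
    · apply key (min (m * ((d - s).choose 2 + s ^ 2)) ((m - s') * d.choose 2))
      · intro γ hγ _
        rcases min_choice (m * ((d - s).choose 2 + s ^ 2)) ((m - s') * d.choose 2) with h | h
        · rw [h]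
          exact card_fix hd hm γ.1 γ.2.toLinearMap hγ.1.2
        · rw [h]
          exact card_fix' hd hm γ.1.toLinearMap γ.2 hγ.2.2
      · exact arith_fix hd0 h4 h5 hsd.1 hsd.2 hss
    · have h0 : Nat.card {y : Gam p V W × Alt p V W // (Cl s s' y.1 ∧ ¬ IsSc y.1) ∧
          ∀ v v', y.2.1 (y.1.1 v) (y.1.1 v') = y.1.2 (y.2.1 v v')} = 0 := by
        haveI : IsEmpty {y : Gam p V W × Alt p V W // (Cl s s' y.1 ∧ ¬ IsSc y.1) ∧
          ∀ v v', y.2.1 (y.1.1 v) (y.1.1 v') = y.1.2 (y.2.1 v v')} := by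
          constructor
          intro y
          apply hsd
          have h6 := far_le y.1.1.1 y.2.1.1.1.2
          have h7 := far_le y.1.1.2.dualMap y.2.1.1.2.2
          rw [hd] at h6
          rw [Subspace.dual_finrank_eq, hm] at h7
          omega
        exact Nat.card_of_isEmpty
      rw [h0, zero_mul]
      exact Nat.zero_le _
  · have hs0 : s = 0 := by omega
    have hs0' : s' = 0 := by omega
    subst hs0 hs0'
    apply key 0
    · intro γ h6 h7
      rw [pow_zero]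
      exact card_zero hd hm (by omega) (by omega) γ h6 h7
    · have h8 := two_choose d
      have h9 : 9999 * d ≤ 2 * d.choose 2 := by nlinarith
      have h10 : 2500 ≤ m := by omega
      have h11 : 2500 * d.choose 2 ≤ m * d.choose 2 := Nat.mul_le_mul_right _ h10
      omega

end

end FSB

section
variable {p : ℕ} [Fact p.Prime] {V W : Type} [AddCommGroup V] [AddCommGroup W]
  [Module (ZMod p) V] [Module (ZMod p) W] [Finite V] [Finite W]

/-- ROW B5 (file FixSumB.lean): the sum over all `γ` which are not of the form `(lam, lam ^ 2)` -/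
theorem card_fix_sum_alt {d m : ℕ} (hd : finrank (ZMod p) V = d) (hm : finrank (ZMod p) W = m)
    (hd0 : 10000 ≤ d) (h4 : d ≤ 4 * m) (h5 : m ≤ d) :
    Nat.card {y : Gam p V W × Alt p V W // ¬ IsSc y.1 ∧
      ∀ v v', y.2.1 (y.1.1 v) (y.1.1 v') = y.1.2 (y.2.1 v v')} * p ^ (3 * d) ≤
      Nat.card (Alt p V W) := by
  haveI : Module.Finite (ZMod p) V := Module.Finite.of_finite
  haveI : Module.Finite (ZMod p) W := Module.Finite.of_finite
  haveI : Finite (Alt p V W) := Subtype.finite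
  have hp : 2 ≤ p := (Fact.out : p.Prime).two_le
  have hp0 : 0 < p := by omega
  have h1 := FSB.union_bound' (X := Gam p V W × Alt p V W) (I := Fin (d + 1) × Fin (m + 1))
    (fun y => ¬ IsSc y.1 ∧ ∀ v v', y.2.1 (y.1.1 v) (y.1.1 v') = y.1.2 (y.2.1 v v'))
    (fun i y => (FSB.Cl i.1 i.2 y.1 ∧ ¬ IsSc y.1) ∧
      ∀ v v', y.2.1 (y.1.1 v) (y.1.1 v') = y.1.2 (y.2.1 v v'))
    (p ^ (4 * d)) (Nat.card (Alt p V W))
    (by
      intro y hy
      obtain ⟨s, hs1, hs2⟩ := greedy y.1.1
      obtain ⟨s', hs1', hs2'⟩ := greedy y.1.2.dualMap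
      have h6 := FSB.far_le y.1.1 hs1
      have h7 := FSB.far_le y.1.2.dualMap hs1'
      rw [hd] at h6
      rw [Subspace.dual_finrank_eq, hm] at h7
      exact ⟨(⟨s, by omega⟩, ⟨s', by omega⟩), ⟨⟨⟨hs2, hs1⟩, ⟨hs2', hs1'⟩⟩, hy.1⟩, hy.2⟩)
    (fun i => FSB.card_class hd hm hd0 h4 h5 i.1 i.2)
  rw [Nat.card_prod, Nat.card_fin, Nat.card_fin] at h1
  have h2 : (d + 1) * (m + 1) ≤ p ^ d := by
    have e1 : (d + 1) * (m + 1) ≤ (d + 1) * (d + 1) := Nat.mul_le_mul_left _ (by omega)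
    have e2 : 2 ^ d ≤ p ^ d := Nat.pow_le_pow_left hp d
    have e3 : (d + 1) * (d + 1) ≤ 2 ^ d := by
      have e4 : ∀ n, 10 ≤ n → (n + 1) * (n + 1) ≤ 2 ^ n := by
        intro n hn
        induction n, hn using Nat.le_induction with
        | base => norm_num
        | succ n hn ih =>
          rw [pow_succ]
          nlinarith
      exact e4 d (by omega)
    omega
  refine Nat.le_of_mul_le_mul_right (c := p ^ d) ?_ (pow_pos hp0 _)
  calc _ = Nat.card {y : Gam p V W × Alt p V W // ¬ IsSc y.1 ∧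
        ∀ v v', y.2.1 (y.1.1 v) (y.1.1 v') = y.1.2 (y.2.1 v v')} * p ^ (4 * d) := by
        rw [mul_assoc, ← pow_add]
        congr 2
        ring
    _ ≤ (d + 1) * (m + 1) * Nat.card (Alt p V W) := h1
    _ ≤ p ^ d * Nat.card (Alt p V W) := Nat.mul_le_mul_right _ h2
    _ = Nat.card (Alt p V W) * p ^ d := by ring

end

end Pool.Agent.APG
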