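import Pool.Agent.APG.DefsB
import Pool.Agent.APG.Iso
import Pool.Agent.Helper60.PCP.Frat

/-!
# Exponent `p` and class two: the Frattini subgroup
-/

set_option autoImplicit false

open Module

namespace Pool.Agent.APG

variable {p : ℕ} [Fact p.Prime]

/-- ROW B3 -/
theorem expTwo_fratTwo {n : ℕ} (P : Type) [Group P] (h : ExpTwo p n P) : FratTwo p n P := by
  obtain ⟨h1, h2, h3⟩ := h
  have hp : p.Prime := Fact.out
  have hfin : Finite P := Nat.finite_of_card_ne_zero (by
    rw [h1]
    exact pow_ne_zero _ hp.ne_zero)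
  have hP : IsPGroup p P := IsPGroup.of_card h1
  have hle : frattini P ≤ Subgroup.center P := by
    rw [Pool.Agent.Helper60.PCP.frattini_eq_Vp hP]
    unfold Pool.Agent.Helper60.PCP.Vp
    rw [Subgroup.closure_le]
    rintro x (⟨y, rfl⟩ | ⟨y, z, rfl⟩)
    · rw [h2]
      exact (Subgroup.center P).one_mem
    · rw [SetLike.mem_coe, Subgroup.mem_center_iff]
      intro g
      rw [commutatorElement_def]
      exact (h3 y z g).symm
  exact ⟨h1, hle, fun x _ => h2 x⟩

/-- ROW B4 -/
theorem Ext.expTwo {V W : Type} [AddCommGroup V] [AddCommGroup W] [Module (ZMod p) V]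
    [Module (ZMod p) W] [Finite V] [Finite W] {q : Dat p V W} (hq : q.pw = fun _ => 0) {P : Type}
    [Group P] (E : Ext q P) :
    ExpTwo p (finrank (ZMod p) V + finrank (ZMod p) W) P := by
  have hker : ∀ w : Multiplicative W, E.pr (E.inc w) = 1 := by
    intro w
    have h : E.inc w ∈ E.pr.ker := by
      rw [E.exact]
      exact ⟨w, rfl⟩
    exact h
  refine ⟨E.card, ?_, ?_⟩
  · intro x
    rw [E.pow, hq, ofAdd_zero, map_one]
  · intro x y z
    rw [E.comm x y]
    have h1 := E.comm (E.inc (Multiplicative.ofAdd (q.be (E.pr x).toAdd (E.pr y).toAdd))) z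
    rw [hker, toAdd_one, map_zero, LinearMap.zero_apply, ofAdd_zero, map_one,
      mul_inv_eq_one, mul_inv_eq_iff_eq_mul] at h1
    exact h1

end Pool.Agent.APG
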