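import Pool.Agent.APG.Orb

/-!
# Orbit count with a subgroup which acts trivially
-/

set_option autoImplicit false

open Module

namespace Pool.Agent.APG

lemma card_stab_smul {G X : Type} [Group G] [Finite G] [MulAction G X] (g : G) (x : X) :
    Nat.card (MulAction.stabilizer G (g • x)) = Nat.card (MulAction.stabilizer G x) := by
  apply Nat.card_congr
  refine ⟨fun k => ⟨g⁻¹ * k.1 * g, ?_⟩, fun k => ⟨g * k.1 * g⁻¹, ?_⟩, ?_, ?_⟩
  · have h := MulAction.mem_stabilizer_iff.1 k.2
    rw [MulAction.mem_stabilizer_iff, mul_smul, mul_smul, h, inv_smul_smul]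
  · have h := MulAction.mem_stabilizer_iff.1 k.2
    rw [MulAction.mem_stabilizer_iff, mul_smul, inv_smul_smul, mul_smul, h]
  · intro k
    apply Subtype.ext
    show g * (g⁻¹ * k.1 * g) * g⁻¹ = k.1
    group
  · intro k
    apply Subtype.ext
    show g⁻¹ * (g * k.1 * g⁻¹) * g = k.1
    group

/-- ROW B6 (file OrbB.lean): the orbits in an invariant set `B` or with stabilisers larger than the
subgroup `L` which acts trivially -/
theorem orbit_count' {G X : Type} [Group G] [Finite G] [Finite X] [MulAction G X]
    (L : Subgroup G) (hL : ∀ g ∈ L, ∀ x : X, g • x = x) (B : Set X)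
    (hB : ∀ (g : G) (x : X), x ∈ B → g • x ∈ B) :
    Nat.card {o : MulAction.orbitRel.Quotient G X // ∃ x : X, Quotient.mk'' x = o ∧
      (x ∈ B ∨ ∃ g : G, g ∉ L ∧ g • x = x)} * Nat.card G ≤
      Nat.card L * Nat.card B + 2 * Nat.card {y : G × X // y.1 ∉ L ∧ y.1 • y.2 = y.2} := by
  classical
  cases nonempty_fintype G
  cases nonempty_fintype X
  have hfinL : Finite L := inferInstance
  -- the number of elements of the stabiliser outside of `L`
  set s : X → ℕ := fun x => (Finset.univ.filter (fun g : G => g ∉ L ∧ g • x = x)).card with hs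
  have hstab : ∀ x : X, Nat.card (MulAction.stabilizer G x) = Nat.card L + s x := by
    intro x
    have h2 : Nat.card (MulAction.stabilizer G x) =
        (Finset.univ.filter (fun g : G => g • x = x)).card := by
      rw [Nat.card_eq_fintype_card, ← Fintype.card_subtype]
      apply Fintype.card_congr
      exact Equiv.subtypeEquivRight (fun g => MulAction.mem_stabilizer_iff)
    have h4 : Nat.card L = (Finset.univ.filter (fun g : G => g ∈ L)).card := by
      rw [Nat.card_eq_fintype_card, ← Fintype.card_subtype]
    have h3 : Finset.univ.filter (fun g : G => g • x = x) =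
        Finset.univ.filter (fun g : G => g ∈ L) ∪
          Finset.univ.filter (fun g : G => g ∉ L ∧ g • x = x) := by
      ext g
      rw [Finset.mem_union, Finset.mem_filter, Finset.mem_filter, Finset.mem_filter]
      constructor
      · rintro ⟨_, h⟩
        by_cases hg : g ∈ L
        · exact Or.inl ⟨Finset.mem_univ _, hg⟩
        · exact Or.inr ⟨Finset.mem_univ _, hg, h⟩
      · rintro (⟨_, h⟩ | ⟨_, _, h⟩)
        · exact ⟨Finset.mem_univ _, hL g h x⟩
        · exact ⟨Finset.mem_univ _, h⟩
    rw [h2, h3, Finset.card_union_of_disjoint, ← h4]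
    rw [Finset.disjoint_left]
    intro g hg hg'
    rw [Finset.mem_filter] at hg hg'
    exact hg'.2.1 hg.2
  have hspos : ∀ x : X, (∃ g : G, g ∉ L ∧ g • x = x) ↔ 0 < s x := by
    intro x
    rw [hs, Finset.card_pos]
    constructor
    · rintro ⟨g, hg, hgx⟩
      exact ⟨g, Finset.mem_filter.2 ⟨Finset.mem_univ _, hg, hgx⟩⟩
    · rintro ⟨g, hg⟩
      exact ⟨g, (Finset.mem_filter.1 hg).2⟩
  have hsL : ∀ x : X, 0 < s x → Nat.card L ≤ s x := by
    intro x hx
    obtain ⟨g, hg, hgx⟩ := (hspos x).2 hx
    have h4 : Nat.card L = (Finset.univ.filter (fun g : G => g ∈ L)).card := by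
      rw [Nat.card_eq_fintype_card, ← Fintype.card_subtype]
    rw [h4]
    apply Finset.card_le_card_of_injOn (fun l => g * l)
    · intro l hl
      have hl' := (Finset.mem_filter.1 (Finset.mem_coe.1 hl)).2
      apply Finset.mem_coe.2
      rw [Finset.mem_filter]
      refine ⟨Finset.mem_univ _, ?_, ?_⟩
      · intro h
        apply hg
        have h5 := L.mul_mem h (L.inv_mem hl')
        simpa using h5
      · show (g * l) • x = x
        rw [mul_smul, hL l hl' x, hgx]
    · intro l _ l' _ h
      exact mul_left_cancel h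
  have hssmul : ∀ (g : G) (x : X), s (g • x) = s x := by
    intro g x
    have h1 := hstab (g • x)
    have h2 := hstab x
    rw [card_stab_smul] at h1
    omega
  -- the invariant property
  set P : X → Prop := fun x => x ∈ B ∨ ∃ g : G, g ∉ L ∧ g • x = x with hP
  have hinv : ∀ (g : G) (x : X), P x → P (g • x) := by
    rintro g x (h | h)
    · exact Or.inl (hB g x h)
    · refine Or.inr ((hspos _).2 ?_)
      rw [hssmul]
      exact (hspos x).1 h
  have hPq : ∀ x : X, (∃ x' : X, (Quotient.mk'' x' : MulAction.orbitRel.Quotient G X) =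
      Quotient.mk'' x ∧ P x') ↔ P x := by
    intro x
    constructor
    · rintro ⟨x', hx', h⟩
      rw [Quotient.eq'', MulAction.orbitRel_apply] at hx'
      have h2 : x ∈ MulAction.orbit G x' := MulAction.mem_orbit_symm.1 hx'
      obtain ⟨g, rfl⟩ := h2
      exact hinv g x' h
    · intro h
      exact ⟨x, rfl, h⟩
  set O : Finset (MulAction.orbitRel.Quotient G X) := Finset.univ.filter
    (fun o => ∃ x : X, Quotient.mk'' x = o ∧ P x) with hO
  have hcO : Nat.card {o : MulAction.orbitRel.Quotient G X // ∃ x : X, Quotient.mk'' x = o ∧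
      (x ∈ B ∨ ∃ g : G, g ∉ L ∧ g • x = x)} = O.card := by
    rw [Nat.card_eq_fintype_card, Fintype.card_subtype]
  rw [hcO]
  have h1 : O.card * Nat.card G = ∑ x ∈ Finset.univ.filter (fun x : X => P x),
      Nat.card (MulAction.stabilizer G x) := by
    have h2 : ∑ o ∈ O, ∑ x ∈ Finset.univ.filter
        (fun x : X => (Quotient.mk'' x : MulAction.orbitRel.Quotient G X) = o),
        Nat.card (MulAction.stabilizer G x) = O.card * Nat.card G := by
      rw [Finset.sum_congr rfl (fun o _ => sum_stab_orbit o), Finset.sum_const, smul_eq_mul]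
    rw [← h2]
    have h3 := Finset.sum_fiberwise_of_maps_to (s := Finset.univ.filter (fun x : X => P x))
      (t := O) (g := fun x => (Quotient.mk'' x : MulAction.orbitRel.Quotient G X))
      (f := fun x => Nat.card (MulAction.stabilizer G x))
      (fun x hx => by
        rw [hO, Finset.mem_filter]
        exact ⟨Finset.mem_univ _, x, rfl, (Finset.mem_filter.1 hx).2⟩)
    rw [← h3]
    apply Finset.sum_congr rfl
    intro o ho
    apply Finset.sum_congr _ (fun _ _ => rfl)
    ext x
    rw [Finset.mem_filter, Finset.mem_filter, Finset.mem_filter]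
    constructor
    · rintro ⟨_, hx⟩
      refine ⟨⟨Finset.mem_univ _, ?_⟩, hx⟩
      rw [hO, Finset.mem_filter] at ho
      rw [← hPq x]
      rw [hx]
      exact ho.2
    · rintro ⟨_, hx⟩
      exact ⟨Finset.mem_univ _, hx⟩
  rw [h1, Finset.sum_congr rfl (fun x _ => hstab x), Finset.sum_add_distrib, Finset.sum_const,
    smul_eq_mul]
  have hsum : ∑ x : X, s x = Nat.card {y : G × X // y.1 ∉ L ∧ y.1 • y.2 = y.2} := by
    rw [Nat.card_eq_fintype_card, Fintype.card_subtype, hs]
    rw [← Finset.card_sigma]
    apply Finset.card_bij (fun (a : Σ _ : X, G) _ => (a.2, a.1))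
    · rintro ⟨x, g⟩ ha
      rw [Finset.mem_sigma, Finset.mem_filter] at ha
      rw [Finset.mem_filter]
      exact ⟨Finset.mem_univ _, ha.2.2⟩
    · rintro ⟨x, g⟩ _ ⟨x', g'⟩ _ h
      simp only [Prod.mk.injEq] at h
      obtain ⟨rfl, rfl⟩ := h
      rfl
    · rintro ⟨g, x⟩ hy
      rw [Finset.mem_filter] at hy
      refine ⟨⟨x, g⟩, ?_, rfl⟩
      rw [Finset.mem_sigma, Finset.mem_filter]
      exact ⟨Finset.mem_univ _, Finset.mem_univ _, hy.2⟩
  have hle1 : ∑ x ∈ Finset.univ.filter (fun x : X => P x), s x ≤ ∑ x : X, s x :=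
    Finset.sum_le_sum_of_subset (Finset.filter_subset _ _)
  have hle2 : (Finset.univ.filter (fun x : X => P x)).card * Nat.card L ≤
      Nat.card L * Nat.card B + ∑ x : X, s x := by
    have h4 : Finset.univ.filter (fun x : X => P x) ⊆
        B.toFinset ∪ Finset.univ.filter (fun x : X => 0 < s x) := by
      intro x hx
      rw [Finset.mem_filter] at hx
      rw [Finset.mem_union]
      rcases hx.2 with h | h
      · exact Or.inl (Set.mem_toFinset.2 h)
      · refine Or.inr ?_
        rw [Finset.mem_filter]
        exact ⟨Finset.mem_univ _, (hspos x).1 h⟩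
    have h5 : (Finset.univ.filter (fun x : X => 0 < s x)).card * Nat.card L ≤ ∑ x : X, s x := by
      rw [← smul_eq_mul, ← Finset.sum_const]
      calc ∑ _x ∈ Finset.univ.filter (fun x : X => 0 < s x), Nat.card L
          ≤ ∑ x ∈ Finset.univ.filter (fun x : X => 0 < s x), s x :=
            Finset.sum_le_sum (fun x hx => hsL x (Finset.mem_filter.1 hx).2)
        _ ≤ ∑ x : X, s x := Finset.sum_le_sum_of_subset (Finset.filter_subset _ _)
    have h6 : (Finset.univ.filter (fun x : X => P x)).card ≤
        Nat.card B + (Finset.univ.filter (fun x : X => 0 < s x)).card := by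
      calc (Finset.univ.filter (fun x : X => P x)).card
          ≤ (B.toFinset ∪ Finset.univ.filter (fun x : X => 0 < s x)).card := Finset.card_le_card h4
        _ ≤ B.toFinset.card + (Finset.univ.filter (fun x : X => 0 < s x)).card :=
            Finset.card_union_le _ _
        _ = Nat.card B + (Finset.univ.filter (fun x : X => 0 < s x)).card := by
            rw [Set.toFinset_card, ← Nat.card_eq_fintype_card]
    calc (Finset.univ.filter (fun x : X => P x)).card * Nat.card L
        ≤ (Nat.card B + (Finset.univ.filter (fun x : X => 0 < s x)).card) * Nat.card L :=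
          Nat.mul_le_mul_right _ h6
      _ = Nat.card L * Nat.card B +
            (Finset.univ.filter (fun x : X => 0 < s x)).card * Nat.card L := by ring
      _ ≤ Nat.card L * Nat.card B + ∑ x : X, s x := Nat.add_le_add_left h5 _
  rw [← hsum]
  omega

end Pool.Agent.APG
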