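import Pool.Agent.APG.Basic
import Pool.Agent.APG.Det
import Pool.Agent.Helper19.PCP

/-!
# Partial congruence partitions of `P × P`: the images in `V × V` and the traces on `W × W`
-/

set_option autoImplicit false

open Module

namespace Pool.Agent.APG

open Pool.Agent.Helper19.PCP

section Core
variable {p : ℕ} [Fact p.Prime] {V W : Type} [AddCommGroup V] [AddCommGroup W]
  [Module (ZMod p) V] [Module (ZMod p) W] [Finite V] [Finite W] {q : Dat p V W} {P : Type} [Group P]

/-- the projection of `P × P` -/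
def pr2 (E : Ext q P) : P × P →* Multiplicative (V × V) where
  toFun x := Multiplicative.ofAdd ((E.pr x.1).toAdd, (E.pr x.2).toAdd)
  map_one' := by simp
  map_mul' x y := by
    rw [← ofAdd_add]
    congr 1
    ext <;> simp

/-- the inclusion of `W × W` -/
def inc2 (E : Ext q P) : Multiplicative (W × W) →* P × P where
  toFun w := (E.inc (Multiplicative.ofAdd w.toAdd.1), E.inc (Multiplicative.ofAdd w.toAdd.2))
  map_one' := by
    ext <;> simp
  map_mul' x y := by
    ext
    · simp [← map_mul, ← ofAdd_add]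
    · simp [← map_mul, ← ofAdd_add]

theorem inc2_inj (E : Ext q P) : Function.Injective (inc2 E) := by
  intro x y h
  have h1 := E.inj (congrArg Prod.fst h)
  have h2 := E.inj (congrArg Prod.snd h)
  have h3 : x.toAdd.1 = y.toAdd.1 := h1
  have h4 : x.toAdd.2 = y.toAdd.2 := h2
  apply Multiplicative.toAdd.injective
  exact Prod.ext h3 h4

theorem pr2_surj (E : Ext q P) : Function.Surjective (pr2 E) := by
  intro v
  obtain ⟨x, hx⟩ := E.surj (Multiplicative.ofAdd v.toAdd.1)
  obtain ⟨y, hy⟩ := E.surj (Multiplicative.ofAdd v.toAdd.2)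
  refine ⟨(x, y), ?_⟩
  show Multiplicative.ofAdd ((E.pr x).toAdd, (E.pr y).toAdd) = v
  rw [hx, hy]
  rfl

theorem pr2_ker (E : Ext q P) : (pr2 E).ker = (inc2 E).range := by
  ext x
  rw [MonoidHom.mem_ker, MonoidHom.mem_range]
  constructor
  · intro h
    have h1 : ((E.pr x.1).toAdd, (E.pr x.2).toAdd) = (0 : V × V) :=
      Multiplicative.ofAdd.injective h
    have h2 : x.1 ∈ E.pr.ker := by
      rw [MonoidHom.mem_ker]
      exact congrArg Prod.fst h1
    have h3 : x.2 ∈ E.pr.ker := by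
      rw [MonoidHom.mem_ker]
      exact congrArg Prod.snd h1
    rw [E.exact] at h2 h3
    obtain ⟨w, hw⟩ := h2
    obtain ⟨w', hw'⟩ := h3
    refine ⟨Multiplicative.ofAdd (w.toAdd, w'.toAdd), ?_⟩
    show (E.inc w, E.inc w') = x
    rw [hw, hw']
  · rintro ⟨w, rfl⟩
    have h2 : E.inc (Multiplicative.ofAdd w.toAdd.1) ∈ E.pr.ker := by
      rw [E.exact]; exact ⟨_, rfl⟩
    have h3 : E.inc (Multiplicative.ofAdd w.toAdd.2) ∈ E.pr.ker := by
      rw [E.exact]; exact ⟨_, rfl⟩
    rw [MonoidHom.mem_ker] at h2 h3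
    show Multiplicative.ofAdd ((E.pr (E.inc (Multiplicative.ofAdd w.toAdd.1))).toAdd,
      (E.pr (E.inc (Multiplicative.ofAdd w.toAdd.2))).toAdd) = 1
    rw [h2, h3]
    rfl

/-- the image of a subgroup in `V × V` -/
def imU (E : Ext q P) (U : Subgroup (P × P)) : Submodule (ZMod p) (V × V) :=
  AddSubgroup.toZModSubmodule p (Subgroup.toAddSubgroup' (U.map (pr2 E)))

/-- the trace of a subgroup on `W × W` -/
def trU (E : Ext q P) (U : Subgroup (P × P)) : Submodule (ZMod p) (W × W) :=
  AddSubgroup.toZModSubmodule p (Subgroup.toAddSubgroup' (U.comap (inc2 E)))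

theorem mem_imU (E : Ext q P) (U : Subgroup (P × P)) (v : V × V) :
    v ∈ imU E U ↔ ∃ x ∈ U, (E.pr x.1).toAdd = v.1 ∧ (E.pr x.2).toAdd = v.2 := by
  show Multiplicative.ofAdd v ∈ U.map (pr2 E) ↔ _
  rw [Subgroup.mem_map]
  constructor
  · rintro ⟨x, hx, h⟩
    have h1 : ((E.pr x.1).toAdd, (E.pr x.2).toAdd) = v := Multiplicative.ofAdd.injective h
    exact ⟨x, hx, congrArg Prod.fst h1, congrArg Prod.snd h1⟩
  · rintro ⟨x, hx, h1, h2⟩
    refine ⟨x, hx, ?_⟩
    show Multiplicative.ofAdd ((E.pr x.1).toAdd, (E.pr x.2).toAdd) = _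
    rw [h1, h2]

theorem mem_trU (E : Ext q P) (U : Subgroup (P × P)) (w : W × W) :
    w ∈ trU E U ↔ (E.inc (Multiplicative.ofAdd w.1), E.inc (Multiplicative.ofAdd w.2)) ∈ U :=
  Iff.rfl

/-- the orders -/
theorem card_U (E : Ext q P) (U : Subgroup (P × P)) :
    Nat.card U = p ^ (finrank (ZMod p) (imU E U) + finrank (ZMod p) (trU E U)) := by
  have h1 : Nat.card (imU E U) = p ^ finrank (ZMod p) (imU E U) := by
    rw [Module.natCard_eq_pow_finrank (K := ZMod p), Nat.card_zmod]
  have h2 : Nat.card (trU E U) = p ^ finrank (ZMod p) (trU E U) := by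
    rw [Module.natCard_eq_pow_finrank (K := ZMod p), Nat.card_zmod]
  have h3 : Nat.card (U.map (pr2 E)) = Nat.card (imU E U) := rfl
  let f : U →* Multiplicative (V × V) := (pr2 E).comp U.subtype
  have h4 : f.range = U.map (pr2 E) := by
    rw [MonoidHom.range_comp, Subgroup.range_subtype]
  have h5 : Nat.card f.ker = Nat.card (trU E U) := by
    symm
    refine Nat.card_congr (Equiv.ofBijective (fun w : trU E U =>
      (⟨⟨inc2 E (Multiplicative.ofAdd w.1), w.2⟩, ?_⟩ : f.ker)) ⟨?_, ?_⟩)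
    · rw [MonoidHom.mem_ker]
      show pr2 E (inc2 E (Multiplicative.ofAdd w.1)) = 1
      rw [← MonoidHom.mem_ker, pr2_ker]
      exact ⟨_, rfl⟩
    · intro w w' h
      have h6 : inc2 E (Multiplicative.ofAdd w.1) = inc2 E (Multiplicative.ofAdd w'.1) :=
        congrArg (fun z : f.ker => (z.1.1 : P × P)) h
      exact Subtype.ext (Multiplicative.ofAdd.injective (inc2_inj E h6))
    · rintro ⟨⟨x, hx⟩, hx'⟩
      rw [MonoidHom.mem_ker] at hx'
      have h6 : x ∈ (pr2 E).ker := hx'
      rw [pr2_ker] at h6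
      obtain ⟨w, rfl⟩ := h6
      exact ⟨⟨w.toAdd, hx⟩, rfl⟩
  have h6 := Subgroup.card_mul_index f.ker
  rw [Subgroup.index_ker, h4, h3, h5, h1, h2] at h6
  rw [← h6, pow_add, mul_comm]

theorem card_PP (E : Ext q P) :
    Nat.card (P × P) = p ^ (2 * (finrank (ZMod p) V + finrank (ZMod p) W)) := by
  have h := card_U E ⊤
  have h1 : imU E ⊤ = ⊤ := by
    rw [eq_top_iff]
    rintro v -
    rw [mem_imU]
    obtain ⟨x, hx⟩ := E.surj (Multiplicative.ofAdd v.1)
    obtain ⟨y, hy⟩ := E.surj (Multiplicative.ofAdd v.2)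
    refine ⟨(x, y), trivial, ?_, ?_⟩
    · show (E.pr x).toAdd = _
      rw [hx]; rfl
    · show (E.pr y).toAdd = _
      rw [hy]; rfl
  have h2 : trU E ⊤ = ⊤ := by
    rw [eq_top_iff]
    rintro w -
    trivial
  rw [Subgroup.card_top, h1, h2, finrank_top, finrank_top, Module.finrank_prod,
    Module.finrank_prod] at h
  rw [h]
  congr 1
  ring

theorem card_P (E : Ext q P) : Nat.card P = p ^ (finrank (ZMod p) V + finrank (ZMod p) W) := by
  have h := card_PP E
  rw [Nat.card_prod, two_mul, pow_add] at h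
  exact Nat.mul_self_inj.mp h

theorem be_mem (E : Ext q P) (U : Subgroup (P × P)) {x y : V × V} (hx : x ∈ imU E U)
    (hy : y ∈ imU E U) : (q.be x.1 y.1, q.be x.2 y.2) ∈ trU E U := by
  rw [mem_imU] at hx hy
  obtain ⟨a, ha, ha1, ha2⟩ := hx
  obtain ⟨b, hb, hb1, hb2⟩ := hy
  rw [mem_trU]
  have h := U.mul_mem (U.mul_mem (U.mul_mem ha hb) (U.inv_mem ha)) (U.inv_mem hb)
  have h1 : a * b * a⁻¹ * b⁻¹ = (E.inc (Multiplicative.ofAdd (q.be x.1 y.1)),
      E.inc (Multiplicative.ofAdd (q.be x.2 y.2))) := by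
    ext
    · rw [Prod.fst_mul, Prod.fst_mul, Prod.fst_mul, Prod.fst_inv, Prod.fst_inv, E.comm, ha1, hb1]
    · rw [Prod.snd_mul, Prod.snd_mul, Prod.snd_mul, Prod.snd_inv, Prod.snd_inv, E.comm, ha2, hb2]
  rwa [h1] at h

theorem pw_mem (E : Ext q P) (U : Subgroup (P × P)) {x : V × V} (hx : x ∈ imU E U) :
    (q.pw x.1, q.pw x.2) ∈ trU E U := by
  rw [mem_imU] at hx
  obtain ⟨a, ha, ha1, ha2⟩ := hx
  rw [mem_trU]
  have h := U.pow_mem ha p
  have h1 : a ^ p = (E.inc (Multiplicative.ofAdd (q.pw x.1)),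
      E.inc (Multiplicative.ofAdd (q.pw x.2))) := by
    ext
    · rw [Prod.pow_fst, E.pow, ha1]
    · rw [Prod.pow_snd, E.pow, ha2]
  rwa [h1] at h

/-- the possible traces -/
def GoodK (q : Dat p V W) (K : Submodule (ZMod p) (W × W)) : Prop :=
  K = Submodule.prod ⊤ ⊥ ∨ K = Submodule.prod ⊥ ⊤ ∨
      ∃ γ : Gam p V W, γ • q = q ∧ K = LinearMap.graph γ.2.toLinearMap

theorem goodK_finrank {K : Submodule (ZMod p) (W × W)} (h : GoodK q K) :
    finrank (ZMod p) K = finrank (ZMod p) W := by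
  rcases h with h | h | ⟨γ, -, h⟩
  · have e : (Submodule.prod ⊤ ⊥ : Submodule (ZMod p) (W × W)) =
        LinearMap.range (LinearMap.inl (ZMod p) W W) := by
      ext x
      simp only [Submodule.mem_prod, Submodule.mem_top, Submodule.mem_bot, true_and,
        LinearMap.mem_range, LinearMap.inl_apply]
      constructor
      · intro hx
        exact ⟨x.1, Prod.ext rfl hx.symm⟩
      · rintro ⟨y, rfl⟩
        rfl
    rw [h, e]
    exact LinearMap.finrank_range_of_inj LinearMap.inl_injective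
  · have e : (Submodule.prod ⊥ ⊤ : Submodule (ZMod p) (W × W)) =
        LinearMap.range (LinearMap.inr (ZMod p) W W) := by
      ext x
      simp only [Submodule.mem_prod, Submodule.mem_top, Submodule.mem_bot, and_true,
        LinearMap.mem_range, LinearMap.inr_apply]
      constructor
      · intro hx
        exact ⟨x.2, Prod.ext hx.symm rfl⟩
      · rintro ⟨y, rfl⟩
        rfl
    rw [h, e]
    exact LinearMap.finrank_range_of_inj LinearMap.inr_injective
  · rw [h, LinearMap.graph_eq_range_prod]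
    apply LinearMap.finrank_range_of_inj
    intro x y hxy
    exact congrArg Prod.fst hxy

/-- the traces of the members of a partial congruence partition -/
theorem pcp_traces {h : ℕ} (hG : GenCond q.be h) (h2 : 2 * h ≤ finrank (ZMod p) V)
    (E : Ext q P) (𝒰 : Finset (Subgroup (P × P))) (hU : IsPCP (Nat.card P) 𝒰)
    (h1 : 1 < 𝒰.card) : ∀ U ∈ 𝒰, GoodK q (trU E U) := by
  classical
  have hp : 1 < p := (Fact.out : p.Prime).one_lt
  have hfP : Finite P := Nat.finite_of_card_ne_zero (by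
    rw [card_P E]
    exact pow_ne_zero _ (by omega))
  have hsum : ∀ U ∈ 𝒰, finrank (ZMod p) (imU E U) + finrank (ZMod p) (trU E U) =
      finrank (ZMod p) V + finrank (ZMod p) W := by
    intro U hU1
    have e1 := card_U E U
    rw [hU.1 U hU1, card_P E] at e1
    exact (Nat.pow_right_injective hp e1).symm
  have hle : ∀ U ∈ 𝒰, finrank (ZMod p) (imU E U) ≤ finrank (ZMod p) V := by
    intro U hU1
    by_contra hlt
    push Not at hlt
    have e1 := hsum U hU1
    -- a subspace of dimension `d` of the image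
    obtain ⟨w, hw, hwi⟩ : ∃ w : Fin (finrank (ZMod p) V) → V × V, (∀ j, w j ∈ imU E U) ∧
        LinearIndependent (ZMod p) w := by
      let b := finBasis (ZMod p) (imU E U)
      refine ⟨fun j => (b (Fin.castLE hlt.le j) : V × V), fun j => (b _).2, ?_⟩
      have e2 : LinearIndependent (ZMod p) (fun j => (b j : V × V)) :=
        b.linearIndependent.map' (imU E U).subtype (Submodule.ker_subtype _)
      exact e2.comp _ (Fin.castLE_injective hlt.le)
    have e3 : Submodule.span (ZMod p) (Set.range w) ≤ imU E U := by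
      rw [Submodule.span_le]
      rintro _ ⟨j, rfl⟩
      exact hw j
    have e4 := classify q hG h2 (Submodule.span (ZMod p) (Set.range w))
      (by rw [finrank_span_eq_card hwi, Fintype.card_fin]) (trU E U) (by omega)
      (fun x hx y hy => be_mem E U (e3 hx) (e3 hy)) (fun x hx => pw_mem E U (e3 hx))
    have e5 := goodK_finrank e4
    omega
  have hge : ∀ U ∈ 𝒰, ∀ U' ∈ 𝒰, U ≠ U' → 2 * finrank (ZMod p) V ≤
      finrank (ZMod p) (imU E U) + finrank (ZMod p) (imU E U') := by
    intro U hU1 U' hU2 hne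
    have e1 : Subgroup.IsComplement' U U' := by
      apply Subgroup.isComplement'_of_card_mul_and_disjoint
      · rw [hU.1 U hU1, hU.1 U' hU2, Nat.card_prod]
      · rw [disjoint_iff]
        exact hU.2 U hU1 U' hU2 hne
    have e2 : imU E U ⊔ imU E U' = ⊤ := by
      rw [eq_top_iff]
      rintro v -
      obtain ⟨x, hx⟩ := pr2_surj E (Multiplicative.ofAdd v)
      obtain ⟨⟨a, b⟩, hab⟩ := e1.2 x
      have hab' : (a : P × P) * (b : P × P) = x := hab
      rw [Submodule.mem_sup]
      refine ⟨((E.pr a.1.1).toAdd, (E.pr a.1.2).toAdd), ?_,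
        ((E.pr b.1.1).toAdd, (E.pr b.1.2).toAdd), ?_, ?_⟩
      · rw [mem_imU]
        exact ⟨a.1, a.2, rfl, rfl⟩
      · rw [mem_imU]
        exact ⟨b.1, b.2, rfl, rfl⟩
      · have e3 : ((E.pr x.1).toAdd, (E.pr x.2).toAdd) = v := Multiplicative.ofAdd.injective hx
        rw [← e3, ← hab']
        ext
        · simp
        · simp
    have e3 := Submodule.finrank_add_le_finrank_add_finrank (imU E U) (imU E U')
    rw [e2, finrank_top, Module.finrank_prod] at e3
    omega
  intro U hU1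
  obtain ⟨U', hU2, hne⟩ := Finset.exists_mem_ne h1 U
  have e1 := hge U hU1 U' hU2 hne.symm
  have e2 := hle U hU1
  have e3 := hle U' hU2
  have e4 := hsum U hU1
  exact classify q hG h2 (imU E U) (by omega) (trU E U) (by omega)
    (fun x hx y hy => be_mem E U hx hy) (fun x hx => pw_mem E U hx)

/-- the bound by the number of possible traces -/
theorem pcp_card_le {h : ℕ} (hG : GenCond q.be h) (h2 : 2 * h ≤ finrank (ZMod p) V)
    (hW : 1 ≤ finrank (ZMod p) W) (E : Ext q P) (𝒰 : Finset (Subgroup (P × P)))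
    (hU : IsPCP (Nat.card P) 𝒰) (𝒦 : Finset (Submodule (ZMod p) (W × W)))
    (hK : ∀ K, GoodK q K → K ∈ 𝒦) (h𝒦 : 1 ≤ 𝒦.card) : 𝒰.card ≤ 𝒦.card := by
  rcases Nat.lt_or_ge 1 𝒰.card with h1 | h1
  swap
  · omega
  have ht := pcp_traces hG h2 E 𝒰 hU h1
  apply Finset.card_le_card_of_injOn (fun U => trU E U) (fun U hU1 => hK _ (ht U hU1))
  intro U hU1 U' hU2 hUU
  by_contra hne
  have e1 : U ⊓ U' = ⊥ := hU.2 U hU1 U' hU2 hne
  have e2 : trU E U = ⊥ := by
    rw [eq_bot_iff]
    intro w hw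
    have hw' : w ∈ trU E U' := by
      have hUU' : trU E U = trU E U' := hUU
      rwa [← hUU']
    rw [mem_trU] at hw hw'
    have e3 : inc2 E (Multiplicative.ofAdd w) ∈ U ⊓ U' := ⟨hw, hw'⟩
    rw [e1, Subgroup.mem_bot] at e3
    have e4 : (Multiplicative.ofAdd w) = 1 := inc2_inj E (by rw [e3, map_one])
    rw [Submodule.mem_bot]
    exact Multiplicative.ofAdd.injective e4
  have e3 := goodK_finrank (ht U hU1)
  rw [e2, finrank_bot] at e3
  omega

end Core

end Pool.Agent.APG
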