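import Pool.Agent.APG.DefsB
import Pool.Agent.APG.PcpCore44

/-!
# Row B1: the upper bound `(p + 3) / 2`
-/

set_option autoImplicit false

open Module

namespace Pool.Agent.APG

open Pool.Agent.Helper19.PCP

section Core
variable {p : ℕ} [Fact p.Prime] {V W : Type} [AddCommGroup V] [AddCommGroup W]
  [Module (ZMod p) V] [Module (ZMod p) W] [Finite V] [Finite W]

/-- a nonzero square is the square of a number between `1` and `(p - 1) / 2` -/
theorem exists_sq (h2p : p ≠ 2) {lam : ZMod p} (hlam : lam ≠ 0) :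
    ∃ j ∈ Finset.range ((p - 1) / 2), lam ^ 2 = ((j + 1 : ℕ) : ZMod p) ^ 2 := by
  have hp : p.Prime := Fact.out
  have hodd : p % 2 = 1 := Nat.Prime.eq_two_or_odd hp |>.resolve_left h2p
  have e1 : lam.valMinAbs.natAbs ≤ p / 2 := ZMod.natAbs_valMinAbs_le lam
  have e2 : lam.valMinAbs.natAbs ≠ 0 := by
    intro h
    apply hlam
    rw [Int.natAbs_eq_zero, ZMod.valMinAbs_eq_zero] at h
    exact h
  refine ⟨lam.valMinAbs.natAbs - 1, ?_, ?_⟩
  · rw [Finset.mem_range]
    omega
  · have e3 : lam.valMinAbs.natAbs - 1 + 1 = lam.valMinAbs.natAbs := by omega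
    rw [e3]
    have e4 : lam = ((lam.valMinAbs : ℤ) : ZMod p) := (ZMod.coe_valMinAbs lam).symm
    have e5 : ((lam.valMinAbs.natAbs : ℕ) : ZMod p) ^ 2 =
        ((((lam.valMinAbs.natAbs : ℕ) : ℤ) ^ 2 : ℤ) : ZMod p) := by
      rw [Int.cast_pow, Int.cast_natCast]
    have e6 : lam ^ 2 = ((lam.valMinAbs ^ 2 : ℤ) : ZMod p) := by
      conv_lhs => rw [e4]
      push_cast
      rfl
    rw [e6, e5, Int.natAbs_sq]

/-- ROW B1 -/
theorem T_le_exp (h2p : p ≠ 2) (q : Dat p V W) {h : ℕ} (hG : GenCond q.be h)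
    (h2 : 2 * h ≤ finrank (ZMod p) V) (hW : 1 ≤ finrank (ZMod p) W)
    (hS : ∀ γ : Gam p V W, γ • q = q → IsSc γ) (P : Type) [Group P] (E : Ext q P) :
    T (P × P) ≤ (p + 3) / 2 := by
  classical
  have hp : p.Prime := Fact.out
  have hodd : p % 2 = 1 := Nat.Prime.eq_two_or_odd hp |>.resolve_left h2p
  have hp1 : 1 < p := hp.one_lt
  have hfP : Finite P := Nat.finite_of_card_ne_zero (by
    rw [card_P E]
    exact pow_ne_zero _ (by omega))
  apply T_prod_le
  intro 𝒰 hU
  let 𝒦 : Finset (Submodule (ZMod p) (W × W)) :=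
    insert (Submodule.prod ⊤ ⊥) (insert (Submodule.prod ⊥ ⊤)
      ((Finset.range ((p - 1) / 2)).image fun j =>
        LinearMap.graph ((((j + 1 : ℕ) : ZMod p) ^ 2) • (LinearMap.id : W →ₗ[ZMod p] W))))
  have hcard : 𝒦.card ≤ (p + 3) / 2 := by
    have e1 : 𝒦.card ≤ ((Finset.range ((p - 1) / 2)).image fun j =>
        LinearMap.graph ((((j + 1 : ℕ) : ZMod p) ^ 2) •
          (LinearMap.id : W →ₗ[ZMod p] W))).card + 1 + 1 :=
      (Finset.card_insert_le _ _).trans (Nat.add_le_add_right (Finset.card_insert_le _ _) 1)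
    have e2 := Finset.card_image_le (s := Finset.range ((p - 1) / 2)) (f := fun j =>
        LinearMap.graph ((((j + 1 : ℕ) : ZMod p) ^ 2) • (LinearMap.id : W →ₗ[ZMod p] W)))
    rw [Finset.card_range] at e2
    omega
  refine (pcp_card_le hG h2 hW E 𝒰 hU 𝒦 ?_ ?_).trans hcard
  · rintro K (hK | hK | ⟨γ, hγ, hK⟩)
    · rw [hK]
      exact Finset.mem_insert_self _ _
    · rw [hK]
      exact Finset.mem_insert_of_mem (Finset.mem_insert_self _ _)
    · obtain ⟨lam, -, hlam⟩ := hS γ hγ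
      have hWn : Nontrivial W := Module.nontrivial_of_finrank_pos (R := ZMod p) (by omega)
      obtain ⟨w, hw⟩ := exists_ne (0 : W)
      have hlam0 : lam ≠ 0 := by
        intro h0
        have e1 := hlam w
        rw [h0, zero_pow two_ne_zero, zero_smul] at e1
        exact hw (γ.2.map_eq_zero_iff.mp e1)
      obtain ⟨j, hj, hj2⟩ := exists_sq h2p hlam0
      apply Finset.mem_insert_of_mem
      apply Finset.mem_insert_of_mem
      rw [Finset.mem_image]
      refine ⟨j, hj, ?_⟩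
      rw [hK]
      congr 1
      ext w
      rw [LinearMap.smul_apply, LinearMap.id_apply, ← hj2, LinearEquiv.coe_coe, hlam w]
  · exact Finset.card_pos.mpr ⟨_, Finset.mem_insert_self _ _⟩

end Core

end Pool.Agent.APG
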