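import Pool.Agent.APG.BModel
import Pool.Agent.APG.Iso

/-!
# Row B2: the lower bound `(p + 3) / 2 ≤ T (P × P)` for groups of exponent `p` and class two
-/

set_option autoImplicit false

open Module

namespace Pool.Agent.APG

open Pool.Agent.Helper19.PCP

variable {p : ℕ} [Fact p.Prime] {V W : Type} [AddCommGroup V] [AddCommGroup W]
  [Module (ZMod p) V] [Module (ZMod p) W]

instance BGrp.instFinite [Finite V] [Finite W] (q : Dat p V W) : Finite (BGrp q) :=
  Finite.of_injective (fun x : BGrp q => (x.v, x.w)) fun _ _ h =>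
    BGrp.ext (congrArg Prod.fst h) (congrArg Prod.snd h)

/-- ROW B2 -/
theorem exp_le_T [Finite V] [Finite W] (h2p : p ≠ 2) (q : Dat p V W) (hq : q.pw = fun _ => 0)
    (hW : 1 ≤ finrank (ZMod p) W) (P : Type) [Group P] (E : Ext q P) :
    (p + 3) / 2 ≤ T (P × P) := by
  obtain ⟨e⟩ := E.iso (BGrp.toExt (q := q) h2p (fun v => by rw [hq]))
  have hfin : Finite P := Finite.of_equiv _ e.symm.toEquiv
  have hW' : Nontrivial W := by
    have : FiniteDimensional (ZMod p) W := Module.Finite.of_finite
    exact Module.nontrivial_of_finrank_pos (R := ZMod p) hW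
  obtain ⟨w, hw⟩ := exists_ne (0 : W)
  have hnt : Nontrivial P := by
    refine ⟨e.symm ⟨0, w⟩, 1, fun h => ?_⟩
    rw [MulEquiv.map_eq_one_iff] at h
    exact hw (congrArg BGrp.w h)
  exact lowerB q h2p P e

end Pool.Agent.APG
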