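import Pool.Agent.APG.DefsB
import Pool.Agent.APG.PcpB1
import Pool.Agent.APG.PcpB2
import Pool.Agent.APG.FratB
import Pool.Agent.APG.FixSumB
import Pool.Agent.APG.OrbB
import Pool.Agent.APG.Frat
import Pool.Agent.APG.Model
import Pool.Agent.APG.CntSum

/-!
# The number of isomorphism classes of groups of class two and exponent `p`
-/

set_option autoImplicit false

open Module

namespace Pool.Agent.APG

open Pool.Agent.Helper19.PCP

namespace B

/-- the space `F_p ^ d` -/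
abbrev Vs (p d : ℕ) : Type := Fin d → ZMod p

/-- the exponent of the number of alternating maps -/
def Ex (d m : ℕ) : ℕ := m * d.choose 2

section
variable {p : ℕ} [Fact p.Prime]

lemma finrank_Vs (d : ℕ) : finrank (ZMod p) (Vs p d) = d := by simp

instance (d m : ℕ) : Finite (Alt p (Vs p d) (Vs p m)) := Subtype.finite

lemma card_Alt (d m : ℕ) : Nat.card (Alt p (Vs p d) (Vs p m)) = p ^ Ex d m :=
  card_alt (finrank_Vs d) (finrank_Vs m)

lemma card_Gl_le (d : ℕ) : Nat.card (Vs p d ≃ₗ[ZMod p] Vs p d) ≤ p ^ (d ^ 2) := by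
  have h1 : Nat.card (Vs p d ≃ₗ[ZMod p] Vs p d) ≤ Nat.card (Vs p d →ₗ[ZMod p] Vs p d) :=
    Nat.card_le_card_of_injective (fun f => f.toLinearMap) LinearEquiv.toLinearMap_injective
  have h2 : Nat.card (Vs p d →ₗ[ZMod p] Vs p d) = p ^ (d ^ 2) := by
    rw [Module.natCard_eq_pow_finrank (K := ZMod p), Module.finrank_linearMap, finrank_Vs,
      Nat.card_zmod, sq]
  omega

lemma card_Gam_le (d m : ℕ) : Nat.card (Gam p (Vs p d) (Vs p m)) ≤ p ^ (d ^ 2 + m ^ 2) := by
  rw [Nat.card_prod, pow_add]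
  exact Nat.mul_le_mul (card_Gl_le d) (card_Gl_le m)

lemma card_Lam_le (d m : ℕ) : Nat.card (Lam p (Vs p d) (Vs p m)) ≤ p := by
  have h : Nat.card (ZMod p) = p := Nat.card_zmod p
  refine le_trans (Nat.card_le_card_of_injective
    (fun γ : Lam p (Vs p d) (Vs p m) => γ.2.choose) ?_) h.le
  intro γ δ h'
  have e : γ.2.choose = δ.2.choose := h'
  obtain ⟨h1, h2⟩ := γ.2.choose_spec
  obtain ⟨h3, h4⟩ := δ.2.choose_spec
  apply Subtype.ext
  apply Prod.ext
  · apply LinearEquiv.ext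
    intro v
    rw [h1, h3, e]
  · apply LinearEquiv.ext
    intro w
    rw [h2, h4, e]

/-- the orbits -/
abbrev Orb (p d m : ℕ) [Fact p.Prime] : Type :=
  MulAction.orbitRel.Quotient (Gam p (Vs p d) (Vs p m)) (Alt p (Vs p d) (Vs p m))

/-- the group `P` is represented by the orbit `o` -/
def Rep (hp : p ≠ 2) {d m : ℕ} (o : Orb p d m) (P : Type) [Group P] : Prop :=
  ∃ b : Alt p (Vs p d) (Vs p m), Quotient.mk'' b = o ∧ Nonempty (Ext (toDat hp b) P)

lemma rep_iso (hp : p ≠ 2) {d m : ℕ} (o : Orb p d m) (P P' : Type) [Group P] [Group P']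
    (h : Rep hp o P) (h' : Rep hp o P') : Nonempty (P ≃* P') := by
  obtain ⟨q, hq, ⟨E⟩⟩ := h
  obtain ⟨q', hq', ⟨E'⟩⟩ := h'
  have h1 : (Quotient.mk'' q : Orb p d m) = Quotient.mk'' q' := hq.trans hq'.symm
  obtain ⟨γ, hγ⟩ := Quotient.exact h1
  have hγ' : γ • q' = q := hγ
  obtain ⟨E''⟩ := E'.of_smul γ
  rw [← toDat_smul, hγ'] at E''
  exact E.iso E''

/-- the groups of exponent `p` and class at most two -/
def QAll (p n : ℕ) : (P : Type) → [Group P] → Prop := fun P _ => ExpTwo p n P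

/-- those with `T ≠ (p + 3) / 2` -/
def QBad (p n : ℕ) : (P : Type) → [Group P] → Prop :=
  fun P _ => ExpTwo p n P ∧ T (P × P) ≠ (p + 3) / 2

/-- bad orbits -/
def BadOrb (hp : p ≠ 2) (d m : ℕ) : Set (Orb p d m) :=
  {o | ∃ b : Alt p (Vs p d) (Vs p m), Quotient.mk'' b = o ∧
    ∃ (P : Type) (_ : Group P), Nonempty (Ext (toDat hp b) P) ∧ T (P × P) ≠ (p + 3) / 2}

/-- the data of a group of exponent `p` and class at most two -/
lemma exists_alt_dat (hp : p ≠ 2) {n : ℕ} (P : Type) [Group P] (hP : ExpTwo p n P) :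
    ∃ d m : ℕ, d + m = n ∧ ∃ b : Alt p (Vs p d) (Vs p m), (toDat hp b).Full ∧
      Nonempty (Ext (toDat hp b) P) := by
  obtain ⟨d, m, hdm, q, hq, ⟨E⟩⟩ := exists_dat P (expTwo_fratTwo P hP)
  have hpw : q.pw = fun _ => 0 := by
    funext v
    obtain ⟨x, hx⟩ := E.surj (Multiplicative.ofAdd v)
    have h1 := E.pow x
    rw [hP.2.1 x, hx, toAdd_ofAdd, ← map_one E.inc] at h1
    have h2 := E.inj h1
    exact (Multiplicative.ofAdd.injective h2).symm
  have hqb : q = toDat hp ⟨q.be, q.alt⟩ := by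
    apply Dat.ext
    · rfl
    · exact hpw
  refine ⟨d, m, hdm, ⟨q.be, q.alt⟩, ?_, ?_⟩
  · rw [← hqb]
    exact hq
  · rw [← hqb]
    exact ⟨E⟩

lemma bad_le (hp : p ≠ 2) (n : ℕ) : numIso (p ^ n) (QBad p n) ≤
    ∑ d ∈ Finset.range (n + 1), Nat.card (BadOrb (p := p) hp d (n - d)) := by
  have h := numIso_le (N := p ^ n) (QBad p n)
    (I := Σ d : Fin (n + 1), BadOrb (p := p) hp (d : ℕ) (n - d))
    (fun i P _ => Rep hp i.2.1 P) (fun i P P' _ _ h h' => rep_iso hp _ P P' h h') (by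
      intro P _ _ hP
      obtain ⟨hP1, hP2⟩ := hP
      obtain ⟨d, m, hdm, q, hq, ⟨E⟩⟩ := exists_alt_dat hp P hP1
      have hm : m = n - d := by omega
      subst hm
      exact ⟨⟨⟨d, by omega⟩, ⟨Quotient.mk'' q, q, rfl, P, inferInstance, ⟨E⟩, hP2⟩⟩,
        q, rfl, ⟨E⟩⟩)
  refine h.trans (le_of_eq ?_)
  rw [Nat.card_sigma, Finset.sum_range]

/-- the full orbits -/
def FullOrb (hp : p ≠ 2) (d m : ℕ) : Type :=
  {o : Orb p d m // ∃ b : Alt p (Vs p d) (Vs p m), Quotient.mk'' b = o ∧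
    b ∈ {b | (toDat hp b).Full}}

instance (hp : p ≠ 2) (d m : ℕ) : Finite (FullOrb (p := p) hp d m) := by
  unfold FullOrb
  infer_instance

omit [Fact p.Prime] in
lemma expTwo_congr {n : ℕ} (P P' : Type) [Group P] [Group P'] (e : P ≃* P')
    (h : ExpTwo p n P) : ExpTwo p n P' := by
  obtain ⟨h1, h2, h3⟩ := h
  refine ⟨?_, ?_, ?_⟩
  · rw [← h1]
    exact (Nat.card_congr e.toEquiv).symm
  · intro x
    have h4 := h2 (e.symm x)
    rw [← map_pow] at h4
    exact e.symm.injective (h4.trans (map_one _).symm)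
  · intro x y z
    apply e.symm.injective
    have h4 := h3 (e.symm x) (e.symm y) (e.symm z)
    rw [map_mul, map_mul, map_mul, map_mul, map_mul, map_mul, map_mul, map_mul, map_inv, map_inv]
    exact h4

lemma le_all (hp : p ≠ 2) (d m : ℕ) :
    Nat.card (FullOrb (p := p) hp d m) ≤ numIso (p ^ (d + m)) (QAll p (d + m)) := by
  refine le_numIso (QAll p (d + m)) (fun P P' _ _ e h => expTwo_congr P P' e h)
    (Nat.pos_of_ne_zero (pow_ne_zero _ (Nat.Prime.ne_zero Fact.out)))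
    (fun o P _ => ∃ b : Alt p (Vs p d) (Vs p m), Quotient.mk'' b = o.1 ∧ (toDat hp b).Full ∧
      Nonempty (Ext (toDat hp b) P)) ?_ ?_
  · rintro o o' P P' _ _ ⟨q, hq, hf, ⟨E⟩⟩ ⟨q', hq', hf', ⟨E'⟩⟩ e
    apply Subtype.ext
    rw [← hq, ← hq']
    obtain ⟨γ, hγ⟩ := Ext.exists_smul hf hf' E E' e
    rw [← toDat_smul] at hγ
    have hγ' := toDat_inj hp hγ
    apply Quotient.sound
    refine ⟨γ⁻¹, ?_⟩
    show γ⁻¹ • q' = q
    rw [← hγ', inv_smul_smul]
  · rintro ⟨o, q, hq, hf⟩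
    obtain ⟨P, _, ⟨E⟩⟩ := exists_ext (toDat hp q)
    refine ⟨P, inferInstance, ⟨q, hq, hf, ⟨E⟩⟩, ?_, ?_⟩
    · rw [E.card, finrank_Vs, finrank_Vs]
    · have h := Ext.expTwo (q := toDat hp q) rfl E
      rw [finrank_Vs, finrank_Vs] at h
      exact h

/-- good pairs -/
def Good (d m : ℕ) : Prop := 10000 ≤ d ∧ d ≤ 4 * m ∧ m ≤ d

/-- few maps are not generic -/
lemma card_not_gen' {d m : ℕ} (h : Good d m) :
    Nat.card {b : Alt p (Vs p d) (Vs p m) // ¬ GenCond b.1 (2 * (d / 16))} * p ^ (3 * d) ≤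
      Nat.card (Alt p (Vs p d) (Vs p m)) := by
  obtain ⟨h1, h2, h3⟩ := h
  have hpos : 0 < p := (Fact.out : p.Prime).pos
  have hN := card_not_gen (p := p) (V := Vs p d) (W := Vs p m) (finrank_Vs d) (finrank_Vs m)
    h1 h2 h3
  have h4 := card_dat (p := p) (V := Vs p d) (W := Vs p m) (finrank_Vs d) (finrank_Vs m)
    (fun b => ¬ GenCond b (2 * (d / 16)))
  have h5 := card_dat (p := p) (V := Vs p d) (W := Vs p m) (finrank_Vs d) (finrank_Vs m)
    (fun _ => True)
  have h6 : Nat.card {q : Dat p (Vs p d) (Vs p m) // True} = Nat.card (Dat p (Vs p d) (Vs p m)) :=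
    Nat.card_congr (Equiv.subtypeUnivEquiv fun _ => trivial)
  have h7 : Nat.card {b : Alt p (Vs p d) (Vs p m) // True} = Nat.card (Alt p (Vs p d) (Vs p m)) :=
    Nat.card_congr (Equiv.subtypeUnivEquiv fun _ => trivial)
  rw [h6, h7] at h5
  rw [h4, h5] at hN
  have h8 : Nat.card {b : Alt p (Vs p d) (Vs p m) // ¬ GenCond b.1 (2 * (d / 16))} *
      p ^ (3 * d) * p ^ (m * d) ≤ Nat.card (Alt p (Vs p d) (Vs p m)) * p ^ (m * d) := by
    calc _ = Nat.card {b : Alt p (Vs p d) (Vs p m) // ¬ GenCond b.1 (2 * (d / 16))} *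
          p ^ (m * d) * p ^ (3 * d) := by ring
      _ ≤ _ := hN
  exact Nat.le_of_mul_le_mul_right h8 (pow_pos hpos _)

/-- most maps are full -/
lemma card_Alt_le (hp2 : p ≠ 2) {d m : ℕ} (h : Good d m) : Nat.card (Alt p (Vs p d) (Vs p m)) ≤
    2 * (Nat.card (Gam p (Vs p d) (Vs p m)) * Nat.card (FullOrb (p := p) hp2 d m)) := by
  have hN := card_not_gen' (p := p) h
  obtain ⟨h1, h2, h3⟩ := h
  have hp : 2 ≤ p := (Fact.out : p.Prime).two_le
  have hL := orbit_lower (G := Gam p (Vs p d) (Vs p m)) (X := Alt p (Vs p d) (Vs p m))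
    {b | (toDat hp2 b).Full}
  have hF : Nat.card (Alt p (Vs p d) (Vs p m)) ≤
      Nat.card {b : Alt p (Vs p d) (Vs p m) // ¬ GenCond b.1 (2 * (d / 16))} +
        Nat.card ({b | (toDat hp2 b).Full} : Set (Alt p (Vs p d) (Vs p m))) := by
    have e1 : Nat.card (Alt p (Vs p d) (Vs p m)) =
        Nat.card {b : Alt p (Vs p d) (Vs p m) // ¬ GenCond b.1 (2 * (d / 16))} +
          Nat.card {b : Alt p (Vs p d) (Vs p m) // ¬ ¬ GenCond b.1 (2 * (d / 16))} := by
      classical
      rw [← Nat.card_sum]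
      exact Nat.card_congr (Equiv.sumCompl _).symm
    rw [e1]
    apply Nat.add_le_add_left
    refine Nat.card_le_card_of_injective
      (β := ({b | (toDat hp2 b).Full} : Set (Alt p (Vs p d) (Vs p m))))
      (fun q => ⟨q.1, full_of_genCond (q := toDat hp2 q.1) (h := 2 * (d / 16))
        (not_not.mp q.2)⟩) ?_
    intro q q' hqq
    exact Subtype.ext (congrArg (fun x => x.1) hqq)
  have h2p : 2 ≤ p ^ (3 * d) := by
    calc 2 ≤ p := hp
      _ = p ^ 1 := (pow_one p).symm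
      _ ≤ p ^ (3 * d) := Nat.pow_le_pow_right (by omega) (by omega)
  have h4 : Nat.card {b : Alt p (Vs p d) (Vs p m) // ¬ GenCond b.1 (2 * (d / 16))} * 2 ≤
      Nat.card (Alt p (Vs p d) (Vs p m)) :=
    (Nat.mul_le_mul_left _ h2p).trans hN
  have h5 : Nat.card ({b | (toDat hp2 b).Full} : Set (Alt p (Vs p d) (Vs p m))) ≤
      Nat.card (Gam p (Vs p d) (Vs p m)) * Nat.card (FullOrb (p := p) hp2 d m) := hL
  omega

/-- the conditions are invariant -/
lemma not_genCond_smul' {d m : ℕ} (γ : Gam p (Vs p d) (Vs p m)) (b : Alt p (Vs p d) (Vs p m))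
    (hp : p ≠ 2) (h : ℕ) (hb : ¬ GenCond b.1 h) : ¬ GenCond (γ • b).1 h :=
  not_genCond_smul γ (toDat hp b) h hb

/-- the bad orbits in the good range -/
lemma badOrb_le (hp2 : p ≠ 2) {d m : ℕ} (h : Good d m) :
    Nat.card (BadOrb (p := p) hp2 d m) * p ^ (3 * d) ≤
      6 * (p * Nat.card (FullOrb (p := p) hp2 d m)) := by
  have hg := h
  obtain ⟨h1, h2, h3⟩ := h
  have hp : 2 ≤ p := (Fact.out : p.Prime).two_le
  set B : Set (Alt p (Vs p d) (Vs p m)) := {b | ¬ GenCond b.1 (2 * (d / 16))} with hB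
  have hN : Nat.card B * p ^ (3 * d) ≤ Nat.card (Alt p (Vs p d) (Vs p m)) := card_not_gen' hg
  have hS0 := card_fix_sum_alt (p := p) (V := Vs p d) (W := Vs p m) (finrank_Vs d) (finrank_Vs m)
    h1 h2 h3
  have hS : Nat.card {y : Gam p (Vs p d) (Vs p m) × Alt p (Vs p d) (Vs p m) //
      y.1 ∉ Lam p (Vs p d) (Vs p m) ∧ y.1 • y.2 = y.2} * p ^ (3 * d) ≤
      Nat.card (Alt p (Vs p d) (Vs p m)) := by
    refine le_trans (Nat.mul_le_mul_right _ (le_of_eq ?_)) hS0
    apply Nat.card_congr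
    apply Equiv.subtypeEquivRight
    intro y
    rw [mem_Lam, alt_smul_eq_iff]
  have hO := orbit_count' (G := Gam p (Vs p d) (Vs p m)) (X := Alt p (Vs p d) (Vs p m))
    (Lam p (Vs p d) (Vs p m)) (fun γ hγ b => Lam_smul γ hγ b) B
    (fun γ q hq => not_genCond_smul' γ q hp2 _ hq)
  have hle : Nat.card (BadOrb (p := p) hp2 d m) ≤ Nat.card {o : Orb p d m //
      ∃ x : Alt p (Vs p d) (Vs p m), Quotient.mk'' x = o ∧
        (x ∈ B ∨ ∃ g : Gam p (Vs p d) (Vs p m), g ∉ Lam p (Vs p d) (Vs p m) ∧ g • x = x)} := by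
    refine Nat.card_le_card_of_injective (fun o => ⟨o.1, ?_⟩) ?_
    · obtain ⟨o, q, hq, P, _, ⟨E⟩, hT⟩ := o
      refine ⟨q, hq, ?_⟩
      by_contra hcon
      rw [not_or] at hcon
      obtain ⟨hc1, hc2⟩ := hcon
      have hG : GenCond (toDat hp2 q).be (2 * (d / 16)) := by
        by_contra h'
        exact hc1 h'
      have hS' : ∀ γ : Gam p (Vs p d) (Vs p m), γ • toDat hp2 q = toDat hp2 q → IsSc γ := by
        intro γ hγ
        by_contra h'
        rw [← toDat_smul] at hγ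
        exact hc2 ⟨γ, h', toDat_inj hp2 hγ⟩
      have hm1 : 1 ≤ finrank (ZMod p) (Vs p m) := by rw [finrank_Vs]; omega
      have hle3 : T (P × P) ≤ (p + 3) / 2 := T_le_exp hp2 (toDat hp2 q) hG
        (by rw [finrank_Vs]; omega) hm1 hS' P E
      have hge3 : (p + 3) / 2 ≤ T (P × P) := exp_le_T hp2 (toDat hp2 q) rfl hm1 P E
      exact hT (le_antisymm hle3 hge3)
    · intro o o' hoo
      exact Subtype.ext (congrArg (fun x => x.1) hoo)
  have hD := card_Alt_le (p := p) hp2 hg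
  have hG0 : 0 < Nat.card (Gam p (Vs p d) (Vs p m)) := Nat.card_pos
  have hLp := card_Lam_le (p := p) d m
  set G := Nat.card (Gam p (Vs p d) (Vs p m))
  set D := Nat.card (Alt p (Vs p d) (Vs p m))
  set L := Nat.card (Lam p (Vs p d) (Vs p m))
  set F := Nat.card (FullOrb (p := p) hp2 d m)
  set S := Nat.card {y : Gam p (Vs p d) (Vs p m) × Alt p (Vs p d) (Vs p m) //
    y.1 ∉ Lam p (Vs p d) (Vs p m) ∧ y.1 • y.2 = y.2}
  have h6 : Nat.card (BadOrb (p := p) hp2 d m) * G ≤ L * Nat.card B + 2 * S :=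
    (Nat.mul_le_mul_right _ hle).trans hO
  have h7 : Nat.card (BadOrb (p := p) hp2 d m) * p ^ (3 * d) * G ≤ 3 * (p * D) := by
    calc Nat.card (BadOrb (p := p) hp2 d m) * p ^ (3 * d) * G
        = Nat.card (BadOrb (p := p) hp2 d m) * G * p ^ (3 * d) := by ring
      _ ≤ (L * Nat.card B + 2 * S) * p ^ (3 * d) := Nat.mul_le_mul_right _ h6
      _ = L * (Nat.card B * p ^ (3 * d)) + 2 * (S * p ^ (3 * d)) := by ring
      _ ≤ p * D + 2 * D := Nat.add_le_add (Nat.mul_le_mul hLp hN) (Nat.mul_le_mul_left _ hS)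
      _ ≤ p * D + 2 * (p * D) := by
          apply Nat.add_le_add_left
          apply Nat.mul_le_mul_left
          exact Nat.le_mul_of_pos_left D (by omega)
      _ = 3 * (p * D) := by ring
  have h8 : Nat.card (BadOrb (p := p) hp2 d m) * p ^ (3 * d) * G ≤ 6 * (p * F) * G := by
    calc Nat.card (BadOrb (p := p) hp2 d m) * p ^ (3 * d) * G ≤ 3 * (p * D) := h7
      _ ≤ 3 * (p * (2 * (G * F))) := Nat.mul_le_mul_left _ (Nat.mul_le_mul_left _ hD)
      _ = 6 * (p * F) * G := by ring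
  exact Nat.le_of_mul_le_mul_right h8 hG0

/-- the number of bad orbits is at most the number of alternating maps -/
lemma badOrb_le' (hp : p ≠ 2) (d m : ℕ) : Nat.card (BadOrb (p := p) hp d m) ≤ p ^ Ex d m := by
  rw [← card_Alt]
  have h1 : Nat.card (BadOrb (p := p) hp d m) ≤ Nat.card (Orb p d m) :=
    Nat.card_le_card_of_injective (fun o => o.1) Subtype.val_injective
  exact h1.trans (Nat.card_le_card_of_surjective _ Quotient.mk''_surjective)

end

/-- the cubic inequality -/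
lemma tails_int {N M t r : ℤ} (hN0 : 40000 ≤ N) (hM0 : 0 ≤ M) (hNM : 0 ≤ N - M)
    (hN : N = 3 * t + r) (hr0 : 0 ≤ r) (hr2 : r ≤ 2) (hcase : 5 * M ≤ N ∨ 2 * (N - M) ≤ N) :
    M * ((N - M) * (N - M)) + 2 * (2 * N + 1 + N ^ 2) ≤ t * ((2 * t + r) * (2 * t + r - 1)) := by
  have ht0 : 13332 ≤ t := by linarith
  have hN3 : 0 ≤ N ^ 3 := pow_nonneg (by linarith) 3
  have hup : 125 * (M * ((N - M) * (N - M))) ≤ 16 * N ^ 3 := by
    rcases hcase with h5 | h2
    · have f0 : 0 ≤ 16 * N ^ 2 - 45 * N * M + 25 * M ^ 2 := by nlinarith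
      have f1 := mul_nonneg (by linarith : 0 ≤ N - 5 * M) f0
      have f2 : (N - 5 * M) * (16 * N ^ 2 - 45 * N * M + 25 * M ^ 2) =
          16 * N ^ 3 - 125 * (M * ((N - M) * (N - M))) := by ring
      linarith
    · have f0 : 0 ≤ N ^ 2 + 2 * N * (N - M) - 4 * (N - M) ^ 2 := by nlinarith
      have f1 := mul_nonneg (by linarith : 0 ≤ N - 2 * (N - M)) f0
      have f2 : (N - 2 * (N - M)) * (N ^ 2 + 2 * N * (N - M) - 4 * (N - M) ^ 2) =
          N ^ 3 - 8 * (M * ((N - M) * (N - M))) := by ring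
      linarith
  have hlow : 4 * t ^ 3 - 2 * t ^ 2 ≤ t * ((2 * t + r) * (2 * t + r - 1)) := by
    have f1 : t * ((2 * t + r) * (2 * t + r - 1)) = 4 * t ^ 3 - 2 * t ^ 2 + (4 * t ^ 2 * r +
        t * r ^ 2 - t * r) := by ring
    have f2 : 0 ≤ 4 * t ^ 2 * r + t * r ^ 2 - t * r := by
      have g1 : 4 * t ^ 2 * r - t * r = t * r * (4 * t - 1) := by ring
      have g2 : 0 ≤ t * r * (4 * t - 1) :=
        mul_nonneg (mul_nonneg (by linarith) hr0) (by linarith)
      have g3 : 0 ≤ t * r ^ 2 := mul_nonneg (by linarith) (sq_nonneg _)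
      linarith
    linarith
  have hNt : N ^ 3 - 6 * N ^ 2 ≤ 27 * t ^ 3 := by
    have f1 : 3 * t = N - r := by linarith
    have f2 : 27 * t ^ 3 = (N - r) ^ 3 := by rw [← f1]; ring
    have f3 : (N - r) ^ 3 = N ^ 3 - 3 * N ^ 2 * r + r ^ 2 * (3 * N - r) := by ring
    have f4 : 0 ≤ r ^ 2 * (3 * N - r) := mul_nonneg (sq_nonneg _) (by linarith)
    have f5 : N ^ 2 * r ≤ N ^ 2 * 2 := mul_le_mul_of_nonneg_left hr2 (sq_nonneg _)
    linarith
  have ht2 : 9 * t ^ 2 ≤ N ^ 2 := by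
    have f1 : 3 * t ≤ N := by linarith
    have f2 : (3 * t) * (3 * t) ≤ N * N := mul_le_mul f1 f1 (by linarith) (by linarith)
    nlinarith
  have f1 : 40000 * N ^ 2 ≤ N ^ 3 := by
    have : N ^ 3 = N * N ^ 2 := by ring
    rw [this]
    exact mul_le_mul_of_nonneg_right hN0 (sq_nonneg _)
  have f2 : 40000 * N ≤ N ^ 2 := by
    have : N ^ 2 = N * N := by ring
    rw [this]
    exact mul_le_mul_of_nonneg_right hN0 (by linarith)
  have hN2 : 0 ≤ N ^ 2 := sq_nonneg _
  linarith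

/-- the tails: the exponents -/
lemma tails {n d m : ℕ} (hn : 40000 ≤ n) (hdm : d + m = n) (h : ¬ Good d m) :
    Ex d m + (2 * n + 1 + n ^ 2) ≤ Ex (n - n / 3) (n / 3) := by
  have hE : ∀ a b : ℕ, (2 * Ex a b : ℤ) = b * (a * (a - 1)) := by
    intro a b
    have h1 : (2 * a.choose 2 : ℤ) = a * (a - 1) := by
      have h2 := Nat.choose_two_right a
      have h3 : a * (a - 1) / 2 * 2 = a * (a - 1) :=
        Nat.div_mul_cancel (Nat.even_mul_pred_self a).two_dvd
      rcases Nat.eq_zero_or_pos a with h0 | h0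
      · subst h0
        simp
      · obtain ⟨c, rfl⟩ : ∃ c, a = c + 1 := ⟨a - 1, by omega⟩
        rw [Nat.add_sub_cancel] at h2 h3
        have h4 : 2 * (c + 1).choose 2 = (c + 1) * c := by omega
        have h5 : (2 * (c + 1).choose 2 : ℤ) = ((c + 1 : ℕ) : ℤ) * c := by exact_mod_cast h4
        rw [h5]
        push_cast
        ring
    rw [Ex]
    push_cast
    calc (2 * ((b : ℤ) * a.choose 2) : ℤ) = b * (2 * a.choose 2) := by ring
      _ = b * (a * (a - 1)) := by rw [h1]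
  have hcase : 5 * m ≤ n ∨ 2 * d ≤ n := by
    unfold Good at h
    omega
  obtain ⟨t, r, ht, hr⟩ : ∃ t r : ℕ, n = 3 * t + r ∧ r ≤ 2 := ⟨n / 3, n % 3, by omega, by omega⟩
  have e1 : n / 3 = t := by omega
  rw [e1, show n - t = 2 * t + r by omega]
  have hA := hE d m
  have hB := hE (2 * t + r) t
  have hle : (2 * Ex d m + 2 * (2 * n + 1 + n ^ 2) : ℤ) ≤ 2 * Ex (2 * t + r) t := by
    rw [hA, hB]
    have hdz : (d : ℤ) = n - m := by
      have : (d : ℤ) + m = n := by exact_mod_cast hdm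
      linarith
    have key := tails_int (N := n) (M := m) (t := t) (r := r) (by exact_mod_cast hn)
      (by positivity) (by rw [← hdz]; positivity) (by exact_mod_cast ht) (by positivity)
      (by exact_mod_cast hr) (by
        rw [← hdz]
        rcases hcase with h5 | h2
        · left
          exact_mod_cast h5
        · right
          exact_mod_cast h2)
    rw [← hdz] at key
    push_cast
    have f : (m : ℤ) * (d * (d - 1)) ≤ m * (d * d) := by
      apply mul_le_mul_of_nonneg_left _ (by positivity)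
      apply mul_le_mul_of_nonneg_left _ (by positivity)
      linarith
    linarith
  have hle' : 2 * Ex d m + 2 * (2 * n + 1 + n ^ 2) ≤ 2 * Ex (2 * t + r) t := by exact_mod_cast hle
  omega

/-- **Main theorem B.** -/
theorem main (p : ℕ) [Fact p.Prime] (hp2 : p ≠ 2) (n : ℕ) (hn : 40000 ≤ n) :
    p ^ n * numIso (p ^ n) (QBad p n) ≤ numIso (p ^ n) (QAll p n) := by
  have hp : 2 ≤ p := (Fact.out : p.Prime).two_le
  set A := numIso (p ^ n) (QAll p n) with hA
  have key : ∀ d ∈ Finset.range (n + 1),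
      Nat.card (BadOrb (p := p) hp2 d (n - d)) * (p ^ n * (n + 1)) ≤ A := by
    intro d hd
    rw [Finset.mem_range] at hd
    obtain ⟨m, rfl⟩ : ∃ m, n = d + m := ⟨n - d, by omega⟩
    rw [Nat.add_sub_cancel_left]
    by_cases hg : Good d m
    · have h1 := badOrb_le (p := p) hp2 hg
      have h2 : Nat.card (FullOrb (p := p) hp2 d m) ≤ A := le_all hp2 d m
      obtain ⟨g1, g2, g3⟩ := hg
      have h3 : 6 * p * (p ^ (d + m) * (d + m + 1)) ≤ p ^ (3 * d) := by
        have e1 : 6 * (d + m + 1) ≤ p ^ (d - 1) := by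
          have e2 : 6 * (d + m + 1) ≤ 2 ^ (d - 1) := by
            have e3 : ∀ k : ℕ, 10 ≤ k → 12 * k + 18 ≤ 2 ^ k := by
              intro k hk
              induction k, hk using Nat.le_induction with
              | base => norm_num
              | succ k hk ih =>
                rw [pow_succ]
                omega
            have := e3 (d - 1) (by omega)
            omega
          exact e2.trans (Nat.pow_le_pow_left hp _)
        calc 6 * p * (p ^ (d + m) * (d + m + 1)) = p ^ (d + m) * (p * (6 * (d + m + 1))) := by ring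
          _ ≤ p ^ (d + m) * (p * p ^ (d - 1)) :=
              Nat.mul_le_mul_left _ (Nat.mul_le_mul_left _ e1)
          _ = p ^ (d + m) * p ^ d := by
              rw [← pow_succ', Nat.sub_add_cancel (by omega)]
          _ = p ^ (d + m + d) := (pow_add _ _ _).symm
          _ ≤ p ^ (3 * d) := Nat.pow_le_pow_right (by omega) (by omega)
      have h4 : 6 * p * (Nat.card (BadOrb (p := p) hp2 d m) * (p ^ (d + m) * (d + m + 1))) ≤
          6 * p * A := by
        calc 6 * p * (Nat.card (BadOrb (p := p) hp2 d m) * (p ^ (d + m) * (d + m + 1)))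
            = Nat.card (BadOrb (p := p) hp2 d m) * (6 * p * (p ^ (d + m) * (d + m + 1))) := by ring
          _ ≤ Nat.card (BadOrb (p := p) hp2 d m) * p ^ (3 * d) := Nat.mul_le_mul_left _ h3
          _ ≤ 6 * (p * Nat.card (FullOrb (p := p) hp2 d m)) := h1
          _ ≤ 6 * (p * A) := Nat.mul_le_mul_left _ (Nat.mul_le_mul_left _ h2)
          _ = 6 * p * A := by ring
      exact Nat.le_of_mul_le_mul_left h4 (by omega)
    · have h1 := badOrb_le' (p := p) hp2 d m
      set n := d + m with hnn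
      have ht := tails hn rfl hg
      have hg0 : Good (n - n / 3) (n / 3) := ⟨by omega, by omega, by omega⟩
      have h2 := card_Alt_le (p := p) hp2 hg0
      rw [card_Alt] at h2
      have h3 : Nat.card (FullOrb (p := p) hp2 (n - n / 3) (n / 3)) ≤ A := by
        have h := le_all (p := p) hp2 (n - n / 3) (n / 3)
        rw [show n - n / 3 + n / 3 = n by omega] at h
        exact h
      have h4 : Nat.card (Gam p (Vs p (n - n / 3)) (Vs p (n / 3))) ≤ p ^ (n ^ 2) := by
        refine (card_Gam_le _ _).trans (Nat.pow_le_pow_right (by omega) ?_)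
        obtain ⟨a, b, ha, hb, hab⟩ : ∃ a b, n - n / 3 = a ∧ n / 3 = b ∧ a + b = n :=
          ⟨_, _, rfl, rfl, by omega⟩
        rw [ha, hb, ← hab]
        nlinarith [Nat.zero_le (a * b)]
      have h5 : p ^ Ex (n - n / 3) (n / 3) ≤ 2 * (p ^ (n ^ 2) * A) :=
        h2.trans (Nat.mul_le_mul_left _ (Nat.mul_le_mul h4 h3))
      have h6 : 2 * (n + 1) ≤ p ^ (n + 1) := by
        have e2 : 2 * (n + 1) ≤ 2 ^ (n + 1) := by
          rw [pow_succ]
          have := Nat.lt_two_pow_self (n := n)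
          omega
        exact e2.trans (Nat.pow_le_pow_left hp _)
      have h7 : p ^ Ex d m * (p ^ n * (2 * (n + 1)) * p ^ (n ^ 2)) ≤ 2 * (p ^ (n ^ 2) * A) * 1 := by
        calc p ^ Ex d m * (p ^ n * (2 * (n + 1)) * p ^ (n ^ 2))
            ≤ p ^ Ex d m * (p ^ n * p ^ (n + 1) * p ^ (n ^ 2)) := by gcongr
          _ = p ^ (Ex d m + (2 * n + 1 + n ^ 2)) := by
              rw [← pow_add, ← pow_add, ← pow_add]
              congr 1
              ring
          _ ≤ p ^ Ex (n - n / 3) (n / 3) := Nat.pow_le_pow_right (by omega) ht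
          _ ≤ 2 * (p ^ (n ^ 2) * A) * 1 := by rw [mul_one]; exact h5
      have h8 : 2 * p ^ (n ^ 2) * (Nat.card (BadOrb (p := p) hp2 d m) * (p ^ n * (n + 1))) ≤
          2 * p ^ (n ^ 2) * A := by
        calc 2 * p ^ (n ^ 2) * (Nat.card (BadOrb (p := p) hp2 d m) * (p ^ n * (n + 1)))
            ≤ 2 * p ^ (n ^ 2) * (p ^ Ex d m * (p ^ n * (n + 1))) := by gcongr
          _ = p ^ Ex d m * (p ^ n * (2 * (n + 1)) * p ^ (n ^ 2)) := by ring
          _ ≤ 2 * (p ^ (n ^ 2) * A) * 1 := h7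
          _ = 2 * p ^ (n ^ 2) * A := by ring
      exact Nat.le_of_mul_le_mul_left h8 (by positivity)
  have hsum : (n + 1) * (p ^ n * numIso (p ^ n) (QBad p n)) ≤ (n + 1) * A := by
    calc (n + 1) * (p ^ n * numIso (p ^ n) (QBad p n))
        ≤ (n + 1) * (p ^ n * ∑ d ∈ Finset.range (n + 1),
            Nat.card (BadOrb (p := p) hp2 d (n - d))) := by
          gcongr
          exact bad_le hp2 n
      _ = ∑ d ∈ Finset.range (n + 1),
            Nat.card (BadOrb (p := p) hp2 d (n - d)) * (p ^ n * (n + 1)) := by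
          rw [← Finset.sum_mul]
          ring
      _ ≤ ∑ _d ∈ Finset.range (n + 1), A := Finset.sum_le_sum key
      _ = (n + 1) * A := by rw [Finset.sum_const, Finset.card_range, smul_eq_mul]
  exact Nat.le_of_mul_le_mul_left hsum (by omega)

end B

end Pool.Agent.APG
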