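import Pool.Agent.APG.Defs

/-!
# Rows R3a-c: the greedy lemma and the count
-/

set_option autoImplicit false

open Module Submodule

namespace Pool.Agent.APG.Gr



variable {K V : Type*} [Field K] [AddCommGroup V] [Module K V] [FiniteDimensional K V]

/-- a maximal subspace disjoint from its image -/
theorem exists_max (φ : V ≃ₗ[K] V) : ∃ S : Submodule K V, Disjoint S (S.map φ.toLinearMap) ∧
    ∀ S' : Submodule K V, S ≤ S' → Disjoint S' (S'.map φ.toLinearMap) → S' = S := by
  classical
  have hne : {k : ℕ | ∃ S : Submodule K V, Disjoint S (S.map φ.toLinearMap) ∧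
      finrank K S = k}.Nonempty := ⟨0, ⊥, disjoint_bot_left, finrank_bot K V⟩
  have hbd : BddAbove {k : ℕ | ∃ S : Submodule K V, Disjoint S (S.map φ.toLinearMap) ∧
      finrank K S = k} := by
    refine ⟨finrank K V, ?_⟩
    rintro k ⟨S, -, rfl⟩
    exact S.finrank_le
  obtain ⟨S, hS, hk⟩ := Nat.sSup_mem hne hbd
  refine ⟨S, hS, fun S' hle hS' => ?_⟩
  have h1 : finrank K S' ≤ finrank K S := by
    rw [hk]
    exact le_csSup hbd ⟨S', hS', rfl⟩
  exact (Submodule.eq_of_le_of_finrank_le hle h1).symm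

theorem finrank_sup_map (φ : V ≃ₗ[K] V) {S : Submodule K V}
    (hS : Disjoint S (S.map φ.toLinearMap)) :
    finrank K (S ⊔ S.map φ.toLinearMap : Submodule K V) = 2 * finrank K S := by
  have h1 := Submodule.finrank_sup_add_finrank_inf_eq S (S.map φ.toLinearMap)
  rw [hS.eq_bot, finrank_bot, add_zero] at h1
  have h2 : finrank K (S.map φ.toLinearMap) = finrank K S := LinearEquiv.finrank_map_eq φ S
  rw [h1, h2]
  ring

omit [FiniteDimensional K V] in
/-- outside `T = S + φ S` every vector is an eigenvector modulo `T` -/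
theorem eig_mod (φ : V ≃ₗ[K] V) {S : Submodule K V}
    (hmax : ∀ S' : Submodule K V, S ≤ S' → Disjoint S' (S'.map φ.toLinearMap) → S' = S)
    (hS : Disjoint S (S.map φ.toLinearMap)) {v : V}
    (hv : v ∉ S ⊔ S.map φ.toLinearMap) :
    ∃ μ : K, φ v - μ • v ∈ S ⊔ S.map φ.toLinearMap := by
  have hvS : v ∉ S := fun h => hv (Submodule.mem_sup_left h)
  have hnd : ¬ Disjoint (S ⊔ span K {v}) ((S ⊔ span K {v}).map φ.toLinearMap) := by
    intro hd
    have h := hmax _ le_sup_left hd
    apply hvS
    rw [← h]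
    exact Submodule.mem_sup_right (Submodule.mem_span_singleton_self v)
  rw [Submodule.disjoint_def] at hnd
  push Not at hnd
  obtain ⟨w, hw1, hw2, hw0⟩ := hnd
  obtain ⟨s1, hs1, w1, hw1', rfl⟩ := Submodule.mem_sup.1 hw1
  obtain ⟨a, rfl⟩ := Submodule.mem_span_singleton.1 hw1'
  obtain ⟨y, hy, hyw⟩ := (Submodule.mem_map.1 hw2)
  obtain ⟨s2, hs2, w2, hw2', rfl⟩ := Submodule.mem_sup.1 hy
  obtain ⟨b, rfl⟩ := Submodule.mem_span_singleton.1 hw2'
  have hyw' : φ s2 + b • φ v = s1 + a • v := by
    rw [← hyw]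
    simp
  have hs2' : φ s2 ∈ S.map φ.toLinearMap := Submodule.mem_map.2 ⟨s2, hs2, rfl⟩
  by_cases hb : b = 0
  · exfalso
    rw [hb, zero_smul, add_zero] at hyw'
    by_cases ha : a = 0
    · apply hw0
      rw [ha, zero_smul, add_zero] at hyw' ⊢
      exact (Submodule.disjoint_def.1 hS) s1 hs1 (hyw' ▸ hs2')
    · apply hv
      have h : v = a⁻¹ • (φ s2 - s1) := by
        rw [hyw', add_sub_cancel_left, smul_smul, inv_mul_cancel₀ ha, one_smul]
      rw [h]
      exact Submodule.smul_mem _ _ (Submodule.sub_mem _ (Submodule.mem_sup_right hs2')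
        (Submodule.mem_sup_left hs1))
  · refine ⟨b⁻¹ * a, ?_⟩
    have h : φ v - (b⁻¹ * a) • v = b⁻¹ • (s1 - φ s2) := by
      have h1 : b • φ v = s1 + a • v - φ s2 := by rw [← hyw']; abel
      have h2 : φ v = b⁻¹ • (s1 + a • v - φ s2) := by
        rw [← h1, smul_smul, inv_mul_cancel₀ hb, one_smul]
      rw [h2, mul_smul, ← smul_sub]
      congr 1
      abel
    rw [h]
    exact Submodule.smul_mem _ _ (Submodule.sub_mem _ (Submodule.mem_sup_left hs1)
      (Submodule.mem_sup_right hs2'))

/-- The greedy lemma. -/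
theorem greedy' (φ : V ≃ₗ[K] V) : ∃ S : Submodule K V, Disjoint S (S.map φ.toLinearMap) ∧
    (finrank K V ≤ 2 * finrank K S + 1 ∨
      ∃ μ : K, ∀ v, φ v - μ • v ∈ S ⊔ S.map φ.toLinearMap) := by
  obtain ⟨S, hS, hmax⟩ := exists_max φ
  refine ⟨S, hS, ?_⟩
  set T : Submodule K V := S ⊔ S.map φ.toLinearMap with hT
  by_cases hd : finrank K V ≤ 2 * finrank K S + 1
  · exact Or.inl hd
  right
  push Not at hd
  have hfT : finrank K T = 2 * finrank K S := finrank_sup_map φ hS
  -- two vectors independent modulo T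
  have hex : ∀ v : V, ∃ w : V, w ∉ T ⊔ span K {v} := by
    intro v
    by_contra hcon
    push Not at hcon
    have htop : T ⊔ span K {v} = ⊤ := Submodule.eq_top_iff'.2 hcon
    have h1 : finrank K (T ⊔ span K {v} : Submodule K V) ≤ finrank K T + finrank K (span K {v}) :=
      Submodule.finrank_add_le_finrank_add_finrank T (span K {v})
    have h2 : finrank K (span K {v}) ≤ 1 := by
      have := finrank_span_le_card (R := K) ({v} : Set V)
      simpa using this
    rw [htop, finrank_top] at h1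
    omega
  obtain ⟨v0, hv0⟩ := hex 0
  rw [Submodule.span_zero_singleton, sup_bot_eq] at hv0
  obtain ⟨μ, hμ⟩ := eig_mod φ hmax hS hv0
  -- if v, w independent mod T then same scalar
  have key : ∀ v w : V, v ∉ T → w ∉ T ⊔ span K {v} → ∀ a : K, φ v - a • v ∈ T → φ w - a • w ∈ T := by
    intro v w hv hw a ha
    have hwT : w ∉ T := fun h => hw (Submodule.mem_sup_left h)
    have hvw : v + w ∉ T := by
      intro h
      apply hw
      have : w = (v + w) - v := by abel
      rw [this]
      exact Submodule.sub_mem _ (Submodule.mem_sup_left h)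
        (Submodule.mem_sup_right (Submodule.mem_span_singleton_self v))
    obtain ⟨b, hb⟩ := eig_mod φ hmax hS hwT
    obtain ⟨c, hc⟩ := eig_mod φ hmax hS hvw
    -- (a - c) v + (b - c) w ∈ T
    have h1 : (a - c) • v + (b - c) • w ∈ T := by
      have h2 := Submodule.sub_mem _ hc (Submodule.add_mem _ ha hb)
      have h3 : φ (v + w) - c • (v + w) - (φ v - a • v + (φ w - b • w)) =
          (a - c) • v + (b - c) • w := by
        rw [map_add, smul_add, sub_smul, sub_smul]
        abel
      rwa [h3] at h2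
    have hbc : b = c := by
      by_contra hne
      apply hw
      have hne' : b - c ≠ 0 := sub_ne_zero.2 hne
      have h4 : w = (b - c)⁻¹ • (((a - c) • v + (b - c) • w) - (a - c) • v) := by
        rw [add_sub_cancel_left, smul_smul, inv_mul_cancel₀ hne', one_smul]
      rw [h4]
      exact Submodule.smul_mem _ _ (Submodule.sub_mem _ (Submodule.mem_sup_left h1)
        (Submodule.mem_sup_right (Submodule.smul_mem _ _ (Submodule.mem_span_singleton_self v))))
    have hac : a = c := by
      by_contra hne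
      apply hv
      have hne' : a - c ≠ 0 := sub_ne_zero.2 hne
      rw [hbc, sub_self, zero_smul, add_zero] at h1
      have h4 : v = (a - c)⁻¹ • ((a - c) • v) := by
        rw [smul_smul, inv_mul_cancel₀ hne', one_smul]
      rw [h4]
      exact Submodule.smul_mem _ _ h1
    rw [hac, ← hbc]
    exact hb
  have hout : ∀ w : V, w ∉ T → φ w - μ • w ∈ T := by
    intro w hw
    by_cases h1 : w ∈ T ⊔ span K {v0}
    · -- go through a third vector
      obtain ⟨u, hu⟩ := hex v0
      have h2 := key v0 u hv0 hu μ hμ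
      have huT : u ∉ T := fun h => hu (Submodule.mem_sup_left h)
      have hw2 : w ∉ T ⊔ span K {u} := by
        intro h3
        obtain ⟨t1, ht1, x1, hx1, e1⟩ := Submodule.mem_sup.1 h1
        obtain ⟨a1, rfl⟩ := Submodule.mem_span_singleton.1 hx1
        obtain ⟨t2, ht2, x2, hx2, e2⟩ := Submodule.mem_sup.1 h3
        obtain ⟨a2, rfl⟩ := Submodule.mem_span_singleton.1 hx2
        by_cases ha2 : a2 = 0
        · apply hw
          rw [← e2, ha2, zero_smul, add_zero]
          exact ht2
        · apply hu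
          have h4 : u = a2⁻¹ • (t1 - t2) + (a2⁻¹ * a1) • v0 := by
            have h5 : a2 • u = t1 + a1 • v0 - t2 := by rw [e1, ← e2]; abel
            have h6 : u = a2⁻¹ • (a2 • u) := by rw [smul_smul, inv_mul_cancel₀ ha2, one_smul]
            rw [h6, h5, mul_smul, ← smul_add]
            congr 1
            abel
          rw [h4]
          exact Submodule.add_mem _ (Submodule.mem_sup_left
            (Submodule.smul_mem _ _ (Submodule.sub_mem _ ht1 ht2)))
            (Submodule.mem_sup_right (Submodule.smul_mem _ _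
              (Submodule.mem_span_singleton_self v0)))
      exact key u w huT hw2 μ h2
    · exact key v0 w hv0 h1 μ hμ
  refine ⟨μ, fun w => ?_⟩
  by_cases hw : w ∈ T
  · have h1 : v0 + w ∉ T := fun h => hv0 (by
      have : v0 = v0 + w - w := by abel
      rw [this]
      exact Submodule.sub_mem _ h hw)
    have h2 := Submodule.sub_mem _ (hout _ h1) hμ
    have h3 : φ (v0 + w) - μ • (v0 + w) - (φ v0 - μ • v0) = φ w - μ • w := by
      rw [map_add, smul_add]
      abel
    rwa [h3] at h2
  · exact hout w hw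


/-- If `rank φ ≤ k` then `φ` factors through `K ^ k`. -/
theorem factor (φ : V →ₗ[K] V) (k : ℕ) (hT : finrank K (LinearMap.range φ) ≤ k) :
    ∃ (a : (Fin k → K) →ₗ[K] V) (b : V →ₗ[K] (Fin k → K)), φ = a ∘ₗ b := by
  let e : LinearMap.range φ ≃ₗ[K] (Fin (finrank K (LinearMap.range φ)) → K) :=
    (Module.finBasis K (LinearMap.range φ)).equivFun
  let π : (Fin k → K) →ₗ[K] (Fin (finrank K (LinearMap.range φ)) → K) :=
    LinearMap.funLeft K K (Fin.castLE hT)
  have hπ : Function.Surjective π :=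
    LinearMap.funLeft_surjective_of_injective K K _ (Fin.castLE_injective hT)
  obtain ⟨g, hg⟩ := LinearMap.exists_rightInverse_of_surjective π (LinearMap.range_eq_top.2 hπ)
  refine ⟨(LinearMap.range φ).subtype ∘ₗ e.symm.toLinearMap ∘ₗ π,
    g ∘ₗ e.toLinearMap ∘ₗ φ.rangeRestrict, ?_⟩
  ext v
  have h1 : π (g (e (φ.rangeRestrict v))) = e (φ.rangeRestrict v) :=
    LinearMap.congr_fun hg (e (φ.rangeRestrict v))
  change φ v = (LinearMap.range φ).subtype (e.symm (π (g (e (φ.rangeRestrict v)))))
  rw [h1, LinearEquiv.symm_apply_apply]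
  rfl

end Pool.Agent.APG.Gr

namespace Pool.Agent.APG

/-- ROW R3a -/
theorem greedy {k E : Type} [Field k] [AddCommGroup E] [Module k E] [FiniteDimensional k E]
    (f : E ≃ₗ[k] E) : ∃ s : ℕ, Far f.toLinearMap s ∧ Near f.toLinearMap s := by
  obtain ⟨S, hS, h⟩ := Gr.greedy' f
  refine ⟨finrank k S, ⟨S, rfl, hS⟩, ?_⟩
  rcases h with h | ⟨μ, h⟩
  · exact Or.inl h
  · refine Or.inr ⟨μ, ?_⟩
    rw [← Gr.finrank_sup_map f hS]
    apply Submodule.finrank_mono
    rintro x ⟨v, rfl⟩
    exact h v

/-- ROW R3b -/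
theorem card_near {p : ℕ} [Fact p.Prime] {E : Type} [AddCommGroup E] [Module (ZMod p) E]
    [Finite E] {d : ℕ} (hd : finrank (ZMod p) E = d) (h2 : 2 ≤ d) (s : ℕ) :
    Nat.card {f : E ≃ₗ[ZMod p] E // Near f.toLinearMap s} ≤ p ^ (4 * s * d + 1) := by
  classical
  have hfE : FiniteDimensional (ZMod p) E := Module.Finite.of_finite
  have hfin : Finite (E →ₗ[ZMod p] E) := Module.finite_of_finite (ZMod p)
  have hq : 1 ≤ p := (Fact.out : p.Prime).one_lt.le
  by_cases hA : d ≤ 2 * s + 1
  · have h1 : Nat.card {f : E ≃ₗ[ZMod p] E // Near f.toLinearMap s} ≤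
        Nat.card (E →ₗ[ZMod p] E) := by
      refine Nat.card_le_card_of_injective (fun φ => φ.1.toLinearMap) ?_
      intro φ ψ h
      exact Subtype.ext (LinearEquiv.toLinearMap_injective h)
    have h3 : Nat.card (E →ₗ[ZMod p] E) = p ^ (d * d) := by
      rw [Module.natCard_eq_pow_finrank (K := ZMod p), Module.finrank_linearMap, hd,
        Nat.card_zmod]
    rw [h3] at h1
    refine h1.trans (Nat.pow_le_pow_right hq ?_)
    have h4 : d * d ≤ (2 * s + 1) * d := Nat.mul_le_mul_right d hA
    have h5 : (2 * s + 1) * d ≤ (4 * s) * d := Nat.mul_le_mul_right d (by omega)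
    omega
  · have hf1 : Finite ((Fin (2 * s) → ZMod p) →ₗ[ZMod p] E) := Module.finite_of_finite (ZMod p)
    have hf2 : Finite (E →ₗ[ZMod p] (Fin (2 * s) → ZMod p)) := Module.finite_of_finite (ZMod p)
    let F : (ZMod p × ((Fin (2 * s) → ZMod p) →ₗ[ZMod p] E) ×
      (E →ₗ[ZMod p] (Fin (2 * s) → ZMod p))) → (E →ₗ[ZMod p] E) :=
        fun x => x.1 • LinearMap.id + x.2.1 ∘ₗ x.2.2
    have hF : ∀ φ : {f : E ≃ₗ[ZMod p] E // Near f.toLinearMap s},
        ∃ x, F x = φ.1.toLinearMap := by
      rintro ⟨φ, h⟩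
      rcases h with h | ⟨μ, h⟩
      · exact absurd (hd ▸ h) hA
      · obtain ⟨a, b, hab⟩ := Gr.factor (φ.toLinearMap - μ • LinearMap.id) (2 * s) h
        refine ⟨(μ, a, b), ?_⟩
        change μ • LinearMap.id + a ∘ₗ b = φ.toLinearMap
        rw [← hab]
        abel
    choose G hG using hF
    have h1 := Nat.card_le_card_of_injective G (by
      intro φ ψ h
      apply Subtype.ext
      apply LinearEquiv.toLinearMap_injective
      rw [← hG φ, ← hG ψ, h])
    refine h1.trans (le_of_eq ?_)
    rw [Nat.card_prod, Nat.card_prod, Module.natCard_eq_pow_finrank (K := ZMod p)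
        (V := _ →ₗ[ZMod p] E),
      Module.natCard_eq_pow_finrank (K := ZMod p) (V := E →ₗ[ZMod p] _), Module.finrank_linearMap,
      Module.finrank_linearMap, Module.finrank_fin_fun, hd, Nat.card_zmod, ← pow_add, ← pow_succ']
    congr 1
    ring

/-- ROW R3c -/
theorem near_zero {k E : Type} [Field k] [AddCommGroup E] [Module k E] [FiniteDimensional k E]
    (h2 : 2 ≤ finrank k E) {f : E →ₗ[k] E} (h : Near f 0) : ∃ μ : k, f = μ • LinearMap.id := by
  rcases h with h | ⟨μ, h⟩
  · omega
  · refine ⟨μ, ?_⟩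
    rw [mul_zero, Nat.le_zero, Submodule.finrank_eq_zero, LinearMap.range_eq_bot] at h
    exact sub_eq_zero.1 h

end Pool.Agent.APG
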