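import Pool.Agent.APG.Fin

/-!
# The number of isomorphism classes depends only on the groups on `Fin N`
-/

set_option autoImplicit false

namespace Pool.Agent.APG

/-- the number of isomorphism classes depends only on the groups on `Fin N` -/
lemma numIso_congr {N : ℕ} {Q Q' : (P : Type) → [Group P] → Prop}
    (h : ∀ g : Group (Fin N), @Q (Fin N) g ↔ @Q' (Fin N) g) : numIso N Q = numIso N Q' := by
  refine Nat.card_congr (Quotient.congr (Equiv.subtypeEquivRight h) ?_)
  intro g g'
  exact Iff.rfl

end Pool.Agent.APG
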