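import Pool.Agent.APG.FinB

/-!
# The final form of Theorem B
-/

set_option autoImplicit false

namespace Pool.Agent.APG

namespace B

/-- the number of isomorphism classes depends only on the groups on `Fin N` -/
lemma numIso_congr {N : ℕ} {Q Q' : (P : Type) → [Group P] → Prop}
    (h : ∀ g : Group (Fin N), @Q (Fin N) g ↔ @Q' (Fin N) g) : numIso N Q = numIso N Q' := by
  refine Nat.card_congr (Quotient.congr (Equiv.subtypeEquivRight h) ?_)
  intro g g'
  exact Iff.rfl

lemma commutator_le_iff (P : Type) [Group P] : commutator P ≤ Subgroup.center P ↔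
    ∀ x y z : P, x * y * x⁻¹ * y⁻¹ * z = z * (x * y * x⁻¹ * y⁻¹) := by
  rw [commutator_def, Subgroup.commutator_le]
  constructor
  · intro h x y z
    have h1 := h x (Subgroup.mem_top x) y (Subgroup.mem_top y)
    rw [Subgroup.mem_center_iff] at h1
    have h2 := h1 z
    rw [commutatorElement_def] at h2
    exact h2.symm
  · intro h x _ y _
    rw [Subgroup.mem_center_iff]
    intro z
    rw [commutatorElement_def]
    exact (h x y z).symm

end B

end Pool.Agent.APG
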